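import Pool.Agent.CP34.C4

/-! Module CE: regions joined by one edge. -/

open Finset Filter Topology

namespace Pool.Agent.CP34

section CE
variable {V : Type*} [DecidableEq V] {r : V → V → ℝ} {Q P R : Finset V} {q p : V} {l : ℝ}

/-- from `P` one can only leave through `p → q` -/
theorem cut_bound (hr : ∀ x y, 0 ≤ r x y) (h : CutEdge r Q P q p l) (hR : Q ∪ P = R)
    {F c : Finset V → ℝ} (h0 : F ∅ ≤ 0)
    (hsub : ∀ B ⊆ P, F (insert q B) ≤ F B + F {q})
    (hF : ∀ B ⊆ P, B ≠ ∅ → - c B ≤ gen R r F B) {B : Finset V} (hB : B ⊆ P) :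
    F B ≤ green P r 0 c B + l * green P r 0 (hit {p}) B * F {q} := by
  have hPR : P ⊆ R := by rw [← hR]; exact subset_union_right
  have hRP : R \ P = Q := by
    rw [← hR]
    ext x
    simp only [Finset.mem_sdiff, Finset.mem_union]
    constructor
    · rintro ⟨h1 | h1, h2⟩
      · exact h1
      · exact absurd h1 h2
    · intro hx
      exact ⟨Or.inl hx, fun hx2 => (Finset.disjoint_left.1 h.disj hx hx2)⟩
  have hkey := union_bound (R := P) (R' := R) (F := F) (c := c) hr hPR h0
    (fun A hA x hx y hy hxy => by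
      rw [hRP] at hy
      have : y = q := by
        by_contra hne
        exact hxy (h.zero' y hy x (hA hx) (fun hh => hne hh.1))
      rw [this]; exact hsub A hA) hF hB
  refine hkey.trans (le_of_eq ?_)
  congr 1
  rw [hRP, sum_eq_single_of_mem p h.hp, sum_eq_single_of_mem q h.hq]
  · rw [h.rpq]
  · intro y hy hne
    rw [h.zero' y hy p h.hp (fun hh => hne hh.1)]; ring
  · intro x hx hne
    refine sum_eq_zero fun y hy => ?_
    rw [h.zero' y hy x hx (fun hh => hne hh.2)]; ring

lemma CE_hit_zero {A B : Finset V} (h : Disjoint Q P) (hA : A ⊆ Q) (hB : B ⊆ P) :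
    hit A B = 0 := by
  unfold hit
  rw [if_neg]
  rw [not_nonempty_iff_eq_empty, ← disjoint_iff_inter_eq_empty]
  exact (h.mono hA hB).symm

lemma CE_hit_empty (B : Finset V) : hit B ∅ = 0 := by simp [hit]

lemma CE_hit_nonneg (B S : Finset V) : 0 ≤ hit B S := by unfold hit; split_ifs <;> norm_num

theorem cut_green_le (hr : ∀ x y, 0 ≤ r x y) (hs : ∀ x y, r x y = r y x)
    (h : CutEdge r Q P q p l) (hR : Q ∪ P = R) {A B : Finset V} (hA : A ⊆ Q) (hB : B ⊆ P) :
    green R r 0 (hit B) A ≤ l * green P r 0 (hit {p}) B * green R r 0 (hit {q}) A := by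
  have hPR : P ⊆ R := by rw [← hR]; exact subset_union_right
  have hQR : Q ⊆ R := by rw [← hR]; exact subset_union_left
  have hqR : ({q} : Finset V) ⊆ R := singleton_subset_iff.2 (hQR h.hq)
  rw [green_dual hr hs (hA.trans hQR) (hB.trans hPR), green_dual hr hs (hA.trans hQR) hqR]
  have hsubm : SubAddOn R (green R r 0 (hit A)) :=
    (green_subModOn hr (hit_monoOn A) (CE_hit_empty A) (hit_subModOn A)).subAddOn (green_empty _)
  have := cut_bound (F := green R r 0 (hit A)) (c := fun _ => 0) hr h hR (green_empty _).le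
    (fun B hB => by
      have h1 := hsubm B {q} (hB.trans hPR) hqR
      rwa [union_comm, ← insert_eq] at h1)
    (fun B hB hne => by
      rw [gen_green hr _ (hB.trans hPR) hne, CE_hit_zero h.disj hA hB]) hB
  have hz := green_zero (R := P) (κ := (0 : V → ℝ)) hr (fun _ => le_rfl) B
  rw [hz, zero_add] at this
  exact this

theorem cut_green_ge (hr : ∀ x y, 0 ≤ r x y) (hs : ∀ x y, r x y = r y x)
    (h : CutEdge r Q P q p l) (hR : Q ∪ P = R) {A B : Finset V} (hA : A ⊆ Q) (hB : B ⊆ P) :
    theta P r (pt p l) B * green R r 0 (hit {q}) A ≤ green R r 0 (hit B) A := by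
  have hPR : P ⊆ R := by rw [← hR]; exact subset_union_right
  have hQR : Q ⊆ R := by rw [← hR]; exact subset_union_left
  have hqR : ({q} : Finset V) ⊆ R := singleton_subset_iff.2 (hQR h.hq)
  rw [green_dual hr hs (hA.trans hQR) (hB.trans hPR), green_dual hr hs (hA.trans hQR) hqR]
  have hl : 0 ≤ l := by rw [← h.rpq]; exact hr _ _
  exact strong_markov (R := P) (R' := R) (F := green R r 0 (hit A)) hr hPR
    (green_monoOn hr (hit_monoOn A) (CE_hit_empty A).ge) (green_empty _).ge
    (fun B hB hne => by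
      rw [gen_green hr _ (hB.trans hPR) hne]
      linarith [CE_hit_nonneg A B])
    h.hp (hQR h.hq) (fun hqP => Finset.disjoint_left.1 h.disj h.hq hqP) hl h.rpq.ge hB

end CE

end Pool.Agent.CP34
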