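import Pool.Agent.CP34.C4

/-! Module TR: the spherically symmetric trees. -/

open Finset Filter Topology

namespace Pool.Agent.CP34

section TR
variable {l : ℝ} {p q : List ℕ}

lemma TR_all_cons {a d : ℕ} {β p : List ℕ} :
    (∀ (i : ℕ) (h : i < (a :: β).length) (h' : i < (d :: p).length), (a :: β)[i] < (d :: p)[i]) ↔
      a < d ∧ ∀ (i : ℕ) (h : i < β.length) (h' : i < p.length), β[i] < p[i] := by
  constructor
  · intro h
    refine ⟨h 0 (by simp) (by simp), fun i h1 h2 => ?_⟩
    have := h (i + 1) (by simpa using h1) (by simpa using h2)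
    simpa using this
  · rintro ⟨h0, h1⟩ i hi hi'
    cases i with
    | zero => simpa using h0
    | succ i => simpa using h1 i (by simpa using hi) (by simpa using hi')

lemma TR_cons_mem_Reg {a d : ℕ} {β p : List ℕ} : a :: β ∈ Reg (d :: p) ↔ a < d ∧ β ∈ Reg p := by
  simp [Reg]

lemma TR_nil_mem_Reg {d : ℕ} {p : List ℕ} : [] ∈ Reg (d :: p) := by simp [Reg]

lemma TR_cons_mem_Lev {a d : ℕ} {β p : List ℕ} : a :: β ∈ Lev (d :: p) ↔ a < d ∧ β ∈ Lev p := by
  simp [Lev]

lemma TR_nil_not_mem_Lev {d : ℕ} {p : List ℕ} : [] ∉ Lev (d :: p) := by simp [Lev]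

lemma TR_mem_Lev_nil {α : List ℕ} : α ∈ Lev [] ↔ α = [] := by simp [Lev]

theorem mem_Reg {α : List ℕ} : α ∈ Reg p ↔ α.length < p.length ∧
    ∀ (i : ℕ) (h : i < α.length) (h' : i < p.length), α[i] < p[i] := by
  induction p generalizing α with
  | nil => simp [Reg]
  | cons d p ih =>
    cases α with
    | nil => simp [TR_nil_mem_Reg]
    | cons a β =>
      rw [TR_cons_mem_Reg, TR_all_cons, ih]
      simp only [List.length_cons, Nat.add_lt_add_iff_right]
      tauto

theorem mem_Lev {α : List ℕ} : α ∈ Lev p ↔ α.length = p.length ∧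
    ∀ (i : ℕ) (h : i < α.length) (h' : i < p.length), α[i] < p[i] := by
  induction p generalizing α with
  | nil => simp [TR_mem_Lev_nil]
  | cons d p ih =>
    cases α with
    | nil => simp [TR_nil_not_mem_Lev]
    | cons a β =>
      rw [TR_cons_mem_Lev, TR_all_cons, ih]
      simp only [List.length_cons, Nat.add_right_cancel_iff]
      tauto

theorem Reg_append : Reg (p ++ q) =
    Reg p ∪ (Lev p).biUnion fun α => (Reg q).image fun γ => α ++ γ := by
  induction p with
  | nil =>
    ext γ
    simp [Reg, Lev]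
  | cons d p ih =>
    ext γ
    cases γ with
    | nil => simp [TR_nil_mem_Reg]
    | cons a γ =>
      rw [List.cons_append, TR_cons_mem_Reg, ih, Finset.mem_union, Finset.mem_union,
        TR_cons_mem_Reg]
      simp only [mem_biUnion, Finset.mem_image]
      constructor
      · rintro ⟨h1, h2 | ⟨α, hα, β, hβ, rfl⟩⟩
        · exact Or.inl ⟨h1, h2⟩
        · exact Or.inr ⟨a :: α, TR_cons_mem_Lev.2 ⟨h1, hα⟩, β, hβ, rfl⟩
      · rintro (⟨h1, h2⟩ | ⟨α, hα, β, hβ, h⟩)
        · exact ⟨h1, Or.inl h2⟩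
        · cases α with
          | nil => exact absurd hα TR_nil_not_mem_Lev
          | cons b α =>
            rw [List.cons_append, List.cons.injEq] at h
            obtain ⟨rfl, rfl⟩ := h
            obtain ⟨h1, h2⟩ := TR_cons_mem_Lev.1 hα
            exact ⟨h1, Or.inr ⟨α, h2, β, hβ, rfl⟩⟩

theorem Lev_append : Lev (p ++ q) = (Lev p).biUnion fun α => (Lev q).image fun γ => α ++ γ := by
  induction p with
  | nil =>
    ext γ
    simp [Lev]
  | cons d p ih =>
    ext γ
    cases γ with
    | nil =>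
      rw [List.cons_append]
      constructor
      · intro h; exact absurd h TR_nil_not_mem_Lev
      · intro h
        obtain ⟨α, hα, h⟩ := mem_biUnion.1 h
        obtain ⟨β, _, h⟩ := Finset.mem_image.1 h
        rw [List.append_eq_nil_iff] at h
        rw [h.1] at hα
        exact absurd hα TR_nil_not_mem_Lev
    | cons a γ =>
      rw [List.cons_append, TR_cons_mem_Lev, ih]
      simp only [mem_biUnion, Finset.mem_image]
      constructor
      · rintro ⟨h1, ⟨α, hα, β, hβ, rfl⟩⟩
        exact ⟨a :: α, TR_cons_mem_Lev.2 ⟨h1, hα⟩, β, hβ, rfl⟩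
      · rintro ⟨α, hα, β, hβ, h⟩
        cases α with
        | nil => exact absurd hα TR_nil_not_mem_Lev
        | cons b α =>
          rw [List.cons_append, List.cons.injEq] at h
          obtain ⟨rfl, rfl⟩ := h
          obtain ⟨h1, h2⟩ := TR_cons_mem_Lev.1 hα
          exact ⟨h1, ⟨α, h2, β, hβ, rfl⟩⟩

theorem card_Lev : (Lev p).card = p.prod := by
  induction p with
  | nil => simp [Lev]
  | cons d p ih =>
    unfold Lev
    rw [card_biUnion]
    · have : ∀ a ∈ range d, ((Lev p).image fun α => a :: α).card = p.prod := fun a _ => by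
        rw [card_image_of_injective _ (fun x y h => (List.cons.inj h).2), ih]
      rw [sum_congr rfl this, sum_const, card_range, List.prod_cons, smul_eq_mul]
    · intro a _ b _ hab
      rw [Function.onFun, Finset.disjoint_left]
      intro x hx hy
      obtain ⟨α, _, rfl⟩ := Finset.mem_image.1 hx
      obtain ⟨β, _, h⟩ := Finset.mem_image.1 hy
      exact hab (List.cons.inj h).1.symm

theorem tr_nonneg (hl : 0 ≤ l) (α β : List ℕ) : 0 ≤ tr l α β := by
  unfold tr; split_ifs
  · exact hl
  · exact le_rfl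

theorem tr_symm (α β : List ℕ) : tr l α β = tr l β α := by
  unfold tr
  exact if_congr or_comm rfl rfl

lemma TR_child_append (α β γ : List ℕ) :
    (α ++ γ ≠ [] ∧ (α ++ γ).dropLast = α ++ β) ↔ (γ ≠ [] ∧ γ.dropLast = β) := by
  constructor
  · rintro ⟨h1, h2⟩
    by_cases hγ : γ = []
    · exfalso
      subst hγ
      rw [List.append_nil] at h1 h2
      have h3 := congrArg List.length h2
      rw [List.length_dropLast, List.length_append] at h3
      have h4 := List.length_pos_iff.2 h1
      omega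
    · rw [List.dropLast_append_of_ne_nil hγ] at h2
      exact ⟨hγ, List.append_cancel_left h2⟩
  · rintro ⟨h1, h2⟩
    refine ⟨by simp [h1], ?_⟩
    rw [List.dropLast_append_of_ne_nil h1, h2]

theorem tr_append (α β γ : List ℕ) : tr l (α ++ β) (α ++ γ) = tr l β γ := by
  unfold tr
  refine if_congr ?_ rfl rfl
  rw [TR_child_append, TR_child_append]

/-- shifted copies of regions -/
theorem green_shift (hl : 0 ≤ l) (f : Finset (List ℕ) → ℝ) (α : List ℕ) {A : Finset (List ℕ)}
    (hA : A ⊆ Reg q) :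
    green ((Reg q).image fun γ => α ++ γ) (tr l) 0 f (A.image fun γ => α ++ γ) =
      green (Reg q) (tr l) 0 (fun S => f (S.image fun γ => α ++ γ)) A :=
  green_image (tr_nonneg hl) (tr_nonneg hl) (fun _ => le_rfl) (fun _ => le_rfl)
    (fun _ _ _ _ h => List.append_cancel_left h) (fun x _ y _ => tr_append α x y)
    (fun _ _ => rfl) (fun _ _ => rfl) hA

theorem theta_shift (hl : 0 ≤ l) (w α : List ℕ) {A : Finset (List ℕ)}
    (hA : A ⊆ Reg q) :
    theta ((Reg q).image fun γ => α ++ γ) (tr l) (pt (α ++ w) l) (A.image fun γ => α ++ γ) =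
      theta (Reg q) (tr l) (pt w l) A := by
  have hpt : ∀ (v x : List ℕ), 0 ≤ pt v l x := fun v x => by
    unfold pt; split_ifs
    · exact hl
    · exact le_rfl
  refine theta_image (tr_nonneg hl) (tr_nonneg hl) (hpt _) (hpt _)
    (fun _ _ _ _ h => List.append_cancel_left h) (fun x _ y _ => tr_append α x y)
    (fun x _ => ?_) hA
  unfold pt
  exact if_congr ⟨fun h => List.append_cancel_left h, fun h => by rw [h]⟩ rfl rfl

lemma TR_dropLast_mem {x : List ℕ} (hx : x ∈ Reg p) : x.dropLast ∈ Reg p := by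
  rw [mem_Reg] at hx ⊢
  refine ⟨lt_of_le_of_lt (by rw [List.length_dropLast]; omega) hx.1, fun i h h' => ?_⟩
  rw [List.getElem_dropLast]
  exact hx.2 i (by rw [List.length_dropLast] at h; omega) h'

lemma TR_dropLast_Lev {x : List ℕ} (hx : x ∈ Lev p) (hp : p ≠ []) : x.dropLast ∈ Reg p := by
  rw [mem_Lev] at hx
  rw [mem_Reg]
  have h1 := List.length_pos_iff.2 hp
  refine ⟨by rw [List.length_dropLast]; omega, fun i h h' => ?_⟩
  rw [List.getElem_dropLast]
  exact hx.2 i (by rw [List.length_dropLast] at h; omega) h'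

lemma TR_Reg_sub (o q : List ℕ) : Reg o ⊆ Reg (o ++ q) := by
  rw [Reg_append]; exact subset_union_left

lemma TR_nil_mem (hq : q ≠ []) : [] ∈ Reg q := by
  cases q with
  | nil => exact absurd rfl hq
  | cons d q => exact TR_nil_mem_Reg

/-- classification of the exits -/
lemma TR_exit {o p q β x y : List ℕ} (hβ : β ∈ Lev o) (hx : x ∈ Reg p)
    (hy : y ∈ Reg (o ++ p ++ q)) (hyR : y ∉ (Reg p).image fun γ => β ++ γ)
    (hxy : tr l (β ++ x) y ≠ 0) :
    (x = [] ∧ β ≠ [] ∧ y = β.dropLast) ∨ (∃ α ∈ Lev p, q ≠ [] ∧ y = β ++ α ∧ x = α.dropLast) := by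
  have hβl := (mem_Lev.1 hβ).1
  unfold tr at hxy
  rw [ite_ne_right_iff] at hxy
  rcases hxy.1 with ⟨h1, h2⟩ | ⟨h1, h2⟩
  · right
    -- `y = (β ++ x) ++ [b]`
    obtain ⟨b, hb⟩ : ∃ b, y = β ++ (x ++ [b]) :=
      ⟨y.getLast h1, by rw [← List.append_assoc, ← h2, List.dropLast_append_getLast]⟩
    rw [List.append_assoc, Reg_append, Finset.mem_union] at hy
    have hlen : y.length = β.length + (x.length + 1) := by rw [hb]; simp
    rcases hy with hy | hy
    · have := (mem_Reg.1 hy).1
      omega
    · obtain ⟨β', hβ', hy⟩ := mem_biUnion.1 hy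
      obtain ⟨γ, hγ, hy⟩ := Finset.mem_image.1 hy
      have hl' := (mem_Lev.1 hβ').1
      rw [hb] at hy
      obtain ⟨e1, e2⟩ := List.append_inj hy (by omega)
      rw [e2] at hγ
      rw [Reg_append, Finset.mem_union] at hγ
      rcases hγ with hγ | hγ
      · exact absurd (Finset.mem_image.2 ⟨_, hγ, hb.symm⟩) hyR
      · obtain ⟨α, hα, hγ⟩ := mem_biUnion.1 hγ
        obtain ⟨δ, hδ, hγ⟩ := Finset.mem_image.1 hγ
        have h3 := (mem_Lev.1 hα).1
        have h4 := (mem_Reg.1 hx).1
        have h5 := congrArg List.length hγ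
        rw [List.length_append, List.length_append, List.length_singleton] at h5
        have h6 : δ = [] := List.length_eq_zero_iff.1 (by omega)
        subst h6
        rw [List.append_nil] at hγ
        refine ⟨α, hα, ?_, by rw [hb, hγ], by rw [hγ, List.dropLast_concat]⟩
        rintro rfl
        simp [Reg] at hδ
  · left
    by_cases hx0 : x = []
    · subst hx0
      rw [List.append_nil] at h1 h2
      exact ⟨rfl, h1, h2.symm⟩
    · exfalso
      rw [List.dropLast_append_of_ne_nil hx0] at h2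
      exact hyR (Finset.mem_image.2 ⟨_, TR_dropLast_mem hx, h2⟩)

lemma TR_tr_child {x : List ℕ} (hx : x ≠ []) : tr l x.dropLast x = l := by
  unfold tr; rw [if_pos (Or.inl ⟨hx, rfl⟩)]

lemma TR_tr_parent {x : List ℕ} (hx : x ≠ []) : tr l x x.dropLast = l := by
  rw [tr_symm]; exact TR_tr_child hx

/-- the sum over the exits -/
lemma TR_exit_sum {o p q β : List ℕ} (hp : p ≠ []) (hβ : β ∈ Lev o)
    (g : List ℕ → List ℕ → ℝ) :
    ∑ x ∈ (Reg p).image (fun γ => β ++ γ),
      ∑ y ∈ Reg (o ++ p ++ q) \ (Reg p).image (fun γ => β ++ γ), tr l x y * g x y =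
      (if o = [] then 0 else l * g β β.dropLast) +
        (if q = [] then 0 else ∑ α ∈ Lev p, l * g (β ++ α.dropLast) (β ++ α)) := by
  classical
  have hβl := (mem_Lev.1 hβ).1
  obtain ⟨R, hR⟩ : ∃ R, R = (Reg p).image (fun γ => β ++ γ) := ⟨_, rfl⟩
  rw [← hR]
  obtain ⟨T1, hT1⟩ : ∃ T : Finset (List ℕ), T = if o = [] then ∅ else {β.dropLast} := ⟨_, rfl⟩
  obtain ⟨T2, hT2⟩ : ∃ T : Finset (List ℕ),
    T = if q = [] then ∅ else (Lev p).image (fun α => β ++ α) := ⟨_, rfl⟩
  have hRlen : ∀ x ∈ R, β.length ≤ x.length ∧ x.length < β.length + p.length := by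
    intro x hx
    rw [hR] at hx
    obtain ⟨γ, hγ, rfl⟩ := Finset.mem_image.1 hx
    have := (mem_Reg.1 hγ).1
    rw [List.length_append]
    omega
  have hT2len : ∀ x ∈ T2, x.length = β.length + p.length := by
    intro x hx
    rw [hT2] at hx
    split_ifs at hx with h
    · simp at hx
    · obtain ⟨α, hα, rfl⟩ := Finset.mem_image.1 hx
      rw [List.length_append, (mem_Lev.1 hα).1]
  have hT1len : ∀ x ∈ T1, x = β.dropLast ∧ x.length < β.length ∧ o ≠ [] := by
    intro x hx
    rw [hT1] at hx
    split_ifs at hx with h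
    · simp at hx
    · rw [Finset.mem_singleton] at hx
      subst hx
      have := List.length_pos_iff.2 h
      exact ⟨rfl, by rw [List.length_dropLast]; omega, h⟩
  have hppos := List.length_pos_iff.2 hp
  have hdisj : Disjoint T1 T2 := by
    rw [Finset.disjoint_left]
    intro x h1 h2
    have := (hT1len x h1).2.1
    have := hT2len x h2
    omega
  have hsub : T1 ∪ T2 ⊆ Reg (o ++ p ++ q) \ R := by
    intro y hy
    rw [Finset.mem_sdiff]
    rcases Finset.mem_union.1 hy with h | h
    · obtain ⟨h1, h2, h3⟩ := hT1len y h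
      refine ⟨?_, fun h4 => ?_⟩
      · rw [h1, List.append_assoc]
        exact TR_Reg_sub o (p ++ q) (TR_dropLast_Lev hβ h3)
      · have := (hRlen y h4).1; omega
    · have hlen := hT2len y h
      refine ⟨?_, fun h4 => ?_⟩
      · rw [hT2] at h
        split_ifs at h with h5
        · simp at h
        · obtain ⟨α, hα, rfl⟩ := Finset.mem_image.1 h
          rw [Reg_append]
          refine Finset.mem_union_right _ (mem_biUnion.2 ⟨β ++ α, ?_,
            Finset.mem_image.2 ⟨[], TR_nil_mem h5, List.append_nil _⟩⟩)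
          rw [Lev_append]
          exact mem_biUnion.2 ⟨β, hβ, Finset.mem_image.2 ⟨α, hα, rfl⟩⟩
      · have := (hRlen y h4).2; omega
  rw [Finset.sum_comm]
  have hzero : ∀ y ∈ Reg (o ++ p ++ q) \ R, y ∉ T1 ∪ T2 → ∑ x ∈ R, tr l x y * g x y = 0 := by
    intro y hy hyT
    rw [Finset.mem_sdiff] at hy
    refine sum_eq_zero fun x hx => ?_
    rw [hR] at hx
    obtain ⟨γ, hγ, rfl⟩ := Finset.mem_image.1 hx
    by_cases h0 : tr l (β ++ γ) y = 0
    · rw [h0, zero_mul]
    · exfalso
      rcases TR_exit hβ hγ hy.1 (by rw [← hR]; exact hy.2) h0 with ⟨_, h2, h3⟩ | ⟨α, hα, h2, h3, _⟩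
      · apply hyT
        apply Finset.mem_union_left
        rw [hT1, if_neg, h3]
        · exact Finset.mem_singleton_self _
        · rintro rfl
          exact h2 (List.length_eq_zero_iff.1 hβl)
      · apply hyT
        apply Finset.mem_union_right
        rw [hT2, if_neg h2, h3]
        exact Finset.mem_image.2 ⟨α, hα, rfl⟩
  rw [← Finset.sum_subset hsub hzero, Finset.sum_union hdisj]
  congr 1
  · rw [hT1]
    split_ifs with h
    · simp
    · rw [Finset.sum_singleton]
      have hβ0 : β ≠ [] := by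
        rintro rfl
        exact h (List.length_eq_zero_iff.1 hβl.symm)
      have hβR : β ∈ R := by
        rw [hR]; exact Finset.mem_image.2 ⟨[], TR_nil_mem hp, List.append_nil _⟩
      rw [Finset.sum_eq_single_of_mem β hβR, TR_tr_parent hβ0]
      intro x hx hne
      rw [hR] at hx
      obtain ⟨γ, hγ, rfl⟩ := Finset.mem_image.1 hx
      by_cases h0 : tr l (β ++ γ) β.dropLast = 0
      · rw [h0, zero_mul]
      · exfalso
        have hT : β.dropLast ∈ T1 := by rw [hT1, if_neg h]; exact Finset.mem_singleton_self _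
        have hy := hsub (Finset.mem_union_left _ hT)
        rw [Finset.mem_sdiff] at hy
        rcases TR_exit hβ hγ hy.1 (by rw [← hR]; exact hy.2) h0 with ⟨h1, _, _⟩ | ⟨α, hα, _, h3, _⟩
        · apply hne; rw [h1, List.append_nil]
        · have h4 := congrArg List.length h3
          rw [List.length_dropLast, List.length_append] at h4
          have := List.length_pos_iff.2 hβ0
          omega
  · rw [hT2]
    split_ifs with h
    · simp
    · rw [Finset.sum_image (fun x _ y _ hxy => List.append_cancel_left hxy)]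
      refine Finset.sum_congr rfl fun α hα => ?_
      have hα0 : α ≠ [] := by
        rintro rfl
        have := (mem_Lev.1 hα).1
        rw [List.length_nil] at this
        omega
      have hmem : β ++ α.dropLast ∈ R := by
        rw [hR]; exact Finset.mem_image.2 ⟨_, TR_dropLast_Lev hα hp, rfl⟩
      rw [Finset.sum_eq_single_of_mem _ hmem, tr_append, TR_tr_child hα0]
      intro x hx hne
      rw [hR] at hx
      obtain ⟨γ, hγ, rfl⟩ := Finset.mem_image.1 hx
      by_cases h0 : tr l (β ++ γ) (β ++ α) = 0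
      · rw [h0, zero_mul]
      · exfalso
        have hT : β ++ α ∈ T2 := by rw [hT2, if_neg h]; exact Finset.mem_image.2 ⟨α, hα, rfl⟩
        have hy := hsub (Finset.mem_union_right _ hT)
        rw [Finset.mem_sdiff] at hy
        rcases TR_exit hβ hγ hy.1 (by rw [← hR]; exact hy.2) h0 with
          ⟨_, h2, h3⟩ | ⟨α', hα', _, h3, h4⟩
        · have h5 := congrArg List.length h3
          rw [List.length_dropLast, List.length_append] at h5
          have := List.length_pos_iff.2 h2
          omega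
        · have h5 : α = α' := List.append_cancel_left h3
          apply hne
          rw [h4, h5]

lemma TR_hit_image (β γ : List ℕ) (S : Finset (List ℕ)) :
    hit {β ++ γ} (S.image fun γ => β ++ γ) = hit {γ} S := by
  unfold hit
  refine if_congr ?_ rfl rfl
  constructor
  · rintro ⟨x, hx⟩
    rw [Finset.mem_inter, Finset.mem_singleton] at hx
    obtain ⟨h1, rfl⟩ := hx
    obtain ⟨y, hy, h2⟩ := Finset.mem_image.1 h1
    have := List.append_cancel_left h2
    subst this
    exact ⟨y, by simp [hy]⟩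
  · rintro ⟨x, hx⟩
    rw [Finset.mem_inter, Finset.mem_singleton] at hx
    obtain ⟨h1, rfl⟩ := hx
    exact ⟨β ++ x, by rw [Finset.mem_inter, Finset.mem_singleton]; exact
      ⟨Finset.mem_image.2 ⟨x, h1, rfl⟩, rfl⟩⟩

/-- union bound for a copy of `Reg p` inside `Reg (o ++ p ++ q)` -/
lemma TR_general {o p q : List ℕ} (hl : 0 ≤ l) (hp : p ≠ [])
    {F c : Finset (List ℕ) → ℝ} (h0 : F ∅ ≤ 0) (hsub : SubAddOn (Reg (o ++ p ++ q)) F)
    {β : List ℕ} (hβ : β ∈ Lev o)
    (hF : ∀ B ⊆ (Reg p).image (fun γ => β ++ γ), B ≠ ∅ →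
      - c B ≤ gen (Reg (o ++ p ++ q)) (tr l) F B)
    {A : Finset (List ℕ)} (hA : A ⊆ Reg p) :
    F (A.image fun γ => β ++ γ) ≤
      green (Reg p) (tr l) 0 (fun S => c (S.image fun γ => β ++ γ)) A +
      ((if o = [] then 0 else l * (green (Reg p) (tr l) 0 (hit {[]}) A * F {β.dropLast})) +
        (if q = [] then 0 else
          ∑ α ∈ Lev p, l * (green (Reg p) (tr l) 0 (hit {α.dropLast}) A * F {β ++ α}))) := by
  have hR : (Reg p).image (fun γ => β ++ γ) ⊆ Reg (o ++ p ++ q) := by
    intro x hx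
    obtain ⟨γ, hγ, rfl⟩ := Finset.mem_image.1 hx
    rw [List.append_assoc, Reg_append]
    exact Finset.mem_union_right _ (mem_biUnion.2 ⟨β, hβ, Finset.mem_image.2
      ⟨γ, TR_Reg_sub p q hγ, rfl⟩⟩)
  have key := union_bound (R := (Reg p).image fun γ => β ++ γ) (R' := Reg (o ++ p ++ q))
    (F := F) (c := c) (tr_nonneg hl) hR h0
    (fun S hS x _ y hy _ => by
      have := hsub S {y} (hS.trans hR) (Finset.singleton_subset_iff.2 (Finset.mem_sdiff.1 hy).1)
      rwa [Finset.union_comm, ← Finset.insert_eq] at this)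
    hF (A := A.image fun γ => β ++ γ) (Finset.image_subset_image hA)
  refine key.trans (le_of_eq ?_)
  rw [green_shift hl c β hA]
  congr 1
  have h2 := TR_exit_sum (l := l) (o := o) (q := q) hp hβ
    (fun x y => green ((Reg p).image fun γ => β ++ γ) (tr l) 0 (hit {x})
      (A.image fun γ => β ++ γ) * F {y})
  have h3 : ∀ γ : List ℕ, green ((Reg p).image fun γ => β ++ γ) (tr l) 0 (hit {β ++ γ})
      (A.image fun γ => β ++ γ) = green (Reg p) (tr l) 0 (hit {γ}) A := by
    intro γ
    rw [green_shift hl _ β hA]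
    exact green_congr (tr_nonneg hl) (fun _ => le_rfl) (fun S _ _ => TR_hit_image β γ S) A
  have h4 := h3 []
  rw [List.append_nil] at h4
  rw [h4] at h2
  simp only [h3] at h2
  rw [← h2]
  exact Finset.sum_congr rfl fun x _ => Finset.sum_congr rfl fun y _ => by ring

/-- from the copy `α ++ Reg q` one can only leave through its top -/
theorem tree_up (hl : 0 ≤ l) (hp : p ≠ []) {F c : Finset (List ℕ) → ℝ} (h0 : F ∅ ≤ 0)
    (hsub : SubAddOn (Reg (p ++ q)) F)
    {α : List ℕ} (hα : α ∈ Lev p)
    (hF : ∀ B ⊆ (Reg q).image (fun γ => α ++ γ), B ≠ ∅ → - c B ≤ gen (Reg (p ++ q)) (tr l) F B)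
    {A : Finset (List ℕ)} (hA : A ⊆ Reg q) :
    F (A.image fun γ => α ++ γ) ≤
      green (Reg q) (tr l) 0 (fun S => c (S.image fun γ => α ++ γ)) A +
        l * green (Reg q) (tr l) 0 (hit {[]}) A * F {α.dropLast} := by
  by_cases hq : q = []
  · subst hq
    have hA0 : A = ∅ := by
      rw [Reg, Finset.subset_empty] at hA; exact hA
    subst hA0
    simpa using h0
  · have key := TR_general (o := p) (p := q) (q := []) hl hq h0
      (by rw [List.append_nil]; exact hsub) hα (by rw [List.append_nil]; exact hF) hA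
    rw [if_neg hp, if_pos rfl, add_zero, ← mul_assoc] at key
    exact key

/-- from `Reg p` one can only leave through the edges to level `p.length` -/
theorem tree_down (hl : 0 ≤ l) (hp : p ≠ []) (hq : q ≠ []) {F c : Finset (List ℕ) → ℝ}
    (h0 : F ∅ ≤ 0) (hsub : SubAddOn (Reg (p ++ q)) F)
    (hF : ∀ B ⊆ Reg p, B ≠ ∅ → - c B ≤ gen (Reg (p ++ q)) (tr l) F B)
    {A : Finset (List ℕ)} (hA : A ⊆ Reg p) :
    F A ≤ green (Reg p) (tr l) 0 c A +
      ∑ α ∈ Lev p, l * green (Reg p) (tr l) 0 (hit {α.dropLast}) A * F {α} := by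
  have himg : ∀ S : Finset (List ℕ), (S.image fun γ => [] ++ γ) = S := fun S => by
    simp
  have key := TR_general (o := []) (p := p) (q := q) (β := []) (F := F) (c := c) hl hp h0
    (by rw [List.nil_append]; exact hsub) (by simp [Lev])
    (by rw [List.nil_append, himg]; exact hF) hA
  simp only [himg] at key
  rw [if_pos trivial, if_neg hq, zero_add] at key
  refine key.trans (le_of_eq ?_)
  congr 1
  exact Finset.sum_congr rfl fun α _ => by rw [List.nil_append]; ring

/-- the region `Reg p` below the top link vertex `β`, inside a bigger tree: exits at the top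
(towards `β.dropLast`) and at the bottom (towards level `p.length` below `β`). -/
theorem tree_both {o : List ℕ} (hl : 0 ≤ l) (ho : o ≠ []) (hp : p ≠ []) (hq : q ≠ [])
    {F : Finset (List ℕ) → ℝ}
    (h0 : F ∅ ≤ 0) (hsub : SubAddOn (Reg (o ++ p ++ q)) F) {β : List ℕ} (hβ : β ∈ Lev o)
    (hF : ∀ B ⊆ (Reg p).image (fun γ => β ++ γ), B ≠ ∅ → 0 ≤ gen (Reg (o ++ p ++ q)) (tr l) F B)
    {A : Finset (List ℕ)} (hA : A ⊆ Reg p) :
    F (A.image fun γ => β ++ γ) ≤ l * green (Reg p) (tr l) 0 (hit {[]}) A * F {β.dropLast} +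
      ∑ α ∈ Lev p, l * green (Reg p) (tr l) 0 (hit {α.dropLast}) A * F {β ++ α} := by
  have key := TR_general (c := fun _ => 0) hl hp h0 hsub hβ
    (fun B hB hne => by rw [neg_zero]; exact hF B hB hne) hA
  have hz := green_zero (R := Reg p) (r := tr l) (κ := (0 : List ℕ → ℝ)) (tr_nonneg hl)
    (fun _ => le_rfl) A
  rw [hz, zero_add, if_neg ho, if_neg hq, ← mul_assoc] at key
  refine key.trans (le_of_eq ?_)
  congr 1
  exact Finset.sum_congr rfl fun α _ => by ring

end TR

end Pool.Agent.CP34
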