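import Pool.Agent.CP34.P
import Pool.Agent.CP34.CE
import Pool.Agent.CP34.TR

/-!
# Module AL: links in tree regions
-/

open Finset Filter Topology
open List (replicate)

namespace Pool.Agent.CP34

variable {l χ : ℝ} {p q : List ℕ} {a b : ℕ}

/-! ### auxiliary facts -/

lemma AL_Reg_one (b : ℕ) : Reg (replicate b 1) = (range b).image fun t => replicate t 0 := by
  ext α
  rw [mem_Reg, Finset.mem_image]
  constructor
  · rintro ⟨h1, h2⟩
    have h1' : α.length < b := by rwa [List.length_replicate] at h1
    refine ⟨α.length, mem_range.2 h1', ?_⟩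
    symm
    rw [List.eq_replicate_iff]
    refine ⟨rfl, fun x hx => ?_⟩
    obtain ⟨i, hi, rfl⟩ := List.getElem_of_mem hx
    have := h2 i hi (by rw [List.length_replicate]; omega)
    rw [List.getElem_replicate] at this
    omega
  · rintro ⟨t, ht, rfl⟩
    rw [mem_range] at ht
    refine ⟨by simpa using ht, fun i h h' => ?_⟩
    rw [List.getElem_replicate, List.getElem_replicate]
    exact Nat.zero_lt_one

lemma AL_Lev_one (b : ℕ) : Lev (replicate b 1) = {replicate b 0} := by
  ext α
  rw [mem_Lev, Finset.mem_singleton]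
  constructor
  · rintro ⟨h1, h2⟩
    rw [List.eq_replicate_iff]
    refine ⟨by rwa [List.length_replicate] at h1, fun x hx => ?_⟩
    obtain ⟨i, hi, rfl⟩ := List.getElem_of_mem hx
    have := h2 i hi (by omega)
    rw [List.getElem_replicate] at this
    omega
  · rintro rfl
    refine ⟨by simp, fun i h h' => ?_⟩
    rw [List.getElem_replicate, List.getElem_replicate]
    exact Nat.zero_lt_one

lemma AL_copy_one (w : List ℕ) (b : ℕ) :
    (Reg (replicate b 1)).image (fun γ => w ++ γ) =
      (range b).image fun t => w ++ replicate t 0 := by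
  rw [AL_Reg_one, image_image]; rfl

lemma AL_ne (hp : p ≠ []) {w : List ℕ} (hw : w ∈ Lev p) : w ≠ [] := by
  rintro rfl
  have := (mem_Lev.1 hw).1
  have := List.length_pos_iff.2 hp
  simp at *
  omega

lemma AL_rep_ne (hb : 1 ≤ b) (c : ℕ) : replicate b c ≠ [] := by
  rw [Ne, List.replicate_eq_nil_iff]; omega

lemma CutEdge.swap {V : Type*} [DecidableEq V] {r : V → V → ℝ} {Q P : Finset V} {q p : V} {l : ℝ}
    (h : CutEdge r Q P q p l) : CutEdge r P Q p q l where
  disj := h.disj.symm
  hq := h.hp
  hp := h.hq
  rqp := h.rpq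
  rpq := h.rqp
  zero := fun x hx y hy hne => h.zero' y hy x hx fun h' => hne ⟨h'.2, h'.1⟩
  zero' := fun x hx y hy hne => h.zero y hy x hx fun h' => hne ⟨h'.2, h'.1⟩

lemma AL_copy_sub {w : List ℕ} (hw : w ∈ Lev p) :
    (Reg q).image (fun γ => w ++ γ) ⊆ Reg (p ++ q) := by
  rw [Reg_append]
  exact (subset_biUnion_of_mem (fun α => (Reg q).image fun γ => α ++ γ) hw).trans
    subset_union_right

lemma AL_Reg_sub_diff {w : List ℕ} (hw : w ∈ Lev p) :
    Reg p ⊆ Reg (p ++ q) \ (Reg q).image fun γ => w ++ γ := by
  intro x hx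
  rw [Finset.mem_sdiff]
  refine ⟨TR_Reg_sub _ _ hx, fun h => ?_⟩
  obtain ⟨γ, _, rfl⟩ := Finset.mem_image.1 h
  have h1 := (mem_Reg.1 hx).1
  have h2 := (mem_Lev.1 hw).1
  rw [List.length_append] at h1
  omega

/-- same for a general bottom part `q ≠ []` -/
theorem sub_cut (hp : p ≠ []) (hq : q ≠ []) {w : List ℕ} (hw : w ∈ Lev p) :
    CutEdge (tr l) (Reg (p ++ q) \ (Reg q).image fun γ => w ++ γ)
      ((Reg q).image fun γ => w ++ γ) w.dropLast w l := by
  have hwne := AL_ne hp hw
  have key : ∀ x ∈ Reg (p ++ q) \ (Reg q).image (fun γ => w ++ γ),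
      ∀ y ∈ (Reg q).image (fun γ => w ++ γ), ¬ (x = w.dropLast ∧ y = w) → tr l y x = 0 := by
    intro x hx y hy hne
    by_contra hcon
    rw [Finset.mem_sdiff] at hx
    obtain ⟨γ, hγ, rfl⟩ := Finset.mem_image.1 hy
    rcases TR_exit (o := p) (p := q) (q := []) hw hγ (by rw [List.append_nil]; exact hx.1)
      hx.2 hcon with ⟨h1, _, h3⟩ | ⟨_, _, h2, _⟩
    · exact hne ⟨h3, by rw [h1, List.append_nil]⟩
    · exact h2 rfl
  exact {
    disj := sdiff_disjoint
    hq := AL_Reg_sub_diff hw (TR_dropLast_Lev hw hp)
    hp := Finset.mem_image.2 ⟨[], TR_nil_mem hq, List.append_nil _⟩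
    rqp := TR_tr_child hwne
    rpq := TR_tr_parent hwne
    zero := fun x hx y hy hne => by rw [tr_symm]; exact key x hx y hy hne
    zero' := fun x hx y hy hne => key x hx y hy hne }

/-- the link below `w ∈ Lev p` in `Reg (p ++ replicate b 1)` is attached by one edge -/
theorem al_cut (hp : p ≠ []) (hb : 1 ≤ b) {w : List ℕ} (hw : w ∈ Lev p) :
    CutEdge (tr l) (Reg (p ++ replicate b 1) \ (range b).image fun t => w ++ replicate t 0)
      ((range b).image fun t => w ++ replicate t 0) w.dropLast w l := by
  have h := sub_cut (l := l) hp (AL_rep_ne hb 1) hw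
  rwa [AL_copy_one] at h

lemma AL_drop_rep (a : ℕ) : (replicate a 0 : List ℕ).dropLast = replicate (a - 1) 0 := by
  rw [List.dropLast_replicate]

lemma AL_ul_union (a : ℕ) (q : List ℕ) :
    (Reg q).image (fun γ => replicate a 0 ++ γ) ∪ (range a).image (fun t => replicate t 0) =
      Reg (replicate a 1 ++ q) := by
  rw [Reg_append, AL_Lev_one, singleton_biUnion, AL_Reg_one, union_comm]

/-- the up-link -/
theorem ul_cut (ha : 1 ≤ a) (hq : q ≠ []) :
    CutEdge (tr l) ((Reg q).image fun γ => replicate a 0 ++ γ)
      ((range a).image fun t => replicate t 0) (replicate a 0) (replicate (a - 1) 0) l := by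
  have hw : replicate a 0 ∈ Lev (replicate a 1) := by rw [AL_Lev_one, mem_singleton]
  have h := (sub_cut (l := l) (AL_rep_ne ha 1) hq hw).swap
  have e : Reg (replicate a 1 ++ q) \ (Reg q).image (fun γ => replicate a 0 ++ γ) =
      (range a).image fun t => replicate t 0 := by
    have hd : Disjoint ((Reg q).image fun γ => replicate a 0 ++ γ)
        ((range a).image fun t => replicate t 0) := by
      have h2 := AL_Reg_sub_diff (p := replicate a 1) (q := q) hw
      rw [Finset.disjoint_left]
      intro x hx hx'
      rw [← AL_Reg_one] at hx'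
      exact (Finset.mem_sdiff.1 (h2 hx')).2 hx
    rw [← AL_ul_union, union_sdiff_cancel_left hd]
  rw [e, AL_drop_rep] at h
  exact h

lemma AL_tr_path (w : List ℕ) (s t : ℕ) :
    tr l (w ++ replicate s 0) (w ++ replicate t 0) = (l • nnN) s t := by
  rw [tr_append]
  show _ = l * nnN s t
  unfold tr nnN
  have e : ∀ s t : ℕ, ((replicate t 0 : List ℕ) ≠ [] ∧
      (replicate t 0 : List ℕ).dropLast = replicate s 0) ↔ s + 1 = t := by
    intro s t
    rw [AL_drop_rep, Ne, List.replicate_eq_nil_iff]
    constructor
    · rintro ⟨h1, h2⟩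
      have := congrArg List.length h2
      rw [List.length_replicate, List.length_replicate] at this
      omega
    · rintro rfl
      exact ⟨by omega, rfl⟩
  simp only [e]
  split_ifs <;> ring

lemma AL_path_inj (w : List ℕ) {s t : ℕ} (h : w ++ replicate s 0 = w ++ replicate t 0) :
    s = t := by
  have := congrArg List.length h
  simp only [List.length_append, List.length_replicate] at this
  omega

/-- relabelling of a link -/
lemma AL_green_path (hl : 0 ≤ l) (w : List ℕ) (b : ℕ) {f : Finset ℕ → ℝ}
    {f' : Finset (List ℕ) → ℝ}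
    (hff : ∀ A ⊆ range b, f' (A.image fun t => w ++ replicate t 0) = f A) {A : Finset ℕ}
    (hA : A ⊆ range b) :
    green ((range b).image fun t => w ++ replicate t 0) (tr l) 0 f'
      (A.image fun t => w ++ replicate t 0) = green (range b) (l • nnN) 0 f A :=
  green_image (P_r_nonneg hl) (tr_nonneg hl) (fun _ => le_rfl) (fun _ => le_rfl)
    (fun _ _ _ _ h => AL_path_inj w h) (fun x _ y _ => AL_tr_path w x y) (fun _ _ => rfl) hff hA

lemma AL_hit_image {V W : Type*} [DecidableEq V] [DecidableEq W] {φ : V → W} (hφ : ∀ x y,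
    φ x = φ y → x = y) (x : V) (A : Finset V) : hit {φ x} (A.image φ) = hit {x} A := by
  rw [P_hit_single, P_hit_single]
  refine if_congr ?_ rfl rfl
  rw [Finset.mem_image]
  exact ⟨fun ⟨y, hy, h⟩ => by rw [← hφ _ _ h]; exact hy, fun h => ⟨x, h, rfl⟩⟩

lemma AL_green_hit_path (hl : 0 ≤ l) (w : List ℕ) {b s t : ℕ} (ht : t < b) :
    green ((range b).image fun t => w ++ replicate t 0) (tr l) 0
      (hit {w ++ replicate s 0}) {w ++ replicate t 0} =
      green (range b) (l • nnN) 0 (hit {s}) {t} := by
  have h := AL_green_path hl w b (f := hit {s}) (f' := hit {w ++ replicate s 0})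
    (fun A _ => AL_hit_image (φ := fun t => w ++ replicate t 0)
      (fun _ _ h => AL_path_inj w h) s A) (A := {t}) (by simpa using ht)
  rwa [image_singleton] at h

lemma AL_green_card_path (hl : 0 ≤ l) (w : List ℕ) {b t : ℕ} (ht : t < b) :
    green ((range b).image fun t => w ++ replicate t 0) (tr l) 0 cardR {w ++ replicate t 0} =
      green (range b) (l • nnN) 0 cardR {t} := by
  have h := AL_green_path hl w b (f := cardR) (f' := cardR)
    (fun A _ => by
      unfold cardR
      rw [card_image_of_injective _ (fun _ _ h => AL_path_inj w h)])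
    (A := {t}) (by simpa using ht)
  rwa [image_singleton] at h

lemma AL_theta_path (hl : 0 ≤ l) (w : List ℕ) {b s t : ℕ} (ht : t < b) :
    theta ((range b).image fun t => w ++ replicate t 0) (tr l)
      (pt (w ++ replicate s 0) l) {w ++ replicate t 0} =
      theta (range b) (l • nnN) (pt s l) {t} := by
  have h := theta_image (R := range b) (φ := fun t => w ++ replicate t 0) (r := l • nnN)
    (r' := tr l) (κ := pt s l) (κ' := pt (w ++ replicate s 0) l)
    (P_r_nonneg hl) (tr_nonneg hl) (P_pt_nonneg hl) (P_pt_nonneg hl)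
    (fun _ _ _ _ h => AL_path_inj w h) (fun x _ y _ => AL_tr_path w x y)
    (fun x _ => by
      unfold pt
      exact if_congr ⟨fun h => AL_path_inj w h, fun h => by rw [h]⟩ rfl rfl)
    (A := {t}) (by simpa using ht)
  rwa [image_singleton] at h

lemma AL_diff_union {w : List ℕ} (hw : w ∈ Lev p) :
    (Reg (p ++ replicate b 1) \ (range b).image fun t => w ++ replicate t 0) ∪
      (range b).image (fun t => w ++ replicate t 0) = Reg (p ++ replicate b 1) := by
  rw [← AL_copy_one]
  exact sdiff_union_of_subset (AL_copy_sub hw)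

lemma AL_sub_diff {w : List ℕ} (hw : w ∈ Lev p) {A : Finset (List ℕ)} (hA : A ⊆ Reg p) :
    A ⊆ Reg (p ++ replicate b 1) \ (range b).image fun t => w ++ replicate t 0 := by
  rw [← AL_copy_one]
  exact hA.trans (AL_Reg_sub_diff hw)

theorem al_le (hl : 0 ≤ l) (hp : p ≠ []) (hb : 1 ≤ b) {w : List ℕ} (hw : w ∈ Lev p)
    {A : Finset (List ℕ)} (hA : A ⊆ Reg p) :
    green (Reg (p ++ replicate b 1)) (tr l) 0 (hit {w ++ replicate (b - 1) 0}) A ≤
      l * gP l b * green (Reg (p ++ replicate b 1)) (tr l) 0 (hit {w.dropLast}) A := by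
  have hB : ({w ++ replicate (b - 1) 0} : Finset (List ℕ)) ⊆
      (range b).image fun t => w ++ replicate t 0 := by
    rw [singleton_subset_iff]
    exact Finset.mem_image.2 ⟨b - 1, mem_range.2 (by omega), rfl⟩
  have h := cut_green_le (tr_nonneg hl) tr_symm (al_cut (l := l) hp hb hw) (AL_diff_union hw)
    (AL_sub_diff hw hA) hB
  have e := AL_green_hit_path hl w (b := b) (s := 0) (t := b - 1) (by omega)
  rw [List.replicate_zero, List.append_nil, gP_refl hl] at e
  rwa [e] at h

theorem al_ge (hl : 0 ≤ l) (hp : p ≠ []) (hb : 1 ≤ b) {w : List ℕ} (hw : w ∈ Lev p)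
    {A : Finset (List ℕ)} (hA : A ⊆ Reg p) :
    aP l b * green (Reg (p ++ replicate b 1)) (tr l) 0 (hit {w.dropLast}) A ≤
      green (Reg (p ++ replicate b 1)) (tr l) 0 (hit {w ++ replicate (b - 1) 0}) A := by
  have hB : ({w ++ replicate (b - 1) 0} : Finset (List ℕ)) ⊆
      (range b).image fun t => w ++ replicate t 0 := by
    rw [singleton_subset_iff]
    exact Finset.mem_image.2 ⟨b - 1, mem_range.2 (by omega), rfl⟩
  have h := cut_green_ge (tr_nonneg hl) tr_symm (al_cut (l := l) hp hb hw) (AL_diff_union hw)
    (AL_sub_diff hw hA) hB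
  have e := AL_theta_path hl w (b := b) (s := 0) (t := b - 1) (by omega)
  rw [List.replicate_zero, List.append_nil, aP_refl hl] at e
  rwa [e] at h

theorem ul_le (hl : 0 ≤ l) (ha : 1 ≤ a) (hq : q ≠ []) {A : Finset (List ℕ)}
    (hA : A ⊆ (Reg q).image fun γ => replicate a 0 ++ γ) :
    green (Reg (replicate a 1 ++ q)) (tr l) 0 (hit {[]}) A ≤
      l * gP l a * green (Reg (replicate a 1 ++ q)) (tr l) 0 (hit {replicate a 0}) A := by
  have hB : ({[]} : Finset (List ℕ)) ⊆ (range a).image fun t => replicate t 0 := by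
    rw [singleton_subset_iff]
    exact Finset.mem_image.2 ⟨0, mem_range.2 (by omega), rfl⟩
  have h := cut_green_le (tr_nonneg hl) tr_symm (ul_cut (l := l) ha hq) (AL_ul_union a q) hA hB
  have e := AL_green_hit_path hl [] (b := a) (s := a - 1) (t := 0) (by omega)
  simp only [List.replicate_zero, List.nil_append] at e
  rw [e] at h
  exact h

lemma AL_insert {V : Type*} [DecidableEq V] {R : Finset V} {F : Finset V → ℝ}
    (hs : SubAddOn R F) {q : V} (hq : q ∈ R) {B : Finset V} (hB : B ⊆ R) :
    F (insert q B) ≤ F B + F {q} := by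
  have h := hs {q} B (singleton_subset_iff.2 hq) hB
  rw [Finset.singleton_union] at h
  linarith

/-- total occupation started from the far end of a down-link -/
theorem al_end (hl : 0 ≤ l) (hχ : PathBound l χ) (hp : p ≠ []) (hb : 1 ≤ b) {w : List ℕ}
    (hw : w ∈ Lev p) :
    green (Reg (p ++ replicate b 1)) (tr l) 0 (hit (Reg (p ++ replicate b 1)))
        {w ++ replicate (b - 1) 0} ≤
      χ + l * gP l b *
        green (Reg (p ++ replicate b 1)) (tr l) 0 (hit (Reg (p ++ replicate b 1))) {w.dropLast} := by
  set R := Reg (p ++ replicate b 1) with hR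
  have hB : ({w ++ replicate (b - 1) 0} : Finset (List ℕ)) ⊆
      (range b).image fun t => w ++ replicate t 0 := by
    rw [singleton_subset_iff]
    exact Finset.mem_image.2 ⟨b - 1, mem_range.2 (by omega), rfl⟩
  have hcut := al_cut (l := l) hp hb hw
  have hPR : (range b).image (fun t => w ++ replicate t 0) ⊆ R := by
    rw [← AL_copy_one]; exact AL_copy_sub hw
  have hqR : w.dropLast ∈ R := TR_Reg_sub _ _ (TR_dropLast_Lev hw hp)
  have hsa : SubAddOn R (green R (tr l) 0 (hit R)) :=
    (green_subModOn (tr_nonneg hl) (hit_monoOn R) (P_hit_empty R) (hit_subModOn R)).subAddOn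
      (green_empty _)
  have h := cut_bound (tr_nonneg hl) hcut (AL_diff_union hw) (F := green R (tr l) 0 (hit R))
    (c := hit R) (green_empty _).le (fun B hB => AL_insert hsa hqR (hB.trans hPR))
    (fun B hB hne => by rw [gen_green (tr_nonneg hl) _ (hB.trans hPR) hne]) hB
  have e := AL_green_hit_path hl w (b := b) (s := 0) (t := b - 1) (by omega)
  rw [List.replicate_zero, List.append_nil, gP_refl hl] at e
  rw [e] at h
  have h2 : green ((range b).image fun t => w ++ replicate t 0) (tr l) 0 (hit R)
      {w ++ replicate (b - 1) 0} ≤ χ := by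
    refine (green_mono (κ := (0 : List ℕ → ℝ)) (tr_nonneg hl) (fun _ => le_rfl)
      (fun A _ _ => P_hit_le_cardR R A) _).trans ?_
    rw [AL_green_card_path hl w (b := b) (t := b - 1) (by omega)]
    exact hχ.bound b (b - 1) (by omega)
  linarith

/-- started from the vertex at distance `j` above the bottom of an up-link of `a` vertices,
with `F = green … f`; `f` vanishes on the up-link -/
theorem ul_return (hl : 0 ≤ l) (hχ : PathBound l χ) (hq : q ≠ []) {j : ℕ} (hj : j < a)
    {c : Finset (List ℕ) → ℝ} (hc0 : c ∅ = 0) (hcm : MonoOn (Reg (replicate a 1 ++ q)) c)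
    (hcs : SubModOn (Reg (replicate a 1 ++ q)) c) {Cc : ℝ} (hCc : 0 ≤ Cc)
    (hcC : ∀ A ⊆ (range a).image (fun t => replicate t 0), c A ≤ Cc * cardR A) :
    green (Reg (replicate a 1 ++ q)) (tr l) 0 c {replicate (a - 1 - j) 0} ≤
      Cc * χ + l * (1 + l * χ) * gP l (j + 1) *
        green (Reg (replicate a 1 ++ q)) (tr l) 0 c {replicate a 0} := by
  set R := Reg (replicate a 1 ++ q) with hR
  have hB : ({replicate (a - 1 - j) 0} : Finset (List ℕ)) ⊆
      (range a).image fun t => replicate t 0 := by
    rw [singleton_subset_iff]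
    exact Finset.mem_image.2 ⟨a - 1 - j, mem_range.2 (by omega), rfl⟩
  have ha : 1 ≤ a := by omega
  have hcut := ul_cut (l := l) ha hq
  have hPR : (range a).image (fun t => replicate t 0) ⊆ R := by
    rw [hR, ← AL_ul_union]; exact subset_union_right
  have hqR : replicate a 0 ∈ R := by
    rw [hR, ← AL_ul_union]
    exact Finset.mem_union_left _ (Finset.mem_image.2 ⟨[], TR_nil_mem hq, List.append_nil _⟩)
  have hsa : SubAddOn R (green R (tr l) 0 c) :=
    (green_subModOn (tr_nonneg hl) hcm hc0 hcs).subAddOn (green_empty _)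
  have h := cut_bound (tr_nonneg hl) hcut (AL_ul_union a q) (F := green R (tr l) 0 c)
    (c := c) (green_empty _).le (fun B hB => AL_insert hsa hqR (hB.trans hPR))
    (fun B hB hne => by rw [gen_green (tr_nonneg hl) _ (hB.trans hPR) hne]) hB
  have hχ0 : 0 ≤ χ := le_trans zero_le_one hχ.one_le
  have h2 : green ((range a).image fun t => (replicate t 0 : List ℕ)) (tr l) 0 c
      {replicate (a - 1 - j) 0} ≤ Cc * χ := by
    refine (green_mono (κ := (0 : List ℕ → ℝ)) (tr_nonneg hl) (fun _ => le_rfl)
      (fun A hA _ => hcC A hA) _).trans ?_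
    rw [green_smul (κ := (0 : List ℕ → ℝ)) (tr_nonneg hl) (fun _ => le_rfl)]
    have e := AL_green_card_path hl [] (b := a) (t := a - 1 - j) (by omega)
    simp only [List.nil_append] at e
    rw [e]
    exact mul_le_mul_of_nonneg_left (hχ.bound a (a - 1 - j) (by omega)) hCc
  have h3 : green ((range a).image fun t => (replicate t 0 : List ℕ)) (tr l) 0
      (hit {replicate (a - 1) 0}) {replicate (a - 1 - j) 0} ≤ (1 + l * χ) * gP l (j + 1) := by
    -- reflection
    have e1 := green_image (R := range a) (φ := fun t : ℕ => (replicate (a - 1 - t) 0 : List ℕ))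
      (r := l • nnN) (r' := tr l) (κ := 0) (κ' := 0) (f := hit {0})
      (f' := hit {replicate (a - 1) 0}) (P_r_nonneg hl) (tr_nonneg hl)
      (fun _ => le_rfl) (fun _ => le_rfl)
      (fun x hx y hy hxy => by
        have := congrArg List.length hxy
        simp only [List.length_replicate] at this
        rw [mem_coe, mem_range] at hx hy
        omega)
      (fun x hx y hy => by
        have := AL_tr_path (l := l) [] (a - 1 - x) (a - 1 - y)
        simp only [List.nil_append] at this
        rw [this, P_r_apply, P_r_apply]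
        rw [mem_range] at hx hy
        unfold nnN
        congr 1
        refine if_congr ?_ rfl rfl
        omega)
      (fun _ _ => rfl)
      (fun A hA => by
        rw [P_hit_single, P_hit_single]
        refine if_congr ?_ rfl rfl
        rw [Finset.mem_image]
        constructor
        · rintro ⟨x, hx, h⟩
          have := congrArg List.length h
          simp only [List.length_replicate] at this
          have hxa := mem_range.1 (hA hx)
          have : x = 0 := by omega
          rw [← this]; exact hx
        · intro h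
          exact ⟨0, h, rfl⟩)
      (A := {j}) (by simpa using hj)
    rw [image_singleton] at e1
    have e2 : (range a).image (fun t : ℕ => (replicate (a - 1 - t) 0 : List ℕ)) =
        (range a).image fun t => (replicate t 0 : List ℕ) := by
      ext x
      simp only [Finset.mem_image, mem_range]
      constructor
      · rintro ⟨t, ht, rfl⟩
        exact ⟨a - 1 - t, by omega, rfl⟩
      · rintro ⟨t, ht, rfl⟩
        exact ⟨a - 1 - t, by omega, by congr 1; omega⟩
    rw [e2] at e1
    rw [e1]
    exact path_return hl hχ hj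
  have h4 : 0 ≤ green R (tr l) 0 c {replicate a 0} := by
    refine green_nonneg (tr_nonneg hl) (fun _ => le_rfl) (fun A hA _ => ?_) _
    rw [← hc0]; exact hcm _ _ (empty_subset _) hA
  have h5 : l * green ((range a).image fun t => (replicate t 0 : List ℕ)) (tr l) 0
      (hit {replicate (a - 1) 0}) {replicate (a - 1 - j) 0} *
        green R (tr l) 0 c {replicate a 0} ≤
      l * ((1 + l * χ) * gP l (j + 1)) * green R (tr l) 0 c {replicate a 0} :=
    mul_le_mul_of_nonneg_right (mul_le_mul_of_nonneg_left h3 hl) h4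
  have h6 : l * ((1 + l * χ) * gP l (j + 1)) * green R (tr l) 0 c {replicate a 0} =
      l * (1 + l * χ) * gP l (j + 1) * green R (tr l) 0 c {replicate a 0} := by ring
  linarith

/-- lower bound for the crossing probability of the first generation (straight path) -/
theorem theta_straight (hl : 0 < l) {p : List ℕ} (hp : p ≠ []) {w : List ℕ} (hw : w ∈ Lev p) :
    aP l p.length ≤ theta (Reg p) (tr l) (pt w.dropLast l) {[]} := by
  have hlen := (mem_Lev.1 hw).1
  have hpos := List.length_pos_iff.2 hp
  set L := p.length with hL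
  have htake : ∀ t, t ≤ L → (w.take t).length = t := fun t ht => by
    rw [List.length_take]; omega
  have hinj : ∀ s ≤ L, ∀ t ≤ L, w.take s = w.take t → s = t := by
    intro s hs t ht h
    have := congrArg List.length h
    rwa [htake s hs, htake t ht] at this
  have hdl : ∀ t, t ≤ L → (w.take t).dropLast = w.take (t - 1) := by
    intro t ht
    rw [List.dropLast_eq_take, htake t ht, List.take_take, min_eq_left (by omega)]
  have e := theta_image (R := range L) (φ := fun t : ℕ => w.take t) (r := l • nnN)
    (r' := tr l) (κ := pt (L - 1) l) (κ' := pt w.dropLast l)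
    (P_r_nonneg hl.le) (tr_nonneg hl.le) (P_pt_nonneg hl.le) (P_pt_nonneg hl.le)
    (fun x hx y hy h => hinj x (by rw [mem_coe, mem_range] at hx; omega) y
      (by rw [mem_coe, mem_range] at hy; omega) h)
    (fun x hx y hy => by
      rw [mem_range] at hx hy
      rw [P_r_apply]
      unfold tr nnN
      have e : ∀ s t : ℕ, s < L → t < L → ((w.take t ≠ [] ∧ (w.take t).dropLast = w.take s) ↔
          s + 1 = t) := by
        intro s t hs ht
        rw [hdl t ht.le]
        constructor
        · rintro ⟨h1, h2⟩
          have h3 := hinj _ (by omega) _ (by omega) h2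
          have h4 : t ≠ 0 := by rintro rfl; simp at h1
          omega
        · rintro rfl
          refine ⟨?_, rfl⟩
          intro h
          have := congrArg List.length h
          rw [htake _ (by omega)] at this
          simp at this
      simp only [e x y hx hy, e y x hy hx]
      split_ifs <;> ring)
    (fun x hx => by
      rw [mem_range] at hx
      unfold pt
      refine if_congr ?_ rfl rfl
      rw [List.dropLast_eq_take, hlen]
      exact ⟨fun h => hinj _ (by omega) _ (by omega) h, fun h => by rw [h]⟩)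
    (A := {0}) (by rw [singleton_subset_iff, mem_range]; exact hpos)
  rw [image_singleton, List.take_zero] at e
  unfold aP
  rw [← e]
  have hsub : (range L).image (fun t : ℕ => w.take t) ⊆ Reg p := by
    intro x hx
    obtain ⟨t, ht, rfl⟩ := Finset.mem_image.1 hx
    rw [mem_range] at ht
    rw [mem_Reg]
    refine ⟨by rw [htake t ht.le]; exact ht, fun i h h' => ?_⟩
    rw [List.getElem_take]
    exact (mem_Lev.1 hw).2 i (by omega) h'
  refine theta_rate_mono (tr_nonneg hl.le) (tr_nonneg hl.le) (P_pt_nonneg hl.le)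
    (P_pt_nonneg hl.le) hsub (fun _ _ _ _ => le_rfl) (fun _ _ => le_rfl) ?_
  rw [singleton_subset_iff]
  exact Finset.mem_image.2 ⟨0, mem_range.2 hpos, by simp⟩

/-- from level `i` -/
theorem theta_straight' (hl : 0 < l) {p q : List ℕ} (hq : q ≠ []) {v w : List ℕ} (hv : v ∈ Lev p)
    (hw : w ∈ Lev q) :
    aP l q.length ≤ theta (Reg (p ++ q)) (tr l) (pt (v ++ w).dropLast l) {v} := by
  refine (theta_straight hl hq hw).trans ?_
  have h0 : ({[]} : Finset (List ℕ)) ⊆ Reg q := by
    rw [singleton_subset_iff]; exact TR_nil_mem hq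
  rw [← theta_shift hl.le w.dropLast v h0, image_singleton, List.append_nil]
  rw [List.dropLast_append_of_ne_nil (AL_ne hq hw)]
  refine theta_rate_mono (tr_nonneg hl.le) (tr_nonneg hl.le) (P_pt_nonneg hl.le)
    (P_pt_nonneg hl.le) (AL_copy_sub hv) (fun _ _ _ _ => le_rfl) (fun _ _ => le_rfl) ?_
  rw [singleton_subset_iff]
  exact Finset.mem_image.2 ⟨[], TR_nil_mem hq, List.append_nil _⟩

end Pool.Agent.CP34
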