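import Pool.Agent.CP34.P
import Pool.Agent.CP34.CE

/-! # Module GA: a gadget with arms. -/

open Finset Filter Topology

namespace Pool.Agent.CP34

section GA
set_option linter.unusedSectionVars false
set_option linter.unusedVariables false
variable {V ι : Type*} [DecidableEq V] [DecidableEq ι] {l χ Δ : ℝ} {r : V → V → ℝ} {Γ : Finset V}
  {I : Finset ι} {n : ι → ℕ} {φ : ι → ℕ → V} {p : ι → V}

/-! ### Structure of the generator -/

/-- the vertices of arm `i` -/
def GAP (n : ι → ℕ) (φ : ι → ℕ → V) (i : ι) : Finset V := (range (n i)).image (φ i)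

omit [DecidableEq ι] in
lemma GA_mem_P {i : ι} {x : V} : x ∈ GAP n φ i ↔ ∃ t < n i, φ i t = x := by simp [GAP]

lemma GA_disj (h : Arms l Δ r Γ I n φ p) {i j : ι} (hi : i ∈ I) (hj : j ∈ I) (hij : i ≠ j) :
    Disjoint (GAP n φ i) (GAP n φ j) := by
  rw [disjoint_left]
  intro x hx hx'
  obtain ⟨s, hs, rfl⟩ := GA_mem_P.1 hx
  obtain ⟨t, ht, he⟩ := GA_mem_P.1 hx'
  exact hij (h.inj i hi j hj s hs t ht he.symm).1

lemma GA_disjΓ (h : Arms l Δ r Γ I n φ p) {i : ι} (hi : i ∈ I) : Disjoint Γ (GAP n φ i) := by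
  rw [disjoint_left]
  intro x hx hx'
  obtain ⟨s, hs, rfl⟩ := GA_mem_P.1 hx'
  exact h.disjΓ i hi s hs hx

lemma GA_armReg : armReg Γ I n φ = Γ ∪ I.biUnion (GAP n φ) := rfl

lemma GA_sum (h : Arms l Δ r Γ I n φ p) (g : V → ℝ) :
    ∑ x ∈ armReg Γ I n φ, g x = ∑ x ∈ Γ, g x + ∑ i ∈ I, ∑ x ∈ GAP n φ i, g x := by
  rw [GA_armReg, sum_union, sum_biUnion]
  · intro i hi j hj hij
    exact GA_disj h hi hj hij
  · rw [disjoint_biUnion_right]
    exact fun i hi => GA_disjΓ h hi

lemma GA_sumP (h : Arms l Δ r Γ I n φ p) {i : ι} (hi : i ∈ I) (g : V → ℝ) :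
    ∑ x ∈ GAP n φ i, g x = ∑ t ∈ range (n i), g (φ i t) := by
  unfold GAP
  rw [sum_image]
  intro s hs t ht he
  exact (h.inj i hi i hi s (by simpa using hs) t (by simpa using ht) he).2

lemma GA_port (h : Arms l Δ r Γ I n φ p) {i : ι} (hi : i ∈ I) (c : V → V → ℝ) :
    ∑ x ∈ Γ, ∑ y ∈ GAP n φ i, r x y * c x y =
      if 0 < n i then l * c (p i) (φ i 0) else 0 := by
  have e1 : ∀ x ∈ Γ, ∑ y ∈ GAP n φ i, r x y * c x y =
      if x = p i then (if 0 < n i then l * c (p i) (φ i 0) else 0) else 0 := by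
    intro x hx
    rw [GA_sumP h hi]
    have e2 : ∀ t ∈ range (n i), r x (φ i t) * c x (φ i t) =
        if t = 0 then (if x = p i then l * c (p i) (φ i 0) else 0) else 0 := by
      intro t ht
      rw [h.rport i hi x hx t (mem_range.1 ht)]
      by_cases h1 : x = p i
      · by_cases h2 : t = 0
        · rw [if_pos ⟨h1, h2⟩, if_pos h2, if_pos h1, h1, h2]
        · rw [if_neg (fun h => h2 h.2), if_neg h2, zero_mul]
      · rw [if_neg (fun h => h1 h.1), if_neg h1, zero_mul]; split_ifs <;> rfl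
    rw [sum_congr rfl e2, sum_ite_eq']
    simp only [mem_range]
    by_cases h1 : x = p i <;> by_cases h2 : 0 < n i <;> simp [h1, h2]
  rw [sum_congr rfl e1, sum_ite_eq', if_pos (h.port i hi)]

lemma GA_port' (h : Arms l Δ r Γ I n φ p) {i : ι} (hi : i ∈ I) (c : V → V → ℝ) :
    ∑ x ∈ GAP n φ i, ∑ y ∈ Γ, r x y * c x y =
      if 0 < n i then l * c (φ i 0) (p i) else 0 := by
  rw [sum_comm, ← GA_port h hi (fun x y => c y x)]
  refine sum_congr rfl fun x _ => sum_congr rfl fun y _ => ?_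
  rw [h.symm]

lemma GA_cross (h : Arms l Δ r Γ I n φ p) {i : ι} (hi : i ∈ I) (c : V → V → ℝ) :
    ∑ x ∈ GAP n φ i, ∑ j ∈ I, ∑ y ∈ GAP n φ j, r x y * c x y =
      ∑ x ∈ GAP n φ i, ∑ y ∈ GAP n φ i, r x y * c x y := by
  refine sum_congr rfl fun x hx => ?_
  rw [sum_eq_single i]
  · intro j hj hji
    refine sum_eq_zero fun y hy => ?_
    obtain ⟨s, hs, rfl⟩ := GA_mem_P.1 hx
    obtain ⟨t, ht, rfl⟩ := GA_mem_P.1 hy
    rw [h.rcross i hi j hj (Ne.symm hji) s hs t ht, zero_mul]
  · intro hi'; exact absurd hi hi'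

/-- The generator is the sum of the generators of the gadget and of the arms and of the port
arrows. -/
lemma GA_gen (h : Arms l Δ r Γ I n φ p) (f : Finset V → ℝ) (A : Finset V) :
    gen (armReg Γ I n φ) r f A = gen Γ r f A + ∑ i ∈ I, (gen (GAP n φ i) r f A +
      ((if 0 < n i then l * (f (arr (p i) (φ i 0) A) - f A) else 0) +
        (if 0 < n i then l * (f (arr (φ i 0) (p i) A) - f A) else 0))) := by
  unfold gen
  rw [GA_sum h, GA_sum h]
  have e1 : ∑ x ∈ Γ, ∑ y ∈ armReg Γ I n φ, r x y * (f (arr x y A) - f A) =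
      ∑ x ∈ Γ, ∑ y ∈ Γ, r x y * (f (arr x y A) - f A) +
      ∑ i ∈ I, (if 0 < n i then l * (f (arr (p i) (φ i 0) A) - f A) else 0) := by
    rw [sum_congr rfl fun x _ => GA_sum h (fun y => r x y * (f (arr x y A) - f A)),
      sum_add_distrib]
    congr 1
    rw [sum_comm]
    exact sum_congr rfl fun i hi => GA_port h hi (fun x y => f (arr x y A) - f A)
  have e2 : ∀ i ∈ I, ∑ x ∈ GAP n φ i, ∑ y ∈ armReg Γ I n φ, r x y * (f (arr x y A) - f A) =
      (if 0 < n i then l * (f (arr (φ i 0) (p i) A) - f A) else 0) +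
      ∑ x ∈ GAP n φ i, ∑ y ∈ GAP n φ i, r x y * (f (arr x y A) - f A) := by
    intro i hi
    rw [sum_congr rfl fun x _ => GA_sum h (fun y => r x y * (f (arr x y A) - f A)),
      sum_add_distrib, GA_port' h hi (fun x y => f (arr x y A) - f A),
      GA_cross h hi (fun x y => f (arr x y A) - f A)]
  rw [e1, sum_congr rfl e2]
  simp only [sum_add_distrib]
  ring

omit [DecidableEq ι] in
lemma GA_gen_le {R : Finset V} (hr : ∀ x y, 0 ≤ r x y) {f g : Finset V → ℝ} {A : Finset V} {c : ℝ}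
    (h1 : ∀ x ∈ R, f (A.erase x) - f A ≤ c * (g (A.erase x) - g A))
    (h2 : ∀ x ∈ R, ∀ y ∈ R, f (arr x y A) - f A ≤ c * (g (arr x y A) - g A)) :
    gen R r f A ≤ c * gen R r g A := by
  unfold gen
  rw [mul_add, mul_sum, mul_sum]
  refine add_le_add (sum_le_sum h1) (sum_le_sum fun x hx => ?_)
  rw [mul_sum]
  refine sum_le_sum fun y hy => ?_
  calc r x y * (f (arr x y A) - f A) ≤ r x y * (c * (g (arr x y A) - g A)) :=
        mul_le_mul_of_nonneg_left (h2 x hx y hy) (hr x y)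
    _ = _ := by ring

omit [DecidableEq ι] in
lemma GA_le_gen {R : Finset V} (hr : ∀ x y, 0 ≤ r x y) {f g : Finset V → ℝ} {A : Finset V} {c : ℝ}
    (h1 : ∀ x ∈ R, c * (g (A.erase x) - g A) ≤ f (A.erase x) - f A)
    (h2 : ∀ x ∈ R, ∀ y ∈ R, c * (g (arr x y A) - g A) ≤ f (arr x y A) - f A) :
    c * gen R r g A ≤ gen R r f A := by
  unfold gen
  rw [mul_add, mul_sum, mul_sum]
  refine add_le_add (sum_le_sum h1) (sum_le_sum fun x hx => ?_)
  rw [mul_sum]
  refine sum_le_sum fun y hy => ?_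
  calc c * (r x y * (g (arr x y A) - g A)) = r x y * (c * (g (arr x y A) - g A)) := by ring
    _ ≤ _ := mul_le_mul_of_nonneg_left (h2 x hx y hy) (hr x y)

/-! ### The weight `W` -/

/-- Green function of arm `i` -/
noncomputable def GAG (r : V → V → ℝ) (n : ι → ℕ) (φ : ι → ℕ → V) (i : ι) (B : Finset V) : ℝ :=
  green (GAP n φ i) r 0 cardR B

/-- total expected occupation time of the arms when the gadget is removed -/
noncomputable def GAW (r : V → V → ℝ) (I : Finset ι) (n : ι → ℕ) (φ : ι → ℕ → V)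
    (A : Finset V) : ℝ := ∑ i ∈ I, GAG r n φ i (A ∩ GAP n φ i)

/-- number of infected arm vertices -/
noncomputable def GAc (I : Finset ι) (n : ι → ℕ) (φ : ι → ℕ → V)
    (A : Finset V) : ℝ := ∑ i ∈ I, cardR (A ∩ GAP n φ i)

lemma GAG_nonneg (h : Arms l Δ r Γ I n φ p) (i : ι) (B : Finset V) : 0 ≤ GAG r n φ i B :=
  green_nonneg h.nonneg (fun _ => le_rfl) (fun _ _ _ => Nat.cast_nonneg _) B

lemma GAG_mono (h : Arms l Δ r Γ I n φ p) {i : ι} {B C : Finset V} (hBC : B ⊆ C)
    (hC : C ⊆ GAP n φ i) : GAG r n φ i B ≤ GAG r n φ i C :=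
  green_monoOn h.nonneg cardR_monoOn (Nat.cast_nonneg _) B C hBC hC

lemma GAG_union (h : Arms l Δ r Γ I n φ p) {i : ι} {B C : Finset V} (hB : B ⊆ GAP n φ i)
    (hC : C ⊆ GAP n φ i) : GAG r n φ i (B ∪ C) ≤ GAG r n φ i B + GAG r n φ i C :=
  (green_subModOn h.nonneg cardR_monoOn (by simp [cardR]) cardR_subModOn).subAddOn
    (green_empty _) B C hB hC

lemma GAG_single (hl : 0 ≤ l) (hχ : PathBound l χ) (h : Arms l Δ r Γ I n φ p) {i : ι}
    (hi : i ∈ I) {t : ℕ} (ht : t < n i) : GAG r n φ i {φ i t} ≤ χ := by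
  have hinj : Set.InjOn (φ i) (range (n i)) := by
    intro s hs t ht he
    exact (h.inj i hi i hi s (by simpa using hs) t (by simpa using ht) he).2
  have hnn : ∀ x y, 0 ≤ (l • nnN) x y := fun x y => by
    simp only [Pi.smul_apply, smul_eq_mul, nnN]
    split_ifs
    · simpa using hl
    · simp
  have e := green_image (R := range (n i)) (φ := φ i) (r := l • nnN) (r' := r) (κ := 0) (κ' := 0)
    (f := cardR) (f' := cardR) hnn h.nonneg (fun _ => le_rfl) (fun _ => le_rfl) hinj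
    (fun x hx y hy => by
      rw [h.rarm i hi x (mem_range.1 hx) y (mem_range.1 hy)]
      simp [Pi.smul_apply])
    (fun _ _ => rfl)
    (fun A hA => by
      unfold cardR
      rw [card_image_of_injOn (hinj.mono (by exact_mod_cast hA))])
    (A := {t}) (by simpa using ht)
  rw [image_singleton] at e
  show green (GAP n φ i) r 0 cardR {φ i t} ≤ χ
  unfold GAP
  rw [e]
  exact hχ.bound (n i) t ht

lemma GAG_le_card (hl : 0 ≤ l) (hχ : PathBound l χ) (h : Arms l Δ r Γ I n φ p) {i : ι}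
    (hi : i ∈ I) {B : Finset V} (hB : B ⊆ GAP n φ i) : GAG r n φ i B ≤ χ * cardR B := by
  induction B using Finset.induction_on with
  | empty => simp [GAG, cardR]
  | insert x B hx ih =>
    have hx' : x ∈ GAP n φ i := hB (mem_insert_self _ _)
    have hB' : B ⊆ GAP n φ i := (subset_insert _ _).trans hB
    have h1 := GAG_union h (singleton_subset_iff.2 hx') hB'
    obtain ⟨t, ht, rfl⟩ := GA_mem_P.1 hx'
    have h2 := GAG_single hl hχ h hi ht
    have h3 := ih hB'
    rw [insert_eq]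
    have h4 : cardR ({φ i t} ∪ B) = 1 + cardR B := by
      unfold cardR
      rw [← insert_eq, card_insert_of_notMem hx]; push_cast; ring
    rw [h4]
    linarith

lemma GAW_nonneg (h : Arms l Δ r Γ I n φ p) (A : Finset V) : 0 ≤ GAW r I n φ A :=
  sum_nonneg fun i _ => GAG_nonneg h i _

lemma GAc_nonneg (A : Finset V) : 0 ≤ GAc I n φ A :=
  sum_nonneg fun i _ => Nat.cast_nonneg _

lemma GAW_mono (h : Arms l Δ r Γ I n φ p) {A B : Finset V} (hAB : A ⊆ B) :
    GAW r I n φ A ≤ GAW r I n φ B :=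
  sum_le_sum fun _ _ => GAG_mono h (inter_subset_inter_right hAB) inter_subset_right

lemma GAW_le_card (hl : 0 ≤ l) (hχ : PathBound l χ) (h : Arms l Δ r Γ I n φ p) (A : Finset V) :
    GAW r I n φ A ≤ χ * GAc I n φ A := by
  unfold GAW GAc
  rw [mul_sum]
  exact sum_le_sum fun i hi => GAG_le_card hl hχ h hi inter_subset_right

lemma GAW_subset_Γ (h : Arms l Δ r Γ I n φ p) {A : Finset V} (hA : A ⊆ Γ) :
    GAW r I n φ A = 0 := by
  refine sum_eq_zero fun i hi => ?_
  have : A ∩ GAP n φ i = ∅ := disjoint_iff_inter_eq_empty.1 ((GA_disjΓ h hi).mono_left hA)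
  rw [this]; simp [GAG]

lemma GA_erase_inter {x : V} {A P : Finset V} (hx : x ∉ P) : A.erase x ∩ P = A ∩ P := by
  ext y
  simp only [mem_inter, mem_erase]
  constructor
  · rintro ⟨⟨_, h2⟩, h3⟩; exact ⟨h2, h3⟩
  · rintro ⟨h2, h3⟩; exact ⟨⟨fun h => hx (h ▸ h3), h2⟩, h3⟩

lemma GA_erase_inter' {x : V} {A P : Finset V} : A.erase x ∩ P = (A ∩ P).erase x := by
  ext y
  simp only [mem_inter, mem_erase]; tauto

lemma GA_arr_inter {x y : V} {A P : Finset V} (hy : y ∉ P) : arr x y A ∩ P = A ∩ P := by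
  unfold arr
  split_ifs
  · rw [insert_inter_of_notMem hy]
  · rfl

lemma GA_arr_inter' {x y : V} {A P : Finset V} (hx : x ∈ P) (hy : y ∈ P) :
    arr x y A ∩ P = arr x y (A ∩ P) := by
  unfold arr
  by_cases hxA : x ∈ A
  · rw [if_pos hxA, if_pos (mem_inter.2 ⟨hxA, hx⟩), insert_inter_of_mem hy]
  · rw [if_neg hxA, if_neg (fun h => hxA (mem_inter.1 h).1)]

/-- `W` is unchanged by what happens in the gadget -/
lemma GAW_erase_Γ (h : Arms l Δ r Γ I n φ p) {x : V} (hx : x ∈ Γ) (A : Finset V) :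
    GAW r I n φ (A.erase x) = GAW r I n φ A := by
  unfold GAW
  refine sum_congr rfl fun i hi => ?_
  rw [GA_erase_inter (disjoint_left.1 (GA_disjΓ h hi) hx)]

lemma GAW_arr_Γ (h : Arms l Δ r Γ I n φ p) {y : V} (hy : y ∈ Γ) (x : V) (A : Finset V) :
    GAW r I n φ (arr x y A) = GAW r I n φ A := by
  unfold GAW
  refine sum_congr rfl fun i hi => ?_
  rw [GA_arr_inter (disjoint_left.1 (GA_disjΓ h hi) hy)]

lemma GAW_erase_P (h : Arms l Δ r Γ I n φ p) {i : ι} (hi : i ∈ I) {x : V} (hx : x ∈ GAP n φ i)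
    (A : Finset V) : GAW r I n φ (A.erase x) - GAW r I n φ A =
      GAG r n φ i ((A ∩ GAP n φ i).erase x) - GAG r n φ i (A ∩ GAP n φ i) := by
  unfold GAW
  rw [← sum_sub_distrib, sum_eq_single i]
  · rw [GA_erase_inter']
  · intro j hj hji
    rw [GA_erase_inter (disjoint_left.1 (GA_disj h hi hj (Ne.symm hji)) hx), sub_self]
  · intro hi'; exact absurd hi hi'

lemma GAW_arr_P (h : Arms l Δ r Γ I n φ p) {i : ι} (hi : i ∈ I) {x y : V} (hy : y ∈ GAP n φ i)
    (A : Finset V) : GAW r I n φ (arr x y A) - GAW r I n φ A =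
      GAG r n φ i (arr x y A ∩ GAP n φ i) - GAG r n φ i (A ∩ GAP n φ i) := by
  unfold GAW
  rw [← sum_sub_distrib, sum_eq_single i]
  · intro j hj hji
    rw [GA_arr_inter (disjoint_left.1 (GA_disj h hi hj (Ne.symm hji)) hy), sub_self]
  · intro hi'; exact absurd hi hi'

/-- each infection in an arm raises `W` by at most `χ` -/
lemma GAW_arr_le (hl : 0 ≤ l) (hχ : PathBound l χ) (h : Arms l Δ r Γ I n φ p) {i : ι}
    (hi : i ∈ I) {t : ℕ} (ht : t < n i) (x : V) (A : Finset V) :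
    GAW r I n φ (arr x (φ i t) A) - GAW r I n φ A ≤ χ := by
  have hχ0 : 0 ≤ χ := zero_le_one.trans hχ.one_le
  have hy : φ i t ∈ GAP n φ i := GA_mem_P.2 ⟨t, ht, rfl⟩
  rw [GAW_arr_P h hi hy]
  unfold arr
  split_ifs
  · rw [insert_inter_of_mem hy, insert_eq]
    have h1 := GAG_union h (singleton_subset_iff.2 hy) (C := A ∩ GAP n φ i) inter_subset_right
    have h2 := GAG_single hl hχ h hi ht
    linarith
  · linarith

lemma GA_gen_W_Γ (h : Arms l Δ r Γ I n φ p) (A : Finset V) :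
    gen Γ r (GAW r I n φ) A = 0 := by
  unfold gen
  rw [sum_eq_zero, sum_eq_zero, add_zero]
  · intro x _
    refine sum_eq_zero fun y hy => ?_
    rw [GAW_arr_Γ h hy, sub_self, mul_zero]
  · intro x hx
    rw [GAW_erase_Γ h hx, sub_self]

lemma GA_gen_W_P (h : Arms l Δ r Γ I n φ p) {i : ι} (hi : i ∈ I) (A : Finset V) :
    gen (GAP n φ i) r (GAW r I n φ) A = - cardR (A ∩ GAP n φ i) := by
  have e : gen (GAP n φ i) r (GAW r I n φ) A =
      gen (GAP n φ i) r (GAG r n φ i) (A ∩ GAP n φ i) := by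
    unfold gen
    congr 1
    · exact sum_congr rfl fun x hx => GAW_erase_P h hi hx A
    · refine sum_congr rfl fun x hx => sum_congr rfl fun y hy => ?_
      rw [GAW_arr_P h hi hy, GA_arr_inter' hx hy]
  rw [e]
  by_cases hne : A ∩ GAP n φ i = ∅
  · rw [hne]; simp [gen, arr, cardR]
  · exact gen_green h.nonneg cardR inter_subset_right hne

/-- generator of `W` on the whole region -/
lemma GA_gen_W (hl : 0 ≤ l) (hχ : PathBound l χ) (h : Arms l Δ r Γ I n φ p) (A : Finset V) :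
    gen (armReg Γ I n φ) r (GAW r I n φ) A ≤
      - GAc I n φ A + l * χ * I.card * hit Γ A := by
  have hχ0 : 0 ≤ χ := zero_le_one.trans hχ.one_le
  rw [GA_gen h, GA_gen_W_Γ h, zero_add]
  have e : ∀ i ∈ I, gen (GAP n φ i) r (GAW r I n φ) A +
      ((if 0 < n i then l * (GAW r I n φ (arr (p i) (φ i 0) A) - GAW r I n φ A) else 0) +
        (if 0 < n i then l * (GAW r I n φ (arr (φ i 0) (p i) A) - GAW r I n φ A) else 0)) ≤
      - cardR (A ∩ GAP n φ i) + l * χ * hit Γ A := by
    intro i hi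
    rw [GA_gen_W_P h hi, GAW_arr_Γ h (h.port i hi)]
    have h0 : 0 ≤ hit Γ A := by unfold hit; split_ifs <;> norm_num
    have h1 : (if 0 < n i then l * (GAW r I n φ (arr (p i) (φ i 0) A) - GAW r I n φ A) else 0) ≤
        l * χ * hit Γ A := by
      split_ifs with hn
      · by_cases hp : p i ∈ A
        · have : hit Γ A = 1 := by
            unfold hit
            rw [if_pos ⟨p i, mem_inter.2 ⟨hp, h.port i hi⟩⟩]
          rw [this, mul_one]
          exact mul_le_mul_of_nonneg_left (GAW_arr_le hl hχ h hi hn _ _) hl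
        · have : arr (p i) (φ i 0) A = A := by simp [arr, hp]
          rw [this, sub_self, mul_zero]
          positivity
      · positivity
    have h2 : (if 0 < n i then l * (GAW r I n φ A - GAW r I n φ A) else 0) = 0 := by
      rw [sub_self, mul_zero]; split_ifs <;> rfl
    rw [h2]
    linarith
  calc _ ≤ ∑ i ∈ I, (- cardR (A ∩ GAP n φ i) + l * χ * hit Γ A) := sum_le_sum e
    _ = _ := by
      rw [sum_add_distrib, sum_neg_distrib, sum_const, nsmul_eq_mul]
      unfold GAc; ring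

/-- Occupation time of the arms. -/
lemma GA_green_c (hl : 0 ≤ l) (hχ : PathBound l χ) (h : Arms l Δ r Γ I n φ p) {A : Finset V}
    (hA : A ⊆ Γ) :
    green (armReg Γ I n φ) r 0 (GAc I n φ) A ≤
      l * χ * I.card * green (armReg Γ I n φ) r 0 (hit Γ) A := by
  have hr := h.nonneg
  have hz : ∀ x : V, 0 ≤ (0 : V → ℝ) x := fun _ => le_rfl
  have hAR : A ⊆ armReg Γ I n φ := hA.trans subset_union_left
  have h1 := green_mono (R := armReg Γ I n φ) hr hz (f := GAc I n φ)
    (g := fun S => - genK (armReg Γ I n φ) r 0 (GAW r I n φ) S + (l * χ * I.card) * hit Γ S)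
    (fun S _ _ => by rw [genK_zero_kill]; linarith [GA_gen_W hl hχ h S]) A
  rw [green_add hr hz, green_smul hr hz, green_neg_genK hr hz
    (GAW_subset_Γ h (empty_subset _)) hAR, GAW_subset_Γ h hA, zero_add] at h1
  exact h1

lemma GA_green_W (hl : 0 ≤ l) (hχ : PathBound l χ) (h : Arms l Δ r Γ I n φ p) {A : Finset V}
    (hA : A ⊆ Γ) :
    green (armReg Γ I n φ) r 0 (GAW r I n φ) A ≤
      l * χ ^ 2 * I.card * green (armReg Γ I n φ) r 0 (hit Γ) A := by
  have hr := h.nonneg
  have hz : ∀ x : V, 0 ≤ (0 : V → ℝ) x := fun _ => le_rfl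
  have hχ0 : 0 ≤ χ := zero_le_one.trans hχ.one_le
  have h1 := green_mono (R := armReg Γ I n φ) hr hz (f := GAW r I n φ)
    (g := fun S => χ * GAc I n φ S) (fun S _ _ => GAW_le_card hl hχ h S) A
  rw [green_smul hr hz] at h1
  have h2 := mul_le_mul_of_nonneg_left (GA_green_c hl hχ h hA) hχ0
  calc _ ≤ _ := h1
    _ ≤ _ := h2
    _ = _ := by ring

lemma GA_cardR_le (h : Arms l Δ r Γ I n φ p) {A : Finset V} (hA : A ⊆ armReg Γ I n φ) :
    cardR A = cardR (A ∩ Γ) + GAc I n φ A := by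
  have e : ∀ B : Finset V, cardR (A ∩ B) = ∑ x ∈ B, if x ∈ A then (1:ℝ) else 0 := by
    intro B
    unfold cardR
    rw [sum_ite_mem, sum_const, nsmul_eq_mul, mul_one, inter_comm]
  have e1 : cardR A = cardR (A ∩ armReg Γ I n φ) := by rw [inter_eq_left.2 hA]
  rw [e1, e, e, GA_sum h]
  unfold GAc
  congr 1
  exact sum_congr rfl fun i _ => (e _).symm

theorem ga_card (hl : 0 ≤ l) (hχ : PathBound l χ) (h : Arms l Δ r Γ I n φ p) {A : Finset V}
    (hA : A ⊆ Γ) :
    green (armReg Γ I n φ) r 0 cardR A ≤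
      (Γ.card + l * χ * I.card) * green (armReg Γ I n φ) r 0 (hit Γ) A := by
  have hr := h.nonneg
  have hz : ∀ x : V, 0 ≤ (0 : V → ℝ) x := fun _ => le_rfl
  have h1 := green_mono (R := armReg Γ I n φ) hr hz (f := cardR)
    (g := fun S => (Γ.card : ℝ) * hit Γ S + GAc I n φ S) (fun S hS _ => by
      rw [GA_cardR_le h hS]
      have : cardR (S ∩ Γ) ≤ (Γ.card : ℝ) * hit Γ S := by
        unfold hit
        split_ifs with hne
        · rw [mul_one]; unfold cardR; exact_mod_cast card_le_card inter_subset_right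
        · rw [not_nonempty_iff_eq_empty.1 hne]; simp [cardR]
      linarith) A
  rw [green_add hr hz, green_smul hr hz] at h1
  have h2 := GA_green_c hl hχ h hA
  rw [add_mul]
  linarith

/-! ### Time alive -/

/-- test function for `ga_alive` -/
noncomputable def GAf (r : V → V → ℝ) (Γ : Finset V) (I : Finset ι) (n : ι → ℕ)
    (φ : ι → ℕ → V) (A : Finset V) : ℝ :=
  if (A ∩ Γ).Nonempty then 0 else Real.log (1 + GAW r I n φ A)

lemma GAf_nonneg (h : Arms l Δ r Γ I n φ p) (A : Finset V) : 0 ≤ GAf r Γ I n φ A := by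
  unfold GAf
  split_ifs
  · exact le_rfl
  · exact Real.log_nonneg (by linarith [GAW_nonneg h A])

lemma GAf_le (h : Arms l Δ r Γ I n φ p) (A : Finset V) :
    GAf r Γ I n φ A ≤ Real.log (1 + GAW r I n φ A) := by
  unfold GAf
  split_ifs
  · exact Real.log_nonneg (by linarith [GAW_nonneg h A])
  · exact le_rfl

lemma GA_log_sub {a b : ℝ} (ha : 0 < a) (hb : 0 < b) :
    Real.log b - Real.log a ≤ 1 / a * (b - a) := by
  rw [← Real.log_div hb.ne' ha.ne']
  have := Real.log_le_sub_one_of_pos (div_pos hb ha)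
  calc _ ≤ b / a - 1 := this
    _ = _ := by field_simp

lemma GA_gen_f_off (hl : 0 ≤ l) (hχ : PathBound l χ) (h : Arms l Δ r Γ I n φ p) {A : Finset V}
    (hA : A ⊆ armReg Γ I n φ) (hne : A ≠ ∅) (hΓ : ¬ (A ∩ Γ).Nonempty) :
    gen (armReg Γ I n φ) r (GAf r Γ I n φ) A ≤ - (1 / (2 * χ)) := by
  have hχ1 := hχ.one_le
  have hΓe : A ∩ Γ = ∅ := not_nonempty_iff_eq_empty.1 hΓ
  have hW := GAW_nonneg h A
  have hnot : ∀ x ∈ Γ, x ∉ A := fun x hx hxA => by
    have : x ∈ A ∩ Γ := mem_inter.2 ⟨hxA, hx⟩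
    rw [hΓe] at this; simp at this
  have g0 : gen Γ r (GAf r Γ I n φ) A = 0 := by
    unfold gen
    rw [sum_eq_zero, sum_eq_zero, add_zero]
    · intro x hx
      refine sum_eq_zero fun y _ => ?_
      simp [arr, hnot x hx]
    · intro x hx
      rw [erase_eq_of_notMem (hnot x hx), sub_self]
  have hfA : GAf r Γ I n φ A = Real.log (1 + GAW r I n φ A) := by
    unfold GAf; rw [if_neg hΓ]
  have hstep : ∀ B : Finset V, B ∩ Γ = A ∩ Γ → GAf r Γ I n φ B - GAf r Γ I n φ A ≤
      1 / (1 + GAW r I n φ A) * (GAW r I n φ B - GAW r I n φ A) := by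
    intro B hB
    rw [hfA]
    have : GAf r Γ I n φ B = Real.log (1 + GAW r I n φ B) := by
      unfold GAf; rw [hB, if_neg hΓ]
    rw [this]
    have hWB := GAW_nonneg h B
    calc _ ≤ 1 / (1 + GAW r I n φ A) * ((1 + GAW r I n φ B) - (1 + GAW r I n φ A)) :=
          GA_log_sub (by linarith) (by linarith)
      _ = _ := by ring
  rw [GA_gen h, g0, zero_add]
  have e : ∀ i ∈ I, gen (GAP n φ i) r (GAf r Γ I n φ) A +
      ((if 0 < n i then l * (GAf r Γ I n φ (arr (p i) (φ i 0) A) - GAf r Γ I n φ A) else 0) +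
        (if 0 < n i then l * (GAf r Γ I n φ (arr (φ i 0) (p i) A) - GAf r Γ I n φ A) else 0)) ≤
      1 / (1 + GAW r I n φ A) * (- cardR (A ∩ GAP n φ i)) := by
    intro i hi
    have h1 : gen (GAP n φ i) r (GAf r Γ I n φ) A ≤
        1 / (1 + GAW r I n φ A) * gen (GAP n φ i) r (GAW r I n φ) A := by
      refine GA_gen_le h.nonneg (fun x hx => hstep _ ?_) (fun x hx y hy => hstep _ ?_)
      · exact GA_erase_inter fun hxΓ => disjoint_left.1 (GA_disjΓ h hi) hxΓ hx
      · exact GA_arr_inter fun hyΓ => disjoint_left.1 (GA_disjΓ h hi) hyΓ hy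
    rw [GA_gen_W_P h hi] at h1
    have h2 : (if 0 < n i then l * (GAf r Γ I n φ (arr (p i) (φ i 0) A) -
        GAf r Γ I n φ A) else 0) = 0 := by
      have : arr (p i) (φ i 0) A = A := by simp [arr, hnot _ (h.port i hi)]
      rw [this, sub_self, mul_zero]; split_ifs <;> rfl
    have h3 : (if 0 < n i then l * (GAf r Γ I n φ (arr (φ i 0) (p i) A) -
        GAf r Γ I n φ A) else 0) ≤ 0 := by
      split_ifs with hn
      · by_cases hm : φ i 0 ∈ A
        · have : GAf r Γ I n φ (arr (φ i 0) (p i) A) = 0 := by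
            unfold GAf
            rw [if_pos]
            refine ⟨p i, mem_inter.2 ⟨?_, h.port i hi⟩⟩
            simp [arr, hm]
          rw [this]
          have := GAf_nonneg h A
          exact mul_nonpos_of_nonneg_of_nonpos hl (by linarith)
        · have : arr (φ i 0) (p i) A = A := by simp [arr, hm]
          rw [this, sub_self, mul_zero]
      · exact le_rfl
    linarith
  refine (sum_le_sum e).trans ?_
  rw [← mul_sum, sum_neg_distrib]
  have hc : cardR A = GAc I n φ A := by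
    rw [GA_cardR_le h hA, hΓe]; simp [cardR]
  have hc1 : 1 ≤ GAc I n φ A := by
    rw [← hc]; unfold cardR
    exact_mod_cast card_pos.2 (nonempty_iff_ne_empty.2 hne)
  have hWc := GAW_le_card hl hχ h A
  have h4 : 1 / (2 * χ) ≤ GAc I n φ A / (1 + GAW r I n φ A) := by
    rw [div_le_div_iff₀ (by linarith) (by linarith)]
    have : 1 ≤ χ * GAc I n φ A := by nlinarith
    nlinarith
  have h5 : 1 / (1 + GAW r I n φ A) * -∑ x ∈ I, cardR (A ∩ GAP n φ x) =
      - (GAc I n φ A / (1 + GAW r I n φ A)) := by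
    unfold GAc; ring
  rw [h5]
  linarith

lemma GA_gen_f_on (hl : 0 ≤ l) (hχ : PathBound l χ) (h : Arms l Δ r Γ I n φ p) {A : Finset V}
    (hΓ : (A ∩ Γ).Nonempty) :
    gen (armReg Γ I n φ) r (GAf r Γ I n φ) A ≤ Real.log (1 + GAW r I n φ A) := by
  obtain ⟨x₀, hx₀⟩ := hΓ
  obtain ⟨hxA, hxΓ⟩ := mem_inter.1 hx₀
  have hfz : ∀ B : Finset V, x₀ ∈ B → GAf r Γ I n φ B = 0 := fun B hB => by
    unfold GAf; rw [if_pos ⟨x₀, mem_inter.2 ⟨hB, hxΓ⟩⟩]
  unfold gen
  have e2 : ∑ x ∈ armReg Γ I n φ, ∑ y ∈ armReg Γ I n φ,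
      r x y * (GAf r Γ I n φ (arr x y A) - GAf r Γ I n φ A) = 0 := by
    refine sum_eq_zero fun x _ => sum_eq_zero fun y _ => ?_
    rw [hfz A hxA, hfz _ (subset_arr x y A hxA), sub_self, mul_zero]
  rw [e2, add_zero, sum_eq_single x₀]
  · rw [hfz A hxA, sub_zero]
    refine (GAf_le h _).trans (Real.log_le_log ?_ ?_)
    · linarith [GAW_nonneg h (A.erase x₀)]
    · linarith [GAW_mono h (erase_subset x₀ A)]
  · intro x _ hne
    rw [hfz A hxA, hfz _ (mem_erase.2 ⟨Ne.symm hne, hxA⟩), sub_self]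
  · intro hn
    exact absurd (mem_union_left _ hxΓ) hn

/-- total time alive versus time during which the gadget is infected -/
theorem ga_alive (hl : 0 ≤ l) (hχ : PathBound l χ) (h : Arms l Δ r Γ I n φ p) {A : Finset V}
    (hA : A ⊆ Γ) :
    green (armReg Γ I n φ) r 0 (hit (armReg Γ I n φ)) A ≤
      (1 + 2 * χ * (Real.log (1 + I.card) + l * χ ^ 2)) *
        green (armReg Γ I n φ) r 0 (hit Γ) A := by
  have hr := h.nonneg
  have hz : ∀ x : V, 0 ≤ (0 : V → ℝ) x := fun _ => le_rfl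
  have hχ1 := hχ.one_le
  have hAR : A ⊆ armReg Γ I n φ := hA.trans subset_union_left
  have hN : (0:ℝ) < 1 + I.card := by positivity
  have key : ∀ S ⊆ armReg Γ I n φ, S ≠ ∅ → hit (armReg Γ I n φ) S ≤
      (2 * χ) * (- genK (armReg Γ I n φ) r 0 (GAf r Γ I n φ) S) +
        ((1 + 2 * χ * Real.log (1 + I.card)) * hit Γ S +
          (2 * χ / (1 + I.card)) * GAW r I n φ S) := by
    intro S hS hne
    rw [genK_zero_kill]
    have hW := GAW_nonneg h S
    have h1 : hit (armReg Γ I n φ) S = 1 := by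
      unfold hit
      rw [inter_eq_left.2 hS, if_pos (nonempty_iff_ne_empty.2 hne)]
    rw [h1]
    by_cases hΓ : (S ∩ Γ).Nonempty
    · have h2 : hit Γ S = 1 := by unfold hit; rw [if_pos hΓ]
      rw [h2]
      have h3 := GA_gen_f_on hl hχ h hΓ
      have h4 : Real.log (1 + GAW r I n φ S) ≤
          Real.log (1 + I.card) + GAW r I n φ S / (1 + I.card) := by
        have := GA_log_sub hN (b := 1 + GAW r I n φ S) (by linarith)
        have h5 : 1 / (1 + (I.card : ℝ)) * (1 + GAW r I n φ S - (1 + I.card)) ≤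
            GAW r I n φ S / (1 + I.card) := by
          rw [one_div_mul_eq_div]
          refine div_le_div_of_nonneg_right ?_ hN.le
          have : (0:ℝ) ≤ I.card := Nat.cast_nonneg _
          linarith
        linarith
      have h6 : 0 ≤ (2 * χ) * (Real.log (1 + I.card) + GAW r I n φ S / (1 + I.card) -
          gen (armReg Γ I n φ) r (GAf r Γ I n φ) S) :=
        mul_nonneg (by linarith) (by linarith)
      calc (1:ℝ) ≤ 1 + (2 * χ) * (Real.log (1 + I.card) + GAW r I n φ S / (1 + I.card) -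
          gen (armReg Γ I n φ) r (GAf r Γ I n φ) S) := by linarith
        _ = _ := by ring
    · have h2 : hit Γ S = 0 := by unfold hit; rw [if_neg hΓ]
      rw [h2, mul_zero, zero_add]
      have h3 := GA_gen_f_off hl hχ h hS hne hΓ
      have h4 : 1 ≤ (2 * χ) * (- gen (armReg Γ I n φ) r (GAf r Γ I n φ) S) := by
        calc (1:ℝ) = (2 * χ) * (1 / (2 * χ)) := by field_simp
          _ ≤ _ := mul_le_mul_of_nonneg_left (by linarith) (by linarith)
      have h5 : 0 ≤ 2 * χ / (1 + I.card) * GAW r I n φ S := by positivity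
      linarith
  have h1 := green_mono (R := armReg Γ I n φ) hr hz key A
  have hf0 : ∀ B ⊆ Γ, GAf r Γ I n φ B = 0 := by
    intro B hB
    unfold GAf
    split_ifs with hne
    · rfl
    · rw [GAW_subset_Γ h hB]; simp
  rw [green_add hr hz, green_add hr hz, green_smul hr hz, green_smul hr hz, green_smul hr hz,
    green_neg_genK hr hz (hf0 ∅ (empty_subset _)) hAR, hf0 A hA, mul_zero, zero_add] at h1
  have h2 := GA_green_W hl hχ h hA
  set T := green (armReg Γ I n φ) r 0 (hit Γ) A with hT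
  have hT0 : 0 ≤ T := green_nonneg hr hz (fun S _ _ => by unfold hit; split_ifs <;> norm_num) A
  have h3 : 2 * χ / (1 + I.card) * green (armReg Γ I n φ) r 0 (GAW r I n φ) A ≤
      2 * χ * (l * χ ^ 2) * T := by
    have hq : (I.card : ℝ) / (1 + I.card) ≤ 1 := by
      rw [div_le_one hN]; linarith
    calc _ ≤ 2 * χ / (1 + I.card) * (l * χ ^ 2 * I.card * T) :=
          mul_le_mul_of_nonneg_left h2 (by positivity)
      _ = (2 * χ * (l * χ ^ 2) * T) * ((I.card : ℝ) / (1 + I.card)) := by ring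
      _ ≤ (2 * χ * (l * χ ^ 2) * T) * 1 := mul_le_mul_of_nonneg_left hq (by positivity)
      _ = _ := mul_one _
  calc _ ≤ _ := h1
    _ ≤ (1 + 2 * χ * Real.log (1 + I.card)) * T + 2 * χ * (l * χ ^ 2) * T := by linarith
    _ = _ := by ring

/-! ### Expected time during which the gadget is infected -/

/-- explicit bound, uniform in the lengths of the arms -/
noncomputable def Tmax (l χ Δ : ℝ) (g i : ℕ) : ℝ :=
  2 * (2 + l * Δ + l ^ 2 * χ * Δ) ^ g * Real.exp (l * (2 * l * χ ^ 2 * i + 1))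

/-- test function for `ga_time` -/
noncomputable def GAE (K l : ℝ) (r : V → V → ℝ) (Γ : Finset V) (I : Finset ι) (n : ι → ℕ)
    (φ : ι → ℕ → V) (A : Finset V) : ℝ :=
  (K⁻¹) ^ (A ∩ Γ).card * Real.exp (-(l * GAW r I n φ A))

lemma GAE_pos {K : ℝ} (hK : 0 < K) (A : Finset V) : 0 < GAE K l r Γ I n φ A := by
  unfold GAE; positivity

lemma GAE_step {K : ℝ} (hK : 0 < K) {A B : Finset V} (hB : B ∩ Γ = A ∩ Γ) :
    (-(l * GAE K l r Γ I n φ A)) * (GAW r I n φ B - GAW r I n φ A) ≤
      GAE K l r Γ I n φ B - GAE K l r Γ I n φ A := by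
  have e : GAE K l r Γ I n φ B =
      GAE K l r Γ I n φ A * Real.exp (-(l * (GAW r I n φ B - GAW r I n φ A))) := by
    unfold GAE
    rw [hB, mul_assoc, ← Real.exp_add]
    congr 2
    ring
  rw [e]
  have h1 := Real.add_one_le_exp (-(l * (GAW r I n φ B - GAW r I n φ A)))
  have h2 := GAE_pos (l := l) (r := r) (Γ := Γ) (I := I) (n := n) (φ := φ) hK A
  have h3 := mul_le_mul_of_nonneg_left h1 h2.le
  linarith

lemma GA_gen_E (hl : 0 ≤ l) (hΔ : 0 ≤ Δ) (hχ : PathBound l χ) (h : Arms l Δ r Γ I n φ p)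
    {K : ℝ} (hK : K = 2 + l * Δ + l ^ 2 * χ * Δ) {A : Finset V} :
    GAE K l r Γ I n φ A * hit Γ A ≤ gen (armReg Γ I n φ) r (GAE K l r Γ I n φ) A := by
  have hχ1 := hχ.one_le
  have hK2 : 2 ≤ K := by
    rw [hK]
    have : 0 ≤ l * Δ := mul_nonneg hl hΔ
    have : 0 ≤ l ^ 2 * χ * Δ := by positivity
    linarith
  have hK0 : 0 < K := by linarith
  set E := GAE K l r Γ I n φ with hE
  have hEA : 0 < E A := GAE_pos hK0 A
  have hEp : ∀ B, 0 < E B := fun B => GAE_pos hK0 B
  -- recoveries in the gadget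
  have g1 : ∑ x ∈ Γ, (E (A.erase x) - E A) = ∑ x ∈ A ∩ Γ, (K - 1) * E A := by
    rw [← sum_subset (inter_subset_right : A ∩ Γ ⊆ Γ) (f := fun x => E (A.erase x) - E A)]
    · refine sum_congr rfl fun x hx => ?_
      obtain ⟨hxA, hxΓ⟩ := mem_inter.1 hx
      have : E (A.erase x) = K * E A := by
        rw [hE]; unfold GAE
        rw [GAW_erase_Γ h hxΓ, GA_erase_inter', card_erase_of_mem hx]
        have hc : (A ∩ Γ).card = ((A ∩ Γ).card - 1) + 1 := by
          have := card_pos.2 ⟨x, hx⟩; omega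
        conv_rhs => rw [hc]
        rw [pow_succ]
        field_simp
      rw [this]; ring
    · intro x hx hx'
      have : x ∉ A := fun hxA => hx' (mem_inter.2 ⟨hxA, hx⟩)
      show E (A.erase x) - E A = 0
      rw [erase_eq_of_notMem this, sub_self]
  -- arrows inside the gadget
  have g2 : ∑ x ∈ A ∩ Γ, (- ((∑ y ∈ Γ, r x y) * E A)) ≤
      ∑ x ∈ Γ, ∑ y ∈ Γ, r x y * (E (arr x y A) - E A) := by
    rw [← sum_subset (inter_subset_right : A ∩ Γ ⊆ Γ)
      (f := fun x => ∑ y ∈ Γ, r x y * (E (arr x y A) - E A))]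
    · refine sum_le_sum fun x hx => ?_
      rw [sum_mul, ← sum_neg_distrib]
      refine sum_le_sum fun y hy => ?_
      have h1 := mul_nonneg (h.nonneg x y) (hEp (arr x y A)).le
      linarith
    · intro x hx hx'
      have : x ∉ A := fun hxA => hx' (mem_inter.2 ⟨hxA, hx⟩)
      refine sum_eq_zero fun y _ => ?_
      simp [arr, this]
  -- arms and ports
  have g3 : ∀ i ∈ I, - (l ^ 2 * χ * E A * (if p i ∈ A then 1 else 0)) ≤
      gen (GAP n φ i) r E A +
      ((if 0 < n i then l * (E (arr (p i) (φ i 0) A) - E A) else 0) +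
        (if 0 < n i then l * (E (arr (φ i 0) (p i) A) - E A) else 0)) := by
    intro i hi
    have h1 : (-(l * E A)) * gen (GAP n φ i) r (GAW r I n φ) A ≤ gen (GAP n φ i) r E A := by
      refine GA_le_gen h.nonneg (fun x hx => GAE_step hK0 ?_) (fun x hx y hy => GAE_step hK0 ?_)
      · exact GA_erase_inter fun hxΓ => disjoint_left.1 (GA_disjΓ h hi) hxΓ hx
      · exact GA_arr_inter fun hyΓ => disjoint_left.1 (GA_disjΓ h hi) hyΓ hy
    rw [GA_gen_W_P h hi] at h1
    have h2 : - (l ^ 2 * χ * E A * (if p i ∈ A then 1 else 0)) ≤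
        (if 0 < n i then l * (E (arr (p i) (φ i 0) A) - E A) else 0) := by
      by_cases hp : p i ∈ A
      · rw [if_pos hp, mul_one]
        split_ifs with hn
        · have hq : arr (p i) (φ i 0) A ∩ Γ = A ∩ Γ :=
            GA_arr_inter (h.disjΓ i hi 0 hn)
          have h3 := GAE_step (l := l) (r := r) (I := I) (n := n) (φ := φ) hK0 hq
          have h4 := GAW_arr_le hl hχ h hi hn (p i) A
          have h5 : -(l * E A) * χ ≤ -(l * E A) * (GAW r I n φ (arr (p i) (φ i 0) A) -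
              GAW r I n φ A) := by
            have := mul_le_mul_of_nonneg_left h4 (mul_nonneg hl hEA.le)
            linarith
          have h6 : -(l * E A) * χ ≤ E (arr (p i) (φ i 0) A) - E A := h5.trans h3
          have h7 := mul_le_mul_of_nonneg_left h6 hl
          calc _ = l * (-(l * E A) * χ) := by ring
            _ ≤ _ := h7
        · have : 0 ≤ l ^ 2 * χ * E A := by positivity
          linarith
      · have : arr (p i) (φ i 0) A = A := by simp [arr, hp]
        rw [this, if_neg hp, sub_self, mul_zero, mul_zero, neg_zero]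
        split_ifs <;> exact le_rfl
    have h3 : - (l * E A * cardR (A ∩ GAP n φ i)) ≤
        (if 0 < n i then l * (E (arr (φ i 0) (p i) A) - E A) else 0) := by
      have hc0 : 0 ≤ cardR (A ∩ GAP n φ i) := Nat.cast_nonneg _
      split_ifs with hn
      · by_cases hm : φ i 0 ∈ A
        · have hc : 1 ≤ cardR (A ∩ GAP n φ i) := by
            unfold cardR
            exact_mod_cast card_pos.2 ⟨φ i 0, mem_inter.2 ⟨hm, GA_mem_P.2 ⟨0, hn, rfl⟩⟩⟩
          have h4 := mul_le_mul_of_nonneg_left hc (mul_nonneg hl hEA.le)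
          have h5 := mul_nonneg hl (hEp (arr (φ i 0) (p i) A)).le
          linarith
        · have : arr (φ i 0) (p i) A = A := by simp [arr, hm]
          rw [this, sub_self, mul_zero]
          have : 0 ≤ l * E A * cardR (A ∩ GAP n φ i) := by positivity
          linarith
      · have : 0 ≤ l * E A * cardR (A ∩ GAP n φ i) := by positivity
        linarith
    linarith
  have g3' : - (l ^ 2 * χ * E A * ∑ i ∈ I, (if p i ∈ A then (1:ℝ) else 0)) ≤
      ∑ i ∈ I, (gen (GAP n φ i) r E A +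
      ((if 0 < n i then l * (E (arr (p i) (φ i 0) A) - E A) else 0) +
        (if 0 < n i then l * (E (arr (φ i 0) (p i) A) - E A) else 0))) := by
    rw [mul_sum, ← sum_neg_distrib]
    exact sum_le_sum g3
  have g4 : ∑ i ∈ I, (if p i ∈ A then (1:ℝ) else 0) =
      ∑ x ∈ A ∩ Γ, ((I.filter fun i => p i = x).card : ℝ) := by
    have hb : ∀ x ∈ A ∩ Γ, ((I.filter fun i => p i = x).card : ℝ) =
        ∑ i ∈ I, if p i = x then (1:ℝ) else 0 := by
      intro x _
      rw [sum_boole]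
    rw [sum_congr rfl hb, sum_comm]
    refine sum_congr rfl fun i hi => ?_
    rw [sum_ite_eq]
    simp [h.port i hi]
  rw [GA_gen h]
  have g5 : ∑ x ∈ A ∩ Γ, E A ≤ gen Γ r E A - l ^ 2 * χ * E A *
      ∑ x ∈ A ∩ Γ, ((I.filter fun i => p i = x).card : ℝ) := by
    unfold gen
    rw [g1, mul_sum]
    have : ∑ x ∈ A ∩ Γ, E A ≤ ∑ x ∈ A ∩ Γ, ((K - 1) * E A + (- ((∑ y ∈ Γ, r x y) * E A)) -
        l ^ 2 * χ * E A * ((I.filter fun i => p i = x).card : ℝ)) := by
      refine sum_le_sum fun x hx => ?_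
      have hd := h.deg x (mem_inter.1 hx).2
      have h1 : 0 ≤ ∑ y ∈ Γ, r x y := sum_nonneg fun y _ => h.nonneg x y
      have h2 : 0 ≤ l * ((I.filter fun i => p i = x).card : ℝ) := by positivity
      have h3 : ∑ y ∈ Γ, r x y ≤ l * Δ := by linarith
      have h4 : l * ((I.filter fun i => p i = x).card : ℝ) ≤ l * Δ := by linarith
      have h5 : l ^ 2 * χ * ((I.filter fun i => p i = x).card : ℝ) ≤ l ^ 2 * χ * Δ := by
        have := mul_le_mul_of_nonneg_left h4 (mul_nonneg hl (zero_le_one.trans hχ1))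
        linarith
      have h6 : 1 ≤ K - 1 - ∑ y ∈ Γ, r x y -
          l ^ 2 * χ * ((I.filter fun i => p i = x).card : ℝ) := by
        rw [hK]; linarith
      have h7 := mul_le_mul_of_nonneg_right h6 hEA.le
      linarith
    rw [sum_sub_distrib, sum_add_distrib] at this
    linarith
  have g6 : E A * hit Γ A ≤ ∑ x ∈ A ∩ Γ, E A := by
    unfold hit
    split_ifs with hne
    · rw [mul_one, sum_const, nsmul_eq_mul]
      have : (1:ℝ) ≤ (A ∩ Γ).card := by exact_mod_cast card_pos.2 hne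
      nlinarith
    · rw [mul_zero]; positivity
  rw [g4] at g3'
  linarith

theorem ga_time (hl : 0 ≤ l) (hΔ : 0 ≤ Δ) (hχ : PathBound l χ) (h : Arms l Δ r Γ I n φ p)
    {A : Finset V} (hA : A ⊆ Γ) :
    green (armReg Γ I n φ) r 0 (hit Γ) A ≤ Tmax l χ Δ Γ.card I.card := by
  have hr := h.nonneg
  have hz : ∀ x : V, 0 ≤ (0 : V → ℝ) x := fun _ => le_rfl
  have hχ1 := hχ.one_le
  have hAR : A ⊆ armReg Γ I n φ := hA.trans subset_union_left
  obtain ⟨K, hK⟩ : ∃ K, K = 2 + l * Δ + l ^ 2 * χ * Δ := ⟨_, rfl⟩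
  have hK2 : 2 ≤ K := by
    rw [hK]
    have : 0 ≤ l * Δ := mul_nonneg hl hΔ
    have : 0 ≤ l ^ 2 * χ * Δ := by positivity
    linarith
  have hK0 : 0 < K := by linarith
  obtain ⟨w, hw⟩ : ∃ w, w = 2 * l * χ ^ 2 * I.card + 1 := ⟨_, rfl⟩
  have hw1 : 1 ≤ w := by
    have : 0 ≤ 2 * l * χ ^ 2 * I.card := by positivity
    linarith
  have hw0 : 0 < w := by linarith
  have hE0 : GAE K l r Γ I n φ ∅ = 1 := by
    unfold GAE; rw [GAW_subset_Γ h (empty_subset _)]; simp
  have h1 : green (armReg Γ I n φ) r 0 (fun S => GAE K l r Γ I n φ S * hit Γ S) A ≤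
      1 - GAE K l r Γ I n φ A := by
    refine green_le (u := fun S => 1 - GAE K l r Γ I n φ S) hr hz (by simp [hE0])
      (fun S hS hne => ?_) A hAR
    rw [genK_zero_kill, gen_sub, gen_const, zero_sub]
    exact neg_le_neg (GA_gen_E hl hΔ hχ h hK)
  have h1' : green (armReg Γ I n φ) r 0 (fun S => GAE K l r Γ I n φ S * hit Γ S) A ≤ 1 := by
    have := GAE_pos (l := l) (r := r) (Γ := Γ) (I := I) (n := n) (φ := φ) hK0 A
    linarith
  have key : ∀ S ⊆ armReg Γ I n φ, S ≠ ∅ → hit Γ S ≤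
      (K ^ Γ.card * Real.exp (l * w)) * (GAE K l r Γ I n φ S * hit Γ S) +
        (1 / w) * GAW r I n φ S := by
    intro S hS hne
    have hW := GAW_nonneg h S
    have hEp := GAE_pos (l := l) (r := r) (Γ := Γ) (I := I) (n := n) (φ := φ) hK0 S
    unfold hit
    split_ifs with hΓ
    · rw [mul_one]
      by_cases hc : GAW r I n φ S ≤ w
      · have h2 : 1 ≤ (K ^ Γ.card * Real.exp (l * w)) * GAE K l r Γ I n φ S := by
          unfold GAE
          have h3 : 1 ≤ K ^ Γ.card * (K⁻¹) ^ (S ∩ Γ).card := by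
            have hle : (S ∩ Γ).card ≤ Γ.card := card_le_card inter_subset_right
            have : K ^ (S ∩ Γ).card ≤ K ^ Γ.card := pow_le_pow_right₀ (by linarith) hle
            rw [inv_pow, ← div_eq_mul_inv, le_div_iff₀ (by positivity), one_mul]
            exact this
          have h4 : 1 ≤ Real.exp (l * w) * Real.exp (-(l * GAW r I n φ S)) := by
            rw [← Real.exp_add]
            apply Real.one_le_exp
            have := mul_le_mul_of_nonneg_left hc hl
            linarith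
          calc (1:ℝ) = 1 * 1 := by ring
            _ ≤ (K ^ Γ.card * (K⁻¹) ^ (S ∩ Γ).card) *
                (Real.exp (l * w) * Real.exp (-(l * GAW r I n φ S))) :=
              mul_le_mul h3 h4 zero_le_one (zero_le_one.trans h3)
            _ = _ := by ring
        have h5 : 0 ≤ 1 / w * GAW r I n φ S := by positivity
        linarith
      · push Not at hc
        have h2 : 1 ≤ 1 / w * GAW r I n φ S := by
          rw [one_div_mul_eq_div, le_div_iff₀ hw0]; linarith
        have h3 : 0 ≤ (K ^ Γ.card * Real.exp (l * w)) * GAE K l r Γ I n φ S := by positivity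
        linarith
    · have : 0 ≤ 1 / w * GAW r I n φ S := by positivity
      rw [mul_zero, mul_zero, zero_add]; exact this
  have h2 := green_mono (R := armReg Γ I n φ) hr hz key A
  rw [green_add hr hz, green_smul hr hz, green_smul hr hz] at h2
  have h3 := GA_green_W hl hχ h hA
  set T := green (armReg Γ I n φ) r 0 (hit Γ) A with hT
  have hT0 : 0 ≤ T := green_nonneg hr hz (fun S _ _ => by unfold hit; split_ifs <;> norm_num) A
  have h4 : 1 / w * green (armReg Γ I n φ) r 0 (GAW r I n φ) A ≤ 1 / 2 * T := by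
    have h5 : 1 / w * (l * χ ^ 2 * I.card * T) ≤ 1 / 2 * T := by
      rw [one_div_mul_eq_div, div_le_iff₀ hw0, hw]
      have : 0 ≤ l * χ ^ 2 * I.card * T := by positivity
      linarith
    exact (mul_le_mul_of_nonneg_left h3 (by positivity)).trans h5
  have h6 : K ^ Γ.card * Real.exp (l * w) *
      green (armReg Γ I n φ) r 0 (fun S => GAE K l r Γ I n φ S * hit Γ S) A ≤
      K ^ Γ.card * Real.exp (l * w) * 1 :=
    mul_le_mul_of_nonneg_left h1' (by positivity)
  unfold Tmax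
  rw [← hK, ← hw]
  linarith

end GA

end Pool.Agent.CP34
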