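import Pool.Agent.CP34.Defs2
import Pool.Agent.CP34.GA
import Pool.Agent.CP34.TR

/-!
# One gadget region as an instance of `Arms`
-/

open Finset Filter Topology
open List (replicate)

namespace Pool.Agent.CP34


/-! one gadget region as an instance of `Arms` and consequences -/
variable {l χ : ℝ} {k d a b : ℕ}

/-- arm data of the one-gadget region: `none` = up-link, `some w` = down-link below the
gadget bottom `w ∈ Lev (replicate k d)` -/
def g1I (k d : ℕ) : Finset (Option (List ℕ)) := insert none ((Lev (replicate k d)).image some)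
def g1n (a b : ℕ) : Option (List ℕ) → ℕ
  | none => a
  | some _ => b
def g1φ (a : ℕ) : Option (List ℕ) → ℕ → List ℕ
  | none, t => replicate (a - 1 - t) 0
  | some w, t => replicate a 0 ++ w ++ replicate t 0
def g1p (a : ℕ) : Option (List ℕ) → List ℕ
  | none => replicate a 0
  | some w => replicate a 0 ++ w.dropLast

namespace G1

lemma mem_Reg_rep {n c : ℕ} {α : List ℕ} :
    α ∈ Reg (replicate n c) ↔ α.length < n ∧ ∀ x ∈ α, x < c := by
  rw [mem_Reg]
  simp only [List.length_replicate, List.getElem_replicate]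
  constructor
  · rintro ⟨h1, h2⟩
    refine ⟨h1, fun x hx => ?_⟩
    obtain ⟨i, hi, rfl⟩ := List.getElem_of_mem hx
    exact h2 i hi (hi.trans h1)
  · rintro ⟨h1, h2⟩
    exact ⟨h1, fun i hi _ => h2 _ (List.getElem_mem hi)⟩

lemma mem_Lev_rep {n c : ℕ} {α : List ℕ} :
    α ∈ Lev (replicate n c) ↔ α.length = n ∧ ∀ x ∈ α, x < c := by
  rw [mem_Lev]
  simp only [List.length_replicate, List.getElem_replicate]
  constructor
  · rintro ⟨h1, h2⟩
    refine ⟨h1, fun x hx => ?_⟩
    obtain ⟨i, hi, rfl⟩ := List.getElem_of_mem hx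
    exact h2 i hi (h1 ▸ hi)
  · rintro ⟨h1, h2⟩
    exact ⟨h1, fun i hi _ => h2 _ (List.getElem_mem hi)⟩

lemma eq_replicate_zero {α : List ℕ} (h : ∀ x ∈ α, x < 1) : α = replicate α.length 0 :=
  List.eq_replicate_of_mem fun x hx => Nat.lt_one_iff.1 (h x hx)

lemma mem_Reg_one {n : ℕ} {α : List ℕ} :
    α ∈ Reg (replicate n 1) ↔ ∃ t < n, α = replicate t 0 := by
  rw [mem_Reg_rep]
  constructor
  · rintro ⟨h1, h2⟩
    exact ⟨_, h1, eq_replicate_zero h2⟩
  · rintro ⟨t, ht, rfl⟩
    refine ⟨by simpa using ht, fun x hx => ?_⟩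
    rw [List.eq_of_mem_replicate hx]; exact Nat.one_pos

lemma mem_Lev_one {n : ℕ} {α : List ℕ} :
    α ∈ Lev (replicate n 1) ↔ α = replicate n 0 := by
  rw [mem_Lev_rep]
  constructor
  · rintro ⟨h1, h2⟩
    rw [eq_replicate_zero h2, h1]
  · rintro rfl
    refine ⟨by simp, fun x hx => ?_⟩
    rw [List.eq_of_mem_replicate hx]; exact Nat.one_pos

lemma mem_gad {α : List ℕ} :
    α ∈ gad k d a ↔ ∃ γ ∈ Reg (replicate k d), replicate a 0 ++ γ = α := by
  simp [gad]

lemma mem_region {α : List ℕ} : α ∈ Reg (gprof k d a b) ↔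
    (∃ t < a, α = replicate t 0) ∨ (∃ γ ∈ Reg (replicate k d), replicate a 0 ++ γ = α) ∨
      ∃ w ∈ Lev (replicate k d), ∃ t < b, α = replicate a 0 ++ w ++ replicate t 0 := by
  unfold gprof
  rw [Reg_append, Reg_append, Lev_append]
  simp only [mem_union, mem_biUnion, mem_image, mem_Reg_one, mem_Lev_one, or_assoc]
  constructor
  · rintro (h | ⟨_, rfl, γ, hγ, rfl⟩ | ⟨_, ⟨_, rfl, w, hw, rfl⟩, _, ⟨t, ht, rfl⟩, rfl⟩)
    · exact Or.inl h
    · exact Or.inr (Or.inl ⟨γ, hγ, rfl⟩)
    · exact Or.inr (Or.inr ⟨w, hw, t, ht, rfl⟩)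
  · rintro (h | ⟨γ, hγ, rfl⟩ | ⟨w, hw, t, ht, rfl⟩)
    · exact Or.inl h
    · exact Or.inr (Or.inl ⟨_, rfl, γ, hγ, rfl⟩)
    · exact Or.inr (Or.inr ⟨_, ⟨_, rfl, w, hw, rfl⟩, _, ⟨t, ht, rfl⟩, rfl⟩)

lemma tr_rep (m n : ℕ) : tr l (replicate m 0) (replicate n 0) = l * nnN m n := by
  unfold tr nnN
  have h1 : (replicate n 0 ≠ [] ∧ (replicate n 0).dropLast = replicate m 0) ↔ m + 1 = n := by
    rw [List.dropLast_replicate]
    constructor
    · rintro ⟨h, h'⟩
      have h2 : n ≠ 0 := by rintro rfl; exact h rfl
      have h3 := congrArg List.length h'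
      simp only [List.length_replicate] at h3
      omega
    · rintro rfl
      simp
  have h2 : (replicate m 0 ≠ [] ∧ (replicate m 0).dropLast = replicate n 0) ↔ n + 1 = m := by
    rw [List.dropLast_replicate]
    constructor
    · rintro ⟨h, h'⟩
      have h2 : m ≠ 0 := by rintro rfl; exact h rfl
      have h3 := congrArg List.length h'
      simp only [List.length_replicate] at h3
      omega
    · rintro rfl
      simp
  simp only [h1, h2]
  split_ifs <;> simp

lemma tr_eq_zero_of_len {α β : List ℕ} (h : α.length + 1 ≠ β.length)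
    (h' : β.length + 1 ≠ α.length) : tr l α β = 0 := by
  unfold tr
  rw [if_neg]
  rintro (⟨h1, h2⟩ | ⟨h1, h2⟩)
  · apply h
    rw [← h2, List.length_dropLast]
    have := List.length_pos_iff.2 h1
    omega
  · apply h'
    rw [← h2, List.length_dropLast]
    have := List.length_pos_iff.2 h1
    omega

lemma tr_of_lt {α β : List ℕ} (h : α.length < β.length) :
    tr l α β = if β.dropLast = α then l else 0 := by
  unfold tr
  have h1 : β ≠ [] := by rintro rfl; simp at h
  have h2 : ¬ (α ≠ [] ∧ α.dropLast = β) := by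
    rintro ⟨_, h3⟩
    have := congrArg List.length h3
    rw [List.length_dropLast] at this
    omega
  simp [h1, h2]

lemma append_inj3 {u w w' s s' : List ℕ} (hw : w.length = w'.length)
    (h : u ++ w ++ s = u ++ w' ++ s') : w = w' ∧ s = s' := by
  rw [List.append_assoc, List.append_assoc] at h
  exact List.append_inj (List.append_cancel_left h) hw

end G1

theorem g1_region (hk : 1 ≤ k) (hd : 1 ≤ d) :
    armReg (gad k d a) (g1I k d) (g1n a b) (g1φ a) = Reg (gprof k d a b) := by
  ext α
  rw [G1.mem_region]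
  unfold armReg g1I
  simp only [mem_union, mem_biUnion, mem_insert, mem_image, mem_range, G1.mem_gad]
  constructor
  · rintro (h | ⟨i, (rfl | ⟨w, hw, rfl⟩), t, ht, rfl⟩)
    · exact Or.inr (Or.inl h)
    · exact Or.inl ⟨_, by simp only [g1n] at ht; omega, rfl⟩
    · exact Or.inr (Or.inr ⟨w, hw, t, ht, rfl⟩)
  · rintro (⟨t, ht, rfl⟩ | h | ⟨w, hw, t, ht, rfl⟩)
    · refine Or.inr ⟨none, Or.inl rfl, a - 1 - t, by simp only [g1n]; omega, ?_⟩
      simp only [g1φ]
      congr 1
      omega
    · exact Or.inl h
    · exact Or.inr ⟨some w, Or.inr ⟨w, hw, rfl⟩, t, ht, rfl⟩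

namespace G1

lemma deg_bound (hl : 0 ≤ l) {x : List ℕ} (hx : x ∈ gad k d a) :
    ∑ y ∈ gad k d a, tr l x y + l * (((g1I k d).filter fun i => g1p a i = x).card : ℝ) ≤
      l * (d + 1) := by
  obtain ⟨γ, hγ, rfl⟩ := mem_gad.1 hx
  rw [mem_Reg_rep] at hγ
  have hinj : Function.Injective (fun δ : List ℕ => replicate a 0 ++ δ) :=
    fun _ _ h => List.append_cancel_left h
  have h1 : ∑ y ∈ gad k d a, tr l (replicate a 0 ++ γ) y =
      ∑ δ ∈ Reg (replicate k d), tr l γ δ := by
    unfold gad
    rw [sum_image fun _ _ _ _ h => hinj h]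
    exact sum_congr rfl fun δ _ => tr_append _ _ _
  -- children, parents
  set F1 := (Reg (replicate k d)).filter fun δ => δ ≠ [] ∧ δ.dropLast = γ with hF1
  set F2 := (Reg (replicate k d)).filter fun δ => γ ≠ [] ∧ γ.dropLast = δ with hF2
  have h2 : ∑ δ ∈ Reg (replicate k d), tr l γ δ ≤ l * F1.card + l * F2.card := by
    have h3 : ∀ δ : List ℕ, tr l γ δ ≤ (if δ ≠ [] ∧ δ.dropLast = γ then l else 0) +
        (if γ ≠ [] ∧ γ.dropLast = δ then l else 0) := by
      intro δ
      unfold tr
      split_ifs <;> simp_all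
    refine (sum_le_sum fun δ _ => h3 δ).trans ?_
    rw [sum_add_distrib, ← sum_filter, ← sum_filter, sum_const, sum_const, nsmul_eq_mul,
      nsmul_eq_mul, mul_comm l, mul_comm l]
  -- the arms
  set G1' := ((Lev (replicate k d)).filter fun w => w.dropLast = γ) with hG1
  have h4 : ((g1I k d).filter fun i => g1p a i = replicate a 0 ++ γ) ⊆
      (if γ = [] then {none} else ∅) ∪ G1'.image some := by
    intro i hi
    rw [mem_filter, g1I, mem_insert, mem_image] at hi
    rcases hi with ⟨rfl | ⟨w, hw, rfl⟩, h⟩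
    · have : γ = [] := by
        simp only [g1p] at h
        have h5 := congrArg List.length h
        simp only [List.length_append, List.length_replicate] at h5
        exact List.length_eq_zero_iff.1 (by omega)
      rw [if_pos this]
      simp
    · simp only [g1p] at h
      have h5 := List.append_cancel_left h
      refine mem_union_right _ (mem_image_of_mem _ ?_)
      rw [hG1, mem_filter]
      exact ⟨hw, h5⟩
  have h5 : (((g1I k d).filter fun i => g1p a i = replicate a 0 ++ γ).card : ℝ) ≤
      (if γ = [] then 1 else 0) + G1'.card := by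
    have h6 := (card_le_card h4).trans (card_union_le _ _)
    have h7 : (G1'.image some).card ≤ G1'.card := card_image_le
    have h8 : (if γ = [] then ({none} : Finset (Option (List ℕ))) else ∅).card =
        if γ = [] then 1 else 0 := by split_ifs <;> simp
    rw [h8] at h6
    have h9 : ((g1I k d).filter fun i => g1p a i = replicate a 0 ++ γ).card ≤
      (if γ = [] then 1 else 0) + G1'.card := by omega
    have h10 : (((g1I k d).filter fun i => g1p a i = replicate a 0 ++ γ).card : ℝ) ≤
      (((if γ = [] then 1 else 0) + G1'.card : ℕ) : ℝ) := Nat.cast_le.2 h9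
    refine h10.trans (le_of_eq ?_)
    push_cast
    rfl
  have h6 : (F1.card : ℝ) + G1'.card ≤ d := by
    have h7 : Disjoint F1 G1' := by
      rw [disjoint_left]
      intro δ hδ hδ'
      rw [hF1, mem_filter, mem_Reg_rep] at hδ
      rw [hG1, mem_filter, mem_Lev_rep] at hδ'
      omega
    have h8 : F1 ∪ G1' ⊆ (range d).image fun c => γ ++ [c] := by
      intro δ hδ
      rw [mem_union] at hδ
      have h9 : δ ≠ [] ∧ δ.dropLast = γ ∧ ∀ x ∈ δ, x < d := by
        rcases hδ with hδ | hδ
        · rw [hF1, mem_filter, mem_Reg_rep] at hδ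
          exact ⟨hδ.2.1, hδ.2.2, hδ.1.2⟩
        · rw [hG1, mem_filter, mem_Lev_rep] at hδ
          refine ⟨?_, hδ.2, hδ.1.2⟩
          rintro rfl
          have := hδ.1.1
          simp only [List.length_nil] at this
          omega
      obtain ⟨h10, h11, h12⟩ := h9
      rw [mem_image]
      refine ⟨δ.getLast h10, mem_range.2 (h12 _ (List.getLast_mem h10)), ?_⟩
      rw [← h11]
      exact List.dropLast_append_getLast h10
    have h9 := card_le_card h8
    rw [card_union_of_disjoint h7] at h9
    have h10 : ((range d).image fun c => γ ++ [c]).card ≤ d := card_image_le.trans (by simp)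
    exact_mod_cast h9.trans h10
  have h7 : (F2.card : ℝ) + (if γ = [] then 1 else 0) ≤ 1 := by
    by_cases h : γ = []
    · have : F2 = ∅ := by
        rw [hF2, filter_eq_empty_iff]
        rintro δ _ ⟨h8, _⟩
        exact h8 h
      rw [this, if_pos h]
      simp
    · have : F2 ⊆ {γ.dropLast} := by
        intro δ hδ
        rw [hF2, mem_filter] at hδ
        rw [mem_singleton]
        exact hδ.2.2.symm
      have h8 := card_le_card this
      rw [card_singleton] at h8
      rw [if_neg h, add_zero]
      exact_mod_cast h8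
  calc ∑ y ∈ gad k d a, tr l (replicate a 0 ++ γ) y +
        l * (((g1I k d).filter fun i => g1p a i = replicate a 0 ++ γ).card : ℝ)
      ≤ (l * F1.card + l * F2.card) + l * ((if γ = [] then 1 else 0) + G1'.card) := by
        rw [h1]
        exact add_le_add h2 (mul_le_mul_of_nonneg_left h5 hl)
    _ = l * ((F1.card + G1'.card) + (F2.card + (if γ = [] then 1 else 0))) := by ring
    _ ≤ l * (d + 1) := mul_le_mul_of_nonneg_left (add_le_add h6 h7) hl

end G1

theorem g1_arms (hl : 0 ≤ l) (hk : 1 ≤ k) (hd : 1 ≤ d) :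
    Arms l (d + 1) (tr l) (gad k d a) (g1I k d) (g1n a b) (g1φ a) (g1p a) where
  symm := tr_symm
  nonneg := tr_nonneg hl
  port := by
    intro i hi
    rw [g1I, mem_insert, mem_image] at hi
    rw [G1.mem_gad]
    rcases hi with rfl | ⟨w, hw, rfl⟩
    · refine ⟨[], ?_, by simp [g1p]⟩
      rw [G1.mem_Reg_rep]
      refine ⟨?_, by simp⟩
      simp only [List.length_nil]
      omega
    · refine ⟨w.dropLast, ?_, rfl⟩
      rw [G1.mem_Lev_rep] at hw
      rw [G1.mem_Reg_rep, List.length_dropLast]
      refine ⟨by omega, fun x hx => hw.2 x (List.mem_of_mem_dropLast hx)⟩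
  disjΓ := by
    intro i hi t ht
    rw [g1I, mem_insert, mem_image] at hi
    rw [G1.mem_gad]
    rintro ⟨γ, hγ, h⟩
    rw [G1.mem_Reg_rep] at hγ
    have h' := congrArg List.length h
    rcases hi with rfl | ⟨w, hw, rfl⟩
    · simp only [g1n] at ht
      simp only [g1φ, List.length_append, List.length_replicate] at h'
      omega
    · rw [G1.mem_Lev_rep] at hw
      simp only [g1φ, List.length_append, List.length_replicate] at h'
      omega
  inj := by
    intro i hi j hj s hs t ht h
    rw [g1I, mem_insert, mem_image] at hi hj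
    have h' := congrArg List.length h
    rcases hi with rfl | ⟨w, hw, rfl⟩ <;> rcases hj with rfl | ⟨w', hw', rfl⟩
    · simp only [g1n] at hs ht
      simp only [g1φ, List.length_replicate] at h'
      exact ⟨rfl, by omega⟩
    · rw [G1.mem_Lev_rep] at hw'
      simp only [g1n] at hs ht
      simp only [g1φ, List.length_append, List.length_replicate] at h'
      omega
    · rw [G1.mem_Lev_rep] at hw
      simp only [g1n] at hs ht
      simp only [g1φ, List.length_append, List.length_replicate] at h'
      omega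
    · rw [G1.mem_Lev_rep] at hw hw'
      simp only [g1φ] at h
      obtain ⟨h1, h2⟩ := G1.append_inj3 (hw.1.trans hw'.1.symm) h
      have h3 := congrArg List.length h2
      simp only [List.length_replicate] at h3
      exact ⟨by rw [h1], h3⟩
  rarm := by
    intro i hi s hs t ht
    rw [g1I, mem_insert, mem_image] at hi
    rcases hi with rfl | ⟨w, hw, rfl⟩
    · simp only [g1n] at hs ht
      simp only [g1φ]
      rw [G1.tr_rep]
      unfold nnN
      congr 1
      have : (a - 1 - s + 1 = a - 1 - t ∨ a - 1 - t + 1 = a - 1 - s) ↔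
          (s + 1 = t ∨ t + 1 = s) := by omega
      simp only [this]
    · simp only [g1φ]
      rw [tr_append, G1.tr_rep]
  rcross := by
    intro i hi j hj hij s hs t ht
    rw [g1I, mem_insert, mem_image] at hi hj
    rcases hi with rfl | ⟨w, hw, rfl⟩ <;> rcases hj with rfl | ⟨w', hw', rfl⟩
    · exact absurd rfl hij
    · rw [G1.mem_Lev_rep] at hw'
      simp only [g1n] at hs ht
      apply G1.tr_eq_zero_of_len <;>
      · simp only [g1φ, List.length_append, List.length_replicate]
        omega
    · rw [G1.mem_Lev_rep] at hw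
      simp only [g1n] at hs ht
      apply G1.tr_eq_zero_of_len <;>
      · simp only [g1φ, List.length_append, List.length_replicate]
        omega
    · rw [G1.mem_Lev_rep] at hw hw'
      have hne : w ≠ w' := fun h => hij (by rw [h])
      have key : ∀ (u u' : List ℕ) (s t : ℕ), u.length = k → u'.length = k → u ≠ u' →
          (replicate a 0 ++ u' ++ replicate t 0).dropLast ≠ replicate a 0 ++ u ++ replicate s 0 := by
        intro u u' s t hu hu' hne h
        cases t with
        | zero =>
          have h' := congrArg List.length h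
          simp only [List.length_dropLast, List.length_append, List.length_replicate] at h'
          omega
        | succ t =>
          rw [List.dropLast_append_of_ne_nil (by simp), List.dropLast_replicate] at h
          exact hne (G1.append_inj3 (hu.trans hu'.symm) h.symm).1
      simp only [g1φ]
      unfold tr
      rw [if_neg]
      rintro (⟨_, h⟩ | ⟨_, h⟩)
      · exact key w w' s t hw.1 hw'.1 hne h
      · exact key w' w t s hw'.1 hw.1 hne.symm h
  rport := by
    intro i hi x hx t ht
    rw [g1I, mem_insert, mem_image] at hi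
    obtain ⟨γ, hγ, rfl⟩ := G1.mem_gad.1 hx
    rw [G1.mem_Reg_rep] at hγ
    rcases hi with rfl | ⟨w, hw, rfl⟩
    · simp only [g1n] at ht
      simp only [g1φ, g1p]
      rw [tr_symm, G1.tr_of_lt (by simp only [List.length_append, List.length_replicate]; omega)]
      have : (replicate a 0 ++ γ).dropLast = replicate (a - 1 - t) 0 ↔
          (replicate a 0 ++ γ = replicate a 0 ∧ t = 0) := by
        constructor
        · intro h
          have h' := congrArg List.length h
          simp only [List.length_dropLast, List.length_append, List.length_replicate] at h'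
          have h1 : γ = [] := List.length_eq_zero_iff.1 (by omega)
          exact ⟨by simp [h1], by omega⟩
        · rintro ⟨h, rfl⟩
          rw [h, List.dropLast_replicate]
          rfl
      exact if_congr this rfl rfl
    · rw [G1.mem_Lev_rep] at hw
      simp only [g1φ, g1p]
      have hw0 : w ≠ [] := by
        rintro rfl
        simp only [List.length_nil] at hw
        omega
      rw [G1.tr_of_lt (by simp only [List.length_append, List.length_replicate]; omega)]
      have : (replicate a 0 ++ w ++ replicate t 0).dropLast = replicate a 0 ++ γ ↔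
          (replicate a 0 ++ γ = replicate a 0 ++ w.dropLast ∧ t = 0) := by
        constructor
        · intro h
          have h' := congrArg List.length h
          simp only [List.length_dropLast, List.length_append, List.length_replicate] at h'
          have h1 : t = 0 := by omega
          subst h1
          rw [← h]
          rw [List.replicate_zero, List.append_nil]
          exact ⟨List.dropLast_append_of_ne_nil hw0, rfl⟩
        · rintro ⟨h, rfl⟩
          rw [h]
          simp only [List.replicate_zero, List.append_nil]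
          exact List.dropLast_append_of_ne_nil hw0
      exact if_congr this rfl rfl
  deg := fun x hx => G1.deg_bound hl hx

theorem card_g1I : (g1I k d).card = d ^ k + 1 := by
  unfold g1I
  rw [card_insert_of_notMem (by simp), card_image_of_injective _ (Option.some_injective _),
    card_Lev, List.prod_replicate]

theorem card_gad : (gad k d a).card = (Reg (replicate k d)).card :=
  card_image_of_injective _ fun _ _ h => List.append_cancel_left h

theorem gad_subset (p : List ℕ) : gad k d a ⊆ Reg (replicate a 1 ++ replicate k d ++ p) := by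
  intro α hα
  obtain ⟨γ, hγ, rfl⟩ := G1.mem_gad.1 hα
  rw [Reg_append, Reg_append]
  refine mem_union_left _ (mem_union_right _ ?_)
  rw [mem_biUnion]
  exact ⟨replicate a 0, G1.mem_Lev_one.2 rfl, mem_image_of_mem _ hγ⟩

theorem g1_time (hl : 0 ≤ l) (hχ : PathBound l χ) (hk : 1 ≤ k) (hd : 1 ≤ d)
    {A : Finset (List ℕ)} (hA : A ⊆ gad k d a) :
    green (Reg (gprof k d a b)) (tr l) 0 (hit (gad k d a)) A ≤
      Tmax l χ (d + 1) (Reg (replicate k d)).card (d ^ k + 1) := by
  have h := ga_time hl (by positivity) hχ (g1_arms (a := a) (b := b) hl hk hd) hA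
  rw [g1_region hk hd, card_gad, card_g1I] at h
  exact h

theorem g1_alive (hl : 0 ≤ l) (hχ : PathBound l χ) (hk : 1 ≤ k) (hd : 1 ≤ d)
    {A : Finset (List ℕ)} (hA : A ⊆ gad k d a) :
    green (Reg (gprof k d a b)) (tr l) 0 (hit (Reg (gprof k d a b))) A ≤
      (1 + 2 * χ * (Real.log (1 + ((d ^ k + 1 : ℕ) : ℝ)) + l * χ ^ 2)) *
        green (Reg (gprof k d a b)) (tr l) 0 (hit (gad k d a)) A := by
  have h := ga_alive hl hχ (g1_arms (a := a) (b := b) hl hk hd) hA
  rw [g1_region hk hd, card_g1I] at h
  exact h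

theorem g1_card (hl : 0 ≤ l) (hχ : PathBound l χ) (hk : 1 ≤ k) (hd : 1 ≤ d)
    {A : Finset (List ℕ)} (hA : A ⊆ gad k d a) :
    green (Reg (gprof k d a b)) (tr l) 0 cardR A ≤
      (((Reg (replicate k d)).card : ℝ) + l * χ * ((d ^ k + 1 : ℕ) : ℝ)) *
        green (Reg (gprof k d a b)) (tr l) 0 (hit (gad k d a)) A := by
  have h := ga_card hl hχ (g1_arms (a := a) (b := b) hl hk hd) hA
  rw [g1_region hk hd, card_gad, card_g1I] at h
  exact h

namespace G1

lemma green_hit_mono (hl : 0 ≤ l) {R S T : Finset (List ℕ)} (hST : S ⊆ T) (A : Finset (List ℕ)) :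
    green R (tr l) 0 (hit S) A ≤ green R (tr l) 0 (hit T) A := by
  refine green_mono (tr_nonneg hl) (fun _ => le_rfl) (fun B _ _ => ?_) A
  unfold hit
  by_cases h : (B ∩ S).Nonempty
  · rw [if_pos h, if_pos (h.mono (inter_subset_inter_left hST))]
  · rw [if_neg h]
    split_ifs <;> norm_num

lemma up_step (hl : 0 < l) {R : Finset (List ℕ)} {γ : List ℕ} {c : ℕ}
    (h1 : replicate a 0 ++ γ ∈ R) (h2 : replicate a 0 ++ (γ ++ [c]) ∈ R) {A : Finset (List ℕ)}
    (hA : A ⊆ R) :
    green R (tr l) 0 (hit {replicate a 0 ++ γ}) A ≤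
      (1 + l) / l * green R (tr l) 0 (hit {replicate a 0 ++ (γ ++ [c])}) A := by
  refine (green_hit_mono hl.le (T := {replicate a 0 ++ (γ ++ [c]), replicate a 0 ++ γ})
    (by simp) A).trans ?_
  refine green_grow (tr_nonneg hl.le) (by simp) ?_ hl ?_ hA
  · intro x hx
    rw [mem_insert, mem_singleton] at hx
    rcases hx with rfl | rfl
    · exact h2
    · exact h1
  · intro y hy hy'
    rw [mem_insert, mem_singleton] at hy
    rw [mem_singleton] at hy'
    have : y = replicate a 0 ++ γ := hy.resolve_left hy'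
    subst this
    refine ⟨_, mem_singleton_self _, ?_⟩
    rw [tr_append]
    unfold tr
    rw [if_pos (Or.inl ⟨by simp, by simp⟩)]

lemma up_iter (hl : 0 < l) {R : Finset (List ℕ)} (hR : gad k d a ⊆ R) {A : Finset (List ℕ)}
    (hA : A ⊆ R) (n : ℕ) : ∀ γ ∈ Reg (replicate k d), γ.length = n →
    green R (tr l) 0 (hit {replicate a 0}) A ≤
      ((1 + l) / l) ^ n * green R (tr l) 0 (hit {replicate a 0 ++ γ}) A := by
  induction n with
  | zero =>
    intro γ _ h
    rw [List.length_eq_zero_iff.1 h]
    simp
  | succ n ih =>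
    intro γ hγ hn
    have h0 : γ ≠ [] := by rintro rfl; simp at hn
    have hγ' := mem_Reg_rep.1 hγ
    have h1 : γ.dropLast ∈ Reg (replicate k d) := by
      rw [mem_Reg_rep, List.length_dropLast]
      exact ⟨by omega, fun x hx => hγ'.2 x (List.mem_of_mem_dropLast hx)⟩
    have h2 := ih _ h1 (by rw [List.length_dropLast]; omega)
    have h3 : γ.dropLast ++ [γ.getLast h0] = γ := List.dropLast_append_getLast h0
    have h4 := up_step (a := a) (c := γ.getLast h0) hl
      (hR (mem_gad.2 ⟨_, h1, rfl⟩)) (by rw [h3]; exact hR (mem_gad.2 ⟨_, hγ, rfl⟩)) hA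
    rw [h3] at h4
    have h5 : 0 ≤ ((1 + l) / l) ^ n := by positivity
    calc _ ≤ _ := h2
      _ ≤ ((1 + l) / l) ^ n * ((1 + l) / l * green R (tr l) 0 (hit {replicate a 0 ++ γ}) A) :=
        mul_le_mul_of_nonneg_left h4 h5
      _ = _ := by rw [pow_succ]; ring

/-- vertices of the gadget of level at most `j` -/
def lay (k d a j : ℕ) : Finset (List ℕ) :=
  ((Reg (replicate k d)).filter fun γ => γ.length ≤ j).image fun γ => replicate a 0 ++ γ

lemma lay_subset (j : ℕ) : lay k d a j ⊆ gad k d a :=
  image_subset_image (filter_subset _ _)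

lemma lay_iter (hl : 0 < l) {R : Finset (List ℕ)} (hR : gad k d a ⊆ R) {A : Finset (List ℕ)}
    (hA : A ⊆ R) (n : ℕ) :
    green R (tr l) 0 (hit (lay k d a n)) A ≤
      ((1 + l) / l) ^ n * green R (tr l) 0 (hit {replicate a 0}) A := by
  induction n with
  | zero =>
    rw [pow_zero, one_mul]
    apply green_hit_mono hl.le
    intro α hα
    rw [lay, mem_image] at hα
    obtain ⟨γ, hγ, rfl⟩ := hα
    rw [mem_filter, Nat.le_zero, List.length_eq_zero_iff] at hγ
    rw [hγ.2]
    simp
  | succ n ih =>
    have h1 : green R (tr l) 0 (hit (lay k d a (n + 1))) A ≤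
        (1 + l) / l * green R (tr l) 0 (hit (lay k d a n)) A := by
      refine green_grow (tr_nonneg hl.le) ?_ ((lay_subset _).trans hR) hl ?_ hA
      · refine image_subset_image ?_
        intro γ hγ
        rw [mem_filter] at hγ ⊢
        exact ⟨hγ.1, hγ.2.trans (Nat.le_succ n)⟩
      · intro y hy hy'
        rw [lay, mem_image] at hy
        obtain ⟨γ, hγ, rfl⟩ := hy
        rw [mem_filter] at hγ
        have h2 : γ.length = n + 1 := by
          by_contra h
          apply hy'
          refine mem_image_of_mem _ (mem_filter.2 ⟨hγ.1, ?_⟩)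
          omega
        have h0 : γ ≠ [] := by rintro rfl; simp at h2
        have hγ' := mem_Reg_rep.1 hγ.1
        refine ⟨replicate a 0 ++ γ.dropLast, ?_, ?_⟩
        · refine mem_image_of_mem _ (mem_filter.2 ⟨?_, ?_⟩)
          · rw [mem_Reg_rep, List.length_dropLast]
            exact ⟨by omega, fun x hx => hγ'.2 x (List.mem_of_mem_dropLast hx)⟩
          · rw [List.length_dropLast]; omega
        · rw [tr_append]
          unfold tr
          rw [if_pos (Or.inr ⟨h0, rfl⟩)]
    calc _ ≤ _ := h1
      _ ≤ (1 + l) / l * (((1 + l) / l) ^ n * green R (tr l) 0 (hit {replicate a 0}) A) :=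
        mul_le_mul_of_nonneg_left ih (by positivity)
      _ = _ := by rw [pow_succ]; ring

end G1

/-- every vertex of the gadget is infected for a comparable time -/
theorem gad_compare (hl : 0 < l) {R : Finset (List ℕ)} (hR : gad k d a ⊆ R) {w : List ℕ}
    (hw : w ∈ gad k d a) {A : Finset (List ℕ)} (hA : A ⊆ R) :
    green R (tr l) 0 (hit (gad k d a)) A ≤
      ((1 + l) / l) ^ (2 * k) * green R (tr l) 0 (hit {w}) A := by
  obtain ⟨γ, hγ, rfl⟩ := G1.mem_gad.1 hw
  have hγ' := G1.mem_Reg_rep.1 hγ
  have hC : 1 ≤ (1 + l) / l := by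
    rw [le_div_iff₀ hl]
    linarith
  have h1 : green R (tr l) 0 (hit (gad k d a)) A ≤
      green R (tr l) 0 (hit (G1.lay k d a k)) A := by
    apply G1.green_hit_mono hl.le
    intro α hα
    obtain ⟨δ, hδ, rfl⟩ := G1.mem_gad.1 hα
    exact mem_image_of_mem _ (mem_filter.2 ⟨hδ, (G1.mem_Reg_rep.1 hδ).1.le⟩)
  have h2 := G1.lay_iter hl hR hA k
  have h3 := G1.up_iter hl hR hA _ γ hγ rfl
  have hg : 0 ≤ green R (tr l) 0 (hit {replicate a 0 ++ γ}) A :=
    green_nonneg (tr_nonneg hl.le) (fun _ => le_rfl)
      (fun B _ _ => by unfold hit; split_ifs <;> norm_num) A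
  calc _ ≤ _ := h1.trans h2
    _ ≤ ((1 + l) / l) ^ k * (((1 + l) / l) ^ γ.length *
        green R (tr l) 0 (hit {replicate a 0 ++ γ}) A) :=
      mul_le_mul_of_nonneg_left h3 (by positivity)
    _ ≤ ((1 + l) / l) ^ k * (((1 + l) / l) ^ k *
        green R (tr l) 0 (hit {replicate a 0 ++ γ}) A) := by
      refine mul_le_mul_of_nonneg_left ?_ (by positivity)
      exact mul_le_mul_of_nonneg_right (pow_le_pow_right₀ hC hγ'.1.le) hg
    _ = _ := by rw [two_mul, pow_add]; ring

end Pool.Agent.CP34
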