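import Pool.Agent.CP34.C4

/-! Module P: the contact process on finite paths. -/

open Finset Filter Topology

namespace Pool.Agent.CP34

section Paux
variable {V : Type*} [DecidableEq V]

lemma P_hit_empty (B : Finset V) : hit B ∅ = 0 := by simp [hit]

lemma P_hit_nonneg (B S : Finset V) : 0 ≤ hit B S := by unfold hit; split_ifs <;> norm_num

lemma P_hit_le_one (B S : Finset V) : hit B S ≤ 1 := by unfold hit; split_ifs <;> norm_num

lemma P_hit_single {w : V} (S : Finset V) : hit {w} S = if w ∈ S then 1 else 0 := by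
  unfold hit
  by_cases h : w ∈ S
  · rw [if_pos, if_pos h]
    exact ⟨w, by simp [h]⟩
  · rw [if_neg, if_neg h]
    rintro ⟨x, hx⟩
    rw [Finset.mem_inter, Finset.mem_singleton] at hx
    exact h (hx.2 ▸ hx.1)

lemma P_hit_le_cardR (B S : Finset V) : hit B S ≤ cardR S := by
  unfold hit cardR
  split_ifs with h
  · obtain ⟨x, hx⟩ := h
    have : 0 < S.card := card_pos.2 ⟨x, (Finset.mem_inter.1 hx).1⟩
    exact_mod_cast this
  · exact Nat.cast_nonneg _

lemma P_pt_nonneg {w : V} {c : ℝ} (hc : 0 ≤ c) (x : V) : 0 ≤ pt w c x := by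
  unfold pt; split_ifs
  · exact hc
  · exact le_rfl

lemma P_theta_self {R : Finset V} {r : V → V → ℝ} (hr : ∀ x y, 0 ≤ r x y) {w : V} (hw : w ∈ R)
    {c : ℝ} (hc : 0 ≤ c) : c / (1 + c) ≤ theta R r (pt w c) {w} := by
  have h1c : 0 < 1 + c := by linarith
  have hq : 0 ≤ c / (1 + c) := div_nonneg hc h1c.le
  have key := le_green (R := R) (r := r) (κ := pt w c) hr (P_pt_nonneg hc)
    (u := fun S => c / (1 + c) * hit {w} S) (f := kill (pt w c)) (by simp [P_hit_empty])
    (fun A hA hne => by
      rw [kill_pt]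
      have e1 : ∑ x ∈ R, (c / (1 + c) * hit {w} (A.erase x) - c / (1 + c) * hit {w} A) =
          - (c / (1 + c) * hit {w} A) := by
        rw [sum_eq_single_of_mem w hw]
        · rw [P_hit_single (A.erase w), if_neg (notMem_erase w A)]; ring
        · intro x _ hxw
          have : (w ∈ A.erase x) ↔ w ∈ A := by
            rw [mem_erase]; exact ⟨fun h => h.2, fun h => ⟨hxw.symm, h⟩⟩
          rw [P_hit_single, P_hit_single]
          simp only [this]; ring
      have e2 : 0 ≤ ∑ x ∈ R, ∑ y ∈ R, r x y * (c / (1 + c) * hit {w} (arr x y A) -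
          c / (1 + c) * hit {w} A) := by
        refine sum_nonneg fun x _ => sum_nonneg fun y _ => mul_nonneg (hr x y) ?_
        have h3 : hit {w} A ≤ hit {w} (arr x y A) := by
          rw [P_hit_single, P_hit_single]
          by_cases hwA : w ∈ A
          · rw [if_pos hwA, if_pos (subset_arr x y A hwA)]
          · rw [if_neg hwA]; split_ifs <;> norm_num
        have := mul_le_mul_of_nonneg_left h3 hq
        linarith
      have e3 : c / (1 + c) * (1 + c) = c := div_mul_cancel₀ _ h1c.ne'
      unfold genK gen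
      rw [e1, kill_pt]
      have hh : hit {w} A * hit {w} A = hit {w} A := by
        rw [P_hit_single]; split_ifs <;> norm_num
      have e4 : c * hit {w} A * (c / (1 + c) * hit {w} A) = c * (c / (1 + c)) * hit {w} A := by
        calc c * hit {w} A * (c / (1 + c) * hit {w} A)
            = c * (c / (1 + c)) * (hit {w} A * hit {w} A) := by ring
          _ = _ := by rw [hh]
      rw [e4]
      have e5 : c / (1 + c) * hit {w} A + c * (c / (1 + c)) * hit {w} A = c * hit {w} A := by
        calc c / (1 + c) * hit {w} A + c * (c / (1 + c)) * hit {w} A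
            = (c / (1 + c) * (1 + c)) * hit {w} A := by ring
          _ = _ := by rw [e3]
      linarith)
    {w} (singleton_subset_iff.2 hw)
  have h1 : hit {w} ({w} : Finset V) = 1 := by rw [P_hit_single, if_pos (mem_singleton_self w)]
  rw [h1, mul_one] at key
  exact key

/-- the generator on a larger region, at a subset of the smaller one -/
lemma P_gen_split {R R' : Finset V} (hR : R ⊆ R') (r : V → V → ℝ) (f : Finset V → ℝ)
    {A : Finset V} (hA : A ⊆ R) :
    gen R' r f A = gen R r f A + ∑ x ∈ R, ∑ y ∈ R' \ R, r x y * (f (arr x y A) - f A) := by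
  unfold gen
  have h1 : ∑ x ∈ R', (f (A.erase x) - f A) = ∑ x ∈ R, (f (A.erase x) - f A) := by
    symm
    apply sum_subset hR
    intro x _ hx
    rw [erase_eq_of_notMem (fun h => hx (hA h)), sub_self]
  have h2 : ∑ x ∈ R', ∑ y ∈ R', r x y * (f (arr x y A) - f A) =
      ∑ x ∈ R, ∑ y ∈ R', r x y * (f (arr x y A) - f A) := by
    symm
    apply sum_subset hR
    intro x _ hx
    refine sum_eq_zero fun y _ => ?_
    unfold arr
    rw [if_neg (fun h => hx (hA h)), sub_self, mul_zero]
  have h3 : ∀ x ∈ R, ∑ y ∈ R', r x y * (f (arr x y A) - f A) =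
      ∑ y ∈ R, r x y * (f (arr x y A) - f A) + ∑ y ∈ R' \ R, r x y * (f (arr x y A) - f A) := by
    intro x _
    have := Finset.sum_sdiff (f := fun y => r x y * (f (arr x y A) - f A)) hR
    linarith
  rw [h1, h2, Finset.sum_congr rfl h3, Finset.sum_add_distrib]
  ring

end Paux

section P
variable {l l' χ : ℝ}

lemma P_nn_nonneg (i j : ℕ) : 0 ≤ nnN i j := by unfold nnN; split_ifs <;> norm_num

lemma P_r_nonneg (hl : 0 ≤ l) (x y : ℕ) : 0 ≤ (l • nnN) x y := by
  show 0 ≤ l • nnN x y
  rw [smul_eq_mul]; exact mul_nonneg hl (P_nn_nonneg x y)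

lemma P_r_symm (l : ℝ) (x y : ℕ) : (l • nnN) x y = (l • nnN) y x := by
  show l • nnN x y = l • nnN y x
  unfold nnN
  congr 1
  exact if_congr or_comm rfl rfl

lemma P_r_apply (l : ℝ) (x y : ℕ) : (l • nnN) x y = l * nnN x y := rfl

lemma P_exit_sum {L L' : ℕ} (hL : 1 ≤ L) (hLL : L < L') (l : ℝ) (g : ℕ → ℕ → ℝ) :
    ∑ x ∈ range L, ∑ y ∈ range L' \ range L, (l • nnN) x y * g x y = l * g (L - 1) L := by
  rw [sum_eq_single_of_mem (L - 1) (mem_range.2 (by omega)),
    sum_eq_single_of_mem L (by rw [Finset.mem_sdiff, mem_range, mem_range]; omega)]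
  · rw [P_r_apply]; unfold nnN
    rw [if_pos (by omega), mul_one]
  · intro y hy hne
    rw [Finset.mem_sdiff, mem_range, mem_range] at hy
    rw [P_r_apply]; unfold nnN
    rw [if_neg (by omega)]; ring
  · intro x hx hne
    refine sum_eq_zero fun y hy => ?_
    rw [mem_range] at hx
    rw [Finset.mem_sdiff, mem_range, mem_range] at hy
    rw [P_r_apply]; unfold nnN
    rw [if_neg (by omega)]; ring

theorem PathBound.mono (h : PathBound l χ) (hl' : 0 ≤ l') (hle : l' ≤ l) : PathBound l' χ := by
  refine ⟨h.one_le, fun n i hi => le_trans ?_ (h.bound n i hi)⟩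
  refine green_rate_mono (P_r_nonneg hl') (P_r_nonneg (hl'.trans hle)) subset_rfl
    (fun x _ y _ => ?_) cardR_monoOn (by simp [cardR]) (singleton_subset_iff.2 (mem_range.2 hi))
  rw [P_r_apply, P_r_apply]
  exact mul_le_mul_of_nonneg_right hle (P_nn_nonneg x y)

lemma P_point_le (hl : 0 ≤ l) (h : PathBound l χ) {n i : ℕ} (hi : i < n) (B : Finset ℕ) :
    green (range n) (l • nnN) 0 (hit B) {i} ≤ χ :=
  (green_mono (P_r_nonneg hl) (fun _ => le_rfl) (fun A _ _ => P_hit_le_cardR B A) {i}).trans
    (h.bound n i hi)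

theorem path_full (hl : 0 ≤ l) (h : PathBound l χ) {n i : ℕ} (hi : i < n) :
    green (range n) (l • nnN) 0 (hit {i}) (range n) ≤ χ := by
  rw [green_dual (P_r_nonneg hl) (P_r_symm l) subset_rfl (singleton_subset_iff.2 (mem_range.2 hi))]
  exact P_point_le hl h hi _

lemma P_not_subset : ¬ (({0} : Finset ℕ) ⊆ range 0) := by simp

theorem aP_le (hl : 0 ≤ l) (L : ℕ) : aP l L ≤ l * gP l L := by
  rcases Nat.eq_zero_or_pos L with h0 | h0
  · subst h0
    unfold aP gP theta
    rw [green_not_subset _ P_not_subset, green_not_subset _ P_not_subset]; simp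
  · have hA : ({0} : Finset ℕ) ⊆ range L := singleton_subset_iff.2 (mem_range.2 h0)
    have h1 := theta_le_green (P_r_nonneg hl) (P_pt_nonneg (w := L - 1) hl) hA
    have h2 : green (range L) (l • nnN) 0 (kill (pt (L - 1) l)) {0} =
        l * green (range L) (l • nnN) 0 (hit {L - 1}) {0} := by
      rw [← green_smul (κ := (0 : ℕ → ℝ)) (P_r_nonneg hl) (fun _ => le_rfl)]
      exact green_congr (P_r_nonneg hl) (fun _ => le_rfl) (fun A _ _ => kill_pt l A) _
    rw [h2] at h1
    exact h1

theorem gP_nonneg (hl : 0 ≤ l) (L : ℕ) : 0 ≤ gP l L :=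
  green_nonneg (P_r_nonneg hl) (fun _ => le_rfl) (fun A _ _ => P_hit_nonneg _ A) _

lemma aP_nonneg (hl : 0 ≤ l) (L : ℕ) : 0 ≤ aP l L :=
  theta_nonneg (P_r_nonneg hl) (P_pt_nonneg hl) _

theorem gP_le (hl : 0 ≤ l) (h : PathBound l χ) {L : ℕ} (hL : 1 ≤ L) :
    l * gP l L ≤ (1 + l * χ) * aP l L := by
  have hA : ({0} : Finset ℕ) ⊆ range L := singleton_subset_iff.2 (mem_range.2 (by omega))
  have hw : L - 1 ∈ range L := mem_range.2 (by omega)
  have h1 := theta_point_ge (P_r_nonneg hl) hw hl hA
  have h2 := path_full hl h (n := L) (i := L - 1) (by omega)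
  have h3 : 0 ≤ green (range L) (l • nnN) 0 (hit {L - 1}) (range L) :=
    green_nonneg (P_r_nonneg hl) (fun _ => le_rfl) (fun A _ _ => P_hit_nonneg _ A) _
  have h4 : 0 < 1 + l * green (range L) (l • nnN) 0 (hit {L - 1}) (range L) := by
    have := mul_nonneg hl h3; linarith
  rw [div_le_iff₀ h4] at h1
  have h5 : theta (range L) (l • nnN) (pt (L - 1) l) {0} = aP l L := rfl
  rw [h5] at h1
  have h6 : aP l L * (1 + l * green (range L) (l • nnN) 0 (hit {L - 1}) (range L)) ≤
      aP l L * (1 + l * χ) := by
    apply mul_le_mul_of_nonneg_left _ (aP_nonneg hl L)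
    have := mul_le_mul_of_nonneg_left h2 hl
    linarith
  calc l * gP l L ≤ _ := h1
    _ ≤ _ := h6
    _ = _ := by ring

theorem aP_one (hl : 0 ≤ l) : aP l 1 = l / (1 + l) := by
  have h1l : 0 < 1 + l := by linarith
  unfold aP theta
  have key := green_unique (R := range 1) (r := l • nnN) (κ := pt (1 - 1) l) (P_r_nonneg hl)
    (P_pt_nonneg hl) (u := fun S => if S = ∅ then 0 else l / (1 + l)) (f := kill (pt (1 - 1) l))
    (by simp) (fun A hA hne => by
      have hA0 : A = {0} := by
        have h1 : range 1 = ({0} : Finset ℕ) := by simp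
        rw [h1] at hA
        rcases subset_singleton_iff.1 hA with h | h
        · exact absurd h hne
        · exact h
      subst hA0
      unfold genK gen
      have hk : kill (pt (1 - 1) l) ({0} : Finset ℕ) = l := by simp [kill, pt]
      rw [hk]
      have h1 : range 1 = ({0} : Finset ℕ) := by simp
      rw [h1]
      simp only [sum_singleton]
      have h2 : arr 0 0 ({0} : Finset ℕ) = {0} := by simp [arr]
      rw [h2]
      simp
      field_simp
      ring) {0} (by simp)
  rw [key]
  simp

theorem aP_succ (hl : 0 ≤ l) {L : ℕ} (hL : 1 ≤ L) : aP l L * (l / (1 + l)) ≤ aP l (L + 1) := by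
  have h1 := strong_markov (R := range L) (R' := range (L + 1)) (r := l • nnN)
    (F := theta (range (L + 1)) (l • nnN) (pt L l)) (P_r_nonneg hl)
    (range_subset_range.2 (by omega)) (theta_monoOn (P_r_nonneg hl) (P_pt_nonneg hl))
    (theta_empty).ge
    (fun A hA hne => by
      rw [gen_theta (P_r_nonneg hl) (P_pt_nonneg hl)
        (hA.trans (range_subset_range.2 (by omega))) hne, kill_pt, P_hit_single,
        if_neg (fun hh => by simpa using hA hh)]
      simp)
    (w := L - 1) (y := L) (mem_range.2 (by omega)) (mem_range.2 (by omega)) (by simp) (c := l) hl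
    (by rw [P_r_apply]; unfold nnN; rw [if_pos (by omega), mul_one])
    (A := {0}) (singleton_subset_iff.2 (mem_range.2 (by omega)))
  have h2 := P_theta_self (R := range (L + 1)) (P_r_nonneg hl) (w := L)
    (mem_range.2 (by omega)) hl
  have h3 : aP l L * (l / (1 + l)) ≤
      aP l L * theta (range (L + 1)) (l • nnN) (pt L l) {L} :=
    mul_le_mul_of_nonneg_left h2 (aP_nonneg hl L)
  exact h3.trans h1

theorem aP_pos (hl : 0 < l) {L : ℕ} (hL : 1 ≤ L) : 0 < aP l L := by
  induction L, hL using Nat.le_induction with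
  | base => rw [aP_one hl.le]; positivity
  | succ L hL ih =>
    refine lt_of_lt_of_le ?_ (aP_succ hl.le hL)
    have : 0 < l / (1 + l) := by positivity
    exact mul_pos ih this

lemma aP_anti_succ (hl : 0 ≤ l) {L : ℕ} (hL : 1 ≤ L) : aP l (L + 1) ≤ aP l L := by
  have hsub : range L ⊆ range (L + 1) := range_subset_range.2 (by omega)
  have key := le_green (R := range L) (r := l • nnN) (κ := pt (L - 1) l) (P_r_nonneg hl)
    (P_pt_nonneg hl) (u := theta (range (L + 1)) (l • nnN) (pt L l))
    (f := kill (pt (L - 1) l)) (theta_empty).le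
    (fun A hA hne => by
      have hg := gen_theta (R := range (L + 1)) (r := l • nnN) (κ := pt L l)
        (P_r_nonneg hl) (P_pt_nonneg hl) (hA.trans hsub) hne
      rw [kill_pt, P_hit_single, if_neg (fun hh => by simpa using hA hh), mul_zero, zero_mul,
        neg_zero, P_gen_split hsub _ _ hA] at hg
      have hs := P_exit_sum (L := L) (L' := L + 1) hL (by omega) l
        (fun x y => theta (range (L + 1)) (l • nnN) (pt L l) (arr x y A) -
          theta (range (L + 1)) (l • nnN) (pt L l) A)
      rw [hs] at hg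
      unfold genK
      rw [kill_pt, P_hit_single]
      by_cases hw : L - 1 ∈ A
      · rw [if_pos hw]
        have h1 := theta_le_one (R := range (L + 1)) (r := l • nnN) (κ := pt L l)
          (P_r_nonneg hl) (P_pt_nonneg hl) (arr (L - 1) L A)
        have h2 := mul_le_mul_of_nonneg_left h1 hl
        nlinarith
      · rw [if_neg hw]
        have h1 : arr (L - 1) L A = A := by unfold arr; rw [if_neg hw]
        rw [h1] at hg
        simp at hg ⊢
        linarith)
    {0} (singleton_subset_iff.2 (mem_range.2 (by omega)))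
  exact key

theorem aP_anti (hl : 0 ≤ l) {L L' : ℕ} (hL : 1 ≤ L) (h : L ≤ L') : aP l L' ≤ aP l L := by
  induction L', h using Nat.le_induction with
  | base => exact le_rfl
  | succ L' h ih => exact (aP_anti_succ hl (hL.trans h)).trans ih

theorem gP_mono_rate (hl : 0 ≤ l') (hle : l' ≤ l) (L : ℕ) : gP l' L ≤ gP l L := by
  rcases Nat.eq_zero_or_pos L with h0 | h0
  · subst h0
    unfold gP
    rw [green_not_subset _ P_not_subset, green_not_subset _ P_not_subset]
  · refine green_rate_mono (P_r_nonneg hl) (P_r_nonneg (hl.trans hle)) subset_rfl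
      (fun x _ y _ => ?_) (hit_monoOn _) (P_hit_nonneg _ _)
      (singleton_subset_iff.2 (mem_range.2 h0))
    rw [P_r_apply, P_r_apply]
    exact mul_le_mul_of_nonneg_right hle (P_nn_nonneg x y)

lemma P_cardR_eq {n : ℕ} {A : Finset ℕ} (hA : A ⊆ range n) :
    cardR A = ∑ j ∈ range n, hit {j} A := by
  have h1 : ∀ j, hit {j} A = if j ∈ A then (1 : ℝ) else 0 := fun j => P_hit_single A
  simp only [h1]
  rw [← sum_filter, sum_const, nsmul_eq_mul, mul_one]
  unfold cardR
  congr 2
  ext x
  rw [mem_filter]
  exact ⟨fun h => ⟨hA h, h⟩, fun h => h.2⟩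

theorem gP_tendsto (hl : 0 ≤ l) (h : PathBound l χ) : Tendsto (gP l) atTop (𝓝 0) := by
  have hsum : Summable fun j => gP l (j + 1) := by
    refine summable_of_sum_range_le (c := χ) (fun j => gP_nonneg hl _) fun n => ?_
    rcases Nat.eq_zero_or_pos n with h0 | h0
    · subst h0
      simp
      linarith [h.one_le]
    · have hA : ({0} : Finset ℕ) ⊆ range n := singleton_subset_iff.2 (mem_range.2 h0)
      calc ∑ j ∈ range n, gP l (j + 1)
          ≤ ∑ j ∈ range n, green (range n) (l • nnN) 0 (hit {j}) {0} := by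
            refine sum_le_sum fun j hj => ?_
            rw [mem_range] at hj
            unfold gP
            rw [Nat.add_sub_cancel]
            exact green_rate_mono (P_r_nonneg hl) (P_r_nonneg hl)
              (range_subset_range.2 (by omega)) (fun x _ y _ => le_rfl) (hit_monoOn _)
              (P_hit_nonneg _ _) (singleton_subset_iff.2 (mem_range.2 (by omega)))
        _ = green (range n) (l • nnN) 0 (fun S => ∑ j ∈ range n, hit {j} S) {0} :=
            (green_sum (P_r_nonneg hl) (fun _ => le_rfl) (range n) (fun j => hit {j}) {0}).symm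
        _ = green (range n) (l • nnN) 0 cardR {0} :=
            green_congr (P_r_nonneg hl) (fun _ => le_rfl)
              (fun A hA _ => (P_cardR_eq hA).symm) _
        _ ≤ χ := h.bound n 0 h0
  exact (tendsto_add_atTop_iff_nat 1).1 hsum.tendsto_atTop_zero

lemma P_subadd (hl : 0 ≤ l) (n : ℕ) (B : Finset ℕ) :
    SubAddOn (range n) (green (range n) (l • nnN) 0 (hit B)) :=
  (green_subModOn (P_r_nonneg hl) (hit_monoOn B) (P_hit_empty B) (hit_subModOn B)).subAddOn
    (green_empty _)

/-- union bound for the exit from `range L` into `range L'` -/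
lemma P_exit_bound (hl : 0 ≤ l) {L L' : ℕ} (hL : 1 ≤ L) (hLL : L < L') (B : Finset ℕ)
    {A : Finset ℕ} (hA : A ⊆ range L) :
    green (range L') (l • nnN) 0 (hit B) A ≤ green (range L) (l • nnN) 0 (hit B) A +
      l * green (range L) (l • nnN) 0 (hit {L - 1}) A *
        green (range L') (l • nnN) 0 (hit B) {L} := by
  have hsub : range L ⊆ range L' := range_subset_range.2 hLL.le
  have key := union_bound (R := range L) (R' := range L') (r := l • nnN)
    (F := green (range L') (l • nnN) 0 (hit B)) (c := hit B) (P_r_nonneg hl) hsub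
    (green_empty _).le
    (fun S hS x hx y hy _ => by
      have hy' : ({y} : Finset ℕ) ⊆ range L' :=
        singleton_subset_iff.2 (Finset.mem_sdiff.1 hy).1
      have := P_subadd hl L' B S {y} (hS.trans hsub) hy'
      rwa [union_comm, ← insert_eq] at this)
    (fun S hS hne => by rw [gen_green (P_r_nonneg hl) _ (hS.trans hsub) hne]) hA
  refine key.trans (le_of_eq ?_)
  congr 1
  have := P_exit_sum hL hLL l (fun x y => green (range L) (l • nnN) 0 (hit {x}) A *
    green (range L') (l • nnN) 0 (hit B) {y})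
  rw [mul_assoc, ← this]
  exact sum_congr rfl fun x _ => sum_congr rfl fun y _ => by ring

theorem gP_anti (hl : 0 ≤ l) (h : PathBound l χ) {L L' : ℕ} (hL : 1 ≤ L) (hLL : L ≤ L') :
    gP l L' ≤ (1 + l * χ) * gP l L := by
  have hχ : 0 ≤ χ := le_trans zero_le_one h.one_le
  have hlχ : 0 ≤ l * χ := mul_nonneg hl hχ
  have hg := gP_nonneg hl L
  rcases hLL.eq_or_lt with h1 | h1
  · subst h1
    nlinarith
  · have hA : ({0} : Finset ℕ) ⊆ range L := singleton_subset_iff.2 (mem_range.2 (by omega))
    have h2 := P_exit_bound hl hL h1 {L' - 1} hA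
    have h3 : green (range L) (l • nnN) 0 (hit {L' - 1}) {0} = 0 :=
      (green_congr (R := range L) (κ := (0 : ℕ → ℝ)) (f := hit {L' - 1}) (g := fun _ => 0)
        (P_r_nonneg hl) (fun _ => le_rfl)
        (fun A hA _ => by
          rw [P_hit_single, if_neg]
          intro hh
          have := mem_range.1 (hA hh)
          omega) _).trans (green_zero (P_r_nonneg hl) (fun _ => le_rfl) _)
    rw [h3, zero_add] at h2
    have h4 := P_point_le hl h (n := L') (i := L) h1 {L' - 1}
    have h5 : l * gP l L * green (range L') (l • nnN) 0 (hit {L' - 1}) {L} ≤ l * gP l L * χ :=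
      mul_le_mul_of_nonneg_left h4 (mul_nonneg hl hg)
    have h6 : gP l L' ≤ l * gP l L * green (range L') (l • nnN) 0 (hit {L' - 1}) {L} := h2
    calc gP l L' ≤ l * gP l L * χ := h6.trans h5
      _ ≤ (1 + l * χ) * gP l L := by nlinarith

/-- return to the end `0` of a long path -/
theorem path_return (hl : 0 ≤ l) (h : PathBound l χ) {n j : ℕ} (hj : j < n) :
    green (range n) (l • nnN) 0 (hit {0}) {j} ≤ (1 + l * χ) * gP l (j + 1) := by
  have hχ : 0 ≤ χ := le_trans zero_le_one h.one_le
  have hlχ : 0 ≤ l * χ := mul_nonneg hl hχ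
  have hg := gP_nonneg hl (j + 1)
  rw [green_dual (P_r_nonneg hl) (P_r_symm l) (singleton_subset_iff.2 (mem_range.2 hj))
    (singleton_subset_iff.2 (mem_range.2 (by omega)))]
  rcases (Nat.succ_le_of_lt hj).eq_or_lt with h1 | h1
  · have h2 : green (range n) (l • nnN) 0 (hit {j}) {0} = gP l (j + 1) := by
      unfold gP; rw [Nat.add_sub_cancel, ← h1]
    rw [h2]
    nlinarith
  · have hA : ({0} : Finset ℕ) ⊆ range (j + 1) := singleton_subset_iff.2 (mem_range.2 (by omega))
    have h2 := P_exit_bound hl (L := j + 1) (L' := n) (by omega) h1 {j} hA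
    rw [Nat.add_sub_cancel] at h2
    have h3 : green (range (j + 1)) (l • nnN) 0 (hit {j}) {0} = gP l (j + 1) := by
      unfold gP; rw [Nat.add_sub_cancel]
    rw [h3] at h2
    have h4 := P_point_le hl h (n := n) (i := j + 1) h1 {j}
    have h5 : l * gP l (j + 1) * green (range n) (l • nnN) 0 (hit {j}) {j + 1} ≤
        l * gP l (j + 1) * χ := mul_le_mul_of_nonneg_left h4 (mul_nonneg hl hg)
    calc _ ≤ _ := h2
      _ ≤ gP l (j + 1) + l * gP l (j + 1) * χ := by linarith
      _ = _ := by ring

/-- reflection of the path -/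
theorem gP_refl (hl : 0 ≤ l) (L : ℕ) :
    green (range L) (l • nnN) 0 (hit {0}) {L - 1} = gP l L := by
  rcases Nat.eq_zero_or_pos L with h0 | h0
  · subst h0
    unfold gP
    rw [green_not_subset _ (by simp)]
  · exact green_dual (P_r_nonneg hl) (P_r_symm l)
      (singleton_subset_iff.2 (mem_range.2 (by omega)))
      (singleton_subset_iff.2 (mem_range.2 (by omega)))

theorem aP_refl (hl : 0 ≤ l) (L : ℕ) :
    theta (range L) (l • nnN) (pt 0 l) {L - 1} = aP l L := by
  rcases Nat.eq_zero_or_pos L with h0 | h0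
  · subst h0
    unfold aP theta
    rw [green_not_subset _ (by simp)]
  · have hinj : Set.InjOn (fun i : ℕ => L - 1 - i) (range L) := by
      intro x hx y hy hxy
      rw [Finset.mem_coe, mem_range] at hx hy
      dsimp only at hxy
      omega
    have himg : (range L).image (fun i : ℕ => L - 1 - i) = range L := by
      ext x
      rw [Finset.mem_image, mem_range]
      constructor
      · rintro ⟨i, _, rfl⟩; omega
      · intro hx
        exact ⟨L - 1 - x, mem_range.2 (by omega), by omega⟩
    have key := theta_image (R := range L) (φ := fun i : ℕ => L - 1 - i) (r := l • nnN)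
      (r' := l • nnN) (κ := pt (L - 1) l) (κ' := pt 0 l) (P_r_nonneg hl) (P_r_nonneg hl)
      (P_pt_nonneg hl) (P_pt_nonneg hl) hinj
      (fun x hx y hy => by
        rw [mem_range] at hx hy
        rw [P_r_apply, P_r_apply]
        unfold nnN
        congr 1
        apply if_congr _ rfl rfl
        omega)
      (fun x hx => by
        rw [mem_range] at hx
        unfold pt
        apply if_congr _ rfl rfl
        omega) (A := {0}) (singleton_subset_iff.2 (mem_range.2 h0))
    rw [himg, image_singleton] at key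
    exact key

end P

end Pool.Agent.CP34
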