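import Pool.Agent.CP34.Defs2
import Pool.Agent.CP34.P
import Pool.Agent.CP34.TR

/-! # Tools for tree regions (shared by GT, BK, HT) -/

open Finset Filter Topology
open List (replicate)

namespace Pool.Agent.CP34

variable {l : ℝ} {p q : List ℕ} {k d a b : ℕ}

lemma tt_lev_rep (b : ℕ) : Lev (replicate b 1) = {replicate b 0} := by
  induction b with
  | zero => simp [Lev]
  | succ b ih =>
    rw [List.replicate_succ, List.replicate_succ]
    simp [Lev, ih]

lemma tt_lev_link (p : List ℕ) (b : ℕ) :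
    Lev (p ++ replicate b 1) = (Lev p).image fun w => w ++ replicate b 0 := by
  rw [Lev_append, tt_lev_rep]
  ext w
  simp [eq_comm]

lemma tt_append_right_inj (b : ℕ) : Function.Injective fun w : List ℕ => w ++ replicate b 0 :=
  fun _ _ h => List.append_cancel_right h

lemma tt_sum_link {M : Type*} [AddCommMonoid M] (p : List ℕ) (b : ℕ) (f : List ℕ → M) :
    ∑ w ∈ Lev (p ++ replicate b 1), f w = ∑ w ∈ Lev p, f (w ++ replicate b 0) := by
  rw [tt_lev_link, sum_image fun _ _ _ _ h => tt_append_right_inj b h]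

lemma tt_sum_append {M : Type*} [AddCommMonoid M] (p q : List ℕ) (f : List ℕ → M) :
    ∑ w ∈ Lev (p ++ q), f w = ∑ y ∈ Lev p, ∑ w ∈ Lev q, f (y ++ w) := by
  rw [Lev_append, sum_biUnion]
  · refine sum_congr rfl fun y _ => ?_
    rw [sum_image fun _ _ _ _ h => List.append_cancel_left h]
  · intro y hy y' hy' hne
    rw [Function.onFun, Finset.disjoint_left]
    intro w hw hw'
    obtain ⟨u, _, rfl⟩ := Finset.mem_image.1 hw
    obtain ⟨u', _, h⟩ := Finset.mem_image.1 hw'
    apply hne
    have h1 := (mem_Lev.1 (Finset.mem_coe.1 hy)).1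
    have h2 := (mem_Lev.1 (Finset.mem_coe.1 hy')).1
    exact (List.append_inj h (h2.trans h1.symm)).1.symm

lemma tt_dropLast_link (w : List ℕ) (hb : 1 ≤ b) :
    (w ++ replicate b 0).dropLast = w ++ replicate (b - 1) 0 := by
  rw [List.dropLast_append_of_ne_nil (by
    intro h; have := congrArg List.length h; simp at this; omega), List.dropLast_replicate]

lemma tt_root_lev (a : ℕ) : replicate a 0 ∈ Lev (replicate a 1) := by
  rw [tt_lev_rep]; simp

lemma tt_root_mem (hk : 1 ≤ k) : replicate a 0 ∈ gad k d a := by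
  unfold gad
  refine Finset.mem_image.2 ⟨[], TR_nil_mem ?_, by simp⟩
  intro h; have := congrArg List.length h; simp at this; omega

lemma tt_rep_ne (hk : 1 ≤ k) (x : ℕ) : replicate k x ≠ [] := by
  intro h; have := congrArg List.length h; simp at this; omega

lemma tt_port_mem (hk : 1 ≤ k) {w : List ℕ} (hw : w ∈ Lev (replicate a 1 ++ replicate k d)) :
    w.dropLast ∈ gad k d a := by
  rw [Lev_append, tt_lev_rep, singleton_biUnion] at hw
  obtain ⟨γ, hγ, rfl⟩ := Finset.mem_image.1 hw
  have hk' := tt_rep_ne hk d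
  have hγ' : γ ≠ [] := by
    intro h
    have := (mem_Lev.1 hγ).1
    rw [h] at this
    simp at this; omega
  rw [List.dropLast_append_of_ne_nil hγ']
  exact Finset.mem_image.2 ⟨γ.dropLast, TR_dropLast_Lev hγ hk', rfl⟩

lemma tt_gad_sub (k d a : ℕ) (p : List ℕ) :
    gad k d a ⊆ Reg (replicate a 1 ++ replicate k d ++ p) := by
  refine Finset.Subset.trans ?_ (TR_Reg_sub _ p)
  rw [Reg_append, tt_lev_rep, singleton_biUnion]
  exact subset_union_right

lemma tt_hit_left {S T : Finset (List ℕ)} (h : S ⊆ T) (A : Finset (List ℕ)) :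
    hit S A ≤ hit T A := by
  rw [hit_comm S A, hit_comm T A]; exact hit_mono h

lemma tt_hit_le_card (B S : Finset (List ℕ)) : hit B S ≤ cardR S := P_hit_le_cardR B S

lemma tt_card_image (β : List ℕ) (S : Finset (List ℕ)) :
    cardR (S.image fun γ => β ++ γ) = cardR S := by
  unfold cardR
  rw [card_image_of_injective _ fun _ _ h => List.append_cancel_left h]

/-- a copy of `Reg q` below `y` is contained in the bigger region -/
lemma tt_copy_sub {y : List ℕ} (hy : y ∈ Lev p) (s : List ℕ) :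
    (Reg q).image (fun γ => y ++ γ) ⊆ Reg (p ++ (q ++ s)) := by
  rw [Reg_append]
  intro x hx
  obtain ⟨γ, hγ, rfl⟩ := Finset.mem_image.1 hx
  exact Finset.mem_union_right _ (mem_biUnion.2 ⟨y, hy, Finset.mem_image.2
    ⟨γ, TR_Reg_sub q s hγ, rfl⟩⟩)

/-- occupation in a copy is smaller than in the big region -/
lemma tt_green_copy (hl : 0 ≤ l) {y : List ℕ} (hy : y ∈ Lev p) (s : List ℕ)
    {f : Finset (List ℕ) → ℝ} (hf : ∀ S T, S ⊆ T → f S ≤ f T) (h0 : 0 ≤ f ∅)
    {A : Finset (List ℕ)} (hA : A ⊆ Reg q) :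
    green (Reg q) (tr l) 0 (fun S => f (S.image fun γ => y ++ γ)) A ≤
      green (Reg (p ++ (q ++ s))) (tr l) 0 f (A.image fun γ => y ++ γ) := by
  rw [← green_shift hl f y hA]
  exact green_rate_mono (tr_nonneg hl) (tr_nonneg hl) (tt_copy_sub hy s)
    (fun _ _ _ _ => le_rfl) (fun S T h _ => hf S T h) h0 (image_subset_image hA)

lemma tt_green_copy_hit (hl : 0 ≤ l) {y : List ℕ} (hy : y ∈ Lev p) (s : List ℕ) {u v : List ℕ}
    (hu : u ∈ Reg q) :
    green (Reg q) (tr l) 0 (hit {v}) {u} ≤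
      green (Reg (p ++ (q ++ s))) (tr l) 0 (hit {y ++ v}) {y ++ u} := by
  have h := tt_green_copy hl hy s (f := hit {y ++ v}) (fun S T h => hit_mono h) (by simp)
    (A := {u}) (by simpa using hu)
  rw [image_singleton] at h
  refine le_trans (le_of_eq ?_) h
  exact green_congr (tr_nonneg hl) (fun _ => le_rfl)
    (fun S _ _ => (TR_hit_image y v S).symm) _

lemma tt_green_copy_card (hl : 0 ≤ l) {y : List ℕ} (hy : y ∈ Lev p) (s : List ℕ) {u : List ℕ}
    (hu : u ∈ Reg q) :
    green (Reg q) (tr l) 0 cardR {u} ≤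
      green (Reg (p ++ (q ++ s))) (tr l) 0 cardR {y ++ u} := by
  have h := tt_green_copy hl hy s (f := cardR) (fun S T h => by
    unfold cardR; exact_mod_cast card_le_card h) (by simp)
    (A := {u}) (by simpa using hu)
  rw [image_singleton] at h
  refine le_trans (le_of_eq ?_) h
  exact green_congr (tr_nonneg hl) (fun _ => le_rfl)
    (fun S _ _ => (tt_card_image y S).symm) _

/-- duality for two vertices -/
lemma tt_dual (hl : 0 ≤ l) {R : Finset (List ℕ)} {u v : List ℕ} (hu : u ∈ R) (hv : v ∈ R) :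
    green R (tr l) 0 (hit {v}) {u} = green R (tr l) 0 (hit {u}) {v} :=
  green_dual (tr_nonneg hl) tr_symm (by simpa using hu) (by simpa using hv)

lemma tt_green_nonneg (hl : 0 ≤ l) {R : Finset (List ℕ)} (B A : Finset (List ℕ)) :
    0 ≤ green R (tr l) 0 (hit B) A :=
  green_nonneg (tr_nonneg hl) (fun _ => le_rfl) (fun S _ _ => hit_nonneg B S) A

lemma tt_green_left (hl : 0 ≤ l) {R : Finset (List ℕ)} {S T : Finset (List ℕ)} (h : S ⊆ T)
    (A : Finset (List ℕ)) : green R (tr l) 0 (hit S) A ≤ green R (tr l) 0 (hit T) A :=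
  green_mono (tr_nonneg hl) (fun _ => le_rfl) (fun B _ _ => tt_hit_left h B) A

lemma tt_green_hit_card (hl : 0 ≤ l) {R : Finset (List ℕ)} (B A : Finset (List ℕ)) :
    green R (tr l) 0 (hit B) A ≤ green R (tr l) 0 cardR A :=
  green_mono (tr_nonneg hl) (fun _ => le_rfl) (fun S _ _ => tt_hit_le_card B S) A

end Pool.Agent.CP34
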