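import Pool.Agent.CP34.Defs2
import Pool.Agent.CP34.G1
import Pool.Agent.CP34.AL
import Pool.Agent.CP34.TT

/-! # Module BK: uniform bounds for blocks -/

open Finset Filter Topology
open List (replicate)

namespace Pool.Agent.CP34

variable {l χ : ℝ} {k d ℓ N : ℕ} {ε q Cs : ℝ}

/-- profile of `b` generations of gadgets, each with its up-link, and final links of length `N` -/
def bkT (k d ℓ N : ℕ) : ℕ → List ℕ
  | 0 => replicate N 1
  | b + 1 => replicate ℓ 1 ++ (replicate k d ++ bkT k d ℓ N b)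

/-- the same profile without the first `ℓ` link levels -/
def bkT' (k d ℓ N : ℕ) : ℕ → List ℕ
  | 0 => replicate (N - ℓ) 1
  | b + 1 => replicate k d ++ bkT k d ℓ N b

lemma bk_T' (hN : ℓ ≤ N) (b : ℕ) : bkT k d ℓ N b = replicate ℓ 1 ++ bkT' k d ℓ N b := by
  cases b with
  | zero =>
    show replicate N 1 = replicate ℓ 1 ++ replicate (N - ℓ) 1
    rw [List.replicate_append_replicate]; congr 1; omega
  | succ b => rfl

lemma bk_GG (b : ℕ) : replicate k d ++ bkT k d ℓ N b = GG k d ℓ b ++ replicate N 1 := by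
  induction b with
  | zero => rfl
  | succ b ih =>
    show replicate k d ++ (replicate ℓ 1 ++ (replicate k d ++ bkT k d ℓ N b)) =
      (replicate k d ++ (replicate ℓ 1 ++ GG k d ℓ b)) ++ replicate N 1
    rw [ih]; simp [List.append_assoc]

lemma bk_succ (b : ℕ) : bkT k d ℓ N (b + 1) = replicate ℓ 1 ++ (GG k d ℓ b ++ replicate N 1) := by
  show replicate ℓ 1 ++ (replicate k d ++ bkT k d ℓ N b) = _
  rw [bk_GG]

lemma bk_e1 (b : ℕ) : bkT k d ℓ N (b + 1) =
    (replicate ℓ 1 ++ replicate k d) ++ bkT k d ℓ N b := by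
  show replicate ℓ 1 ++ (replicate k d ++ bkT k d ℓ N b) = _
  rw [List.append_assoc]

lemma bk_e2 (hN : ℓ ≤ N) (b : ℕ) : bkT k d ℓ N (b + 1) = gprof k d ℓ ℓ ++ bkT' k d ℓ N b := by
  rw [bk_e1, bk_T' hN b]; unfold gprof; simp [List.append_assoc]

lemma bk_ne (hk : 1 ≤ k) (a : ℕ) : (replicate a 1 ++ replicate k d : List ℕ) ≠ [] := by
  intro h; have := congrArg List.length h; simp at this; omega

lemma bk_hit_zero {p y v : List ℕ} (hy : y ∈ Lev p) (hv : v.length < p.length)
    (S : Finset (List ℕ)) : hit {v} (S.image fun γ => y ++ γ) = 0 := by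
  unfold hit
  rw [if_neg]
  rintro ⟨z, hz⟩
  rw [Finset.mem_inter, Finset.mem_singleton] at hz
  obtain ⟨γ, _, h⟩ := Finset.mem_image.1 hz.1
  rw [hz.2] at h
  have h1 := congrArg List.length h
  rw [List.length_append, (mem_Lev.1 hy).1] at h1
  omega

/-- composition lemma -/
lemma bk_comp (hT : Tuned l χ k d ℓ ε q Cs) (hN : ℓ ≤ N) {b : ℕ} {F c : Finset (List ℕ) → ℝ}
    (h0 : F ∅ ≤ 0) (hsub : SubAddOn (Reg (bkT k d ℓ N (b + 1))) F)
    (hF : ∀ B ⊆ Reg (bkT k d ℓ N (b + 1)), B ≠ ∅ →
      - c B ≤ gen (Reg (bkT k d ℓ N (b + 1))) (tr l) F B)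
    (hF0 : ∀ v ∈ gad k d ℓ, 0 ≤ F {v}) {X Y : ℝ}
    (hX : ∀ v ∈ gad k d ℓ, green (Reg (gprof k d ℓ ℓ)) (tr l) 0 c {v} ≤ X)
    (hY : ∀ y ∈ Lev (replicate ℓ 1 ++ replicate k d),
      green (Reg (bkT k d ℓ N b)) (tr l) 0 (fun S => c (S.image fun γ => y ++ γ))
        {replicate ℓ 0} ≤ Y) (hX0 : 0 ≤ X) (hY0 : 0 ≤ Y)
    (hu : l * green (Reg (bkT k d ℓ N b)) (tr l) 0 (hit {[]}) {replicate ℓ 0} ≤ 2 * ε) :
    ∀ v ∈ gad k d ℓ, F {v} ≤ 2 * (X + q * Y) := by
  have hl := hT.l0
  have hk := hT.hk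
  obtain ⟨v0, hv0, hmax⟩ := exists_max_image (gad k d ℓ) (fun v => F {v})
    ⟨_, tt_root_mem hk⟩
  set Φ := F {v0} with hΦ
  have hΦ0 : 0 ≤ Φ := hF0 _ hv0
  have hprof_ne : gprof k d ℓ ℓ ≠ [] := by
    intro h; have := congrArg List.length h; simp [gprof] at this; omega
  have hZ0 : 0 ≤ Y + 2 * ε * Φ := by
    have := hT.ε0
    positivity
  have key : ∀ v ∈ gad k d ℓ, F {v} ≤ X + q * (Y + 2 * ε * Φ) := by
    intro v hv
    have himg : ∀ S : Finset (List ℕ), (S.image fun γ => [] ++ γ) = S := fun S => by simp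
    have hvR : ({v} : Finset (List ℕ)) ⊆ Reg (gprof k d ℓ ℓ) := by
      have := tt_gad_sub k d ℓ (replicate ℓ 1) hv
      simpa [gprof] using this
    have h1 := TR_general (o := []) (p := gprof k d ℓ ℓ) (q := bkT' k d ℓ N b) (β := [])
      (F := F) (c := c) hl.le hprof_ne h0
      (by rw [List.nil_append, ← bk_e2 hN]; exact hsub) (by simp [Lev])
      (by
        rw [List.nil_append, ← bk_e2 hN, himg]
        intro B hB hne
        refine hF B (hB.trans ?_) hne
        rw [bk_e2 hN]; exact TR_Reg_sub _ _) hvR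
    simp only [himg] at h1
    rw [if_pos trivial, zero_add] at h1
    have h2 := hX v hv
    have h3 : (if bkT' k d ℓ N b = [] then 0 else
        ∑ α ∈ Lev (gprof k d ℓ ℓ), l * (green (Reg (gprof k d ℓ ℓ)) (tr l) 0 (hit {α.dropLast}) {v} *
          F {[] ++ α})) ≤ q * (Y + 2 * ε * Φ) := by
      split_ifs with hq
      · have := hT.q1
        positivity
      · have h4 : ∀ α ∈ Lev (gprof k d ℓ ℓ), l * (green (Reg (gprof k d ℓ ℓ)) (tr l) 0
            (hit {α.dropLast}) {v} * F {[] ++ α}) ≤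
            l * green (Reg (gprof k d ℓ ℓ)) (tr l) 0 (hit {α.dropLast}) {v} *
              (Y + 2 * ε * Φ) := by
          intro α hα
          have hα' : α ∈ Lev ((replicate ℓ 1 ++ replicate k d) ++ replicate ℓ 1) := hα
          rw [tt_lev_link] at hα'
          obtain ⟨y, hy, rfl⟩ := Finset.mem_image.1 hα'
          have h5 := tree_up (l := l) (p := replicate ℓ 1 ++ replicate k d) (q := bkT k d ℓ N b)
            (F := F) (c := c) hl.le (bk_ne hk ℓ) h0 (by rw [← bk_e1]; exact hsub) hy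
            (by
              rw [← bk_e1]
              intro B hB hne
              refine hF B (hB.trans ?_) hne
              have := tt_copy_sub (q := bkT k d ℓ N b) hy []
              rwa [List.append_nil, ← bk_e1] at this)
            (A := {replicate ℓ 0}) (by
              rw [Finset.singleton_subset_iff, bk_T' hN, Reg_append]
              exact Finset.mem_union_right _ (mem_biUnion.2 ⟨_, tt_root_lev ℓ,
                Finset.mem_image.2 ⟨[], TR_nil_mem hq, by simp⟩⟩))
          rw [image_singleton] at h5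
          have h6 : F {y.dropLast} ≤ Φ := hmax _ (tt_port_mem hk hy)
          have h7 : 0 ≤ F {y.dropLast} := hF0 _ (tt_port_mem hk hy)
          have h8 := hY y hy
          have h9 : F {y ++ replicate ℓ 0} ≤ Y + 2 * ε * Φ := by
            refine h5.trans (add_le_add h8 ?_)
            exact mul_le_mul hu h6 h7 (by have := hT.ε0; linarith)
          rw [List.nil_append, ← mul_assoc]
          exact mul_le_mul_of_nonneg_left h9 (mul_nonneg hl.le (tt_green_nonneg hl.le _ _))
        refine (sum_le_sum h4).trans ?_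
        rw [← sum_mul]
        exact mul_le_mul_of_nonneg_right (hT.down v hv) hZ0
    linarith
  have h1 := key v0 hv0
  have h2 := hT.small
  have h3 := hT.q1
  have h4 := hT.ε0
  have h5 : Φ ≤ 2 * (X + q * Y) := by
    rw [← hΦ] at h1
    have h6 : 64 * ε * q * Φ ≤ 1 * Φ := mul_le_mul_of_nonneg_right h2 hΦ0
    have h7 : 0 ≤ q * Y := by positivity
    nlinarith
  exact fun v hv => (hmax v hv).trans h5

/-- composition lemma for Green functions -/
lemma bk_green (hT : Tuned l χ k d ℓ ε q Cs) (hN : ℓ ≤ N) {b : ℕ} {c : Finset (List ℕ) → ℝ}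
    (hc0 : c ∅ = 0) (hcm : MonoOn (Reg (bkT k d ℓ N (b + 1))) c)
    (hcs : SubModOn (Reg (bkT k d ℓ N (b + 1))) c) {X Y : ℝ}
    (hX : ∀ v ∈ gad k d ℓ, green (Reg (gprof k d ℓ ℓ)) (tr l) 0 c {v} ≤ X)
    (hY : ∀ y ∈ Lev (replicate ℓ 1 ++ replicate k d),
      green (Reg (bkT k d ℓ N b)) (tr l) 0 (fun S => c (S.image fun γ => y ++ γ))
        {replicate ℓ 0} ≤ Y) (hX0 : 0 ≤ X) (hY0 : 0 ≤ Y)
    (hu : l * green (Reg (bkT k d ℓ N b)) (tr l) 0 (hit {[]}) {replicate ℓ 0} ≤ 2 * ε) :
    ∀ v ∈ gad k d ℓ, green (Reg (bkT k d ℓ N (b + 1))) (tr l) 0 c {v} ≤ 2 * (X + q * Y) := by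
  have hr := tr_nonneg hT.l0.le
  refine bk_comp hT hN (by simp) ((green_subModOn hr hcm hc0 hcs).subAddOn (by simp))
    (fun B hB hne => (gen_green hr c hB hne).ge) (fun v _ => ?_) hX hY hX0 hY0 hu
  exact green_nonneg hr (fun _ => le_rfl) (fun S hS _ => by
    have := hcm ∅ S (empty_subset _) hS
    linarith) _

lemma bk_up_zero (hT : Tuned l χ k d ℓ ε q Cs) (hN : ℓ ≤ N) :
    l * green (Reg (bkT k d ℓ N 0)) (tr l) 0 (hit {[]}) {replicate ℓ 0} ≤ 2 * ε := by
  have hl := hT.l0
  have hε := hT.ε0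
  show l * green (Reg (replicate N 1)) (tr l) 0 (hit {[]}) {replicate ℓ 0} ≤ 2 * ε
  rcases hN.lt_or_eq with h | h
  · have e := AL_green_hit_path (l := l) hl.le [] (s := 0) h
    simp only [List.nil_append, List.replicate_zero] at e
    rw [AL_Reg_one, e]
    have h1 := path_return hl.le hT.pb h
    have h2 := mul_le_mul_of_nonneg_left h1 hl.le
    have h3 := hT.path
    calc l * green (range N) (l • nnN) 0 (hit {0}) {ℓ} ≤ l * ((1 + l * χ) * gP l (ℓ + 1)) := h2
      _ = l * (1 + l * χ) * gP l (ℓ + 1) := by ring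
      _ ≤ 2 * ε := by linarith
  · rw [green_not_subset]
    · linarith
    · rw [Finset.singleton_subset_iff, mem_Reg]
      rintro ⟨h1, _⟩
      simp at h1; omega

/-- (1) the probability to climb out of the first gadget -/
lemma bk_up (hT : Tuned l χ k d ℓ ε q Cs) (hN : ℓ ≤ N) : ∀ b : ℕ,
    l * green (Reg (bkT k d ℓ N b)) (tr l) 0 (hit {[]}) {replicate ℓ 0} ≤ 2 * ε ∧
    ∀ v ∈ gad k d ℓ, l * green (Reg (bkT k d ℓ N (b + 1))) (tr l) 0 (hit {[]}) {v} ≤ 2 * ε := by
  have hl := hT.l0
  have hε := hT.ε0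
  have step : ∀ b, l * green (Reg (bkT k d ℓ N b)) (tr l) 0 (hit {[]}) {replicate ℓ 0} ≤ 2 * ε →
      ∀ v ∈ gad k d ℓ, l * green (Reg (bkT k d ℓ N (b + 1))) (tr l) 0 (hit {[]}) {v} ≤ 2 * ε := by
    intro b hb v hv
    have h := bk_green hT hN (b := b) (c := hit {[]}) (by simp) (hit_monoOn _) (hit_subModOn _)
      (X := ε / l) (Y := 0) (fun v hv => by
        rw [le_div_iff₀ hl]; have := hT.up v hv; linarith)
      (fun y hy => by
        have : (fun S : Finset (List ℕ) => hit {[]} (S.image fun γ => y ++ γ)) = fun _ => 0 := by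
          funext S
          exact bk_hit_zero hy (by simp; have := hT.hk; omega) S
        rw [this, green_zero (κ := 0) (tr_nonneg hl.le) (fun _ => le_rfl)])
      (by positivity) le_rfl hb v hv
    calc l * green (Reg (bkT k d ℓ N (b + 1))) (tr l) 0 (hit {[]}) {v}
        ≤ l * (2 * (ε / l + q * 0)) := mul_le_mul_of_nonneg_left h hl.le
      _ = 2 * ε := by field_simp; ring
  intro b
  induction b with
  | zero => exact ⟨bk_up_zero hT hN, step 0 (bk_up_zero hT hN)⟩
  | succ b ih =>
    have h1 := ih.2 _ (tt_root_mem hT.hk)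
    exact ⟨h1, step _ h1⟩

lemma bk_Cs0 (hT : Tuned l χ k d ℓ ε q Cs) : 0 ≤ Cs := by
  have h := hT.card _ (tt_root_mem hT.hk)
  exact le_trans (green_nonneg (tr_nonneg hT.l0.le) (fun _ => le_rfl)
    (fun S _ _ => cardR_nonneg S) _) h

/-- (2) total occupation started in the first gadget -/
lemma bk_size (hT : Tuned l χ k d ℓ ε q Cs) (hN : ℓ ≤ N) : ∀ b : ℕ,
    green (Reg (bkT k d ℓ N b)) (tr l) 0 cardR {replicate ℓ 0} ≤ (Cs + χ) * (4 * q) ^ b ∧
    ∀ v ∈ gad k d ℓ, green (Reg (bkT k d ℓ N (b + 1))) (tr l) 0 cardR {v} ≤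
      (Cs + χ) * (4 * q) ^ (b + 1) := by
  have hl := hT.l0
  have hCs := bk_Cs0 hT
  have hχ1 := hT.pb.one_le
  have hq1 := hT.q1
  have step : ∀ b, green (Reg (bkT k d ℓ N b)) (tr l) 0 cardR {replicate ℓ 0} ≤
      (Cs + χ) * (4 * q) ^ b →
      ∀ v ∈ gad k d ℓ, green (Reg (bkT k d ℓ N (b + 1))) (tr l) 0 cardR {v} ≤
        (Cs + χ) * (4 * q) ^ (b + 1) := by
    intro b hb v hv
    have h := bk_green hT hN (b := b) (c := cardR) (by simp) cardR_monoOn cardR_subModOn
      (X := Cs) (Y := (Cs + χ) * (4 * q) ^ b) hT.card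
      (fun y _ => by
        have : (fun S : Finset (List ℕ) => cardR (S.image fun γ => y ++ γ)) = cardR := by
          funext S; exact tt_card_image y S
        rw [this]; exact hb)
      hCs (by positivity) (bk_up hT hN b).1 v hv
    refine h.trans ?_
    have h1 : (1 : ℝ) ≤ (4 * q) ^ b := one_le_pow₀ (by linarith)
    rw [pow_succ]
    have h2 : (Cs + χ) * 1 ≤ (Cs + χ) * (4 * q) ^ b :=
      mul_le_mul_of_nonneg_left h1 (by linarith)
    have h3 : 0 ≤ (Cs + χ) * (4 * q) ^ b := by positivity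
    have h4 : (Cs + χ) * (4 * q) ^ b * 1 ≤ (Cs + χ) * (4 * q) ^ b * q :=
      mul_le_mul_of_nonneg_left hq1 h3
    nlinarith
  have base : green (Reg (bkT k d ℓ N 0)) (tr l) 0 cardR {replicate ℓ 0} ≤
      (Cs + χ) * (4 * q) ^ 0 := by
    show green (Reg (replicate N 1)) (tr l) 0 cardR {replicate ℓ 0} ≤ _
    rw [pow_zero, mul_one]
    rcases hN.lt_or_eq with h | h
    · have e := AL_green_card_path (l := l) hl.le [] h
      simp only [List.nil_append] at e
      rw [AL_Reg_one, e]
      have := hT.pb.bound N ℓ h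
      linarith
    · rw [green_not_subset]
      · linarith
      · rw [Finset.singleton_subset_iff, mem_Reg]
        rintro ⟨h1, _⟩
        simp at h1; omega
  intro b
  induction b with
  | zero => exact ⟨base, step 0 base⟩
  | succ b ih =>
    have h1 := ih.2 _ (tt_root_mem hT.hk)
    exact ⟨h1, step _ h1⟩

/-- (3) bottom ports -/
lemma bk_port (hT : Tuned l χ k d ℓ ε q Cs) (hN : ℓ ≤ N) : ∀ b : ℕ,
    ∀ w ∈ Lev (replicate ℓ 1 ++ GG k d ℓ b),
    l * green (Reg (bkT k d ℓ N (b + 1))) (tr l) 0 (hit {[]}) {w.dropLast} ≤ (2 * ε) ^ (b + 1) ∧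
    green (Reg (bkT k d ℓ N (b + 1))) (tr l) 0 cardR {w.dropLast} ≤
      4 * q * (Cs + χ) * (2 - (1 / 8) ^ b) := by
  have hl := hT.l0
  have hr := tr_nonneg hl.le
  have hε := hT.ε0
  have hk := hT.hk
  have hCs := bk_Cs0 hT
  have hχ1 := hT.pb.one_le
  have hq1 := hT.q1
  intro b
  induction b with
  | zero =>
    intro w hw
    have hp : w.dropLast ∈ gad k d ℓ := tt_port_mem hk hw
    refine ⟨by rw [zero_add, pow_one]; exact (bk_up hT hN 0).2 _ hp, ?_⟩
    refine ((bk_size hT hN 0).2 _ hp).trans (le_of_eq ?_)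
    norm_num; ring
  | succ b ih =>
    intro w hw
    have e : replicate ℓ 1 ++ GG k d ℓ (b + 1) =
        (replicate ℓ 1 ++ replicate k d) ++ (replicate ℓ 1 ++ GG k d ℓ b) := by
      show replicate ℓ 1 ++ (replicate k d ++ (replicate ℓ 1 ++ GG k d ℓ b)) = _
      simp [List.append_assoc]
    rw [e, Lev_append] at hw
    obtain ⟨y, hy, hw2⟩ := mem_biUnion.1 hw
    obtain ⟨w', hw', rfl⟩ := Finset.mem_image.1 hw2
    obtain ⟨ih1, ih2⟩ := ih w' hw'
    have hpne : (replicate ℓ 1 ++ GG k d ℓ b : List ℕ) ≠ [] := by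
      intro h
      have h2 := congrArg List.length h
      have h3 := hT.hℓ
      simp at h2; omega
    have hw'ne : w' ≠ [] := AL_ne hpne hw'
    have hdl : (y ++ w').dropLast = y ++ w'.dropLast := List.dropLast_append_of_ne_nil hw'ne
    have hyp := tt_port_mem hk hy
    have hw'R : w'.dropLast ∈ Reg (bkT k d ℓ N (b + 1)) := by
      rw [bk_succ, ← List.append_assoc]
      exact TR_Reg_sub _ _ (TR_dropLast_Lev hw' hpne)
    rw [hdl]
    constructor
    · have h5 := tree_up (l := l) (p := replicate ℓ 1 ++ replicate k d)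
        (q := bkT k d ℓ N (b + 1))
        (F := green (Reg (bkT k d ℓ N (b + 1 + 1))) (tr l) 0 (hit {[]})) (c := hit {[]}) hl.le
        (bk_ne hk ℓ) (by simp)
        (by
          rw [← bk_e1]
          exact (green_subModOn hr (hit_monoOn _) (by simp) (hit_subModOn _)).subAddOn (by simp)) hy
        (by
          rw [← bk_e1]
          intro B hB hne
          refine (gen_green hr _ (hB.trans ?_) hne).ge
          have := tt_copy_sub (q := bkT k d ℓ N (b + 1)) hy []
          rwa [List.append_nil, ← bk_e1] at this)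
        (A := {w'.dropLast}) (by simpa using hw'R)
      rw [image_singleton] at h5
      have hz : green (Reg (bkT k d ℓ N (b + 1))) (tr l) 0
          (fun S => hit {[]} (S.image fun γ => y ++ γ)) {w'.dropLast} = 0 := by
        have : (fun S : Finset (List ℕ) => hit {[]} (S.image fun γ => y ++ γ)) = fun _ => 0 := by
          funext S
          exact bk_hit_zero hy (by simp; omega) S
        rw [this, green_zero (κ := 0) hr (fun _ => le_rfl)]
      rw [hz, zero_add] at h5
      have h6 := (bk_up hT hN (b + 1)).2 _ hyp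
      calc l * green (Reg (bkT k d ℓ N (b + 1 + 1))) (tr l) 0 (hit {[]}) {y ++ w'.dropLast}
          ≤ l * (l * green (Reg (bkT k d ℓ N (b + 1))) (tr l) 0 (hit {[]}) {w'.dropLast} *
              green (Reg (bkT k d ℓ N (b + 1 + 1))) (tr l) 0 (hit {[]}) {y.dropLast}) :=
            mul_le_mul_of_nonneg_left h5 hl.le
        _ = (l * green (Reg (bkT k d ℓ N (b + 1))) (tr l) 0 (hit {[]}) {w'.dropLast}) *
              (l * green (Reg (bkT k d ℓ N (b + 1 + 1))) (tr l) 0 (hit {[]}) {y.dropLast}) := by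
            ring
        _ ≤ (2 * ε) ^ (b + 1) * (2 * ε) :=
            mul_le_mul ih1 h6 (mul_nonneg hl.le (tt_green_nonneg hl.le _ _)) (by positivity)
        _ = (2 * ε) ^ (b + 1 + 1) := by ring
    · have h5 := tree_up (l := l) (p := replicate ℓ 1 ++ replicate k d)
        (q := bkT k d ℓ N (b + 1))
        (F := green (Reg (bkT k d ℓ N (b + 1 + 1))) (tr l) 0 cardR) (c := cardR) hl.le
        (bk_ne hk ℓ) (by simp)
        (by
          rw [← bk_e1]
          exact (green_subModOn hr cardR_monoOn (by simp) cardR_subModOn).subAddOn (by simp)) hy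
        (by
          rw [← bk_e1]
          intro B hB hne
          refine (gen_green hr _ (hB.trans ?_) hne).ge
          have := tt_copy_sub (q := bkT k d ℓ N (b + 1)) hy []
          rwa [List.append_nil, ← bk_e1] at this)
        (A := {w'.dropLast}) (by simpa using hw'R)
      rw [image_singleton] at h5
      have hz : (fun S : Finset (List ℕ) => cardR (S.image fun γ => y ++ γ)) = cardR := by
        funext S; exact tt_card_image y S
      rw [hz] at h5
      have h6 := (bk_size hT hN (b + 1)).2 _ hyp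
      have h7 : 0 ≤ green (Reg (bkT k d ℓ N (b + 1 + 1))) (tr l) 0 cardR {y.dropLast} :=
        green_nonneg hr (fun _ => le_rfl) (fun S _ _ => cardR_nonneg S) _
      have h8 : l * green (Reg (bkT k d ℓ N (b + 1))) (tr l) 0 (hit {[]}) {w'.dropLast} *
          green (Reg (bkT k d ℓ N (b + 1 + 1))) (tr l) 0 cardR {y.dropLast} ≤
          (2 * ε) ^ (b + 1) * ((Cs + χ) * (4 * q) ^ (b + 1 + 1)) :=
        mul_le_mul ih1 h6 h7 (by positivity)
      have h9 : (2 * ε) ^ (b + 1) * ((Cs + χ) * (4 * q) ^ (b + 1 + 1)) =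
          4 * q * (Cs + χ) * (8 * ε * q) ^ (b + 1) := by
        have h91 : (8 * ε * q) ^ (b + 1) = (2 * ε) ^ (b + 1) * (4 * q) ^ (b + 1) := by
          rw [← mul_pow]; congr 1; ring
        rw [h91, pow_succ (4 * q) (b + 1)]; ring
      have h10 : (8 * ε * q) ^ (b + 1) ≤ (1 / 8) ^ (b + 1) :=
        pow_le_pow_left₀ (by positivity) (by have := hT.small; linarith) _
      have h11 : 4 * q * (Cs + χ) * (8 * ε * q) ^ (b + 1) ≤
          4 * q * (Cs + χ) * (1 / 8) ^ (b + 1) :=
        mul_le_mul_of_nonneg_left h10 (by positivity)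
      have h12 : (1 / 8 : ℝ) ^ (b + 1) = (1 / 8) ^ b * (1 / 8) := pow_succ _ _
      have h13 : (0 : ℝ) ≤ (1 / 8) ^ b := by positivity
      have h14 : 0 ≤ 4 * q * (Cs + χ) := by positivity
      have h15 : 4 * q * (Cs + χ) * (2 - (1 / 8) ^ b) + 4 * q * (Cs + χ) * (1 / 8) ^ (b + 1) ≤
          4 * q * (Cs + χ) * (2 - (1 / 8) ^ (b + 1)) := by
        rw [← mul_add]
        refine mul_le_mul_of_nonneg_left ?_ h14
        rw [h12]; linarith
      linarith

/-- (4) occupation of the gadget vertices -/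
lemma bk_gad (hT : Tuned l χ k d ℓ ε q Cs) (hN : ℓ ≤ N) (b : ℕ) {v' : List ℕ}
    (hv' : v' ∈ gad k d ℓ) : ∀ v ∈ gad k d ℓ,
    green (Reg (bkT k d ℓ N (b + 1))) (tr l) 0 (hit {v'}) {v} ≤ 2 * Cs := by
  have hl := hT.l0
  intro v hv
  have h := bk_green hT hN (b := b) (c := hit {v'}) (by simp) (hit_monoOn _) (hit_subModOn _)
    (X := Cs) (Y := 0) (fun v hv => (tt_green_hit_card hl.le _ _).trans (hT.card v hv))
    (fun y hy => by
      have : (fun S : Finset (List ℕ) => hit {v'} (S.image fun γ => y ++ γ)) = fun _ => 0 := by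
        funext S
        refine bk_hit_zero hy ?_ S
        have h1 := tt_gad_sub k d ℓ [] hv'
        rw [List.append_nil] at h1
        exact (mem_Reg.1 h1).1
      rw [this, green_zero (κ := 0) (tr_nonneg hl.le) (fun _ => le_rfl)])
    (bk_Cs0 hT) le_rfl (bk_up hT hN b).1 v hv
  linarith

/-- (5) longer up-link: general estimate -/
lemma bk_ext (hT : Tuned l χ k d ℓ ε q Cs) {b a' : ℕ} (ha' : 1 ≤ a')
    {c : Finset (List ℕ) → ℝ}
    (hc0 : c ∅ = 0) (hcm : MonoOn (Reg (replicate a' 1 ++ bkT k d ℓ N (b + 1))) c)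
    (hcs : SubModOn (Reg (replicate a' 1 ++ bkT k d ℓ N (b + 1))) c) {Cc : ℝ} (hCc : 0 ≤ Cc)
    (hcC : ∀ A ⊆ (range (a' + ℓ)).image (fun t => replicate t 0), c A ≤ Cc * cardR A)
    {v : List ℕ} (hv : v ∈ Reg (bkT k d ℓ N (b + 1))) :
    green (Reg (replicate a' 1 ++ bkT k d ℓ N (b + 1))) (tr l) 0 c {replicate a' 0 ++ v} ≤
      green (Reg (bkT k d ℓ N (b + 1))) (tr l) 0
        (fun S => c (S.image fun γ => replicate a' 0 ++ γ)) {v} +
      l * green (Reg (bkT k d ℓ N (b + 1))) (tr l) 0 (hit {[]}) {v} *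
        (Cc * χ + ε * green (Reg (replicate a' 1 ++ bkT k d ℓ N (b + 1))) (tr l) 0 c
          {replicate (a' + ℓ) 0}) := by
  have hl := hT.l0
  have hr := tr_nonneg hl.le
  set W := replicate a' 1 ++ bkT k d ℓ N (b + 1) with hW
  have hnn : ∀ A, 0 ≤ green (Reg W) (tr l) 0 c A := fun A =>
    green_nonneg hr (fun _ => le_rfl) (fun S hS _ => by
      have := hcm ∅ S (empty_subset _) hS
      linarith) _
  have h5 := tree_up (l := l) (p := replicate a' 1) (q := bkT k d ℓ N (b + 1))
    (F := green (Reg W) (tr l) 0 c) (c := c) hl.le (tt_rep_ne ha' 1) (by simp)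
    ((green_subModOn hr hcm hc0 hcs).subAddOn (by simp)) (tt_root_lev a')
    (by
      intro B hB hne
      refine (gen_green hr _ (hB.trans ?_) hne).ge
      have := tt_copy_sub (q := bkT k d ℓ N (b + 1)) (tt_root_lev a') []
      rwa [List.append_nil] at this)
    (A := {v}) (by simpa using hv)
  rw [image_singleton] at h5
  refine h5.trans (add_le_add le_rfl ?_)
  refine mul_le_mul_of_nonneg_left ?_ (mul_nonneg hl.le (tt_green_nonneg hl.le _ _))
  have hW2 : W = replicate (a' + ℓ) 1 ++ (GG k d ℓ b ++ replicate N 1) := by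
    rw [hW, bk_succ, ← List.replicate_append_replicate, List.append_assoc]
  have hne2 : (GG k d ℓ b ++ replicate N 1 : List ℕ) ≠ [] := by
    rw [← bk_GG]
    intro h; have h1 := congrArg List.length h; have h2 := hT.hk; simp at h1; omega
  have h6 := ul_return (l := l) (χ := χ) (a := a' + ℓ) (q := GG k d ℓ b ++ replicate N 1)
    hl.le hT.pb hne2 (j := ℓ) (by omega) (c := c) hc0 (by rw [← hW2]; exact hcm)
    (by rw [← hW2]; exact hcs) hCc hcC
  rw [← hW2] at h6
  have h7 : (replicate a' 0 : List ℕ).dropLast = replicate (a' + ℓ - 1 - ℓ) 0 := by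
    rw [List.dropLast_replicate]; congr 1; omega
  rw [h7]
  refine h6.trans (add_le_add le_rfl ?_)
  exact mul_le_mul_of_nonneg_right hT.path (hnn _)

/-- bounds for a block with up-link of length `a ≥ ℓ` and final links of length `N ≥ ℓ`,
uniformly in the number of generations -/
theorem block_bounds (hT : Tuned l χ k d ℓ ε q Cs) : ∃ C : ℝ, 1 ≤ C ∧ ∀ a b N, ℓ ≤ a → ℓ ≤ N →
    (∀ w ∈ Lev (replicate a 1 ++ GG k d ℓ b),
      green (Reg (replicate a 1 ++ GG k d ℓ b ++ replicate N 1)) (tr l) 0 cardR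
        {w.dropLast} ≤ C) ∧
    green (Reg (replicate a 1 ++ GG k d ℓ b ++ replicate N 1)) (tr l) 0 (hit {replicate a 0})
      {replicate a 0} ≤ C := by
  have hl := hT.l0
  have hr := tr_nonneg hl.le
  have hk := hT.hk
  have hCs := bk_Cs0 hT
  have hχ1 := hT.pb.one_le
  have hq1 := hT.q1
  have hε := hT.ε0
  have hεs : 64 * ε ≤ 1 := by
    have h1 := hT.small
    have h2 : 64 * ε * 1 ≤ 64 * ε * q := mul_le_mul_of_nonneg_left hq1 (by positivity)
    linarith
  refine ⟨8 * q * (Cs + χ) + 4 * (Cs + χ) + 2 * χ + 4 * Cs + 1, by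
    have : 0 ≤ 8 * q * (Cs + χ) := by positivity
    linarith, ?_⟩
  intro a b N ha hN
  obtain ⟨a', rfl⟩ := Nat.exists_eq_add_of_le' ha
  have hWe : replicate (a' + ℓ) 1 ++ GG k d ℓ b ++ replicate N 1 =
      replicate a' 1 ++ bkT k d ℓ N (b + 1) := by
    rw [bk_succ, ← List.replicate_append_replicate]; simp only [List.append_assoc]
  rw [hWe]
  have hportR : ∀ w ∈ Lev (replicate ℓ 1 ++ GG k d ℓ b),
      w.dropLast ∈ Reg (bkT k d ℓ N (b + 1)) := by
    intro w hw
    have hpne : (replicate ℓ 1 ++ GG k d ℓ b : List ℕ) ≠ [] := by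
      intro h
      have h2 := congrArg List.length h
      have h3 := hT.hℓ
      simp at h2; omega
    rw [bk_succ, ← List.append_assoc]
    exact TR_Reg_sub _ _ (TR_dropLast_Lev hw hpne)
  have hrootR : replicate ℓ 0 ∈ Reg (bkT k d ℓ N (b + 1)) := by
    rw [bk_e1]; exact tt_gad_sub k d ℓ _ (tt_root_mem hk)
  have hV : ∀ w ∈ Lev (replicate ℓ 1 ++ GG k d ℓ b),
      green (Reg (bkT k d ℓ N (b + 1))) (tr l) 0 cardR {w.dropLast} ≤ 8 * q * (Cs + χ) := by
    intro w hw
    refine ((bk_port hT hN b w hw).2).trans ?_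
    have h1 : (0 : ℝ) ≤ (1 / 8) ^ b := by positivity
    have h2 : 0 ≤ 4 * q * (Cs + χ) := by positivity
    nlinarith
  rcases Nat.eq_zero_or_pos a' with rfl | ha'
  · simp only [List.replicate_zero, List.nil_append, zero_add]
    refine ⟨fun w hw => (hV w hw).trans (by linarith), ?_⟩
    refine (bk_gad hT hN b (tt_root_mem hk) _ (tt_root_mem hk)).trans ?_
    have : 0 ≤ 8 * q * (Cs + χ) := by positivity
    linarith
  · set W := replicate a' 1 ++ bkT k d ℓ N (b + 1) with hW
    have hroot : (replicate a' 0 ++ replicate ℓ 0 : List ℕ) = replicate (a' + ℓ) 0 := by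
      rw [List.replicate_append_replicate]
    have hcardz : (fun S : Finset (List ℕ) => cardR (S.image fun γ => replicate a' 0 ++ γ)) =
        cardR := by
      funext S; exact tt_card_image _ S
    -- cardinality at the root
    set F0 := green (Reg W) (tr l) 0 cardR {replicate (a' + ℓ) 0} with hF0
    have hF00 : 0 ≤ F0 := green_nonneg hr (fun _ => le_rfl) (fun S _ _ => cardR_nonneg S) _
    have h1 := bk_ext (N := N) (b := b) hT (by omega : 1 ≤ a') (c := cardR) (by simp) cardR_monoOn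
      cardR_subModOn (Cc := 1) (by norm_num) (fun A _ => by rw [one_mul]) hrootR
    rw [hroot, ← hW, ← hF0, hcardz] at h1
    have h2 := (bk_size hT hN b).2 _ (tt_root_mem hk)
    have h3 := (bk_up hT hN b).2 _ (tt_root_mem hk)
    have h4 : F0 ≤ 2 * ((Cs + χ) * (4 * q) ^ (b + 1) + 2 * ε * χ) := by
      have h5 : l * green (Reg (bkT k d ℓ N (b + 1))) (tr l) 0 (hit {[]}) {replicate ℓ 0} *
          (1 * χ + ε * F0) ≤ 2 * ε * (1 * χ + ε * F0) :=
        mul_le_mul_of_nonneg_right h3 (by positivity)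
      have h6 : 2 * ε * (ε * F0) ≤ F0 / 2 := by
        have : ε * ε ≤ 1 / 64 * (1 / 64) := mul_le_mul (by linarith) (by linarith) hε.le (by norm_num)
        nlinarith
      nlinarith
    constructor
    · intro w hw
      have e : replicate (a' + ℓ) 1 ++ GG k d ℓ b =
          replicate a' 1 ++ (replicate ℓ 1 ++ GG k d ℓ b) := by
        rw [← List.replicate_append_replicate, List.append_assoc]
      rw [e, Lev_append, tt_lev_rep, singleton_biUnion] at hw
      obtain ⟨w', hw', rfl⟩ := Finset.mem_image.1 hw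
      have hpne : (replicate ℓ 1 ++ GG k d ℓ b : List ℕ) ≠ [] := by
        intro h
        have h2 := congrArg List.length h
        have h3 := hT.hℓ
        simp at h2; omega
      have hw'ne : w' ≠ [] := AL_ne hpne hw'
      rw [List.dropLast_append_of_ne_nil hw'ne]
      have h5 := bk_ext (N := N) (b := b) hT (by omega : 1 ≤ a') (c := cardR) (by simp) cardR_monoOn
        cardR_subModOn (Cc := 1) (by norm_num) (fun A _ => by rw [one_mul]) (hportR w' hw')
      rw [← hW, ← hF0, hcardz] at h5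
      have h6 := hV w' hw'
      have h7 := (bk_port hT hN b w' hw').1
      have h8 : l * green (Reg (bkT k d ℓ N (b + 1))) (tr l) 0 (hit {[]}) {w'.dropLast} *
          (1 * χ + ε * F0) ≤ (2 * ε) ^ (b + 1) * (1 * χ + ε * F0) :=
        mul_le_mul_of_nonneg_right h7 (by positivity)
      have h9 : (2 * ε) ^ (b + 1) ≤ 1 := pow_le_one₀ (by positivity) (by linarith)
      have h10 : (2 * ε) ^ (b + 1) * (1 * χ) ≤ χ := by
        have := mul_le_mul_of_nonneg_right h9 (show 0 ≤ 1 * χ by linarith)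
        linarith
      have h11 : (2 * ε) ^ (b + 1) * (ε * F0) ≤ 2 * (Cs + χ) + χ := by
        have h12 : (2 * ε) ^ (b + 1) * (ε * F0) ≤
            (2 * ε) ^ (b + 1) * (1 * (2 * ((Cs + χ) * (4 * q) ^ (b + 1) + 2 * ε * χ))) := by
          refine mul_le_mul_of_nonneg_left ?_ (by positivity)
          exact mul_le_mul (by linarith) h4 hF00 (by norm_num)
        have h13 : (2 * ε) ^ (b + 1) * (1 * (2 * ((Cs + χ) * (4 * q) ^ (b + 1) + 2 * ε * χ))) =
            2 * (Cs + χ) * ((8 * ε * q) ^ (b + 1)) + (2 * ε) ^ (b + 1) * (4 * ε * χ) := by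
          have h91 : (8 * ε * q) ^ (b + 1) = (2 * ε) ^ (b + 1) * (4 * q) ^ (b + 1) := by
            rw [← mul_pow]; congr 1; ring
          rw [h91]; ring
        have h14 : (8 * ε * q) ^ (b + 1) ≤ 1 :=
          pow_le_one₀ (by positivity) (by have := hT.small; linarith)
        have h15 : 2 * (Cs + χ) * ((8 * ε * q) ^ (b + 1)) ≤ 2 * (Cs + χ) * 1 :=
          mul_le_mul_of_nonneg_left h14 (by positivity)
        have h16 : (2 * ε) ^ (b + 1) * (4 * ε * χ) ≤ 1 * (1 * χ) :=
          mul_le_mul h9 (mul_le_mul_of_nonneg_right (by linarith) (by linarith))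
            (by positivity) (by norm_num)
        linarith
      nlinarith
    · have h5 := bk_ext (N := N) (b := b) hT (by omega : 1 ≤ a') (c := hit {replicate (a' + ℓ) 0})
        (by simp) (hit_monoOn _) (hit_subModOn _) (Cc := 0) le_rfl
        (fun A hA => by
          rw [zero_mul]
          apply le_of_eq
          unfold hit
          rw [if_neg]
          rintro ⟨z, hz⟩
          rw [Finset.mem_inter, Finset.mem_singleton] at hz
          obtain ⟨t, ht, h⟩ := Finset.mem_image.1 (hA hz.1)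
          rw [hz.2] at h
          have h1 := congrArg List.length h
          simp at h1 ht; omega) hrootR
      rw [hroot, ← hW] at h5
      set H0 := green (Reg W) (tr l) 0 (hit {replicate (a' + ℓ) 0}) {replicate (a' + ℓ) 0}
      have hH0 : 0 ≤ H0 := tt_green_nonneg hl.le _ _
      have e : green (Reg (bkT k d ℓ N (b + 1))) (tr l) 0
          (fun S => hit {replicate (a' + ℓ) 0} (S.image fun γ => replicate a' 0 ++ γ))
          {replicate ℓ 0} = green (Reg (bkT k d ℓ N (b + 1))) (tr l) 0 (hit {replicate ℓ 0})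
          {replicate ℓ 0} := by
        refine green_congr hr (fun _ => le_rfl) (fun S _ _ => ?_) _
        rw [← hroot]; exact TR_hit_image _ _ S
      rw [e] at h5
      have h6 := bk_gad hT hN b (tt_root_mem hk) _ (tt_root_mem hk)
      have h7 : l * green (Reg (bkT k d ℓ N (b + 1))) (tr l) 0 (hit {[]}) {replicate ℓ 0} *
          (0 * χ + ε * H0) ≤ 2 * ε * (0 * χ + ε * H0) :=
        mul_le_mul_of_nonneg_right h3 (by positivity)
      have h8 : 2 * ε * (ε * H0) ≤ H0 / 2 := by
        have : ε * ε ≤ 1 / 64 * (1 / 64) := mul_le_mul (by linarith) (by linarith) hε.le (by norm_num)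
        nlinarith
      have : 0 ≤ 8 * q * (Cs + χ) := by positivity
      nlinarith

/-- for a fixed number of generations everything is bounded uniformly in the final links -/
theorem block_fixed (hT : Tuned l χ k d ℓ ε q Cs) (b : ℕ) : ∃ Cb : ℝ, ∀ N, ℓ ≤ N →
    green (Reg (GG k d ℓ b ++ replicate N 1)) (tr l) 0 cardR {[]} ≤ Cb := by
  refine ⟨(Cs + χ) * (4 * q) ^ (b + 1), fun N hN => ?_⟩
  have h1 := tt_green_copy_card (l := l) (p := replicate ℓ 1) (q := GG k d ℓ b ++ replicate N 1)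
    hT.l0.le (tt_root_lev ℓ) [] (u := []) (TR_nil_mem (by
      rw [← bk_GG]
      intro h; have h1 := congrArg List.length h; have h2 := hT.hk; simp at h1; omega))
  rw [List.append_nil, List.append_nil, ← bk_succ] at h1
  exact h1.trans ((bk_size hT hN b).2 _ (tt_root_mem hT.hk))

end Pool.Agent.CP34
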