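import Pool.Agent.CP34.C2

/-! Module D: derivative of the exit probability in the infection rate. -/

open Finset Filter Topology

namespace Pool.Agent.CP34

section D
variable {V : Type*} [DecidableEq V]

/-- `piv th A = ∑_{x ∈ A} (th A - th (A \ x))` -/
def piv (th : Finset V → ℝ) (A : Finset V) : ℝ := ∑ x ∈ A, (th A - th (A.erase x))

/-- derivative of the generator in the rate -/
def D_M (R : Finset V) (a : V → V → ℝ) (κ : V → ℝ) (f : Finset V → ℝ) (A : Finset V) : ℝ :=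
  ∑ x ∈ R, ∑ y ∈ R, a x y * (f (arr x y A) - f A) - kill κ A * f A

lemma D_kill_smul (t : ℝ) (κ : V → ℝ) (A : Finset V) : kill (t • κ) A = t * kill κ A := by
  unfold kill
  rw [mul_sum]
  exact sum_congr rfl fun x _ => by rw [Pi.smul_apply, smul_eq_mul]

lemma D_genK (R : Finset V) (a : V → V → ℝ) (κ : V → ℝ) (t : ℝ) (f : Finset V → ℝ)
    (A : Finset V) : genK R (t • a) (t • κ) f A =
      ∑ x ∈ R, (f (A.erase x) - f A) + t * D_M R a κ f A := by
  unfold genK gen D_M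
  rw [D_kill_smul]
  have : ∑ x ∈ R, ∑ y ∈ R, (t • a) x y * (f (arr x y A) - f A) =
      t * ∑ x ∈ R, ∑ y ∈ R, a x y * (f (arr x y A) - f A) := by
    rw [mul_sum]
    refine sum_congr rfl fun x _ => ?_
    rw [mul_sum]
    refine sum_congr rfl fun y _ => ?_
    rw [Pi.smul_apply, Pi.smul_apply, smul_eq_mul]; ring
  rw [this]; ring

lemma D_shift (R : Finset V) (a : V → V → ℝ) (κ : V → ℝ) (s t : ℝ) (f : Finset V → ℝ)
    (A : Finset V) : genK R (s • a) (s • κ) f A =
      genK R (t • a) (t • κ) f A + (s - t) * D_M R a κ f A := by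
  rw [D_genK, D_genK]; ring

variable {R : Finset V} {a : V → V → ℝ} {κ : V → ℝ}

lemma D_a_nonneg (ha : ∀ x y, 0 ≤ a x y) {t : ℝ} (ht : 0 ≤ t) (x y : V) : 0 ≤ (t • a) x y := by
  rw [Pi.smul_apply, Pi.smul_apply, smul_eq_mul]; exact mul_nonneg ht (ha x y)

lemma D_κ_nonneg (hκ : ∀ x, 0 ≤ κ x) {t : ℝ} (ht : 0 ≤ t) (x : V) : 0 ≤ (t • κ) x := by
  rw [Pi.smul_apply, smul_eq_mul]; exact mul_nonneg ht (hκ x)

lemma D_green_diff (ha : ∀ x y, 0 ≤ a x y) (hκ : ∀ x, 0 ≤ κ x) {s t : ℝ} (hs : 0 ≤ s)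
    (ht : 0 ≤ t) (h : Finset V → ℝ) {A : Finset V} (hA : A ⊆ R) :
    green R (s • a) (s • κ) h A - green R (t • a) (t • κ) h A =
      (s - t) * green R (s • a) (s • κ) (D_M R a κ (green R (t • a) (t • κ) h)) A := by
  rw [← green_smul (D_a_nonneg ha hs) (D_κ_nonneg hκ hs)]
  symm
  refine green_unique (D_a_nonneg ha hs) (D_κ_nonneg hκ hs)
    (u := fun S => green R (s • a) (s • κ) h S - green R (t • a) (t • κ) h S) (by simp)
    (fun S hS hne => ?_) A hA
  rw [genK_sub, genK_green (D_a_nonneg ha hs) (D_κ_nonneg hκ hs) h hS hne, D_shift R a κ s t,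
    genK_green (D_a_nonneg ha ht) (D_κ_nonneg hκ ht) h hS hne]
  ring

lemma D_rec_eq {f : Finset V → ℝ} {A : Finset V} (hA : A ⊆ R) :
    ∑ x ∈ R, (f (A.erase x) - f A) = - piv f A := by
  unfold piv
  rw [← sum_subset hA (fun x _ hx => by rw [erase_eq_of_notMem hx, sub_self]),
    ← sum_neg_distrib]
  exact sum_congr rfl fun x _ => by ring

lemma D_theta_diff (ha : ∀ x y, 0 ≤ a x y) (hκ : ∀ x, 0 ≤ κ x) {s t : ℝ} (hs : 0 ≤ s)
    (ht : 0 < t) {A : Finset V} (hA : A ⊆ R) :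
    theta R (s • a) (s • κ) A - theta R (t • a) (t • κ) A =
      (s - t) * (t⁻¹ * green R (s • a) (s • κ) (piv (theta R (t • a) (t • κ))) A) := by
  rw [← mul_assoc, ← green_smul (D_a_nonneg ha hs) (D_κ_nonneg hκ hs)]
  symm
  refine green_unique (D_a_nonneg ha hs) (D_κ_nonneg hκ hs)
    (u := fun S => theta R (s • a) (s • κ) S - theta R (t • a) (t • κ) S) (by simp)
    (fun S hS hne => ?_) A hA
  have e1 : genK R (s • a) (s • κ) (theta R (s • a) (s • κ)) S = - kill (s • κ) S :=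
    genK_green (D_a_nonneg ha hs) (D_κ_nonneg hκ hs) _ hS hne
  have e2 : genK R (t • a) (t • κ) (theta R (t • a) (t • κ)) S = - kill (t • κ) S :=
    genK_green (D_a_nonneg ha ht.le) (D_κ_nonneg hκ ht.le) _ hS hne
  rw [genK_sub, e1, D_shift R a κ s t, e2, D_kill_smul, D_kill_smul]
  rw [D_genK, D_kill_smul, D_rec_eq hS] at e2
  have e3 : D_M R a κ (theta R (t • a) (t • κ)) S =
      t⁻¹ * piv (theta R (t • a) (t • κ)) S - kill κ S := by
    have h4 : t * D_M R a κ (theta R (t • a) (t • κ)) S =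
        piv (theta R (t • a) (t • κ)) S - t * kill κ S := by linarith
    have h5 : D_M R a κ (theta R (t • a) (t • κ)) S =
        t⁻¹ * (t * D_M R a κ (theta R (t • a) (t • κ)) S) := by
      rw [← mul_assoc, inv_mul_cancel₀ ht.ne', one_mul]
    rw [h5, h4, mul_sub, ← mul_assoc, inv_mul_cancel₀ ht.ne', one_mul]
  rw [e3]
  ring

lemma D_bound (ha : ∀ x y, 0 ≤ a x y) (hκ : ∀ x, 0 ≤ κ x) {s T : ℝ} (hs : 0 ≤ s) (hsT : s ≤ T)
    (g : Finset V → ℝ) {A : Finset V} (hA : A ⊆ R) :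
    |green R (s • a) (s • κ) g A| ≤
      (∑ S ∈ R.powerset, |g S|) * green R (T • a) 0 (hit R) A := by
  have hT : 0 ≤ T := hs.trans hsT
  obtain ⟨G, hG⟩ : ∃ G, G = ∑ S ∈ R.powerset, |g S| := ⟨_, rfl⟩
  have hG0 : 0 ≤ G := by rw [hG]; exact sum_nonneg fun S _ => abs_nonneg _
  have hgG : ∀ S ⊆ R, |g S| ≤ G := fun S hS => by
    rw [hG]; exact single_le_sum (f := fun S => |g S|) (fun S _ => abs_nonneg _)
      (mem_powerset.2 hS)
  rw [← hG]
  obtain ⟨v, hv⟩ : ∃ v, v = green R (T • a) 0 (hit R) := ⟨_, rfl⟩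
  have hhit0 : hit R ∅ = 0 := by simp [hit]
  have hvm : MonoOn R v := by
    rw [hv]; exact green_monoOn (D_a_nonneg ha hT) (hit_monoOn R) hhit0.ge
  have hv0 : v ∅ = 0 := by rw [hv]; exact green_empty _
  have hvn : ∀ S ⊆ R, 0 ≤ v S := fun S hS => by
    rw [← hv0]; exact hvm _ _ (empty_subset _) hS
  have hgen : ∀ S ⊆ R, S ≠ ∅ → genK R (s • a) (s • κ) v S ≤ -1 := by
    intro S hS hne
    have e1 : gen R (T • a) v S = - hit R S := by
      rw [hv]; exact gen_green (D_a_nonneg ha hT) _ hS hne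
    have e2 : hit R S = 1 := by
      unfold hit
      rw [if_pos]
      rw [inter_eq_left.2 hS]
      exact nonempty_iff_ne_empty.2 hne
    have e3 : gen R (s • a) v S ≤ gen R (T • a) v S := by
      unfold gen
      have : ∑ x ∈ R, ∑ y ∈ R, (s • a) x y * (v (arr x y S) - v S) ≤
          ∑ x ∈ R, ∑ y ∈ R, (T • a) x y * (v (arr x y S) - v S) := by
        refine sum_le_sum fun x _ => sum_le_sum fun y hy => ?_
        refine mul_le_mul_of_nonneg_right ?_ (sub_nonneg.2 (hvm _ _ (subset_arr x y S)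
          (arr_subset hS hy)))
        rw [Pi.smul_apply, Pi.smul_apply, Pi.smul_apply, Pi.smul_apply, smul_eq_mul, smul_eq_mul]
        exact mul_le_mul_of_nonneg_right hsT (ha x y)
      linarith
    have e4 : 0 ≤ kill (s • κ) S * v S :=
      mul_nonneg (kill_nonneg (D_κ_nonneg hκ hs) S) (hvn S hS)
    unfold genK
    linarith
  rw [← hv, abs_le]
  constructor
  · have h1 := le_green (R := R) (D_a_nonneg ha hs) (D_κ_nonneg hκ hs) (u := fun S => -G * v S)
      (f := g) (by rw [hv0]; simp)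
      (fun S hS hne => by
        rw [genK_smul]
        have h2 := hgen S hS hne
        have h3 := (abs_le.1 (hgG S hS)).1
        nlinarith) A hA
    simpa using h1
  · exact green_le (R := R) (D_a_nonneg ha hs) (D_κ_nonneg hκ hs) (u := fun S => G * v S)
      (f := g) (by rw [hv0]; simp)
      (fun S hS hne => by
        rw [genK_smul]
        have h2 := hgen S hS hne
        have h3 := (abs_le.1 (hgG S hS)).2
        nlinarith) A hA

theorem hasDerivAt_theta {R : Finset V} {a : V → V → ℝ} {κ : V → ℝ} (ha : ∀ x y, 0 ≤ a x y)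
    (hκ : ∀ x, 0 ≤ κ x) {l : ℝ} (hl : 0 < l) {A : Finset V} (hA : A ⊆ R) :
    HasDerivAt (fun t : ℝ => theta R (t • a) (t • κ) A)
      (l⁻¹ * green R (l • a) (l • κ) (piv (theta R (l • a) (l • κ))) A) l := by
  rw [hasDerivAt_iff_tendsto_slope]
  obtain ⟨h, hh⟩ : ∃ h, h = piv (theta R (l • a) (l • κ)) := ⟨_, rfl⟩
  rw [← hh]
  obtain ⟨B, hB⟩ : ∃ B, B = (∑ S ∈ R.powerset, |D_M R a κ (green R (l • a) (l • κ) h) S|) *
      green R ((2 * l) • a) 0 (hit R) A := ⟨_, rfl⟩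
  -- continuity of `s ↦ green_s h A` at `l`
  have hcont : Tendsto (fun s : ℝ => green R (s • a) (s • κ) h A) (𝓝 l)
      (𝓝 (green R (l • a) (l • κ) h A)) := by
    rw [tendsto_iff_norm_sub_tendsto_zero]
    have hev : ∀ᶠ s in 𝓝 l, ‖green R (s • a) (s • κ) h A - green R (l • a) (l • κ) h A‖ ≤
        |s - l| * B := by
      have h1 : ∀ᶠ s in 𝓝 l, 0 < s := lt_mem_nhds hl
      have h2 : ∀ᶠ s in 𝓝 l, s < 2 * l := gt_mem_nhds (by linarith)
      filter_upwards [h1, h2] with s hs1 hs2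
      rw [D_green_diff ha hκ hs1.le hl.le h hA, norm_mul, Real.norm_eq_abs, Real.norm_eq_abs]
      refine mul_le_mul_of_nonneg_left ?_ (abs_nonneg _)
      rw [hB]
      exact D_bound ha hκ hs1.le hs2.le _ hA
    have hlim : Tendsto (fun s : ℝ => |s - l| * B) (𝓝 l) (𝓝 0) := by
      have h1 : Tendsto (fun s : ℝ => |s - l| * B) (𝓝 l) (𝓝 (|l - l| * B)) :=
        ((continuous_abs.comp (continuous_id.sub continuous_const)).mul
          continuous_const).tendsto l
      simpa using h1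
    exact squeeze_zero' (Eventually.of_forall fun s => norm_nonneg _) hev hlim
  have hc2 : Tendsto (fun s : ℝ => l⁻¹ * green R (s • a) (s • κ) h A) (𝓝[≠] l)
      (𝓝 (l⁻¹ * green R (l • a) (l • κ) h A)) :=
    (hcont.const_mul _).mono_left nhdsWithin_le_nhds
  refine hc2.congr' ?_
  have h1 : ∀ᶠ s in 𝓝[≠] l, 0 < s := mem_nhdsWithin_of_mem_nhds (lt_mem_nhds hl)
  filter_upwards [h1, self_mem_nhdsWithin] with s hs hne
  have hne' : s - l ≠ 0 := sub_ne_zero.2 hne
  rw [slope_def_field, D_theta_diff ha hκ hs.le hl hA, ← hh]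
  field_simp

end D

end Pool.Agent.CP34
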