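import Pool.Agent.CP34.P
import Pool.Agent.CP34.D
import Pool.Agent.CP34.CE

/-! Module PS: strict comparison of the path constants. -/

open Finset Filter Topology

namespace Pool.Agent.CP34

section PS

variable {l l' χ : ℝ}

lemma PS_union {j L : ℕ} (h : j ≤ L) : range j ∪ Ico j L = range L := by
  ext x; simp only [mem_union, mem_range, mem_Ico]; omega

lemma PS_disj (j L : ℕ) : Disjoint (range j) (Ico j L) := by
  rw [disjoint_left]
  intro x hx hx'
  rw [mem_range] at hx
  rw [mem_Ico] at hx'
  omega

lemma PS_image (j L : ℕ) : (range (L - j)).image (fun i => i + j) = Ico j L := by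
  ext x
  simp only [mem_image, mem_range, mem_Ico]
  constructor
  · rintro ⟨a, ha, rfl⟩; omega
  · intro hx; exact ⟨x - j, by omega, by omega⟩

lemma PS_shift (l : ℝ) (j x y : ℕ) : (l • nnN) (x + j) (y + j) = (l • nnN) x y := by
  rw [P_r_apply, P_r_apply]
  unfold nnN
  congr 1
  apply if_congr _ rfl rfl
  omega

lemma PS_inj (j : ℕ) (S : Set ℕ) : Set.InjOn (fun i => i + j) S := fun a _ b _ h => by
  simpa using h

/-- the crossing probability of the right part -/
lemma PS_theta_right (hl : 0 ≤ l) {j L : ℕ} (hj : j < L) :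
    theta (Ico j L) (l • nnN) (pt (L - 1) l) {j} = aP l (L - j) := by
  have key := theta_image (R := range (L - j)) (φ := fun i => i + j) (r := l • nnN)
    (r' := l • nnN) (κ := pt (L - j - 1) l) (κ' := pt (L - 1) l) (P_r_nonneg hl) (P_r_nonneg hl)
    (P_pt_nonneg hl) (P_pt_nonneg hl) (PS_inj j _) (fun x _ y _ => PS_shift l j x y)
    (fun x hx => by
      rw [mem_range] at hx
      unfold pt
      apply if_congr _ rfl rfl
      omega) (A := {0}) (singleton_subset_iff.2 (mem_range.2 (by omega)))
  rw [PS_image, image_singleton, zero_add] at key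
  exact key

/-- the Green function of the right part -/
lemma PS_green_right (hl : 0 ≤ l) {j L : ℕ} (hj : j < L) :
    green (Ico j L) (l • nnN) 0 (hit {j}) {L - 1} = gP l (L - j) := by
  rw [← gP_refl hl]
  have key := green_image (R := range (L - j)) (φ := fun i => i + j) (r := l • nnN)
    (r' := l • nnN) (κ := 0) (κ' := 0) (f := hit {0}) (f' := hit {j}) (P_r_nonneg hl)
    (P_r_nonneg hl) (fun _ => le_rfl) (fun _ => le_rfl) (PS_inj j _)
    (fun x _ y _ => PS_shift l j x y) (fun x _ => rfl)
    (fun A _ => by
      rw [P_hit_single, P_hit_single]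
      apply if_congr _ rfl rfl
      rw [mem_image]
      constructor
      · rintro ⟨a, ha, haj⟩
        have : a = 0 := by omega
        rwa [this] at ha
      · intro h0; exact ⟨0, h0, by simp⟩)
    (A := {L - j - 1}) (singleton_subset_iff.2 (mem_range.2 (by omega)))
  rw [PS_image, image_singleton] at key
  have e : L - j - 1 + j = L - 1 := by omega
  rw [e] at key
  exact key

lemma PS_kL (l : ℝ) {j L x : ℕ} (hj : j < L) (hx : x ∈ range j) :
    ∑ y ∈ Ico j L, (l • nnN) x y = pt (j - 1) l x := by
  rw [mem_range] at hx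
  rw [sum_eq_single_of_mem j (mem_Ico.2 ⟨le_rfl, hj⟩)]
  · rw [P_r_apply]
    unfold nnN pt
    by_cases h : x = j - 1
    · rw [if_pos (by omega), if_pos h, mul_one]
    · rw [if_neg (by omega), if_neg h, mul_zero]
  · intro y hy hne
    rw [mem_Ico] at hy
    rw [P_r_apply]
    unfold nnN
    rw [if_neg (by omega), mul_zero]

lemma PS_kL_nonneg (hl : 0 ≤ l) (j L x : ℕ) : 0 ≤ ∑ y ∈ Ico j L, (l • nnN) x y :=
  sum_nonneg fun y _ => P_r_nonneg hl x y

lemma PS_rho (hl : 0 ≤ l) {j L : ℕ} (hj : j < L) {A : Finset ℕ} (hA : A ⊆ range j) :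
    theta (range j) (l • nnN) (fun x => ∑ y ∈ Ico j L, (l • nnN) x y) A =
      theta (range j) (l • nnN) (pt (j - 1) l) A := by
  have key := theta_image (R := range j) (φ := id) (r := l • nnN) (r' := l • nnN)
    (κ := pt (j - 1) l) (κ' := fun x => ∑ y ∈ Ico j L, (l • nnN) x y) (P_r_nonneg hl)
    (P_r_nonneg hl) (P_pt_nonneg hl) (PS_kL_nonneg hl j L) (Set.injOn_id _)
    (fun x _ y _ => rfl) (fun x hx => PS_kL l hj hx) (A := A) hA
  rw [image_id, image_id] at key
  exact key

/-- (a) -/
lemma PS_a (hl : 0 ≤ l) (h : PathBound l χ) {j L : ℕ} (hj : j < L) {A : Finset ℕ}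
    (hA : A ⊆ range j) :
    Real.exp (-(l * χ)) * aP l (L - j) ≤
      theta (range L) (l • nnN) (pt (L - 1) l) (A ∪ {j}) -
        theta (range L) (l • nnN) (pt (L - 1) l) A := by
  have hχ : 0 ≤ χ := le_trans zero_le_one h.one_le
  have key := theta_union_sub_ge (L := range j) (M := Ico j L) (r := l • nnN)
    (κ := pt (L - 1) l) (P_r_nonneg hl) (P_pt_nonneg hl) (PS_disj j L)
    (fun x hx => by
      rw [mem_range] at hx
      unfold pt; rw [if_neg (by omega)]) hA
    (singleton_subset_iff.2 (mem_Ico.2 ⟨le_rfl, hj⟩) : ({j} : Finset ℕ) ⊆ Ico j L)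
  rw [PS_union hj.le, PS_theta_right hl hj, PS_rho hl hj hA] at key
  refine le_trans (mul_le_mul_of_nonneg_right ?_ (aP_nonneg hl _)) key
  rcases Nat.eq_zero_or_pos j with h0 | h0
  · subst h0
    have : A = ∅ := by simpa using hA
    rw [this, theta_empty, sub_zero]
    rw [Real.exp_le_one_iff]
    have := mul_nonneg hl hχ
    linarith
  · have h1 := exp_le_one_sub_theta (R := range j) (r := l • nnN) (κ := pt (j - 1) l)
      (P_r_nonneg hl) (P_pt_nonneg hl) hA
    refine le_trans (Real.exp_le_exp.2 ?_) h1
    have e : (kill (pt (j - 1) l) : Finset ℕ → ℝ) = fun S => l * hit {j - 1} S := by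
      funext S; exact kill_pt l S
    rw [e, green_smul (κ := 0) (P_r_nonneg hl) (fun _ => le_rfl)]
    have h2 : green (range j) (l • nnN) 0 (hit {j - 1}) A ≤ χ :=
      (green_monoOn (P_r_nonneg hl) (hit_monoOn _) (P_hit_empty _).ge A (range j) hA
        subset_rfl).trans (path_full hl h (by omega))
    have := mul_le_mul_of_nonneg_left h2 hl
    linarith

/-- (c) -/
lemma PS_c (hl : 0 ≤ l) (h : PathBound l χ) {j L : ℕ} (hj0 : 1 ≤ j) (hj : j < L) :
    aP l L ≤ (1 + l * χ) ^ 3 * (aP l j * aP l (L - j)) := by
  have hχ : 0 ≤ χ := le_trans zero_le_one h.one_le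
  have hlχ : 0 ≤ l * χ := mul_nonneg hl hχ
  have hr := P_r_nonneg hl
  have h0 : ∀ x : ℕ, (0 : ℝ) ≤ (0 : ℕ → ℝ) x := fun _ => le_rfl
  -- exit from `range j`
  have h1 : aP l L ≤ l * gP l j * theta (range L) (l • nnN) (pt (L - 1) l) {j} := by
    have hsub : range j ⊆ range L := range_subset_range.2 hj.le
    have hsa : SubAddOn (range L) (theta (range L) (l • nnN) (pt (L - 1) l)) :=
      (theta_subModOn hr (P_pt_nonneg hl)).subAddOn theta_empty
    have key := union_bound (R := range j) (R' := range L) (r := l • nnN)
      (F := theta (range L) (l • nnN) (pt (L - 1) l)) (c := fun _ => 0) hr hsub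
      (theta_empty).le
      (fun A hA x hx y hy _ => by
        rw [insert_eq, union_comm]
        exact hsa A {y} (hA.trans hsub) (singleton_subset_iff.2 (mem_sdiff.1 hy).1))
      (fun A hA hne => by
        rw [gen_theta hr (P_pt_nonneg hl) (hA.trans hsub) hne, kill_pt, P_hit_single,
          if_neg (fun hmem => by have := mem_range.1 (hA hmem); omega)]
        simp) (A := {0}) (singleton_subset_iff.2 (mem_range.2 (by omega)))
    rw [green_zero hr h0, zero_add] at key
    have e : ∑ x ∈ range j, ∑ y ∈ range L \ range j, (l • nnN) x y *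
        green (range j) (l • nnN) 0 (hit {x}) {0} *
          theta (range L) (l • nnN) (pt (L - 1) l) {y} =
        l * gP l j * theta (range L) (l • nnN) (pt (L - 1) l) {j} := by
      have := P_exit_sum hj0 hj l (fun x y => green (range j) (l • nnN) 0 (hit {x}) {0} *
          theta (range L) (l • nnN) (pt (L - 1) l) {y})
      simp only [← mul_assoc] at this
      exact this
    rw [e] at key
    exact key
  have h2 : theta (range L) (l • nnN) (pt (L - 1) l) {j} ≤
      l * green (range L) (l • nnN) 0 (hit {L - 1}) {j} := by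
    have := theta_le_green (R := range L) (κ := pt (L - 1) l) hr (P_pt_nonneg hl) (A := {j})
      (singleton_subset_iff.2 (mem_range.2 hj))
    have e : (kill (pt (L - 1) l) : Finset ℕ → ℝ) = fun S => l * hit {L - 1} S := by
      funext S; exact kill_pt l S
    rwa [e, green_smul hr h0] at this
  have h3 : green (range L) (l • nnN) 0 (hit {L - 1}) {j} ≤ (1 + l * χ) * gP l (L - j) := by
    rw [green_dual hr (P_r_symm l) (singleton_subset_iff.2 (mem_range.2 hj))
      (singleton_subset_iff.2 (mem_range.2 (by omega)))]
    have hce : CutEdge (l • nnN) (range j) (Ico j L) (j - 1) j l :=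
      { disj := PS_disj j L
        hq := mem_range.2 (by omega)
        hp := mem_Ico.2 ⟨le_rfl, hj⟩
        rqp := by rw [P_r_apply]; unfold nnN; rw [if_pos (by omega), mul_one]
        rpq := by rw [P_r_apply]; unfold nnN; rw [if_pos (by omega), mul_one]
        zero := fun x hx y hy hne => by
          rw [mem_range] at hx; rw [mem_Ico] at hy
          rw [P_r_apply]; unfold nnN; rw [if_neg (by omega), mul_zero]
        zero' := fun x hx y hy hne => by
          rw [mem_range] at hx; rw [mem_Ico] at hy
          rw [P_r_apply]; unfold nnN; rw [if_neg (by omega), mul_zero] }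
    have hIR : Ico j L ⊆ range L := by rw [← PS_union hj.le]; exact subset_union_right
    have key := cut_bound (R := range L) hr hce (PS_union hj.le)
      (F := green (range L) (l • nnN) 0 (hit {j})) (c := hit {j}) (green_empty _).le
      (fun B hB => by
        rw [insert_eq, union_comm]
        exact P_subadd hl L {j} B {j - 1} (hB.trans hIR)
          (singleton_subset_iff.2 (mem_range.2 (by omega))))
      (fun B hB hne => by rw [gen_green hr _ (hB.trans hIR) hne])
      (B := {L - 1}) (singleton_subset_iff.2 (mem_Ico.2 ⟨by omega, by omega⟩))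
    rw [PS_green_right hl hj] at key
    have h4 := P_point_le hl h (n := L) (i := j - 1) (by omega) {j}
    have h5 := mul_le_mul_of_nonneg_left h4 (mul_nonneg hl (gP_nonneg hl (L - j)))
    calc _ ≤ gP l (L - j) + l * gP l (L - j) * green (range L) (l • nnN) 0 (hit {j}) {j - 1} := key
      _ ≤ gP l (L - j) + l * gP l (L - j) * χ := by linarith
      _ = _ := by ring
  have h4 := gP_le hl h (L := j) hj0
  have h5 := gP_le hl h (L := L - j) (by omega)
  have g1 := gP_nonneg hl j
  have g2 := gP_nonneg hl (L - j)
  have a1 := aP_nonneg hl j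
  have a2 := aP_nonneg hl (L - j)
  have h6 : theta (range L) (l • nnN) (pt (L - 1) l) {j} ≤ (1 + l * χ) ^ 2 * aP l (L - j) := by
    calc _ ≤ l * green (range L) (l • nnN) 0 (hit {L - 1}) {j} := h2
      _ ≤ l * ((1 + l * χ) * gP l (L - j)) := mul_le_mul_of_nonneg_left h3 hl
      _ = (1 + l * χ) * (l * gP l (L - j)) := by ring
      _ ≤ (1 + l * χ) * ((1 + l * χ) * aP l (L - j)) :=
          mul_le_mul_of_nonneg_left h5 (by linarith)
      _ = _ := by ring
  calc aP l L ≤ l * gP l j * theta (range L) (l • nnN) (pt (L - 1) l) {j} := h1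
    _ ≤ l * gP l j * ((1 + l * χ) ^ 2 * aP l (L - j)) :=
        mul_le_mul_of_nonneg_left h6 (mul_nonneg hl g1)
    _ ≤ ((1 + l * χ) * aP l j) * ((1 + l * χ) ^ 2 * aP l (L - j)) :=
        mul_le_mul_of_nonneg_right h4 (by positivity)
    _ = _ := by ring

/-- subsolution for the time spent with rightmost infected vertex `j` -/
noncomputable def PS_s (l : ℝ) (j L : ℕ) (S : Finset ℕ) : ℝ :=
  if S ∩ Ico j L = ∅ then theta (range j) (l • nnN) (pt (j - 1) l) S / (1 + l)
  else if S ∩ Ico j L = {j} then 1 / (1 + l) else 0

lemma PS_s_nonneg (hl : 0 ≤ l) (j L : ℕ) (S : Finset ℕ) : 0 ≤ PS_s l j L S := by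
  have h1l : 0 ≤ 1 + l := by linarith
  unfold PS_s
  split_ifs
  · exact div_nonneg (theta_nonneg (P_r_nonneg hl) (P_pt_nonneg hl) _) h1l
  · positivity
  · exact le_rfl

lemma PS_b (hl : 0 ≤ l) {j L : ℕ} (hj : j < L) {A : Finset ℕ} (hA : A ⊆ range L) :
    PS_s l j L A ≤ green (range L) (l • nnN) (pt (L - 1) l)
      (fun S => if S ∩ Ico j L = {j} then 1 else 0) A := by
  have hr := P_r_nonneg hl
  have h1l : 0 < 1 + l := by linarith
  have hsub : range j ⊆ range L := range_subset_range.2 hj.le
  refine le_green hr (P_pt_nonneg hl) ?_ ?_ A hA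
  · unfold PS_s
    rw [if_pos (empty_inter _), theta_empty, zero_div]
  · intro B hB hne
    rw [neg_le]
    by_cases h1 : B ∩ Ico j L = ∅
    · -- `B ⊆ range j`
      have hBj : B ⊆ range j := by
        intro x hx
        by_contra hxj
        have : x ∈ B ∩ Ico j L := mem_inter.2 ⟨hx, mem_Ico.2
          ⟨by rw [mem_range] at hxj; omega, mem_range.1 (hB hx)⟩⟩
        rw [h1] at this
        exact absurd this (notMem_empty _)
      have hne2 : B ∩ Ico j L ≠ {j} := by rw [h1]; exact (singleton_ne_empty j).symm
      rw [if_neg hne2]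
      rw [neg_nonpos]
      unfold genK
      have hk : kill (pt (L - 1) l) B = 0 := by
        rw [kill_pt, P_hit_single, if_neg, mul_zero]
        intro hmem
        have := mem_range.1 (hBj hmem)
        omega
      rw [hk, zero_mul, sub_zero, P_gen_split hsub _ _ hBj]
      have hval : ∀ S ⊆ range j, PS_s l j L S =
          (1 + l)⁻¹ * theta (range j) (l • nnN) (pt (j - 1) l) S := by
        intro S hS
        unfold PS_s
        rw [if_pos, div_eq_inv_mul]
        rw [← disjoint_iff_inter_eq_empty]
        exact (PS_disj j L).mono_left hS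
      rw [gen_congr (g := fun S => (1 + l)⁻¹ * theta (range j) (l • nnN) (pt (j - 1) l) S)
        hval hBj, gen_smul, gen_theta hr (P_pt_nonneg hl) hBj hne]
      have hj0 : 1 ≤ j := by
        obtain ⟨x, hx⟩ := nonempty_iff_ne_empty.2 hne
        have := mem_range.1 (hBj hx)
        omega
      rw [P_exit_sum hj0 hj l (fun x y => PS_s l j L (arr x y B) - PS_s l j L B), kill_pt,
        P_hit_single]
      by_cases hmem : j - 1 ∈ B
      · rw [if_pos hmem]
        have e1 : arr (j - 1) j B = insert j B := by unfold arr; rw [if_pos hmem]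
        have e2 : PS_s l j L (insert j B) = 1 / (1 + l) := by
          have e3 : insert j B ∩ Ico j L = {j} := by
            rw [insert_inter_of_mem (mem_Ico.2 ⟨le_rfl, hj⟩), h1]
            rfl
          unfold PS_s
          rw [if_neg (by rw [e3]; exact singleton_ne_empty j), if_pos e3]
        rw [e1, e2, hval B hBj]
        apply le_of_eq
        field_simp
        ring
      · rw [if_neg hmem]
        have e1 : arr (j - 1) j B = B := by unfold arr; rw [if_neg hmem]
        rw [e1]
        simp
    · by_cases h2 : B ∩ Ico j L = {j}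
      · rw [if_pos h2]
        have hjB : j ∈ B := (mem_inter.1 (by rw [h2]; exact mem_singleton_self j :
          j ∈ B ∩ Ico j L)).1
        have hmax : ∀ x ∈ B, x ≤ j := by
          intro x hx
          by_contra hxj
          have : x ∈ B ∩ Ico j L := mem_inter.2 ⟨hx, mem_Ico.2
            ⟨by omega, mem_range.1 (hB hx)⟩⟩
          rw [h2, mem_singleton] at this
          omega
        have hsB : PS_s l j L B = 1 / (1 + l) := by
          unfold PS_s; rw [if_neg h1, if_pos h2]
        have hq : 0 < 1 / (1 + l) := by positivity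
        -- recoveries
        have hrec : - (1 / (1 + l)) ≤ ∑ x ∈ range L, (PS_s l j L (B.erase x) - PS_s l j L B) := by
          rw [← add_sum_erase _ _ (mem_range.2 hj)]
          have h3 : ∀ x ∈ (range L).erase j, PS_s l j L (B.erase x) - PS_s l j L B = 0 := by
            intro x hx
            have hxj := (mem_erase.1 hx).1
            have e3 : B.erase x ∩ Ico j L = {j} := by
              rw [erase_inter, h2, erase_eq_of_notMem]
              rw [mem_singleton]; exact hxj
            unfold PS_s
            rw [if_neg h1, if_pos h2, if_neg (by rw [e3]; exact singleton_ne_empty j), if_pos e3,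
              sub_self]
          rw [sum_eq_zero h3, add_zero, hsB]
          have := PS_s_nonneg hl j L (B.erase j)
          linarith
        -- arrows
        have harr : - (if j + 1 < L then l * (1 / (1 + l)) else 0) ≤
            ∑ x ∈ range L, ∑ y ∈ range L, (l • nnN) x y *
              (PS_s l j L (arr x y B) - PS_s l j L B) := by
          have h3 : ∀ x ∈ range L, ∀ y ∈ range L,
              (if x = j then (if y = j + 1 then - (l * (1 / (1 + l))) else 0) else 0) ≤
              (l • nnN) x y * (PS_s l j L (arr x y B) - PS_s l j L B) := by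
            intro x hx y hy
            by_cases hxB : x ∈ B
            · have hxj := hmax x hxB
              have e1 : arr x y B = insert y B := by unfold arr; rw [if_pos hxB]
              rw [e1]
              rcases Nat.lt_or_ge j y with hy1 | hy1
              · by_cases hxy : x = j ∧ y = j + 1
                · obtain ⟨rfl, rfl⟩ := hxy
                  rw [if_pos rfl, if_pos rfl, hsB, P_r_apply]
                  unfold nnN
                  rw [if_pos (Or.inl rfl), mul_one]
                  have := mul_nonneg hl (PS_s_nonneg hl x L (insert (x + 1) B))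
                  linarith
                · rw [P_r_apply]
                  unfold nnN
                  rw [if_neg (by omega : ¬ (x + 1 = y ∨ y + 1 = x)), mul_zero, zero_mul]
                  split_ifs with h5 h6
                  · exact absurd ⟨h5, h6⟩ hxy
                  · exact le_rfl
                  · exact le_rfl
              · have e3 : insert y B ∩ Ico j L = {j} := by
                  rcases hy1.lt_or_eq with hy2 | hy2
                  · rw [insert_inter_of_notMem (by rw [mem_Ico]; omega), h2]
                  · rw [hy2, insert_eq_of_mem hjB, h2]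
                have e4 : PS_s l j L (insert y B) = 1 / (1 + l) := by
                  unfold PS_s
                  rw [if_neg (by rw [e3]; exact singleton_ne_empty j), if_pos e3]
                rw [e4, hsB, sub_self, mul_zero]
                split_ifs with h5 h6
                · omega
                · exact le_rfl
                · exact le_rfl
            · have e1 : arr x y B = B := by unfold arr; rw [if_neg hxB]
              rw [e1, sub_self, mul_zero]
              rw [if_neg (fun h => hxB (by rw [h]; exact hjB))]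
          refine le_trans (le_of_eq ?_) (sum_le_sum fun x hx => sum_le_sum fun y hy => h3 x hx y hy)
          rw [sum_eq_single_of_mem j (mem_range.2 hj)]
          · simp only [if_true]
            rw [sum_ite_eq' (range L) (j + 1)]
            by_cases h4 : j + 1 < L
            · rw [if_pos h4, if_pos (mem_range.2 h4)]
            · rw [if_neg h4, if_neg (by rwa [mem_range]), neg_zero]
          · intro x _ hxj
            simp [hxj]
        have hkill : kill (pt (L - 1) l) B * PS_s l j L B ≤
            (if j + 1 < L then 0 else l * (1 / (1 + l))) := by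
          rw [kill_pt, P_hit_single, hsB]
          by_cases h4 : j + 1 < L
          · rw [if_pos h4, if_neg, mul_zero, zero_mul]
            intro hmem
            have := hmax _ hmem
            omega
          · rw [if_neg h4, if_pos, mul_one]
            have : L - 1 = j := by omega
            rw [this]; exact hjB
        have hsum : 1 / (1 + l) + l * (1 / (1 + l)) = 1 := by field_simp
        unfold genK gen
        by_cases h4 : j + 1 < L
        · rw [if_pos h4] at harr hkill
          linarith
        · rw [if_neg h4] at harr hkill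
          linarith
      · rw [if_neg h2, neg_nonpos]
        have hsB : PS_s l j L B = 0 := by
          unfold PS_s; rw [if_neg h1, if_neg h2]
        unfold genK gen
        rw [hsB, mul_zero, sub_zero]
        refine add_nonneg (sum_nonneg fun x _ => ?_)
          (sum_nonneg fun x _ => sum_nonneg fun y _ => mul_nonneg (hr x y) ?_)
        · rw [sub_zero]; exact PS_s_nonneg hl j L _
        · rw [sub_zero]; exact PS_s_nonneg hl j L _

/-- The derivative bound. -/
lemma PS_main (hl : 0 < l) (h : PathBound l χ) {L : ℕ} (hL : 1 ≤ L) :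
    (L : ℝ) * (Real.exp (-(l * χ)) / ((1 + l) * (1 + l * χ) ^ 3)) * aP l L ≤
      green (range L) (l • nnN) (pt (L - 1) l)
        (piv (theta (range L) (l • nnN) (pt (L - 1) l))) {0} := by
  have hχ : 0 ≤ χ := le_trans zero_le_one h.one_le
  have hlχ : 0 ≤ l * χ := mul_nonneg hl.le hχ
  have hr := P_r_nonneg hl.le
  have hκ := P_pt_nonneg (w := L - 1) hl.le
  have h1l : 0 < 1 + l := by linarith
  have hE := (Real.exp_pos (-(l * χ))).le
  set θ := theta (range L) (l • nnN) (pt (L - 1) l) with hθ
  have h1 : green (range L) (l • nnN) (pt (L - 1) l)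
      (fun S => ∑ j ∈ range L, (Real.exp (-(l * χ)) * aP l (L - j)) *
        (if S ∩ Ico j L = {j} then 1 else 0)) {0} ≤
      green (range L) (l • nnN) (pt (L - 1) l) (piv θ) {0} := by
    refine green_mono hr hκ (fun A hA hne => ?_) _
    have hne' := nonempty_iff_ne_empty.2 hne
    set m := A.max' hne' with hm
    have hmA : m ∈ A := max'_mem _ _
    have hmL : m < L := mem_range.1 (hA hmA)
    have hmonoθ : MonoOn (range L) θ := theta_monoOn hr hκ
    have e1 : ∑ j ∈ range L, (Real.exp (-(l * χ)) * aP l (L - j)) *
        (if A ∩ Ico j L = {j} then 1 else 0) = Real.exp (-(l * χ)) * aP l (L - m) := by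
      rw [sum_eq_single_of_mem m (mem_range.2 hmL)]
      · rw [if_pos, mul_one]
        ext x
        rw [mem_inter, mem_Ico, mem_singleton]
        constructor
        · rintro ⟨hx, hx1, _⟩
          have := le_max' A x hx
          omega
        · rintro rfl
          exact ⟨hmA, le_rfl, hmL⟩
      · intro j hj hjm
        rw [if_neg, mul_zero]
        intro hj2
        have hjA : j ∈ A := (mem_inter.1 (by rw [hj2]; exact mem_singleton_self j :
          j ∈ A ∩ Ico j L)).1
        have hjle := le_max' A j hjA
        have : m ∈ A ∩ Ico j L := mem_inter.2 ⟨hmA, mem_Ico.2 ⟨hjle, hmL⟩⟩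
        rw [hj2, mem_singleton] at this
        exact hjm this.symm
    rw [e1]
    have e2 : θ A - θ (A.erase m) ≤ piv θ A := by
      unfold piv
      refine single_le_sum (f := fun x => θ A - θ (A.erase x)) (fun x _ => ?_) hmA
      exact sub_nonneg.2 (hmonoθ _ _ (erase_subset _ _) hA)
    refine le_trans ?_ e2
    have hsub : A.erase m ⊆ range m := by
      intro x hx
      rw [mem_erase] at hx
      have := le_max' A x hx.2
      rw [mem_range]
      omega
    have := PS_a hl.le h hmL hsub
    have e3 : A.erase m ∪ {m} = A := by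
      rw [union_comm, ← insert_eq, insert_erase hmA]
    rwa [e3] at this
  refine le_trans ?_ h1
  have h2 := green_sum (R := range L) hr hκ (range L)
    (fun j S => (Real.exp (-(l * χ)) * aP l (L - j)) * (if S ∩ Ico j L = {j} then 1 else 0)) {0}
  rw [h2]
  have h3 : ∀ j ∈ range L, Real.exp (-(l * χ)) / ((1 + l) * (1 + l * χ) ^ 3) * aP l L ≤
      green (range L) (l • nnN) (pt (L - 1) l)
        (fun S => (Real.exp (-(l * χ)) * aP l (L - j)) *
          (if S ∩ Ico j L = {j} then 1 else 0)) {0} := by
    intro j hj
    have hjL := mem_range.1 hj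
    rw [green_smul hr hκ]
    have h4 := PS_b hl.le hjL (A := {0}) (singleton_subset_iff.2 (mem_range.2 (by omega)))
    have ha := aP_nonneg hl.le (L - j)
    refine le_trans ?_ (mul_le_mul_of_nonneg_left h4 (mul_nonneg hE ha))
    have hpos : 0 < (1 + l * χ) ^ 3 := by positivity
    have hone : 1 ≤ (1 + l * χ) ^ 3 := one_le_pow₀ (by linarith)
    rcases Nat.eq_zero_or_pos j with h0 | h0
    · subst h0
      have e : PS_s l 0 L {0} = 1 / (1 + l) := by
        have e3 : ({0} : Finset ℕ) ∩ Ico 0 L = {0} := by
          rw [inter_eq_left, singleton_subset_iff, mem_Ico]; omega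
        unfold PS_s
        rw [if_neg (by rw [e3]; exact singleton_ne_empty 0), if_pos e3]
      rw [e, Nat.sub_zero]
      have haL := aP_nonneg hl.le L
      rw [div_mul_eq_mul_div, div_le_iff₀ (by positivity)]
      have : Real.exp (-(l * χ)) * aP l L * (1 / (1 + l)) * ((1 + l) * (1 + l * χ) ^ 3) =
        Real.exp (-(l * χ)) * aP l L * (1 + l * χ) ^ 3 := by field_simp
      rw [this]
      exact le_mul_of_one_le_right (mul_nonneg hE haL) hone
    · have e : PS_s l j L {0} = aP l j / (1 + l) := by
        have e3 : ({0} : Finset ℕ) ∩ Ico j L = ∅ := by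
          rw [← disjoint_iff_inter_eq_empty, disjoint_singleton_left, mem_Ico]; omega
        unfold PS_s
        rw [if_pos e3]
        rfl
      rw [e]
      have hc := PS_c hl.le h h0 hjL
      rw [div_mul_eq_mul_div, div_le_iff₀ (by positivity)]
      have : Real.exp (-(l * χ)) * aP l (L - j) * (aP l j / (1 + l)) *
          ((1 + l) * (1 + l * χ) ^ 3) =
        Real.exp (-(l * χ)) * ((1 + l * χ) ^ 3 * (aP l j * aP l (L - j))) := by
        field_simp
      rw [this]
      exact mul_le_mul_of_nonneg_left hc hE
  calc _ = ∑ j ∈ range L, Real.exp (-(l * χ)) / ((1 + l) * (1 + l * χ) ^ 3) * aP l L := by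
        rw [sum_const, card_range, nsmul_eq_mul]; ring
    _ ≤ _ := sum_le_sum h3

lemma PS_pt (t : ℝ) (w : ℕ) : t • (pt w 1 : ℕ → ℝ) = pt w t := by
  funext x
  rw [Pi.smul_apply, smul_eq_mul]
  unfold pt
  split_ifs <;> simp

lemma PS_deriv (hl : 0 < l) {L : ℕ} (hL : 1 ≤ L) :
    HasDerivAt (fun t => aP t L) (l⁻¹ * green (range L) (l • nnN) (pt (L - 1) l)
        (piv (theta (range L) (l • nnN) (pt (L - 1) l))) {0}) l := by
  have key := hasDerivAt_theta (R := range L) (a := nnN) (κ := pt (L - 1) 1) P_nn_nonneg
    (P_pt_nonneg zero_le_one) hl (A := {0}) (singleton_subset_iff.2 (mem_range.2 (by omega)))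
  simp only [PS_pt] at key
  exact key

/-- exponential gain -/
lemma PS_gain (hl' : 0 < l') (hlt : l' < l) (h : PathBound l χ) {L : ℕ} (hL : 1 ≤ L) :
    aP l' L * Real.exp (Real.exp (-(l * χ)) / (l * ((1 + l) * (1 + l * χ) ^ 3)) * L * (l - l')) ≤
      aP l L := by
  have hl : 0 < l := hl'.trans hlt
  have hχ : 0 ≤ χ := le_trans zero_le_one h.one_le
  have hlχ : 0 ≤ l * χ := mul_nonneg hl.le hχ
  set c : ℝ := Real.exp (-(l * χ)) / (l * ((1 + l) * (1 + l * χ) ^ 3)) with hc
  set G : ℝ → ℝ := fun t => aP t L * Real.exp (-(c * L * t)) with hG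
  have hder : ∀ t ∈ Set.Icc l' l, HasDerivAt G
      ((t⁻¹ * green (range L) (t • nnN) (pt (L - 1) t)
        (piv (theta (range L) (t • nnN) (pt (L - 1) t))) {0}) * Real.exp (-(c * L * t)) +
        aP t L * (Real.exp (-(c * L * t)) * (-(c * L)))) t := by
    intro t ht
    have ht0 : 0 < t := lt_of_lt_of_le hl' ht.1
    have h1 := PS_deriv ht0 hL
    have h2 : HasDerivAt (fun t : ℝ => Real.exp (-(c * L * t)))
        (Real.exp (-(c * L * t)) * (-(c * L))) t := by
      have h3 : HasDerivAt (fun t : ℝ => -(c * L * t)) (-(c * L)) t := by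
        have h4 := (hasDerivAt_id t).const_mul (-(c * (L : ℝ)))
        rw [mul_one] at h4
        have e : (fun t : ℝ => -(c * (L : ℝ) * t)) = fun t : ℝ => -(c * (L : ℝ)) * id t := by
          funext t; simp
        rw [e]; exact h4
      exact h3.exp
    exact h1.mul h2
  have hmono : MonotoneOn G (Set.Icc l' l) := by
    refine monotoneOn_of_deriv_nonneg (convex_Icc l' l)
      (fun t ht => (hder t ht).continuousAt.continuousWithinAt)
      (fun t ht => (hder t (interior_subset ht)).differentiableAt.differentiableWithinAt) ?_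
    intro t ht
    have ht' := interior_subset ht
    rw [(hder t ht').deriv]
    have ht0 : 0 < t := lt_of_lt_of_le hl' ht'.1
    have hb : PathBound t χ := h.mono ht0.le ht'.2
    have h1 := PS_main ht0 hb hL
    have ha := aP_nonneg ht0.le L
    have htχ : 0 ≤ t * χ := mul_nonneg ht0.le hχ
    have hle : t * χ ≤ l * χ := mul_le_mul_of_nonneg_right ht'.2 hχ
    have h2 : c * L * aP t L ≤ t⁻¹ * green (range L) (t • nnN) (pt (L - 1) t)
        (piv (theta (range L) (t • nnN) (pt (L - 1) t))) {0} := by
      refine le_trans ?_ (mul_le_mul_of_nonneg_left h1 (inv_nonneg.2 ht0.le))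
      have h3 : c ≤ t⁻¹ * (Real.exp (-(t * χ)) / ((1 + t) * (1 + t * χ) ^ 3)) := by
        have e : t⁻¹ * (Real.exp (-(t * χ)) / ((1 + t) * (1 + t * χ) ^ 3)) =
          Real.exp (-(t * χ)) / (t * ((1 + t) * (1 + t * χ) ^ 3)) := by
          field_simp
        rw [e, hc]
        apply div_le_div₀ (Real.exp_pos _).le (Real.exp_le_exp.2 (by linarith)) (by positivity)
        have h5 : t ≤ l := ht'.2
        gcongr
      calc c * L * aP t L ≤ (t⁻¹ * (Real.exp (-(t * χ)) / ((1 + t) * (1 + t * χ) ^ 3))) * L *
            aP t L := by gcongr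
        _ = _ := by ring
    have hE := (Real.exp_pos (-(c * L * t))).le
    have := mul_le_mul_of_nonneg_right h2 hE
    linarith
  have h1 := hmono (Set.left_mem_Icc.2 hlt.le) (Set.right_mem_Icc.2 hlt.le) hlt.le
  simp only [hG] at h1
  have h2 := mul_le_mul_of_nonneg_right h1 (Real.exp_pos (c * L * l)).le
  rw [mul_assoc (aP l' L), mul_assoc (aP l L), ← Real.exp_add, ← Real.exp_add] at h2
  have e1 : -(c * (L : ℝ) * l') + c * L * l = c * L * (l - l') := by ring
  have e2 : -(c * (L : ℝ) * l) + c * L * l = 0 := by ring
  rwa [e1, e2, Real.exp_zero, mul_one] at h2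

theorem strict {l' l χ : ℝ} (hl' : 0 < l') (hlt : l' < l) (h : PathBound l χ) :
    Tendsto (fun L => gP l' L / aP l (L + 1)) atTop (𝓝 0) := by
  have hl : 0 < l := hl'.trans hlt
  have hχ : 0 ≤ χ := le_trans zero_le_one h.one_le
  have hlχ : 0 ≤ l * χ := mul_nonneg hl.le hχ
  obtain ⟨c, hc⟩ : ∃ c : ℝ, c = Real.exp (-(l * χ)) / (l * ((1 + l) * (1 + l * χ) ^ 3)) := ⟨_, rfl⟩
  have hc0 : 0 < c := by
    rw [hc]
    have := Real.exp_pos (-(l * χ))
    positivity
  have h' : PathBound l' χ := h.mono hl'.le hlt.le
  have hbound : ∀ᶠ L : ℕ in atTop, gP l' L / aP l (L + 1) ≤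
      ((1 + l' * χ) / l' * ((1 + l) / l)) * Real.exp (-(c * (l - l') * L)) := by
    filter_upwards [eventually_ge_atTop 1] with L hL
    have hg := gP_le hl'.le h' hL
    have hs := aP_succ hl.le hL
    have hgain := PS_gain hl' hlt h hL
    rw [← hc] at hgain
    have ha1 := aP_pos hl (L := L + 1) (by omega)
    have ha' := aP_nonneg hl'.le L
    rw [div_le_iff₀ ha1]
    have hE := Real.exp_pos (-(c * (l - l') * L))
    -- aP l' L ≤ aP l L * exp(-)
    have h1 : aP l' L ≤ aP l L * Real.exp (-(c * (l - l') * L)) := by
      have := mul_le_mul_of_nonneg_right hgain hE.le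
      rw [mul_assoc, ← Real.exp_add] at this
      have e : c * (L : ℝ) * (l - l') + -(c * (l - l') * L) = 0 := by ring
      rwa [e, Real.exp_zero, mul_one] at this
    have h2 : aP l L ≤ (1 + l) / l * aP l (L + 1) := by
      have := mul_le_mul_of_nonneg_left hs (by positivity : 0 ≤ (1 + l) / l)
      have e : (1 + l) / l * (aP l L * (l / (1 + l))) = aP l L := by field_simp
      rwa [e] at this
    have h3 : gP l' L ≤ (1 + l' * χ) / l' * aP l' L := by
      rw [div_mul_eq_mul_div, le_div_iff₀ hl']
      linarith
    have hl'χ : 0 ≤ l' * χ := mul_nonneg hl'.le hχ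
    calc gP l' L ≤ (1 + l' * χ) / l' * aP l' L := h3
      _ ≤ (1 + l' * χ) / l' * (((1 + l) / l * aP l (L + 1)) *
          Real.exp (-(c * (l - l') * L))) := by
          refine mul_le_mul_of_nonneg_left (h1.trans ?_) (by positivity)
          exact mul_le_mul_of_nonneg_right h2 hE.le
      _ = _ := by ring
  have hlim : Tendsto (fun L : ℕ => ((1 + l' * χ) / l' * ((1 + l) / l)) *
      Real.exp (-(c * (l - l') * L))) atTop (𝓝 0) := by
    have h1 : Tendsto (fun L : ℕ => c * (l - l') * (L : ℝ)) atTop atTop :=
      tendsto_natCast_atTop_atTop.const_mul_atTop (mul_pos hc0 (sub_pos.2 hlt))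
    have h2 := (Real.tendsto_exp_neg_atTop_nhds_zero.comp h1).const_mul
      ((1 + l' * χ) / l' * ((1 + l) / l))
    simpa using h2
  refine tendsto_of_tendsto_of_tendsto_of_le_of_le' tendsto_const_nhds hlim ?_ hbound
  refine Eventually.of_forall fun L => ?_
  exact div_nonneg (gP_nonneg hl'.le L) (aP_nonneg hl.le _)

end PS

end Pool.Agent.CP34
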