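import Pool.Agent.CP34.BT
import Pool.Agent.CP34.PS

/-!
# Module BS: existence of a block system
-/

open Finset Filter Topology
open List (replicate)

namespace Pool.Agent.CP34

variable {l χ : ℝ} {k d ℓ : ℕ} {ε q Cs : ℝ}

lemma BS_GG_ne (hk : 1 ≤ k) (b : ℕ) : GG k d ℓ b ≠ [] := by
  cases b with
  | zero => exact AL_rep_ne hk d
  | succ b =>
    intro h
    rw [GG, List.append_eq_nil_iff] at h
    exact AL_rep_ne hk d h.1

lemma BS_GG_entries (hd : 1 ≤ d) (b : ℕ) : ∀ e ∈ GG k d ℓ b, 1 ≤ e ∧ e ≤ d := by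
  induction b with
  | zero =>
    intro e he
    rw [GG] at he
    obtain rfl := List.eq_of_mem_replicate he
    exact ⟨hd, le_rfl⟩
  | succ b ih =>
    intro e he
    rw [GG, List.mem_append, List.mem_append] at he
    rcases he with he | he | he
    · obtain rfl := List.eq_of_mem_replicate he
      exact ⟨hd, le_rfl⟩
    · obtain rfl := List.eq_of_mem_replicate he
      exact ⟨le_rfl, hd⟩
    · exact ih e he

lemma BS_GG_prod (b : ℕ) : (GG k d ℓ b).prod = (d ^ k) ^ (b + 1) := by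
  induction b with
  | zero => rw [GG, List.prod_replicate, zero_add, pow_one]
  | succ b ih =>
    rw [GG, List.prod_append, List.prod_append, List.prod_replicate, List.prod_replicate, one_pow,
      one_mul, ih]
    ring

/-- the number of children of the infected vertices -/
lemma BS_children {p : List ℕ} (hp : p ≠ []) (hent : ∀ e ∈ p, e ≤ d) (S : Finset (List ℕ)) :
    ∑ w ∈ Lev p, hit {w.dropLast} S ≤ d * cardR S := by
  classical
  have h1 : ∑ w ∈ Lev p, hit {w.dropLast} S =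
      (((Lev p).filter fun w => w.dropLast ∈ S).card : ℝ) := by
    rw [card_filter]
    push_cast
    exact sum_congr rfl fun w _ => by rw [P_hit_single]
  rw [h1]
  have hsub : (Lev p).filter (fun w => w.dropLast ∈ S) ⊆
      (S ×ˢ range d).image fun x => x.1 ++ [x.2] := by
    intro w hw
    rw [Finset.mem_filter] at hw
    have hne := AL_ne hp hw.1
    obtain ⟨hlen, hlt⟩ := mem_Lev.1 hw.1
    rw [Finset.mem_image]
    refine ⟨(w.dropLast, w.getLast hne), ?_, List.dropLast_append_getLast hne⟩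
    rw [Finset.mem_product]
    refine ⟨hw.2, mem_range.2 ?_⟩
    have hpos := List.length_pos_iff.2 hne
    show w.getLast hne < d
    rw [List.getLast_eq_getElem]
    exact (hlt (w.length - 1) (by omega) (by omega)).trans_le (hent _ (List.getElem_mem _))
  have h2 := (card_le_card hsub).trans card_image_le
  rw [card_product, card_range] at h2
  unfold cardR
  have h3 : (((Lev p).filter fun w => w.dropLast ∈ S).card : ℝ) ≤ ((S.card * d : ℕ) : ℝ) := by
    exact_mod_cast h2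
  push_cast at h3
  linarith

lemma BS_sum_geo (J : ℕ) : ∑ j ∈ range J, ((j : ℝ) + 1) / 2 ^ j = 4 - 2 * ((J : ℝ) + 2) / 2 ^ J := by
  induction J with
  | zero => norm_num
  | succ J ih =>
    rw [sum_range_succ, ih, pow_succ]
    push_cast
    field_simp
    ring

/-- all down-link ends of a block seen from a port -/
lemma BS_down (hl : 0 ≤ l) {p : List ℕ} (hp : p ≠ []) (hent : ∀ e ∈ p, e ≤ d) {b : ℕ}
    (hb : 1 ≤ b) {A : Finset (List ℕ)} (hA : A ⊆ Reg p) {C : ℝ}
    (hC : green (Reg (p ++ replicate b 1)) (tr l) 0 cardR A ≤ C) :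
    ∑ w ∈ Lev (p ++ replicate b 1),
      l * green (Reg (p ++ replicate b 1)) (tr l) 0 (hit {w.dropLast}) A ≤
      l ^ 2 * gP l b * (d * C) := by
  have hLev : Lev (p ++ replicate b 1) = (Lev p).image fun w => w ++ replicate b 0 := by
    rw [Lev_append]
    ext x
    rw [mem_biUnion, Finset.mem_image]
    constructor
    · rintro ⟨w, hw, hx⟩
      rw [AL_Lev_one, image_singleton, Finset.mem_singleton] at hx
      exact ⟨w, hw, hx.symm⟩
    · rintro ⟨w, hw, rfl⟩
      exact ⟨w, hw, by rw [AL_Lev_one, image_singleton, Finset.mem_singleton]⟩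
  have hne : (replicate b 0 : List ℕ) ≠ [] := AL_rep_ne hb 0
  rw [hLev, sum_image (fun _ _ _ _ h => List.append_cancel_right h)]
  have h1 : ∀ w ∈ Lev p,
      l * green (Reg (p ++ replicate b 1)) (tr l) 0 (hit {(w ++ replicate b 0).dropLast}) A ≤
      l ^ 2 * gP l b * green (Reg (p ++ replicate b 1)) (tr l) 0 (hit {w.dropLast}) A := by
    intro w hw
    rw [List.dropLast_append_of_ne_nil hne, AL_drop_rep]
    have h2 := mul_le_mul_of_nonneg_left (al_le hl hp hb hw hA) hl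
    refine h2.trans (le_of_eq ?_)
    ring
  refine (sum_le_sum h1).trans ?_
  rw [← mul_sum]
  have h0 : 0 ≤ l ^ 2 * gP l b := mul_nonneg (sq_nonneg l) (gP_nonneg hl b)
  refine mul_le_mul_of_nonneg_left ?_ h0
  rw [← green_sum (κ := (0 : List ℕ → ℝ)) (tr_nonneg hl) (fun _ => le_rfl)]
  refine (green_mono (κ := (0 : List ℕ → ℝ)) (tr_nonneg hl) (fun _ => le_rfl)
    (fun S _ _ => BS_children hp hent S) A).trans ?_
  rw [green_smul (κ := (0 : List ℕ → ℝ)) (tr_nonneg hl) (fun _ => le_rfl)]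
  exact mul_le_mul_of_nonneg_left hC (Nat.cast_nonneg d)

/-- the top of the up-link -/
lemma BS_up (hl : 0 ≤ l) {a : ℕ} (ha : 1 ≤ a) {q : List ℕ} (hq : q ≠ [])
    {A : Finset (List ℕ)} (hA : A ⊆ (Reg q).image fun γ => replicate a 0 ++ γ) {C : ℝ}
    (hC : green (Reg (replicate a 1 ++ q)) (tr l) 0 (hit {replicate a 0}) A ≤ C) :
    l * green (Reg (replicate a 1 ++ q)) (tr l) 0 (hit {[]}) A ≤ l ^ 2 * gP l a * C := by
  have h1 := mul_le_mul_of_nonneg_left (ul_le hl ha hq hA) hl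
  have h0 : 0 ≤ l ^ 2 * gP l a := mul_nonneg (sq_nonneg l) (gP_nonneg hl a)
  have h2 := mul_le_mul_of_nonneg_left hC h0
  calc l * green (Reg (replicate a 1 ++ q)) (tr l) 0 (hit {[]}) A
      ≤ l * (l * gP l a * green (Reg (replicate a 1 ++ q)) (tr l) 0 (hit {replicate a 0}) A) := h1
    _ = l ^ 2 * gP l a * green (Reg (replicate a 1 ++ q)) (tr l) 0 (hit {replicate a 0}) A := by
        ring
    _ ≤ _ := h2

theorem exists_blockSys (hT : Tuned l χ k d ℓ ε q Cs) :
    ∃ (G : ℕ → List ℕ) (N : ℕ → ℕ) (C Cm δ CN : ℝ) (M0 : ℕ), ∀ M, M0 ≤ M →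
      BlockSys l d G (Function.update N 0 M) C Cm δ CN := by
  have hl0 := hT.l0
  have hl := hl0.le
  have hχ1 := hT.pb.one_le
  obtain ⟨Nb, b0, C1, hC1, hNℓ, hNlim, hsurv, hsum⟩ := block_tuned hT
  obtain ⟨C2, hC2, hbb⟩ := block_bounds hT
  -- constants
  obtain ⟨K, hK⟩ : ∃ K : ℝ, K = (1 + l * χ) / l * ((1 + l) / l) := ⟨_, rfl⟩
  have hlχ : 0 ≤ l * χ := mul_nonneg hl (le_trans zero_le_one hχ1)
  have hK0 : 0 ≤ K := by
    rw [hK]; positivity
  obtain ⟨Cm, hCm⟩ : ∃ Cm : ℝ, Cm = max 1 (C1 * K) := ⟨_, rfl⟩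
  have hCm1 : 1 ≤ Cm := by rw [hCm]; exact le_max_left _ _
  obtain ⟨δ, hδ⟩ : ∃ δ : ℝ, δ = 1 / (16 * Cm) := ⟨_, rfl⟩
  have hδ0 : 0 < δ := by rw [hδ]; positivity
  obtain ⟨D, hD⟩ : ∃ D : ℕ, D = max 2 (d ^ k) := ⟨_, rfl⟩
  have hD2 : 1 < D := by rw [hD]; omega
  have hDd : d ^ k ≤ D := by rw [hD]; exact le_max_right _ _
  have hd1 : (1 : ℝ) ≤ d := by exact_mod_cast hT.hd
  have hdC : 0 < (d : ℝ) * C2 := by nlinarith
  -- smallness
  obtain ⟨n0, hn0⟩ : ∃ n0, ∀ n, n0 ≤ n → l ^ 2 * gP l n * (d * C2) ≤ δ := by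
    have h1 : Tendsto (fun n => l ^ 2 * gP l n * (d * C2)) atTop (𝓝 (l ^ 2 * 0 * (d * C2))) :=
      ((gP_tendsto hl hT.pb).const_mul _).mul_const _
    rw [mul_zero, zero_mul] at h1
    obtain ⟨n0, h2⟩ := eventually_atTop.1 ((tendsto_order.1 h1).2 δ hδ0)
    exact ⟨n0, fun n hn => (h2 n hn).le⟩
  have hn0' : ∀ n, n0 ≤ n → l ^ 2 * gP l n * C2 ≤ δ := by
    intro n hn
    refine le_trans ?_ (hn0 n hn)
    refine mul_le_mul_of_nonneg_left ?_ (mul_nonneg (sq_nonneg l) (gP_nonneg hl n))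
    nlinarith
  obtain ⟨b1, hb1⟩ : ∃ b1, ∀ b, b1 ≤ b → b0 ≤ b ∧ n0 ≤ Nb b := by
    obtain ⟨b1, h1⟩ := eventually_atTop.1 (tendsto_atTop.1 hNlim n0)
    exact ⟨max b0 b1, fun b hb => ⟨(le_max_left _ _).trans hb, h1 b ((le_max_right _ _).trans hb)⟩⟩
  obtain ⟨bb, hbbdef⟩ : ∃ bb : ℕ → ℕ, ∀ j, bb j = b1 + Nat.log D (j + 1) := ⟨_, fun _ => rfl⟩
  have hbb1 : ∀ j, b1 ≤ bb j := fun j => by rw [hbbdef]; omega
  have hbblim : ∀ m, ∃ j0, ∀ j, j0 ≤ j → m ≤ bb j := by
    intro m
    refine ⟨D ^ m, fun j hj => ?_⟩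
    have := Nat.le_log_of_pow_le hD2 (show D ^ m ≤ j + 1 by omega)
    rw [hbbdef]; omega
  refine ⟨fun j => GG k d ℓ (bb (j - 1)), fun j => Nb (bb (j - 1)), C2, Cm, δ,
    4 * (D : ℝ) ^ (b1 + 1), max n0 ℓ, fun M hM => ?_⟩
  set G : ℕ → List ℕ := fun j => GG k d ℓ (bb (j - 1)) with hG
  set N : ℕ → ℕ := Function.update (fun j => Nb (bb (j - 1))) 0 M with hN
  have hGs : ∀ j, G (j + 1) = GG k d ℓ (bb j) := fun j => rfl
  have hNs : ∀ j, N (j + 1) = Nb (bb j) := fun j => by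
    rw [hN, Function.update_of_ne (Nat.succ_ne_zero j)]; rfl
  have hN0 : N 0 = M := by rw [hN, Function.update_self]
  have hNge : ∀ j, ℓ ≤ N j ∧ n0 ≤ N j := by
    intro j
    cases j with
    | zero => rw [hN0]; exact ⟨(le_max_right _ _).trans hM, (le_max_left _ _).trans hM⟩
    | succ j => rw [hNs]; exact ⟨hNℓ _, (hb1 _ (hbb1 j)).2⟩
  have hNpos : ∀ j, 1 ≤ N j := fun j => hT.hℓ.trans (hNge j).1
  have hBP : ∀ j, BP G N j =
      replicate (N j) 1 ++ GG k d ℓ (bb j) ++ replicate (Nb (bb j)) 1 := fun j => by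
    unfold BP; rw [hGs, hNs]
  have hPP : ∀ j, PP G N (j + 1) = GG k d ℓ (bb j) ++ replicate (Nb (bb j)) 1 := fun j => by
    rw [PP, hGs, hNs]
  have hNbpos : ∀ j, 1 ≤ Nb (bb j) := fun j => hT.hℓ.trans (hNℓ _)
  have hGGne := fun j => BS_GG_ne (d := d) (ℓ := ℓ) hT.hk (bb j)
  -- ports
  have hcard : ∀ j, ∀ u ∈ Lev (replicate (N j) 1 ++ GG k d ℓ (bb j)),
      green (Reg (BP G N j)) (tr l) 0 cardR {u.dropLast} ≤ C2 := by
    intro j u hu
    rw [hBP]
    exact (hbb (N j) (bb j) (Nb (bb j)) (hNge j).1 (hNℓ _)).1 u hu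
  have hport : ∀ j, ∀ u ∈ Lev (replicate (N j) 1 ++ GG k d ℓ (bb j)), ∀ B : Finset (List ℕ),
      green (Reg (BP G N j)) (tr l) 0 (hit B) {u.dropLast} ≤ C2 := by
    intro j u hu B
    exact (green_mono (κ := (0 : List ℕ → ℝ)) (tr_nonneg hl) (fun _ => le_rfl)
      (fun S _ _ => P_hit_le_cardR B S) _).trans (hcard j u hu)
  have hmain : ∀ j l', 0 < l' → l' ≤ l → ∑ w ∈ Lev (BP G N j),
      l' * green (Reg (BP G N j)) (tr l') 0 (hit {w.dropLast}) {replicate (N j) 0} ≤
      C1 * (gP l' (Nb (bb j)) / aP l (Nb (bb j) + 1)) := by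
    intro j l' hl' hle
    rw [hBP]
    exact hsum (bb j) (hb1 _ (hbb1 j)).1 (N j) (hNge j).1 l' hl' hle
  have hBPassoc : ∀ j, BP G N j =
      replicate (N j) 1 ++ (GG k d ℓ (bb j) ++ replicate (Nb (bb j)) 1) := fun j => by
    rw [hBP, List.append_assoc]
  have hqne : ∀ j, GG k d ℓ (bb j) ++ replicate (Nb (bb j)) 1 ≠ [] := fun j h =>
    hGGne j (List.append_eq_nil_iff.1 h).1
  exact {
    l0 := hl0
    hG := fun j => hGGne j
    hN := hNpos
    entries := fun j => BS_GG_entries hT.hd (bb j)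
    hC := hC2
    hCm := hCm1
    δ0 := hδ0.le
    δC := hδ.le
    hCN := by positivity
    m_le := fun j l' hl' hle => by
      refine (hmain j l' hl' hle).trans ?_
      have ha1 := aP_pos hl0 (L := Nb (bb j)) (hNbpos j)
      have ha2 := aP_pos hl0 (L := Nb (bb j) + 1) (by omega)
      have h1 := gP_mono_rate hl'.le hle (Nb (bb j))
      have h2 := gP_le hl hT.pb (L := Nb (bb j)) (hNbpos j)
      have h3 := aP_succ hl (L := Nb (bb j)) (hNbpos j)
      have h4 : gP l' (Nb (bb j)) / aP l (Nb (bb j) + 1) ≤ K := by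
        rw [div_le_iff₀ ha2, hK]
        have h5 : gP l (Nb (bb j)) ≤ (1 + l * χ) / l * aP l (Nb (bb j)) := by
          rw [div_mul_eq_mul_div, le_div_iff₀ hl0]; linarith
        have h6 : aP l (Nb (bb j)) ≤ (1 + l) / l * aP l (Nb (bb j) + 1) := by
          have h7 : aP l (Nb (bb j)) = (1 + l) / l * (aP l (Nb (bb j)) * (l / (1 + l))) := by
            field_simp
          rw [h7]
          exact mul_le_mul_of_nonneg_left h3 (by positivity)
        calc gP l' (Nb (bb j)) ≤ gP l (Nb (bb j)) := h1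
          _ ≤ (1 + l * χ) / l * aP l (Nb (bb j)) := h5
          _ ≤ (1 + l * χ) / l * ((1 + l) / l * aP l (Nb (bb j) + 1)) :=
            mul_le_mul_of_nonneg_left h6 (by positivity)
          _ = _ := by ring
      calc C1 * (gP l' (Nb (bb j)) / aP l (Nb (bb j) + 1)) ≤ C1 * K :=
            mul_le_mul_of_nonneg_left h4 (by linarith)
        _ ≤ Cm := by rw [hCm]; exact le_max_right _ _
    m_lim := fun l' hl' hlt η hη => by
      have h1 : Tendsto (fun n => C1 * (gP l' (Nb n) / aP l (Nb n + 1))) atTop (𝓝 (C1 * 0)) :=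
        ((strict hl' hlt hT.pb).comp hNlim).const_mul C1
      rw [mul_zero] at h1
      obtain ⟨m, hm⟩ := eventually_atTop.1 ((tendsto_order.1 h1).2 η hη)
      obtain ⟨j0, hj0⟩ := hbblim m
      exact ⟨j0, fun j hj => (hmain j l' hl' hlt.le).trans (hm _ (hj0 j hj)).le⟩
    up_root := fun j => by
      have h1 := (hbb (N j) (bb j) (Nb (bb j)) (hNge j).1 (hNℓ _)).2
      rw [← hBP, hBPassoc] at h1
      rw [hBPassoc]
      refine (BS_up hl (hNpos j) (hqne j) ?_ h1).trans (hn0' _ (hNge j).2)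
      rw [singleton_subset_iff]
      exact Finset.mem_image.2 ⟨[], TR_nil_mem (hqne j), List.append_nil _⟩
    up_port := fun j u hu => by
      rw [hGs] at hu
      have h1 := hport j u hu {replicate (N j) 0}
      rw [hBPassoc] at h1 ⊢
      refine (BS_up hl (hNpos j) (hqne j) ?_ h1).trans (hn0' _ (hNge j).2)
      rw [singleton_subset_iff]
      rw [Lev_append, AL_Lev_one, singleton_biUnion] at hu
      obtain ⟨w, hw, rfl⟩ := Finset.mem_image.1 hu
      rw [List.dropLast_append_of_ne_nil (AL_ne (hGGne j) hw)]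
      exact Finset.mem_image.2 ⟨w.dropLast, TR_Reg_sub _ _ (TR_dropLast_Lev hw (hGGne j)), rfl⟩
    down_port := fun j u hu => by
      rw [hGs] at hu
      have h1 := hcard j u hu
      have hne : replicate (N j) 1 ++ GG k d ℓ (bb j) ≠ [] := fun h =>
        hGGne j (List.append_eq_nil_iff.1 h).2
      rw [hBP] at h1 ⊢
      refine (BS_down (d := d) hl hne ?_ (hNbpos j) ?_ h1).trans (hn0 _ (hb1 _ (hbb1 j)).2)
      · intro e he
        rw [List.mem_append] at he
        rcases he with he | he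
        · rw [List.eq_of_mem_replicate he]; exact hT.hd
        · exact (BS_GG_entries hT.hd (bb j) e he).2
      · rw [singleton_subset_iff]
        exact TR_dropLast_Lev hu hne
    root_root := fun j => by
      rw [hBP]; exact (hbb (N j) (bb j) (Nb (bb j)) (hNge j).1 (hNℓ _)).2
    root_port := fun j u hu => by
      rw [hGs] at hu
      exact hport j u hu _
    surv := fun j => by
      have h := hsurv (bb j) (hb1 _ (hbb1 j)).1
      rw [hPP]
      exact h
    cardN := fun J => by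
      have h1 : ∀ j ∈ range J, ((Lev (PP G N (j + 1))).card : ℝ) / 2 ^ j ≤
          (D : ℝ) ^ (b1 + 1) * (((j : ℝ) + 1) / 2 ^ j) := by
        intro j _
        have h2 : (Lev (PP G N (j + 1))).card ≤ D ^ (b1 + 1) * (j + 1) := by
          rw [card_Lev, hPP, List.prod_append, List.prod_replicate, one_pow, mul_one, BS_GG_prod]
          calc (d ^ k) ^ (bb j + 1) ≤ D ^ (bb j + 1) := Nat.pow_le_pow_left hDd _
            _ = D ^ (b1 + 1) * D ^ (Nat.log D (j + 1)) := by
              rw [← pow_add, hbbdef]; congr 1; ring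
            _ ≤ D ^ (b1 + 1) * (j + 1) :=
              Nat.mul_le_mul_left _ (Nat.pow_log_le_self D (Nat.succ_ne_zero j))
        have h3 : ((Lev (PP G N (j + 1))).card : ℝ) ≤ (D : ℝ) ^ (b1 + 1) * ((j : ℝ) + 1) := by
          exact_mod_cast h2
        rw [← mul_div_assoc]
        exact div_le_div_of_nonneg_right h3 (by positivity)
      refine (sum_le_sum h1).trans ?_
      rw [← mul_sum, BS_sum_geo]
      have h4 : 0 ≤ 2 * ((J : ℝ) + 2) / 2 ^ J := by positivity
      have h5 : (0 : ℝ) ≤ (D : ℝ) ^ (b1 + 1) := by positivity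
      nlinarith }

end Pool.Agent.CP34
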