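import Pool.Agent.CP34.Defs2
import Pool.Agent.CP34.AL
import Pool.Agent.CP34.TT

/-! Module GR: growth of the blocks. -/

open Finset Filter Topology
open List (replicate)

namespace Pool.Agent.CP34


/-! growth of the blocks -/
variable {l χ : ℝ} {k d ℓ : ℕ} {ε q Cs : ℝ}

/-- crossing two regions joined by a link -/
lemma GR_mul (hl : 0 ≤ l) {p q : List ℕ} {ℓ : ℕ} (hℓ : 1 ≤ ℓ) (hq : q ≠ []) {s y w : List ℕ}
    (hs : s ∈ Reg (p ++ replicate ℓ 1)) (hy : y ∈ Lev p) (hw : w ∈ Lev (replicate ℓ 1 ++ q)) :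
    theta (Reg (p ++ replicate ℓ 1)) (tr l) (pt (y ++ replicate ℓ 0).dropLast l) {s} *
      theta (Reg (replicate ℓ 1 ++ q)) (tr l) (pt w.dropLast l) {replicate ℓ 0} ≤
    theta (Reg (p ++ (replicate ℓ 1 ++ q))) (tr l) (pt (y ++ w).dropLast l) {s} := by
  have hwne : w ≠ [] := by
    rintro rfl
    have := (mem_Lev.1 hw).1
    simp at this; omega
  have hR : Reg (p ++ replicate ℓ 1) ⊆ Reg (p ++ (replicate ℓ 1 ++ q)) := by
    rw [← List.append_assoc]; exact TR_Reg_sub _ _
  have hlev : y ++ replicate ℓ 0 ∈ Lev (p ++ replicate ℓ 1) := by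
    rw [tt_lev_link]; exact Finset.mem_image.2 ⟨y, hy, rfl⟩
  have hmem : y ++ replicate ℓ 0 ∈ Reg (p ++ (replicate ℓ 1 ++ q)) := by
    rw [← List.append_assoc, Reg_append]
    exact Finset.mem_union_right _ (mem_biUnion.2 ⟨_, hlev, Finset.mem_image.2
      ⟨[], TR_nil_mem hq, by simp⟩⟩)
  have hnot : y ++ replicate ℓ 0 ∉ Reg (p ++ replicate ℓ 1) := by
    intro h
    have h1 := (mem_Reg.1 h).1
    have h2 := (mem_Lev.1 hlev).1
    omega
  have hppne : p ++ replicate ℓ 1 ≠ [] := fun h => tt_rep_ne hℓ 1 (List.append_eq_nil_iff.1 h).2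
  have hwR : (y ++ replicate ℓ 0).dropLast ∈ Reg (p ++ replicate ℓ 1) :=
    TR_dropLast_Lev hlev hppne
  have hne : y ++ replicate ℓ 0 ≠ [] := fun h => tt_rep_ne hℓ 0 (List.append_eq_nil_iff.1 h).2
  have h1 := strong_markov (R := Reg (p ++ replicate ℓ 1))
    (R' := Reg (p ++ (replicate ℓ 1 ++ q))) (r := tr l)
    (F := theta (Reg (p ++ (replicate ℓ 1 ++ q))) (tr l) (pt (y ++ w).dropLast l))
    (tr_nonneg hl) hR (theta_monoOn (tr_nonneg hl) (pt_nonneg hl)) (by rw [theta_empty])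
    (fun A hA _ => by
      rw [gen_theta' (tr_nonneg hl) (pt_nonneg hl) (hA.trans hR)]
      have := kill_nonneg (κ := pt (y ++ w).dropLast l) (pt_nonneg hl) A
      have h3 := theta_le_one (R := Reg (p ++ (replicate ℓ 1 ++ q))) (tr_nonneg hl)
        (pt_nonneg (w := (y ++ w).dropLast) hl) A
      have := mul_nonneg this (sub_nonneg.2 h3)
      linarith)
    hwR hmem hnot hl (TR_tr_child hne).ge (A := {s}) (Finset.singleton_subset_iff.2 hs)
  have h2 : theta (Reg (replicate ℓ 1 ++ q)) (tr l) (pt w.dropLast l) {replicate ℓ 0} ≤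
      theta (Reg (p ++ (replicate ℓ 1 ++ q))) (tr l) (pt (y ++ w).dropLast l)
        {y ++ replicate ℓ 0} := by
    have hmem2 : replicate ℓ 0 ∈ Reg (replicate ℓ 1 ++ q) := by
      rw [Reg_append]
      exact Finset.mem_union_right _ (mem_biUnion.2 ⟨_, tt_root_lev _, Finset.mem_image.2
        ⟨[], TR_nil_mem hq, by simp⟩⟩)
    have e := theta_shift (l := l) (q := replicate ℓ 1 ++ q) hl w.dropLast y
      (A := {replicate ℓ 0}) (Finset.singleton_subset_iff.2 hmem2)
    rw [Finset.image_singleton] at e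
    rw [← e, List.dropLast_append_of_ne_nil hwne]
    refine theta_rate_mono (tr_nonneg hl) (tr_nonneg hl) (pt_nonneg hl) (pt_nonneg hl) ?_
      (fun _ _ _ _ => le_rfl) (fun _ _ => le_rfl) ?_
    · rw [Reg_append (p := p)]
      intro x hx
      exact Finset.mem_union_right _ (mem_biUnion.2 ⟨y, hy, hx⟩)
    · rw [Finset.singleton_subset_iff]
      exact Finset.mem_image.2 ⟨_, hmem2, rfl⟩
  exact (mul_le_mul_of_nonneg_left h2 (theta_nonneg (tr_nonneg hl) (pt_nonneg hl) _)).trans h1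

lemma GR_mul_sum (hl : 0 ≤ l) {p q : List ℕ} {ℓ : ℕ} (hℓ : 1 ≤ ℓ) (hq : q ≠ []) {s : List ℕ}
    (hs : s ∈ Reg (p ++ replicate ℓ 1)) :
    (∑ w ∈ Lev (p ++ replicate ℓ 1),
      theta (Reg (p ++ replicate ℓ 1)) (tr l) (pt w.dropLast l) {s}) *
    (∑ w ∈ Lev (replicate ℓ 1 ++ q),
      theta (Reg (replicate ℓ 1 ++ q)) (tr l) (pt w.dropLast l) {replicate ℓ 0}) ≤
    ∑ w ∈ Lev (p ++ (replicate ℓ 1 ++ q)),
      theta (Reg (p ++ (replicate ℓ 1 ++ q))) (tr l) (pt w.dropLast l) {s} := by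
  have e1 := tt_sum_link p ℓ (fun w => theta (Reg (p ++ replicate ℓ 1)) (tr l)
    (pt w.dropLast l) {s})
  have e2 := tt_sum_append p (replicate ℓ 1 ++ q) (fun w =>
    theta (Reg (p ++ (replicate ℓ 1 ++ q))) (tr l) (pt w.dropLast l) {s})
  rw [e1, e2, Finset.sum_mul]
  apply Finset.sum_le_sum
  intro y hy
  rw [Finset.mul_sum]
  apply Finset.sum_le_sum
  intro w hw
  exact GR_mul hl hℓ hq hs hy hw

/-- lower bound of a sum of thetas by one term -/
lemma GR_single (hl : 0 ≤ l) {p : List ℕ} {R : Finset (List ℕ)} {s w : List ℕ} (hw : w ∈ Lev p) :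
    theta R (tr l) (pt w.dropLast l) {s} ≤ ∑ w ∈ Lev p, theta R (tr l) (pt w.dropLast l) {s} :=
  Finset.single_le_sum (f := fun w => theta R (tr l) (pt w.dropLast l) {s})
    (fun _ _ => theta_nonneg (tr_nonneg hl) (pt_nonneg hl) _) hw

lemma GR_zero_mem_Lev {p : List ℕ} (h : ∀ x ∈ p, 1 ≤ x) : replicate p.length 0 ∈ Lev p := by
  rw [mem_Lev]
  refine ⟨by simp, fun i h1 h2 => ?_⟩
  rw [List.getElem_replicate]
  exact h _ (List.getElem_mem h2)

lemma GR_entries (hd : 1 ≤ d) (b : ℕ) : ∀ x ∈ GG k d ℓ b, 1 ≤ x := by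
  induction b with
  | zero =>
    intro x hx
    rw [List.eq_of_mem_replicate hx]
    exact hd
  | succ b ih =>
    intro x hx
    change x ∈ replicate k d ++ (replicate ℓ 1 ++ GG k d ℓ b) at hx
    rw [List.mem_append, List.mem_append] at hx
    rcases hx with hx | hx | hx
    · rw [List.eq_of_mem_replicate hx]; exact hd
    · rw [List.eq_of_mem_replicate hx]
    · exact ih x hx

theorem growth (hT : Tuned l χ k d ℓ ε q Cs) {N : ℕ} (hN : ℓ ≤ N) : ∃ c : ℝ, 0 < c ∧ ∀ b : ℕ,
    c * 2 ^ b ≤ ∑ w ∈ Lev (GG k d ℓ b ++ replicate N 1),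
      theta (Reg (GG k d ℓ b ++ replicate N 1)) (tr l) (pt w.dropLast l) {[]} := by
  have hl := hT.l0
  have hk := hT.hk
  have hd := hT.hd
  have hℓ := hT.hℓ
  have hN1 : 1 ≤ N := hℓ.trans hN
  obtain ⟨S, hS⟩ : ∃ S : ℕ → ℝ, ∀ b, S b = ∑ w ∈ Lev (replicate ℓ 1 ++ (GG k d ℓ b ++
      replicate N 1)), theta (Reg (replicate ℓ 1 ++ (GG k d ℓ b ++ replicate N 1))) (tr l)
        (pt w.dropLast l) {replicate ℓ 0} := ⟨_, fun _ => rfl⟩
  have hne : ∀ b, GG k d ℓ b ++ replicate N 1 ≠ [] := fun b h =>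
    tt_rep_ne hN1 1 (List.append_eq_nil_iff.1 h).2
  have hS0 : ∀ b, 0 ≤ S b := fun b => by
    rw [hS]
    exact Finset.sum_nonneg fun _ _ => theta_nonneg (tr_nonneg hl.le) (pt_nonneg hl.le) _
  have hroot : replicate ℓ 0 ∈ Reg (gprof k d ℓ ℓ) := tt_gad_sub k d ℓ (replicate ℓ 1)
    (tt_root_mem hk)
  have hstep : ∀ b, 2 * S b ≤ S (b + 1) := by
    intro b
    have key := GR_mul_sum (l := l) (p := replicate ℓ 1 ++ replicate k d)
      (q := GG k d ℓ b ++ replicate N 1) (ℓ := ℓ) hl.le hℓ (hne b) (s := replicate ℓ 0) hroot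
    have e : replicate ℓ 1 ++ (GG k d ℓ (b + 1) ++ replicate N 1) =
        replicate ℓ 1 ++ replicate k d ++ (replicate ℓ 1 ++ (GG k d ℓ b ++ replicate N 1)) := by
      show replicate ℓ 1 ++ ((replicate k d ++ (replicate ℓ 1 ++ GG k d ℓ b)) ++ replicate N 1) = _
      simp only [List.append_assoc]
    rw [← e, ← hS, ← hS] at key
    refine le_trans ?_ key
    exact mul_le_mul_of_nonneg_right hT.grow (hS0 b)
  -- first term
  have hc0 : aP l (k + N) ≤ S 0 := by
    have hw : replicate (k + N) 0 ∈ Lev (replicate k d ++ replicate N 1) := by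
      have := GR_zero_mem_Lev (p := replicate k d ++ replicate N 1) (fun x hx => by
        rw [List.mem_append] at hx
        rcases hx with hx | hx
        · rw [List.eq_of_mem_replicate hx]; exact hd
        · rw [List.eq_of_mem_replicate hx])
      simpa using this
    have h1 := theta_straight' (l := l) hl (p := replicate ℓ 1)
      (q := replicate k d ++ replicate N 1) (hne 0) (tt_root_lev ℓ) hw
    have e : (replicate k d ++ replicate N 1).length = k + N := by simp
    rw [e] at h1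
    rw [hS]
    refine h1.trans (GR_single hl.le (p := replicate ℓ 1 ++ (GG k d ℓ 0 ++ replicate N 1)) ?_)
    show replicate ℓ 0 ++ replicate (k + N) 0 ∈ Lev (replicate ℓ 1 ++
      (replicate k d ++ replicate N 1))
    rw [Lev_append (p := replicate ℓ 1)]
    exact mem_biUnion.2 ⟨_, tt_root_lev _, Finset.mem_image.2 ⟨_, hw, rfl⟩⟩
  have hSb : ∀ b, aP l (k + N) * 2 ^ b ≤ S b := by
    intro b
    induction b with
    | zero => simpa using hc0
    | succ b ih =>
      rw [pow_succ]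
      have := hstep b
      linarith
  have hpos1 : 0 < aP l (k + N) := aP_pos hl (by omega)
  have hpos2 : 0 < aP l (k + ℓ) := aP_pos hl (by omega)
  have hT0 : aP l (k + N) ≤ ∑ w ∈ Lev (GG k d ℓ 0 ++ replicate N 1),
      theta (Reg (GG k d ℓ 0 ++ replicate N 1)) (tr l) (pt w.dropLast l) {[]} := by
    have hw : replicate (k + N) 0 ∈ Lev (GG k d ℓ 0 ++ replicate N 1) := by
      have := GR_zero_mem_Lev (p := replicate k d ++ replicate N 1) (fun x hx => by
        rw [List.mem_append] at hx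
        rcases hx with hx | hx
        · rw [List.eq_of_mem_replicate hx]; exact hd
        · rw [List.eq_of_mem_replicate hx])
      simpa [GG] using this
    have h1 := theta_straight (l := l) hl (hne 0) hw
    have e : (GG k d ℓ 0 ++ replicate N 1).length = k + N := by simp [GG]
    rw [e] at h1
    exact h1.trans (GR_single hl.le hw)
  have hTb : ∀ b, aP l (k + ℓ) * S b ≤ ∑ w ∈ Lev (GG k d ℓ (b + 1) ++ replicate N 1),
      theta (Reg (GG k d ℓ (b + 1) ++ replicate N 1)) (tr l) (pt w.dropLast l) {[]} := by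
    intro b
    have hppne : replicate k d ++ replicate ℓ 1 ≠ [] :=
      fun h => tt_rep_ne hℓ 1 (List.append_eq_nil_iff.1 h).2
    have key := GR_mul_sum (l := l) (p := replicate k d)
      (q := GG k d ℓ b ++ replicate N 1) (ℓ := ℓ) hl.le hℓ (hne b) (s := []) (TR_nil_mem hppne)
    have e : GG k d ℓ (b + 1) ++ replicate N 1 =
        replicate k d ++ (replicate ℓ 1 ++ (GG k d ℓ b ++ replicate N 1)) := by
      show (replicate k d ++ (replicate ℓ 1 ++ GG k d ℓ b)) ++ replicate N 1 = _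
      simp only [List.append_assoc]
    rw [← e, ← hS] at key
    refine le_trans ?_ key
    refine mul_le_mul_of_nonneg_right ?_ (hS0 b)
    have hw : replicate (k + ℓ) 0 ∈ Lev (replicate k d ++ replicate ℓ 1) := by
      have := GR_zero_mem_Lev (p := replicate k d ++ replicate ℓ 1) (fun x hx => by
        rw [List.mem_append] at hx
        rcases hx with hx | hx
        · rw [List.eq_of_mem_replicate hx]; exact hd
        · rw [List.eq_of_mem_replicate hx])
      simpa using this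
    have h1 := theta_straight (l := l) hl hppne hw
    have e2 : (replicate k d ++ replicate ℓ 1).length = k + ℓ := by simp
    rw [e2] at h1
    exact h1.trans (GR_single hl.le hw)
  refine ⟨min (aP l (k + N)) (aP l (k + ℓ) * aP l (k + N) / 2),
    lt_min hpos1 (by positivity), fun b => ?_⟩
  cases b with
  | zero =>
    rw [pow_zero, mul_one]
    exact (min_le_left _ _).trans hT0
  | succ b =>
    refine le_trans ?_ (hTb b)
    have h1 : min (aP l (k + N)) (aP l (k + ℓ) * aP l (k + N) / 2) * 2 ^ (b + 1) ≤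
        aP l (k + ℓ) * aP l (k + N) / 2 * 2 ^ (b + 1) :=
      mul_le_mul_of_nonneg_right (min_le_right _ _) (by positivity)
    have h2 : aP l (k + ℓ) * aP l (k + N) / 2 * 2 ^ (b + 1) =
        aP l (k + ℓ) * (aP l (k + N) * 2 ^ b) := by
      rw [pow_succ]; ring
    rw [h2] at h1
    exact h1.trans (mul_le_mul_of_nonneg_left (hSb b) hpos2.le)

end Pool.Agent.CP34
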