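import Pool.Agent.CP34.BK
import Pool.Agent.CP34.GR

/-!
# Tuning of the final links of a block
-/

open Finset Filter Topology
open List (replicate)

namespace Pool.Agent.CP34


/-! tuning of the final links of a block -/
variable {l χ : ℝ} {k d ℓ : ℕ} {ε q Cs : ℝ}

namespace BT

lemma GG_ne_nil (hk : 1 ≤ k) (b : ℕ) : GG k d ℓ b ≠ [] := by
  cases b with
  | zero =>
    simp only [GG]
    intro h
    have := congrArg List.length h
    simp only [List.length_replicate, List.length_nil] at this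
    omega
  | succ b =>
    simp only [GG]
    intro h
    have := congrArg List.length h
    simp only [List.length_append, List.length_replicate, List.length_nil] at this
    omega

lemma ne_nil_of_Lev {p w : List ℕ} (hp : p ≠ []) (hw : w ∈ Lev p) : w ≠ [] := by
  rintro rfl
  rw [mem_Lev] at hw
  exact hp (List.length_eq_zero_iff.1 hw.1.symm)

lemma dropLast_mem_Reg {p w : List ℕ} (hp : p ≠ []) (hw : w ∈ Lev p) : w.dropLast ∈ Reg p := by
  rw [mem_Lev] at hw
  rw [mem_Reg]
  have h1 : 0 < p.length := List.length_pos_iff.2 hp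
  refine ⟨by rw [List.length_dropLast]; omega, fun i h h' => ?_⟩
  rw [List.getElem_dropLast]
  exact hw.2 i _ h'

lemma nil_mem_Reg {p : List ℕ} (hp : p ≠ []) : [] ∈ Reg p := by
  cases p with
  | nil => exact absurd rfl hp
  | cons a p => exact mem_insert_self _ _

lemma Lev_rep_right (p : List ℕ) (N : ℕ) :
    Lev (p ++ replicate N 1) = (Lev p).image fun w => w ++ replicate N 0 := by
  ext α
  rw [Lev_append]
  simp only [mem_biUnion, mem_image, G1.mem_Lev_one]
  constructor
  · rintro ⟨w, hw, _, rfl, rfl⟩; exact ⟨w, hw, rfl⟩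
  · rintro ⟨w, hw, rfl⟩; exact ⟨w, hw, _, rfl, rfl⟩

lemma Lev_rep_left (p : List ℕ) (N : ℕ) :
    Lev (replicate N 1 ++ p) = (Lev p).image fun w => replicate N 0 ++ w := by
  ext α
  rw [Lev_append]
  simp only [mem_biUnion, mem_image, G1.mem_Lev_one]
  constructor
  · rintro ⟨_, rfl, w, hw, rfl⟩; exact ⟨w, hw, rfl⟩
  · rintro ⟨w, hw, rfl⟩; exact ⟨_, rfl, w, hw, rfl⟩

lemma sum_right (p : List ℕ) (N : ℕ) (f : List ℕ → ℝ) :
    ∑ w ∈ Lev (p ++ replicate N 1), f w = ∑ w ∈ Lev p, f (w ++ replicate N 0) := by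
  rw [Lev_rep_right, sum_image]
  intro x _ y _ h
  exact List.append_cancel_right h

lemma sum_left (p : List ℕ) (N : ℕ) (f : List ℕ → ℝ) :
    ∑ w ∈ Lev (replicate N 1 ++ p), f w = ∑ w ∈ Lev p, f (replicate N 0 ++ w) := by
  rw [Lev_rep_left, sum_image]
  intro x _ y _ h
  exact List.append_cancel_left h

lemma dropLast_rep {w : List ℕ} {N : ℕ} (hN : 1 ≤ N) :
    (w ++ replicate N 0).dropLast = w ++ replicate (N - 1) 0 := by
  rw [List.dropLast_append_of_ne_nil, List.dropLast_replicate]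
  intro h
  have := congrArg List.length h
  simp only [List.length_replicate, List.length_nil] at this
  omega

lemma dropLast_app {w : List ℕ} {N : ℕ} (hw : w ≠ []) :
    (replicate N 0 ++ w).dropLast = replicate N 0 ++ w.dropLast :=
  List.dropLast_append_of_ne_nil hw

lemma CutEdge.flip {V : Type*} [DecidableEq V] {r : V → V → ℝ} {Q P : Finset V} {q p : V} {l : ℝ}
    (h : CutEdge r Q P q p l) : CutEdge r P Q p q l where
  disj := h.disj.symm
  hq := h.hp
  hp := h.hq
  rqp := h.rpq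
  rpq := h.rqp
  zero := fun x hx y hy hne => h.zero' y hy x hx fun ⟨h1, h2⟩ => hne ⟨h2, h1⟩
  zero' := fun x hx y hy hne => h.zero y hy x hx fun ⟨h1, h2⟩ => hne ⟨h2, h1⟩

lemma hit_nonneg {V : Type*} [DecidableEq V] (B S : Finset V) : 0 ≤ hit B S := by
  unfold hit; split_ifs <;> norm_num

lemma hit_empty {V : Type*} [DecidableEq V] (B : Finset V) : hit B ∅ = 0 := by
  unfold hit; simp

lemma green_hit_nonneg (hl : 0 ≤ l) (R B A : Finset (List ℕ)) :
    0 ≤ green R (tr l) 0 (hit B) A :=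
  green_nonneg (tr_nonneg hl) (fun _ => le_rfl) (fun _ _ _ => hit_nonneg _ _) A

lemma hit_le_cardR {V : Type*} [DecidableEq V] (B S : Finset V) (h : S ≠ ∅) : hit B S ≤ cardR S := by
  have h1 : (1 : ℝ) ≤ cardR S := by
    unfold cardR
    exact_mod_cast Finset.card_pos.2 (nonempty_iff_ne_empty.2 h)
  unfold hit
  split_ifs
  · exact h1
  · linarith

lemma green_hit_le_card (hl : 0 ≤ l) (R B A : Finset (List ℕ)) :
    green R (tr l) 0 (hit B) A ≤ green R (tr l) 0 cardR A :=
  green_mono (tr_nonneg hl) (fun _ => le_rfl) (fun _ _ h => hit_le_cardR _ _ h) A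

lemma gP_le_chi (hχ : PathBound l χ) (hl : 0 ≤ l) (L : ℕ) : gP l L ≤ χ := by
  by_cases hL : L = 0
  · subst hL
    unfold gP
    have : green (range 0) (l • nnN) 0 (hit {0 - 1}) {0} = 0 := by
      apply green_not_subset
      simp
    rw [this]
    linarith [hχ.one_le]
  · refine le_trans ?_ (path_full hl hχ (n := L) (i := L - 1) (by omega))
    unfold gP
    have hr : ∀ x y : ℕ, 0 ≤ (l • nnN) x y := by
      intro x y
      simp only [Pi.smul_apply, smul_eq_mul]
      refine mul_nonneg hl ?_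
      unfold nnN
      split_ifs <;> norm_num
    refine green_monoOn hr (hit_monoOn _) ?_ _ _ ?_ subset_rfl
    · rw [hit_empty]
    · intro x hx
      rw [mem_singleton] at hx
      rw [mem_range]
      omega

/-- region without the up-link is contained in the region with the up-link -/
lemma green_noup (hl : 0 ≤ l) (p : List ℕ) (a : ℕ) {f : Finset (List ℕ) → ℝ}
    (hf : MonoOn (Reg (replicate a 1 ++ p)) f) (h0 : 0 ≤ f ∅) {v : List ℕ} (hv : v ∈ Reg p) :
    green (Reg p) (tr l) 0 (fun S => f (S.image fun γ => replicate a 0 ++ γ)) {v} ≤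
      green (Reg (replicate a 1 ++ p)) (tr l) 0 f {replicate a 0 ++ v} := by
  have h1 := green_shift (q := p) hl f (replicate a 0) (A := {v}) (singleton_subset_iff.2 hv)
  rw [← h1, image_singleton]
  have hsub : ((Reg p).image fun γ => replicate a 0 ++ γ) ⊆ Reg (replicate a 1 ++ p) := by
    rw [Reg_append]
    refine fun x hx => mem_union_right _ (mem_biUnion.2 ⟨_, G1.mem_Lev_one.2 rfl, hx⟩)
  exact green_rate_mono (tr_nonneg hl) (tr_nonneg hl) hsub (fun _ _ _ _ => le_rfl) hf h0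
    (singleton_subset_iff.2 (mem_image_of_mem _ hv))

end BT

/-- with and without up-link -/
theorem block_compare (hT : Tuned l χ k d ℓ ε q Cs) : ∃ C : ℝ, 1 ≤ C ∧ ∀ a b N, ℓ ≤ a → ℓ ≤ N →
    ∀ w ∈ Lev (GG k d ℓ b),
      green (Reg (replicate a 1 ++ GG k d ℓ b ++ replicate N 1)) (tr l) 0
        (hit {replicate a 0 ++ w.dropLast}) {replicate a 0} ≤
      C * green (Reg (GG k d ℓ b ++ replicate N 1)) (tr l) 0 (hit {w.dropLast}) {[]} := by
  obtain ⟨C, hC1, hC⟩ := block_bounds hT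
  have hl : 0 ≤ l := hT.l0.le
  have hχ0 : 0 ≤ χ := by linarith [hT.pb.one_le]
  refine ⟨1 + l * (l * (1 + l * χ) * χ * C), ?_, ?_⟩
  · have : 0 ≤ l * (l * (1 + l * χ) * χ * C) := by positivity
    linarith
  intro a b N ha hN w hw
  have hℓ := hT.hℓ
  set p : List ℕ := GG k d ℓ b ++ replicate N 1 with hp
  have hp0 : p ≠ [] := by
    rw [hp]
    exact List.append_ne_nil_of_left_ne_nil (BT.GG_ne_nil hT.hk b) _
  have hassoc : replicate a 1 ++ GG k d ℓ b ++ replicate N 1 = replicate a 1 ++ p := by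
    rw [hp, List.append_assoc]
  have hbb := (hC a b N ha hN).2
  rw [hassoc] at hbb ⊢
  set R := Reg (replicate a 1 ++ p) with hR
  set x : List ℕ := replicate a 0 with hx
  have hwR : w.dropLast ∈ Reg p := by
    have h1 := BT.dropLast_mem_Reg (BT.GG_ne_nil hT.hk b) hw
    rw [hp, Reg_append]
    exact mem_union_left _ h1
  -- the cut
  have hcut := BT.CutEdge.flip (ul_cut (l := l) (a := a) (q := p) (by omega) hp0)
  have hunion : ((range a).image fun t => replicate t 0) ∪ ((Reg p).image fun γ => x ++ γ) = R := by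
    rw [hR, Reg_append (p := replicate a 1) (q := p)]
    congr 1
    · ext α
      rw [G1.mem_Reg_one, mem_image]
      simp only [mem_range]
      constructor
      · rintro ⟨t, ht, rfl⟩; exact ⟨t, ht, rfl⟩
      · rintro ⟨t, ht, rfl⟩; exact ⟨t, ht, rfl⟩
    · ext α
      simp only [mem_biUnion, G1.mem_Lev_one, exists_eq_left]
      rfl
  have hxR : x ∈ R := by
    rw [← hunion]
    refine mem_union_right _ (mem_image.2 ⟨[], BT.nil_mem_Reg hp0, ?_⟩)
    simp
  have huR : x ++ w.dropLast ∈ R := by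
    rw [← hunion]
    exact mem_union_right _ (mem_image_of_mem _ hwR)
  have hqR : replicate (a - 1) 0 ∈ R := by
    rw [← hunion]
    exact mem_union_left _ (mem_image.2 ⟨a - 1, mem_range.2 (by omega), rfl⟩)
  set F := green R (tr l) 0 (hit {x}) with hF
  have hF0 : F ∅ = 0 := by rw [hF]; simp
  have hsubmod : SubModOn R F :=
    green_subModOn (tr_nonneg hl) (hit_monoOn _) (BT.hit_empty _) (hit_subModOn _)
  have hsub : SubAddOn R F := hsubmod.subAddOn hF0
  have hPR : ((Reg p).image fun γ => x ++ γ) ⊆ R := by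
    rw [← hunion]; exact subset_union_right
  have h1 := cut_bound (F := F) (c := hit {x}) (tr_nonneg hl) hcut hunion hF0.le
    (fun B hB => by
      rw [insert_eq, union_comm]
      exact hsub _ _ (hB.trans hPR) (singleton_subset_iff.2 hqR))
    (fun B hB hne => by
      rw [hF, gen_green (tr_nonneg hl) _ (hB.trans hPR) hne])
    (B := {x ++ w.dropLast}) (singleton_subset_iff.2 (mem_image_of_mem _ hwR))
  -- the return to the gadget
  have h2 := ul_return (a := a) (q := p) (j := 0) (c := hit {x}) (Cc := 0) hl hT.pb hp0 (by omega)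
    (BT.hit_empty _) (hit_monoOn _) (hit_subModOn _) le_rfl (fun A hA => by
      rw [zero_mul]
      unfold hit
      rw [if_neg]
      rintro ⟨y, hy⟩
      rw [mem_inter, mem_singleton] at hy
      have h3 := hA hy.1
      rw [mem_image] at h3
      obtain ⟨t, ht, h4⟩ := h3
      rw [hy.2, hx] at h4
      have h5 := congrArg List.length h4
      simp only [List.length_replicate] at h5
      rw [mem_range] at ht
      omega)
  rw [zero_mul, zero_add, Nat.sub_zero, zero_add] at h2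
  have h2' : F {replicate (a - 1) 0} ≤ l * (1 + l * χ) * gP l 1 * F {x} := h2
  have h3 : F {x} ≤ C := hbb
  have h3' : 0 ≤ F {x} := BT.green_hit_nonneg hl _ _ _
  have h4 : F {replicate (a - 1) 0} ≤ l * (1 + l * χ) * χ * C := by
    refine h2'.trans ?_
    have h5 : gP l 1 ≤ χ := BT.gP_le_chi hT.pb hl 1
    have h6 : 0 ≤ gP l 1 := gP_nonneg hl 1
    gcongr
  -- shift and duality
  have h5 : green ((Reg p).image fun γ => x ++ γ) (tr l) 0 (hit {x}) {x ++ w.dropLast} =
      green (Reg p) (tr l) 0 (hit {w.dropLast}) {[]} := by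
    have h6 := green_shift (q := p) hl (hit {x}) x (A := {w.dropLast})
      (singleton_subset_iff.2 hwR)
    rw [image_singleton] at h6
    rw [h6, green_dual (tr_nonneg hl) tr_symm (singleton_subset_iff.2 (BT.nil_mem_Reg hp0))
      (singleton_subset_iff.2 hwR)]
    refine green_congr (tr_nonneg hl) (fun _ => le_rfl) (fun S _ _ => ?_) _
    unfold hit
    congr 1
    rw [eq_iff_iff]
    constructor
    · rintro ⟨y, hy⟩
      rw [mem_inter, mem_singleton, mem_image] at hy
      obtain ⟨⟨z, hz, hzy⟩, hy⟩ := hy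
      refine ⟨[], mem_inter.2 ⟨?_, mem_singleton_self _⟩⟩
      have : z = [] := by
        have h7 : x ++ z = x := hzy.trans hy
        simpa using h7
      rw [← this]; exact hz
    · rintro ⟨y, hy⟩
      rw [mem_inter, mem_singleton] at hy
      refine ⟨x, mem_inter.2 ⟨mem_image.2 ⟨y, hy.1, ?_⟩, mem_singleton_self _⟩⟩
      rw [hy.2]; simp
  rw [h5] at h1
  have h6 : green R (tr l) 0 (hit {x ++ w.dropLast}) {x} = F {x ++ w.dropLast} := by
    rw [hF]
    exact green_dual (tr_nonneg hl) tr_symm (singleton_subset_iff.2 hxR)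
      (singleton_subset_iff.2 huR)
  rw [h6]
  set g := green (Reg p) (tr l) 0 (hit {w.dropLast}) {[]} with hg
  have hg0 : 0 ≤ g := BT.green_hit_nonneg hl _ _ _
  have h7 : green ((Reg p).image fun γ => x ++ γ) (tr l) 0 (hit {x}) {x ++ w.dropLast} = g := h5
  calc F {x ++ w.dropLast} ≤ g + l * g * F {replicate (a - 1) 0} := h1
    _ ≤ g + l * g * (l * (1 + l * χ) * χ * C) := by gcongr
    _ = _ := by ring

/-- hitting probabilities and expectations are comparable at the end of the final links -/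
theorem block_hit (hT : Tuned l χ k d ℓ ε q Cs) : ∃ C : ℝ, 1 ≤ C ∧ ∀ b N, ℓ ≤ N →
    ∀ w ∈ Lev (GG k d ℓ b ++ replicate N 1),
      l * green (Reg (GG k d ℓ b ++ replicate N 1)) (tr l) 0 (hit {w.dropLast}) {[]} ≤
      C * theta (Reg (GG k d ℓ b ++ replicate N 1)) (tr l) (pt w.dropLast l) {[]} := by
  obtain ⟨C, hC1, hC⟩ := block_bounds hT
  have hl : 0 ≤ l := hT.l0.le
  have hχ0 : 0 ≤ χ := by linarith [hT.pb.one_le]
  have hℓ := hT.hℓ
  refine ⟨1 + l * (χ + l * χ * C), ?_, ?_⟩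
  · have : 0 ≤ l * (χ + l * χ * C) := by positivity
    linarith
  intro b N hN w hw
  have hG := BT.GG_ne_nil (d := d) (ℓ := ℓ) hT.hk b
  rw [BT.Lev_rep_right, mem_image] at hw
  obtain ⟨w, hw, rfl⟩ := hw
  rw [BT.dropLast_rep (by omega)]
  set R := Reg (GG k d ℓ b ++ replicate N 1) with hR
  have hG' : GG k d ℓ b ++ replicate N 1 ≠ [] := List.append_ne_nil_of_left_ne_nil hG _
  have hend : w ++ replicate (N - 1) 0 ∈ R := by
    rw [← BT.dropLast_rep (by omega)]
    apply BT.dropLast_mem_Reg hG'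
    rw [BT.Lev_rep_right]
    exact mem_image_of_mem _ hw
  have hport : w.dropLast ∈ R := by
    rw [hR, Reg_append]
    exact mem_union_left _ (BT.dropLast_mem_Reg hG hw)
  have h1 := theta_point_ge (tr_nonneg hl) hend hl (A := {[]})
    (singleton_subset_iff.2 (BT.nil_mem_Reg hG'))
  have h2 : green R (tr l) 0 (hit {w ++ replicate (N - 1) 0}) R ≤ χ + l * χ * C := by
    rw [green_dual (tr_nonneg hl) tr_symm subset_rfl (singleton_subset_iff.2 hend)]
    refine (al_end hl hT.pb hG (by omega) hw).trans ?_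
    have h3 : green R (tr l) 0 (hit R) {w.dropLast} ≤ C := by
      refine (BT.green_hit_le_card hl _ _ _).trans ?_
      have h4 := BT.green_noup (l := l) hl (GG k d ℓ b ++ replicate N 1) ℓ
        (f := cardR) cardR_monoOn (by simp [cardR]) hport
      have h5 : green R (tr l) 0 (fun S => cardR (S.image fun γ => replicate ℓ 0 ++ γ))
          {w.dropLast} = green R (tr l) 0 cardR {w.dropLast} := by
        refine green_congr (tr_nonneg hl) (fun _ => le_rfl) (fun S _ _ => ?_) _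
        unfold cardR
        rw [card_image_of_injective _ fun _ _ h => List.append_cancel_left h]
      rw [h5] at h4
      refine h4.trans ?_
      have h6 := (hC ℓ b N le_rfl hN).1 (replicate ℓ 0 ++ w) (by
        rw [BT.Lev_rep_left]
        exact mem_image_of_mem _ hw)
      rw [BT.dropLast_app (BT.ne_nil_of_Lev hG hw), List.append_assoc] at h6
      exact h6
    have h4 : gP l N ≤ χ := BT.gP_le_chi hT.pb hl N
    have h5 : 0 ≤ gP l N := gP_nonneg hl N
    have h6 : 0 ≤ green R (tr l) 0 (hit R) {w.dropLast} := BT.green_hit_nonneg hl _ _ _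
    gcongr
  have h3 : 0 ≤ green R (tr l) 0 (hit {w ++ replicate (N - 1) 0}) R :=
    BT.green_hit_nonneg hl _ _ _
  have h4 : 0 < 1 + l * green R (tr l) 0 (hit {w ++ replicate (N - 1) 0}) R := by positivity
  rw [div_le_iff₀ h4] at h1
  have h5 : 0 ≤ theta R (tr l) (pt (w ++ replicate (N - 1) 0) l) {[]} :=
    theta_nonneg (tr_nonneg hl) (fun x => by unfold pt; split_ifs <;> [exact hl; exact le_rfl]) _
  refine h1.trans ?_
  rw [mul_comm]
  refine mul_le_mul_of_nonneg_right ?_ h5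
  have := mul_le_mul_of_nonneg_left h2 hl
  linarith

namespace BT

/-- the total crossing probability -/
noncomputable def S (l : ℝ) (k d ℓ b N : ℕ) : ℝ :=
  ∑ w ∈ Lev (GG k d ℓ b ++ replicate N 1),
    theta (Reg (GG k d ℓ b ++ replicate N 1)) (tr l) (pt w.dropLast l) {[]}

lemma S_lt (hT : Tuned l χ k d ℓ ε q Cs) (b : ℕ) : ∃ M, ∀ N, M ≤ N → S l k d ℓ b N < 2 := by
  have hl : 0 ≤ l := hT.l0.le
  have hℓ := hT.hℓ
  obtain ⟨Cb, hCb⟩ := block_fixed hT b
  have hG := GG_ne_nil (d := d) (ℓ := ℓ) hT.hk b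
  have h1 : ∀ N, ℓ ≤ N → S l k d ℓ b N ≤ ((Lev (GG k d ℓ b)).card : ℝ) * (l * l * Cb) * gP l N := by
    intro N hN
    unfold S
    rw [sum_right]
    have h2 : ∀ w ∈ Lev (GG k d ℓ b), theta (Reg (GG k d ℓ b ++ replicate N 1)) (tr l)
        (pt (w ++ replicate N 0).dropLast l) {[]} ≤ l * l * Cb * gP l N := by
      intro w hw
      rw [dropLast_rep (by omega)]
      have h3 : ({[]} : Finset (List ℕ)) ⊆ Reg (GG k d ℓ b ++ replicate N 1) :=
        singleton_subset_iff.2 (nil_mem_Reg (List.append_ne_nil_of_left_ne_nil hG _))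
      refine (theta_le_green (tr_nonneg hl) (fun x => by
        unfold pt; split_ifs <;> [exact hl; exact le_rfl]) h3).trans ?_
      have h4 : green (Reg (GG k d ℓ b ++ replicate N 1)) (tr l) 0
          (kill (pt (w ++ replicate (N - 1) 0) l)) {[]} =
          l * green (Reg (GG k d ℓ b ++ replicate N 1)) (tr l) 0
            (hit {w ++ replicate (N - 1) 0}) {[]} := by
        rw [← green_smul (κ := 0) (tr_nonneg hl) (fun _ => le_rfl)]
        exact green_congr (tr_nonneg hl) (fun _ => le_rfl) (fun A _ _ => kill_pt _ _) _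
      rw [h4]
      have h5 := al_le hl hG (by omega : 1 ≤ N) hw (A := {[]})
        (singleton_subset_iff.2 (nil_mem_Reg hG))
      have h6 := (green_hit_le_card hl (Reg (GG k d ℓ b ++ replicate N 1)) {w.dropLast}
        {[]}).trans (hCb N hN)
      have h7 : 0 ≤ l * gP l N := mul_nonneg hl (gP_nonneg hl N)
      calc l * green (Reg (GG k d ℓ b ++ replicate N 1)) (tr l) 0
            (hit {w ++ replicate (N - 1) 0}) {[]}
          ≤ l * (l * gP l N * Cb) := mul_le_mul_of_nonneg_left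
            (h5.trans (mul_le_mul_of_nonneg_left h6 h7)) hl
        _ = _ := by ring
    refine (sum_le_sum h2).trans ?_
    rw [sum_const, nsmul_eq_mul]
    exact le_of_eq (by ring)
  have h2 : Tendsto (fun N => ((Lev (GG k d ℓ b)).card : ℝ) * (l * l * Cb) * gP l N) atTop
      (𝓝 (((Lev (GG k d ℓ b)).card : ℝ) * (l * l * Cb) * 0)) :=
    (gP_tendsto hl hT.pb).const_mul _
  rw [mul_zero] at h2
  have h3 := h2.eventually (gt_mem_nhds (by norm_num : (0 : ℝ) < 2))
  obtain ⟨M, hM⟩ := eventually_atTop.1 h3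
  exact ⟨max M ℓ, fun N hN => (h1 N (le_of_max_le_right hN)).trans_lt (hM N (le_of_max_le_left hN))⟩

lemma S_ge (hT : Tuned l χ k d ℓ ε q Cs) {N : ℕ} (hN : ℓ ≤ N) :
    ∃ b0, ∀ b, b0 ≤ b → 2 ≤ S l k d ℓ b N := by
  obtain ⟨c, hc, h⟩ := growth hT hN
  have h1 : Tendsto (fun b : ℕ => c * (2 : ℝ) ^ b) atTop atTop :=
    (tendsto_pow_atTop_atTop_of_one_lt (by norm_num)).const_mul_atTop hc
  obtain ⟨b0, hb0⟩ := eventually_atTop.1 (h1.eventually_ge_atTop 2)
  exact ⟨b0, fun b hb => (hb0 b hb).trans (h b)⟩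

open Classical in
/-- the length of the final links -/
noncomputable def NN (l : ℝ) (k d ℓ b : ℕ) : ℕ :=
  if 2 ≤ S l k d ℓ b ℓ then sSup {N | ℓ ≤ N ∧ 2 ≤ S l k d ℓ b N} else ℓ

lemma bdd (hT : Tuned l χ k d ℓ ε q Cs) (b : ℕ) : BddAbove {N | ℓ ≤ N ∧ 2 ≤ S l k d ℓ b N} := by
  obtain ⟨M, hM⟩ := S_lt hT b
  refine ⟨M, fun N hN => ?_⟩
  by_contra h
  have := hM N (by omega)
  linarith [hN.2]

lemma NN_mem (hT : Tuned l χ k d ℓ ε q Cs) {b : ℕ} (h : 2 ≤ S l k d ℓ b ℓ) :
    ℓ ≤ NN l k d ℓ b ∧ 2 ≤ S l k d ℓ b (NN l k d ℓ b) := by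
  unfold NN
  rw [if_pos h]
  exact Nat.sSup_mem (s := {N | ℓ ≤ N ∧ 2 ≤ S l k d ℓ b N}) ⟨ℓ, le_rfl, h⟩ (bdd hT b)

lemma le_NN (hT : Tuned l χ k d ℓ ε q Cs) {b N : ℕ} (h : 2 ≤ S l k d ℓ b ℓ) (hN : ℓ ≤ N)
    (h2 : 2 ≤ S l k d ℓ b N) : N ≤ NN l k d ℓ b := by
  unfold NN
  rw [if_pos h]
  exact le_csSup (bdd hT b) ⟨hN, h2⟩

lemma ell_le_NN (hT : Tuned l χ k d ℓ ε q Cs) (b : ℕ) : ℓ ≤ NN l k d ℓ b := by
  by_cases h : 2 ≤ S l k d ℓ b ℓ
  · exact (NN_mem hT h).1
  · unfold NN
    rw [if_neg h]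

lemma port_sum (hT : Tuned l χ k d ℓ ε q Cs) : ∃ C : ℝ, 1 ≤ C ∧ ∀ a b N, ℓ ≤ a → ℓ ≤ N →
    S l k d ℓ b (N + 1) ≤ 2 →
    ∑ w ∈ Lev (GG k d ℓ b), green (Reg (replicate a 1 ++ GG k d ℓ b ++ replicate N 1)) (tr l) 0
        (hit {replicate a 0 ++ w.dropLast}) {replicate a 0} ≤ C * (2 / (l * aP l (N + 1))) := by
  obtain ⟨C1, hC1, hc1⟩ := block_compare hT
  obtain ⟨C2, hC2, hc2⟩ := block_hit hT
  have hl : 0 ≤ l := hT.l0.le
  have hl0 := hT.l0
  have hℓ := hT.hℓ
  refine ⟨C1 * C2, by nlinarith, ?_⟩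
  intro a b N ha hN hS
  have hG := GG_ne_nil (d := d) (ℓ := ℓ) hT.hk b
  have hG' : ∀ n, GG k d ℓ b ++ replicate n 1 ≠ [] := fun n =>
    List.append_ne_nil_of_left_ne_nil hG _
  have haP : 0 < aP l (N + 1) := aP_pos hl0 (by omega)
  -- first: with the longer link
  have h1 : ∑ w ∈ Lev (GG k d ℓ b), l * (aP l (N + 1) *
      green (Reg (GG k d ℓ b ++ replicate (N + 1) 1)) (tr l) 0 (hit {w.dropLast}) {[]}) ≤
      C2 * 2 := by
    calc _ ≤ ∑ w ∈ Lev (GG k d ℓ b), l *
          green (Reg (GG k d ℓ b ++ replicate (N + 1) 1)) (tr l) 0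
            (hit {w ++ replicate (N + 1 - 1) 0}) {[]} := by
          refine sum_le_sum fun w hw => mul_le_mul_of_nonneg_left ?_ hl
          exact al_ge hl hG (by omega) hw (singleton_subset_iff.2 (nil_mem_Reg hG))
      _ ≤ ∑ w ∈ Lev (GG k d ℓ b), C2 * theta (Reg (GG k d ℓ b ++ replicate (N + 1) 1)) (tr l)
            (pt (w ++ replicate (N + 1) 0).dropLast l) {[]} := by
          refine sum_le_sum fun w hw => ?_
          have h2 := hc2 b (N + 1) (by omega) (w ++ replicate (N + 1) 0) (by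
            rw [Lev_rep_right]; exact mem_image_of_mem _ hw)
          rw [dropLast_rep (by omega)] at h2 ⊢
          exact h2
      _ = C2 * S l k d ℓ b (N + 1) := by
          unfold S
          rw [sum_right, mul_sum]
      _ ≤ C2 * 2 := mul_le_mul_of_nonneg_left hS (by linarith)
  have h2 : ∑ w ∈ Lev (GG k d ℓ b),
      green (Reg (GG k d ℓ b ++ replicate (N + 1) 1)) (tr l) 0 (hit {w.dropLast}) {[]} ≤
      C2 * (2 / (l * aP l (N + 1))) := by
    rw [← mul_sum, ← mul_sum, ← mul_assoc] at h1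
    rw [← mul_div_assoc, le_div_iff₀ (mul_pos hl0 haP)]
    linarith
  calc ∑ w ∈ Lev (GG k d ℓ b), green (Reg (replicate a 1 ++ GG k d ℓ b ++ replicate N 1))
        (tr l) 0 (hit {replicate a 0 ++ w.dropLast}) {replicate a 0}
      ≤ ∑ w ∈ Lev (GG k d ℓ b), C1 * green (Reg (GG k d ℓ b ++ replicate (N + 1) 1)) (tr l) 0
          (hit {w.dropLast}) {[]} := by
        refine sum_le_sum fun w hw => (hc1 a b N ha hN w hw).trans ?_
        refine mul_le_mul_of_nonneg_left ?_ (by linarith)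
        have hsub : Reg (GG k d ℓ b ++ replicate N 1) ⊆
            Reg (GG k d ℓ b ++ replicate (N + 1) 1) := by
          have : GG k d ℓ b ++ replicate (N + 1) 1 = (GG k d ℓ b ++ replicate N 1) ++ [1] := by
            rw [List.append_assoc, List.replicate_succ']
          rw [this, Reg_append (p := GG k d ℓ b ++ replicate N 1) (q := [1])]
          exact subset_union_left
        have h0 : 0 ≤ hit ({w.dropLast} : Finset (List ℕ)) ∅ := (hit_empty _).ge
        have hsing : ({[]} : Finset (List ℕ)) ⊆ Reg (GG k d ℓ b ++ replicate N 1) :=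
          singleton_subset_iff.2 (nil_mem_Reg (hG' N))
        exact green_rate_mono (tr_nonneg hl) (tr_nonneg hl) hsub (fun _ _ _ _ => le_rfl)
          (hit_monoOn _) h0 hsing
    _ = C1 * ∑ w ∈ Lev (GG k d ℓ b), green (Reg (GG k d ℓ b ++ replicate (N + 1) 1)) (tr l) 0
          (hit {w.dropLast}) {[]} := by rw [mul_sum]
    _ ≤ C1 * (C2 * (2 / (l * aP l (N + 1)))) := mul_le_mul_of_nonneg_left h2 (by linarith)
    _ = _ := by ring

lemma end_sum {l' : ℝ} (hl' : 0 < l') (hle : l' ≤ l) (hk : 1 ≤ k) (a b : ℕ) {N : ℕ}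
    (hN : 1 ≤ N) :
    ∑ w ∈ Lev (replicate a 1 ++ GG k d ℓ b ++ replicate N 1),
        l' * green (Reg (replicate a 1 ++ GG k d ℓ b ++ replicate N 1)) (tr l') 0
          (hit {w.dropLast}) {replicate a 0} ≤
    l' * (l' * gP l' N) * ∑ w ∈ Lev (GG k d ℓ b),
      green (Reg (replicate a 1 ++ GG k d ℓ b ++ replicate N 1)) (tr l) 0
        (hit {replicate a 0 ++ w.dropLast}) {replicate a 0} := by
  have hG := GG_ne_nil (d := d) (ℓ := ℓ) hk b
  have hp : replicate a 1 ++ GG k d ℓ b ≠ [] := List.append_ne_nil_of_right_ne_nil _ hG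
  have hxp : replicate a 0 ∈ Reg (replicate a 1 ++ GG k d ℓ b) := by
    rw [Reg_append]
    refine mem_union_right _ (mem_biUnion.2 ⟨_, G1.mem_Lev_one.2 rfl, ?_⟩)
    exact mem_image.2 ⟨[], nil_mem_Reg hG, by simp⟩
  rw [sum_right, sum_left, mul_sum]
  refine sum_le_sum fun w hw => ?_
  rw [dropLast_rep hN]
  have hw' : replicate a 0 ++ w ∈ Lev (replicate a 1 ++ GG k d ℓ b) := by
    rw [Lev_rep_left]
    exact mem_image_of_mem _ hw
  have h1 := al_le hl'.le hp hN hw' (A := {replicate a 0}) (singleton_subset_iff.2 hxp)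
  rw [dropLast_app (ne_nil_of_Lev hG hw)] at h1
  have h2 : green (Reg (replicate a 1 ++ GG k d ℓ b ++ replicate N 1)) (tr l') 0
      (hit {replicate a 0 ++ w.dropLast}) {replicate a 0} ≤
      green (Reg (replicate a 1 ++ GG k d ℓ b ++ replicate N 1)) (tr l) 0
      (hit {replicate a 0 ++ w.dropLast}) {replicate a 0} := by
    have hle' : ∀ x ∈ Reg (replicate a 1 ++ GG k d ℓ b ++ replicate N 1),
        ∀ y ∈ Reg (replicate a 1 ++ GG k d ℓ b ++ replicate N 1), tr l' x y ≤ tr l x y := by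
      intro x _ y _
      unfold tr
      split_ifs
      · exact hle
      · exact le_rfl
    have hxR : ({replicate a 0} : Finset (List ℕ)) ⊆
        Reg (replicate a 1 ++ GG k d ℓ b ++ replicate N 1) := by
      rw [singleton_subset_iff, Reg_append]
      exact mem_union_left _ hxp
    exact green_rate_mono (tr_nonneg hl'.le) (tr_nonneg (hl'.le.trans hle)) (subset_refl _) hle'
      (hit_monoOn _) (hit_empty _).ge hxR
  have h3 : 0 ≤ l' * gP l' N := mul_nonneg hl'.le (gP_nonneg hl'.le N)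
  calc _ ≤ l' * (l' * gP l' N * green (Reg (replicate a 1 ++ GG k d ℓ b ++ replicate N 1))
        (tr l) 0 (hit {replicate a 0 ++ w.dropLast}) {replicate a 0}) :=
      mul_le_mul_of_nonneg_left (h1.trans (mul_le_mul_of_nonneg_left h2 h3)) hl'.le
    _ = _ := by ring

end BT

theorem block_tuned (hT : Tuned l χ k d ℓ ε q Cs) : ∃ (N : ℕ → ℕ) (b0 : ℕ) (C : ℝ), 1 ≤ C ∧
    (∀ b, ℓ ≤ N b) ∧ Tendsto N atTop atTop ∧
    (∀ b, b0 ≤ b → 2 ≤ ∑ w ∈ Lev (GG k d ℓ b ++ replicate (N b) 1),
      theta (Reg (GG k d ℓ b ++ replicate (N b) 1)) (tr l) (pt w.dropLast l) {[]}) ∧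
    (∀ b, b0 ≤ b → ∀ a, ℓ ≤ a → ∀ l', 0 < l' → l' ≤ l →
      ∑ w ∈ Lev (replicate a 1 ++ GG k d ℓ b ++ replicate (N b) 1),
        l' * green (Reg (replicate a 1 ++ GG k d ℓ b ++ replicate (N b) 1)) (tr l') 0
          (hit {w.dropLast}) {replicate a 0} ≤ C * (gP l' (N b) / aP l (N b + 1))) := by
  obtain ⟨b0, hb0⟩ := BT.S_ge hT (le_refl ℓ)
  obtain ⟨C, hC1, hC⟩ := BT.port_sum hT
  have hl0 := hT.l0
  have hℓ := hT.hℓ
  refine ⟨BT.NN l k d ℓ, b0, 1 + 2 * l * C, ?_, BT.ell_le_NN hT, ?_, ?_, ?_⟩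
  · have : 0 ≤ 2 * l * C := by positivity
    linarith
  · rw [tendsto_atTop]
    intro n
    obtain ⟨b1, hb1⟩ := BT.S_ge hT (le_max_left ℓ n)
    refine eventually_atTop.2 ⟨max b0 b1, fun b hb => ?_⟩
    exact (le_max_right ℓ n).trans (BT.le_NN hT (hb0 b (le_of_max_le_left hb)) (le_max_left _ _)
      (hb1 b (le_of_max_le_right hb)))
  · intro b hb
    exact (BT.NN_mem hT (hb0 b hb)).2
  · intro b hb a ha l' hl' hle
    have hN := BT.ell_le_NN hT b
    set N := BT.NN l k d ℓ b with hNdef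
    have hS : BT.S l k d ℓ b (N + 1) ≤ 2 := by
      by_contra h
      push Not at h
      have := BT.le_NN hT (hb0 b hb) (by omega : ℓ ≤ N + 1) h.le
      omega
    have h1 := BT.end_sum (k := k) (d := d) (ℓ := ℓ) hl' hle hT.hk a b (N := N) (by omega)
    have h2 := hC a b N ha hN hS
    have haP : 0 < aP l (N + 1) := aP_pos hl0 (by omega)
    have hg : 0 ≤ gP l' N := gP_nonneg hl'.le N
    have h3 : 0 ≤ l' * (l' * gP l' N) := by positivity
    refine (h1.trans (mul_le_mul_of_nonneg_left h2 h3)).trans ?_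
    have h4 : l' * (l' * gP l' N) * (C * (2 / (l * aP l (N + 1)))) =
        (l' * l' / l) * (2 * C) * (gP l' N / aP l (N + 1)) := by
      field_simp
    rw [h4]
    have h5 : l' * l' / l ≤ l := by
      rw [div_le_iff₀ hl0]
      exact mul_le_mul hle hle hl'.le hl0.le
    have h6 : 0 ≤ gP l' N / aP l (N + 1) := by positivity
    have h7 : (l' * l' / l) * (2 * C) ≤ 1 + 2 * l * C := by
      have := mul_le_mul_of_nonneg_right h5 (by positivity : (0 : ℝ) ≤ 2 * C)
      linarith
    exact mul_le_mul_of_nonneg_right h7 h6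

end Pool.Agent.CP34
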