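import Pool.Agent.CP34.Defs

/-! # Module C2: monotonicity, submodularity and comparison of regions and rates -/

open Finset Filter Topology

namespace Pool.Agent.CP34

variable {V : Type*} [DecidableEq V]

lemma arr_mono (x y : V) {A B : Finset V} (h : A ⊆ B) : arr x y A ⊆ arr x y B := by
  unfold arr
  by_cases hA : x ∈ A
  · rw [if_pos hA, if_pos (h hA)]; exact insert_subset_insert _ h
  · rw [if_neg hA]
    split_ifs
    · exact h.trans (subset_insert _ _)
    · exact h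

lemma arr_union (x y : V) (A B : Finset V) : arr x y (A ∪ B) = arr x y A ∪ arr x y B := by
  unfold arr
  by_cases hA : x ∈ A <;> by_cases hB : x ∈ B <;> simp [hA, hB]

@[simp] lemma gen_empty (R : Finset V) (r : V → V → ℝ) (f : Finset V → ℝ) : gen R r f ∅ = 0 := by
  simp [gen, arr_empty]

/-- General minimum principle for processes driven by the same marks. -/
theorem min_principle_gen {St : Type*} {R : Finset V} {r : V → V → ℝ} (hr : ∀ x y, 0 ≤ r x y)
    (D : Finset St) (er : V → St → St) (ar : V → V → St → St) (N : St → ℕ) (K φ : St → ℝ)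
    (hK : ∀ s ∈ D, 0 ≤ K s) (herD : ∀ x ∈ R, ∀ s ∈ D, er x s ∈ D)
    (harD : ∀ x ∈ R, ∀ y ∈ R, ∀ s ∈ D, ar x y s ∈ D)
    (hN : ∀ s ∈ D, N s ≠ 0 → ∃ x ∈ R, N (er x s) < N s)
    (h0 : ∀ s ∈ D, N s = 0 → 0 ≤ φ s)
    (h : ∀ s ∈ D, N s ≠ 0 → ∑ x ∈ R, (φ (er x s) - φ s) +
      ∑ x ∈ R, ∑ y ∈ R, r x y * (φ (ar x y s) - φ s) - K s * φ s ≤ 0) :
    ∀ s ∈ D, 0 ≤ φ s := by
  classical
  by_contra hcon
  push Not at hcon
  obtain ⟨s0, hs0, hneg0⟩ := hcon
  obtain ⟨b, hb, hmin⟩ := exists_min_image D φ ⟨s0, hs0⟩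
  have hbneg : φ b < 0 := lt_of_le_of_lt (hmin s0 hs0) hneg0
  obtain ⟨c, hc, hcmin⟩ := exists_min_image (D.filter fun s => φ s = φ b) N
    ⟨b, mem_filter.2 ⟨hb, rfl⟩⟩
  obtain ⟨hcD, hcb⟩ := mem_filter.1 hc
  have hmin' : ∀ s ∈ D, φ c ≤ φ s := fun s hs => by rw [hcb]; exact hmin s hs
  have hcN : N c ≠ 0 := fun h1 => by have := h0 c hcD h1; linarith
  obtain ⟨x, hx, hxN⟩ := hN c hcD hcN
  have hgt : φ c < φ (er x c) := by
    rcases (hmin' _ (herD x hx c hcD)).lt_or_eq with h1 | h1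
    · exact h1
    · exfalso
      have := hcmin _ (mem_filter.2 ⟨herD x hx c hcD, by rw [← h1, hcb]⟩)
      omega
  have h1 : 0 < ∑ x ∈ R, (φ (er x c) - φ c) := by
    refine sum_pos' (fun y hy => ?_) ⟨x, hx, by linarith⟩
    have := hmin' _ (herD y hy c hcD)
    linarith
  have h2 : 0 ≤ ∑ x ∈ R, ∑ y ∈ R, r x y * (φ (ar x y c) - φ c) := by
    refine sum_nonneg fun x hx => sum_nonneg fun y hy => mul_nonneg (hr x y) ?_
    have := hmin' _ (harD x hx y hy c hcD)
    linarith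
  have h3 : 0 ≤ - (K c * φ c) := by
    have h4 : φ c < 0 := by rw [hcb]; exact hbneg
    have := mul_nonneg (hK c hcD) (neg_nonneg.2 h4.le)
    linarith
  have := h c hcD hcN
  linarith

lemma gen_eq (R : Finset V) (r : V → V → ℝ) (f : Finset V → ℝ) (A : Finset V) :
    gen R r f A = ∑ x ∈ R, (f (A.erase x) - f A) +
      ∑ x ∈ R, ∑ y ∈ R, r x y * (f (arr x y A) - f A) := rfl

/-- pairs `A ⊆ B ⊆ R` -/
lemma pair_principle {R : Finset V} {r : V → V → ℝ} (hr : ∀ x y, 0 ≤ r x y)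
    {u v : Finset V → ℝ} {K : Finset V → Finset V → ℝ}
    (hK : ∀ A B, A ⊆ B → B ⊆ R → 0 ≤ K A B) (h0 : u ∅ ≤ v ∅)
    (h : ∀ A B, A ⊆ B → B ⊆ R → B ≠ ∅ → gen R r v B - gen R r u A - K A B * (v B - u A) ≤ 0) :
    ∀ A B, A ⊆ B → B ⊆ R → u A ≤ v B := by
  classical
  intro A B hAB hB
  have key := min_principle_gen (R := R) hr
    ((R.powerset ×ˢ R.powerset).filter fun s => s.1 ⊆ s.2)
    (fun x s => (s.1.erase x, s.2.erase x)) (fun x y s => (arr x y s.1, arr x y s.2))
    (fun s => s.2.card) (fun s => K s.1 s.2) (fun s => v s.2 - u s.1) ?_ ?_ ?_ ?_ ?_ ?_ (A, B) ?_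
  · simpa using key
  · intro s hs
    simp only [mem_filter, mem_product, mem_powerset] at hs
    exact hK _ _ hs.2 hs.1.2
  · intro x hx s hs
    simp only [mem_filter, mem_product, mem_powerset] at hs ⊢
    exact ⟨⟨(erase_subset _ _).trans hs.1.1, (erase_subset _ _).trans hs.1.2⟩,
      erase_subset_erase _ hs.2⟩
  · intro x hx y hy s hs
    simp only [mem_filter, mem_product, mem_powerset] at hs ⊢
    exact ⟨⟨arr_subset hs.1.1 hy, arr_subset hs.1.2 hy⟩, arr_mono _ _ hs.2⟩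
  · intro s hs hN
    simp only [mem_filter, mem_product, mem_powerset] at hs
    obtain ⟨x, hx⟩ := card_pos.1 (Nat.pos_of_ne_zero hN)
    exact ⟨x, hs.1.2 hx, card_erase_lt_of_mem hx⟩
  · intro s hs hN
    simp only [mem_filter, mem_product, mem_powerset] at hs
    have h2 : s.2 = ∅ := card_eq_zero.1 hN
    have h1 : s.1 = ∅ := subset_empty.1 (h2 ▸ hs.2)
    simp only [h1, h2]; linarith
  · intro s hs hN
    simp only [mem_filter, mem_product, mem_powerset] at hs
    have h2 : s.2 ≠ ∅ := fun h3 => hN (by simp [h3])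
    have := h s.1 s.2 hs.2 hs.1.2 h2
    rw [gen_eq, gen_eq] at this
    have e1 : ∑ x ∈ R, (v (s.2.erase x) - u (s.1.erase x) - (v s.2 - u s.1)) =
        ∑ x ∈ R, (v (s.2.erase x) - v s.2) - ∑ x ∈ R, (u (s.1.erase x) - u s.1) := by
      rw [← sum_sub_distrib]; exact sum_congr rfl fun _ _ => by ring
    have e2 : ∑ x ∈ R, ∑ y ∈ R, r x y * (v (arr x y s.2) - u (arr x y s.1) - (v s.2 - u s.1)) =
        ∑ x ∈ R, ∑ y ∈ R, r x y * (v (arr x y s.2) - v s.2) -
          ∑ x ∈ R, ∑ y ∈ R, r x y * (u (arr x y s.1) - u s.1) := by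
      rw [← sum_sub_distrib]; refine sum_congr rfl fun _ _ => ?_
      rw [← sum_sub_distrib]; exact sum_congr rfl fun _ _ => by ring
    simp only
    rw [e1, e2]; linarith
  · simp only [mem_filter, mem_product, mem_powerset]
    exact ⟨⟨hAB.trans hB, hB⟩, hAB⟩

/-- triples `C ⊆ A ∩ B`, `A, B ⊆ R` -/
lemma triple_principle {R : Finset V} {r : V → V → ℝ} (hr : ∀ x y, 0 ≤ r x y)
    {u : Finset V → ℝ} {K : Finset V → Finset V → Finset V → ℝ}
    (hK : ∀ A B C, A ⊆ R → B ⊆ R → C ⊆ A ∩ B → 0 ≤ K A B C)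
    (h : ∀ A B C, A ⊆ R → B ⊆ R → C ⊆ A ∩ B → A ∪ B ≠ ∅ →
      gen R r u A + gen R r u B - gen R r u (A ∪ B) - gen R r u C -
        K A B C * (u A + u B - u (A ∪ B) - u C) ≤ 0) : SubModOn R u := by
  classical
  intro A B C hA hB hC
  have key := min_principle_gen (R := R) hr
    ((R.powerset ×ˢ R.powerset ×ˢ R.powerset).filter fun s => s.2.2 ⊆ s.1 ∩ s.2.1)
    (fun x s => (s.1.erase x, s.2.1.erase x, s.2.2.erase x))
    (fun x y s => (arr x y s.1, arr x y s.2.1, arr x y s.2.2))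
    (fun s => (s.1 ∪ s.2.1).card) (fun s => K s.1 s.2.1 s.2.2)
    (fun s => u s.1 + u s.2.1 - u (s.1 ∪ s.2.1) - u s.2.2) ?_ ?_ ?_ ?_ ?_ ?_ (A, B, C) ?_
  · simp only at key; linarith
  · intro s hs
    simp only [mem_filter, mem_product, mem_powerset] at hs
    exact hK _ _ _ hs.1.1 hs.1.2.1 hs.2
  · intro x hx s hs
    simp only [mem_filter, mem_product, mem_powerset] at hs ⊢
    refine ⟨⟨(erase_subset _ _).trans hs.1.1, (erase_subset _ _).trans hs.1.2.1,
      (erase_subset _ _).trans hs.1.2.2⟩, ?_⟩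
    exact subset_inter (erase_subset_erase _ (hs.2.trans inter_subset_left))
      (erase_subset_erase _ (hs.2.trans inter_subset_right))
  · intro x hx y hy s hs
    simp only [mem_filter, mem_product, mem_powerset] at hs ⊢
    refine ⟨⟨arr_subset hs.1.1 hy, arr_subset hs.1.2.1 hy, arr_subset hs.1.2.2 hy⟩, ?_⟩
    exact subset_inter (arr_mono _ _ (hs.2.trans inter_subset_left))
      (arr_mono _ _ (hs.2.trans inter_subset_right))
  · intro s hs hN
    simp only [mem_filter, mem_product, mem_powerset] at hs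
    obtain ⟨x, hx⟩ := card_pos.1 (Nat.pos_of_ne_zero hN)
    refine ⟨x, ?_, ?_⟩
    · exact (union_subset hs.1.1 hs.1.2.1) hx
    · show ((s.1.erase x) ∪ (s.2.1.erase x)).card < (s.1 ∪ s.2.1).card
      rw [← erase_union_distrib]
      exact card_erase_lt_of_mem hx
  · intro s hs hN
    simp only [mem_filter, mem_product, mem_powerset] at hs
    have h2 : s.1 ∪ s.2.1 = ∅ := card_eq_zero.1 hN
    have h3 : s.1 = ∅ := (union_eq_empty.1 h2).1
    have h4 : s.2.1 = ∅ := (union_eq_empty.1 h2).2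
    have h5 : s.2.2 = ∅ := subset_empty.1 (by have := hs.2; rw [h3] at this; simpa using this)
    simp [h3, h4, h5]
  · intro s hs hN
    simp only [mem_filter, mem_product, mem_powerset] at hs
    have h2 : s.1 ∪ s.2.1 ≠ ∅ := fun h3 => hN (by simp [h3])
    have := h s.1 s.2.1 s.2.2 hs.1.1 hs.1.2.1 hs.2 h2
    rw [gen_eq, gen_eq, gen_eq, gen_eq] at this
    simp only [← erase_union_distrib, ← arr_union]
    have e1 : ∑ x ∈ R, (u (s.1.erase x) + u (s.2.1.erase x) - u ((s.1 ∪ s.2.1).erase x) -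
        u (s.2.2.erase x) - (u s.1 + u s.2.1 - u (s.1 ∪ s.2.1) - u s.2.2)) =
        ∑ x ∈ R, (u (s.1.erase x) - u s.1) + ∑ x ∈ R, (u (s.2.1.erase x) - u s.2.1) -
        ∑ x ∈ R, (u ((s.1 ∪ s.2.1).erase x) - u (s.1 ∪ s.2.1)) -
        ∑ x ∈ R, (u (s.2.2.erase x) - u s.2.2) := by
      rw [← sum_add_distrib, ← sum_sub_distrib, ← sum_sub_distrib]
      exact sum_congr rfl fun _ _ => by ring
    have e2 : ∑ x ∈ R, ∑ y ∈ R, r x y * (u (arr x y s.1) + u (arr x y s.2.1) -
        u (arr x y (s.1 ∪ s.2.1)) -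
        u (arr x y s.2.2) - (u s.1 + u s.2.1 - u (s.1 ∪ s.2.1) - u s.2.2)) =
        ∑ x ∈ R, ∑ y ∈ R, r x y * (u (arr x y s.1) - u s.1) +
        ∑ x ∈ R, ∑ y ∈ R, r x y * (u (arr x y s.2.1) - u s.2.1) -
        ∑ x ∈ R, ∑ y ∈ R, r x y * (u (arr x y (s.1 ∪ s.2.1)) - u (s.1 ∪ s.2.1)) -
        ∑ x ∈ R, ∑ y ∈ R, r x y * (u (arr x y s.2.2) - u s.2.2) := by
      rw [← sum_add_distrib, ← sum_sub_distrib, ← sum_sub_distrib]
      refine sum_congr rfl fun _ _ => ?_
      rw [← sum_add_distrib, ← sum_sub_distrib, ← sum_sub_distrib]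
      exact sum_congr rfl fun _ _ => by ring
    rw [e1, e2]; linarith
  · simp only [mem_filter, mem_product, mem_powerset]
    exact ⟨⟨hA, hB, hC.trans (inter_subset_left.trans hA)⟩, hC⟩

section C2
variable {R R' : Finset V} {r r' : V → V → ℝ} {κ κ' : V → ℝ}

lemma SubModOn.subAddOn {f : Finset V → ℝ} (h : SubModOn R f) (h0 : f ∅ = 0) : SubAddOn R f := by
  intro A B hA hB
  have := h A B ∅ hA hB (empty_subset _)
  linarith

lemma hit_nonneg (B S : Finset V) : 0 ≤ hit B S := by unfold hit; split_ifs <;> norm_num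

lemma hit_le_one (B S : Finset V) : hit B S ≤ 1 := by unfold hit; split_ifs <;> norm_num

@[simp] lemma hit_empty (B : Finset V) : hit B ∅ = 0 := by simp [hit]

lemma hit_comm (A B : Finset V) : hit A B = hit B A := by unfold hit; rw [inter_comm]

lemma hit_mono {B S T : Finset V} (h : S ⊆ T) : hit B S ≤ hit B T := by
  unfold hit
  by_cases h1 : (S ∩ B).Nonempty
  · rw [if_pos h1, if_pos (h1.mono (inter_subset_inter_right h))]
  · rw [if_neg h1]; split_ifs <;> norm_num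

lemma hit_monoOn (B : Finset V) : MonoOn R (hit B) := fun _ _ h _ => hit_mono h

lemma hit_union (B S T : Finset V) : hit B (S ∪ T) = max (hit B S) (hit B T) := by
  unfold hit
  rw [union_inter_distrib_right]
  by_cases h1 : (S ∩ B).Nonempty <;> by_cases h2 : (T ∩ B).Nonempty
  · rw [if_pos h1, if_pos h2, if_pos (h1.mono subset_union_left)]; simp
  · rw [if_pos h1, if_neg h2, if_pos (h1.mono subset_union_left)]; simp
  · rw [if_neg h1, if_pos h2, if_pos (h2.mono subset_union_right)]; simp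
  · rw [if_neg h1, if_neg h2, if_neg]
    · simp
    · rw [not_nonempty_iff_eq_empty] at *
      simp [h1, h2]

lemma hit_subModOn (B : Finset V) : SubModOn R (hit B) := by
  intro S T C _ _ hC
  rw [hit_union]
  have h1 : hit B C ≤ min (hit B S) (hit B T) :=
    le_min (hit_mono (hC.trans inter_subset_left)) (hit_mono (hC.trans inter_subset_right))
  have h2 := max_add_min (hit B S) (hit B T)
  linarith

@[simp] lemma cardR_empty : cardR (∅ : Finset V) = 0 := by simp [cardR]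

lemma cardR_nonneg (A : Finset V) : 0 ≤ cardR A := by unfold cardR; positivity

lemma cardR_monoOn : MonoOn R (cardR : Finset V → ℝ) := fun A B h _ => by
  unfold cardR; exact_mod_cast card_le_card h

lemma cardR_subModOn : SubModOn R (cardR : Finset V → ℝ) := by
  intro A B C _ _ hC
  have h1 : (A ∪ B).card + C.card ≤ A.card + B.card := by
    have h2 := card_union_add_card_inter A B
    have h3 := card_le_card hC
    omega
  unfold cardR
  exact_mod_cast h1

theorem green_monoOn (hr : ∀ x y, 0 ≤ r x y) {f : Finset V → ℝ} (hf : MonoOn R f)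
    (h0 : 0 ≤ f ∅) : MonoOn R (green R r 0 f) := by
  have key := pair_principle (R := R) hr (u := green R r 0 f) (v := green R r 0 f)
    (K := fun _ _ => 0) (fun _ _ _ _ => le_rfl) le_rfl ?_
  · exact key
  · intro A B hAB hB hne
    rw [gen_green hr f hB hne]
    rcases eq_or_ne A ∅ with rfl | hA
    · have := hf ∅ B (empty_subset _) hB
      simp only [gen_empty]; linarith
    · rw [gen_green hr f (hAB.trans hB) hA]
      have := hf A B hAB hB
      linarith

/-- `gen` of the Green function, including the empty set. -/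
lemma gen_green' (hr : ∀ x y, 0 ≤ r x y) {f : Finset V → ℝ} (h0 : f ∅ = 0)
    {A : Finset V} (hA : A ⊆ R) : gen R r (green R r 0 f) A = - f A := by
  rcases eq_or_ne A ∅ with rfl | hne
  · simp [h0]
  · exact gen_green hr f hA hne

/-- `gen` of the exit probability, including the empty set. -/
lemma gen_theta' (hr : ∀ x y, 0 ≤ r x y) (hκ : ∀ x, 0 ≤ κ x) {A : Finset V} (hA : A ⊆ R) :
    gen R r (theta R r κ) A = - (kill κ A * (1 - theta R r κ A)) := by
  rcases eq_or_ne A ∅ with rfl | hne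
  · simp
  · exact gen_theta hr hκ hA hne

theorem green_subModOn (hr : ∀ x y, 0 ≤ r x y) {f : Finset V → ℝ} (hf : MonoOn R f)
    (h0 : f ∅ = 0) (hs : SubModOn R f) : SubModOn R (green R r 0 f) := by
  refine triple_principle hr (K := fun _ _ _ => 0) (fun _ _ _ _ _ _ => le_rfl) ?_
  intro A B C hA hB hC _
  rw [gen_green' hr h0 hA, gen_green' hr h0 hB, gen_green' hr h0 (union_subset hA hB),
    gen_green' hr h0 (hC.trans (inter_subset_left.trans hA))]
  have := hs A B C hA hB hC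
  linarith

lemma kill_mono (hκ : ∀ x, 0 ≤ κ x) {A B : Finset V} (h : A ⊆ B) : kill κ A ≤ kill κ B :=
  sum_le_sum_of_subset_of_nonneg h fun x _ _ => hκ x

theorem theta_monoOn (hr : ∀ x y, 0 ≤ r x y) (hκ : ∀ x, 0 ≤ κ x) :
    MonoOn R (theta R r κ) := by
  have key := pair_principle (R := R) hr (u := theta R r κ) (v := theta R r κ)
    (K := fun _ B => kill κ B) (fun _ B _ _ => kill_nonneg hκ B) le_rfl ?_
  · exact key
  · intro A B hAB hB hne
    rw [gen_theta' hr hκ hB, gen_theta' hr hκ (hAB.trans hB)]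
    have h1 := kill_mono hκ hAB
    have h2 := theta_le_one hr hκ (R := R) A
    nlinarith [mul_nonneg (sub_nonneg.2 h1) (sub_nonneg.2 h2)]

theorem theta_subModOn (hr : ∀ x y, 0 ≤ r x y) (hκ : ∀ x, 0 ≤ κ x) :
    SubModOn R (theta R r κ) := by
  refine triple_principle hr (K := fun A B _ => kill κ (A ∪ B))
    (fun A B _ _ _ _ => kill_nonneg hκ _) ?_
  intro A B C hA hB hC _
  have hCR := hC.trans (inter_subset_left.trans hA)
  rw [gen_theta' hr hκ hA, gen_theta' hr hκ hB, gen_theta' hr hκ (union_subset hA hB),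
    gen_theta' hr hκ hCR]
  have mA := theta_monoOn (R := R) hr hκ C A (hC.trans inter_subset_left) hA
  have mB := theta_monoOn (R := R) hr hκ C B (hC.trans inter_subset_right) hB
  have hc := theta_le_one hr hκ (R := R) C
  have kAB : kill κ (A ∪ B) + kill κ (A ∩ B) = kill κ A + kill κ B := by
    unfold kill; exact sum_union_inter
  have kC : kill κ C ≤ kill κ (A ∩ B) := kill_mono hκ hC
  have kA : kill κ A ≤ kill κ (A ∪ B) := kill_mono hκ subset_union_left
  have kB : kill κ B ≤ kill κ (A ∪ B) := kill_mono hκ subset_union_right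
  set a := theta R r κ A
  set b := theta R r κ B
  set c := theta R r κ C
  set u := theta R r κ (A ∪ B)
  nlinarith [mul_nonneg (sub_nonneg.2 kA) (sub_nonneg.2 mA),
    mul_nonneg (sub_nonneg.2 kB) (sub_nonneg.2 mB), mul_nonneg (sub_nonneg.2 kC) (sub_nonneg.2 hc)]

/-- comparison of generators on monotone functions -/
lemma gen_le_gen (hr' : ∀ x y, 0 ≤ r' x y) (hR : R ⊆ R')
    (hle : ∀ x ∈ R, ∀ y ∈ R, r x y ≤ r' x y) {f : Finset V → ℝ} (hf : MonoOn R' f)
    {A : Finset V} (hA : A ⊆ R) : gen R r f A ≤ gen R' r' f A := by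
  have hA' := hA.trans hR
  rw [gen_eq, gen_eq]
  have e1 : ∑ x ∈ R', (f (A.erase x) - f A) = ∑ x ∈ R, (f (A.erase x) - f A) := by
    symm
    apply sum_subset hR
    intro x _ hx
    rw [erase_eq_of_notMem (fun h => hx (hA h))]; ring
  rw [e1]
  have pos : ∀ x, ∀ y ∈ R', 0 ≤ f (arr x y A) - f A := fun x y hy =>
    sub_nonneg.2 (hf _ _ (subset_arr x y A) (arr_subset hA' hy))
  have e2 : ∑ x ∈ R, ∑ y ∈ R, r x y * (f (arr x y A) - f A) ≤
      ∑ x ∈ R, ∑ y ∈ R, r' x y * (f (arr x y A) - f A) :=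
    sum_le_sum fun x hx => sum_le_sum fun y hy =>
      mul_le_mul_of_nonneg_right (hle x hx y hy) (pos x y (hR hy))
  have e3 : ∑ x ∈ R, ∑ y ∈ R, r' x y * (f (arr x y A) - f A) ≤
      ∑ x ∈ R, ∑ y ∈ R', r' x y * (f (arr x y A) - f A) :=
    sum_le_sum fun x hx => sum_le_sum_of_subset_of_nonneg hR fun y hy _ =>
      mul_nonneg (hr' x y) (pos x y hy)
  have e4 : ∑ x ∈ R, ∑ y ∈ R', r' x y * (f (arr x y A) - f A) ≤
      ∑ x ∈ R', ∑ y ∈ R', r' x y * (f (arr x y A) - f A) :=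
    sum_le_sum_of_subset_of_nonneg hR fun x _ _ => sum_nonneg fun y hy =>
      mul_nonneg (hr' x y) (pos x y hy)
  linarith

theorem green_rate_mono (hr : ∀ x y, 0 ≤ r x y) (hr' : ∀ x y, 0 ≤ r' x y) (hR : R ⊆ R')
    (hle : ∀ x ∈ R, ∀ y ∈ R, r x y ≤ r' x y) {f : Finset V → ℝ} (hf : MonoOn R' f)
    (h0 : 0 ≤ f ∅) {A : Finset V} (hA : A ⊆ R) : green R r 0 f A ≤ green R' r' 0 f A := by
  refine green_le (κ := 0) hr (fun _ => le_rfl) (by simp) ?_ A hA
  intro B hB hne
  rw [genK_zero_kill]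
  have h1 := gen_le_gen hr' hR hle (green_monoOn hr' hf h0) hB
  rw [gen_green hr' f (hB.trans hR) hne] at h1
  exact h1

theorem theta_rate_mono (hr : ∀ x y, 0 ≤ r x y) (hr' : ∀ x y, 0 ≤ r' x y)
    (hκ : ∀ x, 0 ≤ κ x) (hκ' : ∀ x, 0 ≤ κ' x) (hR : R ⊆ R')
    (hle : ∀ x ∈ R, ∀ y ∈ R, r x y ≤ r' x y) (hleκ : ∀ x ∈ R, κ x ≤ κ' x)
    {A : Finset V} (hA : A ⊆ R) : theta R r κ A ≤ theta R' r' κ' A := by
  refine green_le hr hκ (by simp) ?_ A hA
  intro B hB hne
  have h1 := gen_le_gen hr' hR hle (theta_monoOn hr' hκ') hB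
  rw [gen_theta' hr' hκ' (hB.trans hR)] at h1
  have h2 : kill κ B ≤ kill κ' B := sum_le_sum fun x hx => hleκ x (hB hx)
  have h3 := theta_le_one hr' hκ' (R := R') B
  unfold genK
  nlinarith [mul_nonneg (sub_nonneg.2 h2) (sub_nonneg.2 h3)]

end C2

end Pool.Agent.CP34
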