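import Pool.Agent.CP34.C2

/-! # Module C3: duality, growth, exit through a point -/

open Finset Filter Topology

namespace Pool.Agent.CP34

variable {V : Type*} [DecidableEq V]

section C3
variable {R : Finset V} {r : V → V → ℝ} {κ : V → ℝ}

lemma hit_arr (x y : V) (A S : Finset V) : hit (arr x y A) S = hit A (arr y x S) := by
  unfold hit
  congr 1
  apply propext
  unfold arr
  by_cases hx : x ∈ A <;> by_cases hy : y ∈ S
  · rw [if_pos hx, if_pos hy]
    exact ⟨fun _ => ⟨x, by simp [hx]⟩, fun _ => ⟨y, by simp [hy]⟩⟩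
  · rw [if_pos hx, if_neg hy]
    constructor
    · rintro ⟨z, hz⟩
      rw [mem_inter, mem_insert] at hz
      rcases hz.2 with rfl | h
      · exact absurd hz.1 hy
      · exact ⟨z, mem_inter.2 ⟨hz.1, h⟩⟩
    · rintro ⟨z, hz⟩
      rw [mem_inter] at hz
      exact ⟨z, mem_inter.2 ⟨hz.1, mem_insert_of_mem hz.2⟩⟩
  · rw [if_neg hx, if_pos hy]
    constructor
    · rintro ⟨z, hz⟩
      rw [mem_inter] at hz
      exact ⟨z, mem_inter.2 ⟨mem_insert_of_mem hz.1, hz.2⟩⟩
    · rintro ⟨z, hz⟩
      rw [mem_inter, mem_insert] at hz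
      rcases hz.1 with rfl | h
      · exact absurd hz.2 hx
      · exact ⟨z, mem_inter.2 ⟨h, hz.2⟩⟩
  · rw [if_neg hx, if_neg hy]

lemma hit_erase (x : V) (A S : Finset V) : hit (A.erase x) S = hit A (S.erase x) := by
  unfold hit
  have : S ∩ A.erase x = S.erase x ∩ A := by
    ext z; simp only [mem_inter, mem_erase]; tauto
  rw [this]

/-- the generator acts in the same way on both arguments of `hit` -/
lemma gen_hit_swap (hs : ∀ x y, r x y = r y x) (A S : Finset V) :
    gen R r (fun B => hit B S) A = gen R r (hit A) S := by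
  unfold gen
  beta_reduce
  congr 1
  · exact sum_congr rfl fun x _ => by rw [hit_erase]
  · rw [sum_comm]
    refine sum_congr rfl fun x _ => sum_congr rfl fun y _ => ?_
    rw [hit_arr, hs y x]

/-- self-duality -/
theorem green_dual (hr : ∀ x y, 0 ≤ r x y) (hs : ∀ x y, r x y = r y x) {A B : Finset V}
    (hA : A ⊆ R) (hB : B ⊆ R) : green R r 0 (hit B) A = green R r 0 (hit A) B := by
  have h0 : ∀ x : V, (0 : ℝ) ≤ (0 : V → ℝ) x := fun _ => le_rfl
  refine green_unique (κ := 0) hr h0 (u := fun S => green R r 0 (hit S) B) ?_ ?_ A hA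
  · have : (hit (∅ : Finset V)) = fun _ => (0 : ℝ) := by
      funext S; simp [hit]
    show green R r 0 (hit ∅) B = 0
    rw [this, green_zero hr h0]
  · intro S _ _
    rw [genK_zero_kill]
    have e : gen R r (fun S => green R r 0 (hit S) B) S =
        green R r 0 (fun T => gen R r (fun S => hit S T) S) B := by
      unfold gen
      rw [green_add hr h0 (fun T => ∑ x ∈ R, (hit (S.erase x) T - hit S T))
        (fun T => ∑ x ∈ R, ∑ y ∈ R, r x y * (hit (arr x y S) T - hit S T)),
        green_sum hr h0, green_sum hr h0]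
      congr 1
      · exact sum_congr rfl fun x _ => (green_sub hr h0 _ _ _).symm
      · refine sum_congr rfl fun x _ => ?_
        rw [green_sum hr h0]
        refine sum_congr rfl fun y _ => ?_
        rw [green_smul hr h0, green_sub hr h0 (hit (arr x y S)) (hit S)]
    rw [e]
    have e2 : (fun T => gen R r (fun S => hit S T) S) =
        fun T => -(fun T => - genK R r 0 (hit S) T) T := by
      funext T
      rw [gen_hit_swap hs]; simp
    rw [e2]
    have e3 := green_sub (R := R) hr h0 (fun _ => 0) (fun T => - genK R r 0 (hit S) T) B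
    rw [green_zero hr h0, green_neg_genK hr h0 (by simp) hB] at e3
    have e4 : (fun T => -(fun T => - genK R r 0 (hit S) T) T) =
        fun T => (fun _ => (0 : ℝ)) T - (fun T => - genK R r 0 (hit S) T) T := by
      funext T; simp
    rw [e4, e3, hit_comm S B]; ring

lemma gen_hit_ge (hr : ∀ x y, 0 ≤ r x y) (S A : Finset V) : - hit S A ≤ gen R r (hit S) A := by
  have h2 : 0 ≤ ∑ x ∈ R, ∑ y ∈ R, r x y * (hit S (arr x y A) - hit S A) :=
    sum_nonneg fun x _ => sum_nonneg fun y _ => mul_nonneg (hr x y)
      (sub_nonneg.2 (hit_mono (subset_arr x y A)))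
  have h1 : - hit S A ≤ ∑ x ∈ R, (hit S (A.erase x) - hit S A) := by
    by_cases hAS : (A ∩ S).Nonempty
    · have hone : hit S A = 1 := by unfold hit; rw [if_pos hAS]
      by_cases hc : (A ∩ S).card = 1
      · obtain ⟨z, hz⟩ := card_eq_one.1 hc
        have hother : ∀ x ∈ R, x ≠ z → hit S (A.erase x) - hit S A = 0 := by
          intro x _ hx
          rw [hone]
          unfold hit
          have hzm : z ∈ A ∩ S := by rw [hz]; simp
          rw [if_pos ⟨z, mem_inter.2 ⟨mem_erase.2 ⟨Ne.symm hx, (mem_inter.1 hzm).1⟩,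
            (mem_inter.1 hzm).2⟩⟩]
          ring
        by_cases hzR : z ∈ R
        · rw [sum_eq_single_of_mem z hzR hother]
          have := hit_nonneg S (A.erase z)
          linarith
        · rw [sum_eq_zero fun x hx => hother x hx (fun h => hzR (h ▸ hx))]
          have := hit_nonneg S A
          linarith
      · have h3 : 1 < (A ∩ S).card := by
          have := card_pos.2 hAS
          omega
        rw [sum_eq_zero]
        · have := hit_nonneg S A
          linarith
        · intro x _
          have h4 : ((A ∩ S).erase x).Nonempty := by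
            apply card_pos.1
            have := pred_card_le_card_erase (s := A ∩ S) (a := x)
            omega
          have : hit S (A.erase x) = 1 := by
            unfold hit
            rw [if_pos]
            rwa [erase_inter]
          rw [this, hone]; ring
    · have hz : hit S A = 0 := by unfold hit; rw [if_neg hAS]
      rw [hz]
      simp only [neg_zero, sub_zero]
      exact sum_nonneg fun x _ => hit_nonneg _ _
  unfold gen
  linarith

/-- occupation of the larger set `T` is controlled by the occupation of `S` if every point of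
`T \ S` sends arrows into `S` at rate `≥ c`. -/
theorem green_grow (hr : ∀ x y, 0 ≤ r x y) {S T : Finset V} (hST : S ⊆ T) (hT : T ⊆ R) {c : ℝ}
    (hc : 0 < c) (h : ∀ y ∈ T, y ∉ S → ∃ x ∈ S, c ≤ r y x) {A : Finset V} (hA : A ⊆ R) :
    green R r 0 (hit T) A ≤ (1 + c) / c * green R r 0 (hit S) A := by
  have h0 : ∀ x : V, (0 : ℝ) ≤ (0 : V → ℝ) x := fun _ => le_rfl
  have key : green R r 0 (fun B => - genK R r 0 (hit S) B) A ≤
      green R r 0 (fun B => (1 + c) * hit S B - c * hit T B) A := by
    refine green_mono hr h0 (fun B hB _ => ?_) A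
    rw [genK_zero_kill]
    by_cases hBS : (B ∩ S).Nonempty
    · have e1 : hit S B = 1 := by unfold hit; rw [if_pos hBS]
      have e2 : hit T B = 1 := by
        unfold hit; rw [if_pos (hBS.mono (inter_subset_inter_left hST))]
      have := gen_hit_ge (R := R) hr S B
      rw [e1] at this ⊢
      rw [e2]; linarith
    · have e1 : hit S B = 0 := by unfold hit; rw [if_neg hBS]
      by_cases hBT : (B ∩ T).Nonempty
      · have e2 : hit T B = 1 := by unfold hit; rw [if_pos hBT]
        obtain ⟨y, hy⟩ := hBT
        rw [mem_inter] at hy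
        have hyS : y ∉ S := fun hyS => hBS ⟨y, mem_inter.2 ⟨hy.1, hyS⟩⟩
        obtain ⟨x, hx, hcx⟩ := h y hy.2 hyS
        have h1 : 0 ≤ ∑ x ∈ R, (hit S (B.erase x) - hit S B) := by
          rw [e1]; exact sum_nonneg fun x _ => by have := hit_nonneg S (B.erase x); linarith
        have h2 : c ≤ ∑ x ∈ R, ∑ y ∈ R, r x y * (hit S (arr x y B) - hit S B) := by
          have pos : ∀ a b, 0 ≤ r a b * (hit S (arr a b B) - hit S B) := fun a b =>
            mul_nonneg (hr a b) (sub_nonneg.2 (hit_mono (subset_arr a b B)))
          calc c ≤ r y x * (hit S (arr y x B) - hit S B) := by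
                have : hit S (arr y x B) = 1 := by
                  unfold hit arr
                  rw [if_pos hy.1, if_pos ⟨x, mem_inter.2 ⟨mem_insert_self _ _, hx⟩⟩]
                rw [this, e1]; linarith
            _ ≤ ∑ b ∈ R, r y b * (hit S (arr y b B) - hit S B) :=
                single_le_sum (f := fun b => r y b * (hit S (arr y b B) - hit S B))
                  (fun b _ => pos y b) (hT (hST hx))
            _ ≤ _ := single_le_sum
                  (f := fun a => ∑ b ∈ R, r a b * (hit S (arr a b B) - hit S B))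
                  (fun a _ => sum_nonneg fun b _ => pos a b) (hT hy.2)
        have h3 : c ≤ gen R r (hit S) B := by unfold gen; linarith
        rw [e1, e2]; linarith
      · have e2 : hit T B = 0 := by unfold hit; rw [if_neg hBT]
        have := gen_hit_ge (R := R) hr S B
        rw [e1] at this ⊢
        rw [e2]; linarith
  rw [green_neg_genK hr h0 (by simp) hA, green_sub hr h0, green_smul hr h0,
    green_smul hr h0] at key
  have hn := hit_nonneg S A
  rw [div_mul_eq_mul_div, le_div_iff₀ hc]
  linarith

lemma kill_pt {w : V} (c : ℝ) (A : Finset V) : kill (pt w c) A = c * hit {w} A := by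
  unfold kill pt hit
  by_cases h : w ∈ A
  · rw [if_pos ⟨w, by simp [h]⟩, sum_eq_single_of_mem w h (fun x _ hx => by simp [hx])]
    simp
  · rw [if_neg]
    · rw [sum_eq_zero]
      · ring
      · intro x hx
        rw [if_neg (fun e : x = w => h (e ▸ hx))]
    · rintro ⟨z, hz⟩
      rw [mem_inter, mem_singleton] at hz
      exact h (hz.2 ▸ hz.1)

lemma pt_nonneg {w : V} {c : ℝ} (hc : 0 ≤ c) (x : V) : 0 ≤ pt w c x := by
  unfold pt; split_ifs <;> simp [hc]

theorem theta_point_ge (hr : ∀ x y, 0 ≤ r x y) {w : V} (_hw : w ∈ R) {c : ℝ} (hc : 0 ≤ c)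
    {A : Finset V} (hA : A ⊆ R) :
    c * green R r 0 (hit {w}) A / (1 + c * green R r 0 (hit {w}) R) ≤ theta R r (pt w c) A := by
  have h0 : ∀ x : V, (0 : ℝ) ≤ (0 : V → ℝ) x := fun _ => le_rfl
  set g := green R r 0 (hit {w}) with hg
  have hgn : ∀ A, 0 ≤ g A := fun A => green_nonneg hr h0 (fun A _ _ => hit_nonneg _ _) A
  have hD : 0 < 1 + c * g R := by have := mul_nonneg hc (hgn R); linarith
  have hmono : MonoOn R g := green_monoOn hr (hit_monoOn _) (by simp)
  have key := comparison (R := R) hr (pt_nonneg (w := w) hc) (u := theta R r (pt w c))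
    (v := fun S => (c / (1 + c * g R)) * g S) (by simp [hg]) ?_ A hA
  · calc c * g A / (1 + c * g R) = (c / (1 + c * g R)) * g A := by ring
      _ ≤ _ := key
  · intro B hB hne
    rw [genK_smul]
    unfold genK
    rw [gen_theta hr (pt_nonneg hc) hB hne, hg, gen_green hr _ hB hne, ← hg, kill_pt]
    have h1 : g B ≤ g R := hmono B R hB subset_rfl
    have h2 := hit_nonneg {w} B
    have h3 : (c / (1 + c * g R)) * (1 + c * g B) ≤ c := by
      rw [div_mul_eq_mul_div, div_le_iff₀ hD]
      nlinarith [mul_nonneg hc (mul_nonneg hc (sub_nonneg.2 h1))]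
    nlinarith [mul_le_mul_of_nonneg_right h3 h2]

theorem theta_le_green (hr : ∀ x y, 0 ≤ r x y) (hκ : ∀ x, 0 ≤ κ x) {A : Finset V} (hA : A ⊆ R) :
    theta R r κ A ≤ green R r 0 (kill κ) A := by
  refine le_green (κ := 0) hr (fun _ => le_rfl) (by simp) ?_ A hA
  intro B hB hne
  rw [genK_zero_kill, gen_theta hr hκ hB hne]
  have h1 := kill_nonneg hκ B
  have h2 := theta_nonneg (R := R) hr hκ B
  nlinarith [mul_nonneg h1 h2]

theorem exp_le_one_sub_theta (hr : ∀ x y, 0 ≤ r x y) (hκ : ∀ x, 0 ≤ κ x) {A : Finset V}
    (hA : A ⊆ R) : Real.exp (- green R r 0 (kill κ) A) ≤ 1 - theta R r κ A := by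
  set g := green R r 0 (kill κ) with hg
  have key : theta R r κ A ≤ 1 - Real.exp (- g A) := by
    refine green_le (R := R) hr hκ (u := fun S => 1 - Real.exp (- g S)) (by simp [hg]) ?_ A hA
    intro B hB hne
    have hgB : gen R r g B = - kill κ B := gen_green hr _ hB hne
    have hexp : ∀ S, Real.exp (- g S) - Real.exp (- g B) ≥
        - Real.exp (- g B) * (g S - g B) := by
      intro S
      have h1 : Real.exp (- g S) = Real.exp (- g B) * Real.exp (-(g S - g B)) := by
        rw [← Real.exp_add]; ring_nf
      have h2 := Real.add_one_le_exp (-(g S - g B))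
      have h3 := Real.exp_pos (- g B)
      rw [h1]; nlinarith
    have h4 : Real.exp (- g B) * kill κ B ≤ gen R r (fun S => Real.exp (- g S)) B := by
      have e : Real.exp (- g B) * kill κ B = gen R r (fun S => - Real.exp (- g B) * g S) B := by
        rw [gen_smul, hgB]; ring
      rw [e]
      unfold gen
      refine add_le_add (sum_le_sum fun x _ => ?_) (sum_le_sum fun x _ => sum_le_sum fun y _ => ?_)
      · have := hexp (B.erase x); linarith
      · refine mul_le_mul_of_nonneg_left ?_ (hr x y)
        have := hexp (arr x y B); linarith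
    unfold genK
    rw [gen_sub, gen_const]
    linarith
  linarith

/-- an infected vertex stays infected for at least mean time one -/
theorem hit_le_green (hr : ∀ x y, 0 ≤ r x y) {w : V} (_hw : w ∈ R) {A : Finset V} (hA : A ⊆ R) :
    hit {w} A ≤ green R r 0 (hit {w}) A := by
  refine le_green (κ := 0) hr (fun _ => le_rfl) (by simp) ?_ A hA
  intro B _ _
  rw [genK_zero_kill]
  exact gen_hit_ge hr _ _

end C3

end Pool.Agent.CP34
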