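import Pool.Agent.CP34.C3

/-! # Module C4: strong Markov bound, union bound, relabelling, products -/

open Finset Filter Topology

namespace Pool.Agent.CP34

variable {V : Type*} [DecidableEq V]

section C4
variable {R R' : Finset V} {r : V → V → ℝ}

/-- the generator on a larger region: the additional terms are the arrows leaving `R` -/
lemma gen_region (hR : R ⊆ R') {f : Finset V → ℝ} {A : Finset V} (hA : A ⊆ R) :
    gen R' r f A = gen R r f A +
      ∑ x ∈ R, ∑ y ∈ R' \ R, r x y * (f (arr x y A) - f A) := by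
  unfold gen
  have e1 : ∑ x ∈ R', (f (A.erase x) - f A) = ∑ x ∈ R, (f (A.erase x) - f A) := by
    symm
    apply sum_subset hR
    intro x _ hx
    rw [erase_eq_of_notMem (fun h => hx (hA h))]; ring
  have e2 : ∑ x ∈ R', ∑ y ∈ R', r x y * (f (arr x y A) - f A) =
      ∑ x ∈ R, ∑ y ∈ R', r x y * (f (arr x y A) - f A) := by
    symm
    apply sum_subset hR
    intro x _ hx
    refine sum_eq_zero fun y _ => ?_
    have : arr x y A = A := by unfold arr; rw [if_neg (fun h => hx (hA h))]
    rw [this]; ring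
  have e3 : ∀ x ∈ R, ∑ y ∈ R', r x y * (f (arr x y A) - f A) =
      ∑ y ∈ R, r x y * (f (arr x y A) - f A) + ∑ y ∈ R' \ R, r x y * (f (arr x y A) - f A) := by
    intro x _
    rw [add_comm]
    exact (sum_sdiff hR).symm
  rw [e1, e2, sum_congr rfl e3, sum_add_distrib]
  ring

/-- strong Markov lower bound through the arrow `w → y` leaving `R` -/
theorem strong_markov (hr : ∀ x y, 0 ≤ r x y) (hR : R ⊆ R') {F : Finset V → ℝ}
    (hmono : MonoOn R' F) (h0 : 0 ≤ F ∅) (hF : ∀ A ⊆ R, A ≠ ∅ → gen R' r F A ≤ 0)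
    {w y : V} (hw : w ∈ R) (hy : y ∈ R') (hyR : y ∉ R) {c : ℝ} (hc : 0 ≤ c) (hcr : c ≤ r w y)
    {A : Finset V} (hA : A ⊆ R) : theta R r (pt w c) A * F {y} ≤ F A := by
  have key := comparison (R := R) hr (pt_nonneg (w := w) hc) (u := F)
    (v := fun S => F {y} * theta R r (pt w c) S) (by simpa using h0) ?_ A hA
  · linarith [key]
  · intro B hB hne
    rw [genK_smul]
    unfold genK
    rw [gen_theta hr (pt_nonneg hc) hB hne, kill_pt]
    have h1 := hF B hB hne
    rw [gen_region hR hB] at h1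
    have pos : ∀ a ∈ R, ∀ b ∈ R' \ R, 0 ≤ r a b * (F (arr a b B) - F B) := fun a _ b hb =>
      mul_nonneg (hr a b) (sub_nonneg.2 (hmono _ _ (subset_arr a b B)
        (arr_subset (hB.trans hR) (mem_sdiff.1 hb).1)))
    have h2 : r w y * (F (arr w y B) - F B) ≤
        ∑ x ∈ R, ∑ y ∈ R' \ R, r x y * (F (arr x y B) - F B) :=
      calc r w y * (F (arr w y B) - F B) ≤ ∑ b ∈ R' \ R, r w b * (F (arr w b B) - F B) :=
            single_le_sum (f := fun b => r w b * (F (arr w b B) - F B))
              (fun b hb => pos w hw b hb) (mem_sdiff.2 ⟨hy, hyR⟩)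
        _ ≤ _ := single_le_sum (f := fun a => ∑ b ∈ R' \ R, r a b * (F (arr a b B) - F B))
              (fun a ha => sum_nonneg fun b hb => pos a ha b hb) hw
    have h3 : c * hit {w} B * (F {y} - F B) ≤ r w y * (F (arr w y B) - F B) := by
      by_cases hwB : w ∈ B
      · have e1 : hit {w} B = 1 := by unfold hit; rw [if_pos ⟨w, by simp [hwB]⟩]
        have h4 : F {y} ≤ F (arr w y B) := by
          apply hmono _ _ _ (arr_subset (hB.trans hR) hy)
          unfold arr; rw [if_pos hwB]
          exact singleton_subset_iff.2 (mem_insert_self _ _)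
        have h5 : F B ≤ F (arr w y B) := hmono _ _ (subset_arr _ _ _)
          (arr_subset (hB.trans hR) hy)
        rw [e1, mul_one]
        nlinarith [mul_nonneg hc (sub_nonneg.2 h4), mul_nonneg (sub_nonneg.2 hcr)
          (sub_nonneg.2 h5)]
      · have e1 : hit {w} B = 0 := by
          unfold hit; rw [if_neg]
          rintro ⟨z, hz⟩
          rw [mem_inter, mem_singleton] at hz
          exact hwB (hz.2 ▸ hz.1)
        have e2 : arr w y B = B := by unfold arr; rw [if_neg hwB]
        rw [e1, e2]; simp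
    nlinarith [h1, h2, h3]

/-- union bound over the arrows leaving `R` -/
theorem union_bound (hr : ∀ x y, 0 ≤ r x y) (hR : R ⊆ R') {F c : Finset V → ℝ}
    (h0 : F ∅ ≤ 0) (hsub : ∀ A ⊆ R, ∀ x ∈ A, ∀ y ∈ R' \ R, r x y ≠ 0 → F (insert y A) ≤ F A + F {y})
    (hF : ∀ A ⊆ R, A ≠ ∅ → - c A ≤ gen R' r F A) {A : Finset V} (hA : A ⊆ R) :
    F A ≤ green R r 0 c A +
      ∑ x ∈ R, ∑ y ∈ R' \ R, r x y * green R r 0 (hit {x}) A * F {y} := by
  have hz : ∀ x : V, (0 : ℝ) ≤ (0 : V → ℝ) x := fun _ => le_rfl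
  set u : Finset V → ℝ := green R r 0
    (fun S => c S + ∑ x ∈ R, ∑ y ∈ R' \ R, (r x y * F {y}) * hit {x} S) with hu
  have e : u A = green R r 0 c A +
      ∑ x ∈ R, ∑ y ∈ R' \ R, r x y * green R r 0 (hit {x}) A * F {y} := by
    rw [hu, green_add hr hz, green_sum hr hz]
    congr 1
    refine sum_congr rfl fun x _ => ?_
    rw [green_sum hr hz]
    refine sum_congr rfl fun y _ => ?_
    rw [green_smul hr hz]; ring
  rw [← e]
  refine le_green (κ := 0) hr hz h0 ?_ A hA
  intro B hB hne
  rw [genK_zero_kill]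
  have h1 := hF B hB hne
  rw [gen_region hR hB] at h1
  have h2 : ∑ x ∈ R, ∑ y ∈ R' \ R, r x y * (F (arr x y B) - F B) ≤
      ∑ x ∈ R, ∑ y ∈ R' \ R, (r x y * F {y}) * hit {x} B := by
    refine sum_le_sum fun x _ => sum_le_sum fun y hy => ?_
    by_cases hxB : x ∈ B
    · have e1 : hit {x} B = 1 := by unfold hit; rw [if_pos ⟨x, by simp [hxB]⟩]
      have e2 : arr x y B = insert y B := by unfold arr; rw [if_pos hxB]
      rw [e1, e2, mul_one]
      by_cases h3 : r x y = 0
      · rw [h3]; simp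
      · exact mul_le_mul_of_nonneg_left (by have := hsub B hB x hxB y hy h3; linarith) (hr x y)
    · have e1 : hit {x} B = 0 := by
        unfold hit; rw [if_neg]
        rintro ⟨z, hz⟩
        rw [mem_inter, mem_singleton] at hz
        exact hxB (hz.2 ▸ hz.1)
      have e2 : arr x y B = B := by unfold arr; rw [if_neg hxB]
      rw [e1, e2]; simp
  linarith

/-- relabelling for the generator -/
lemma gen_image {W : Type*} [DecidableEq W] {φ : V → W} {r' : W → W → ℝ}
    {F : Finset W → ℝ} (hφ : Set.InjOn φ R) (hrr : ∀ x ∈ R, ∀ y ∈ R, r' (φ x) (φ y) = r x y)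
    {A : Finset V} (hA : A ⊆ R) :
    gen (R.image φ) r' F (A.image φ) = gen R r (fun S => F (S.image φ)) A := by
  have hφ' : ∀ x ∈ R, ∀ y ∈ R, φ x = φ y → x = y := fun x hx y hy h => hφ hx hy h
  have her : ∀ x ∈ R, (A.image φ).erase (φ x) = (A.erase x).image φ := by
    intro x hx
    ext z
    simp only [mem_erase, mem_image]
    constructor
    · rintro ⟨h1, a, ha, rfl⟩
      exact ⟨a, ⟨fun h => h1 (by rw [h]), ha⟩, rfl⟩
    · rintro ⟨a, ⟨h1, ha⟩, rfl⟩
      exact ⟨fun h => h1 (hφ' a (hA ha) x hx h), a, ha, rfl⟩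
  have har : ∀ x ∈ R, ∀ y ∈ R, arr (φ x) (φ y) (A.image φ) = (arr x y A).image φ := by
    intro x hx y _
    have : φ x ∈ A.image φ ↔ x ∈ A := by
      rw [mem_image]
      constructor
      · rintro ⟨a, ha, h⟩
        rwa [← hφ' a (hA ha) x hx h]
      · exact fun h => ⟨x, h, rfl⟩
    unfold arr
    by_cases h : x ∈ A
    · rw [if_pos h, if_pos (this.2 h), image_insert]
    · rw [if_neg h, if_neg (fun h' => h (this.1 h'))]
  unfold gen
  rw [sum_image hφ, sum_image hφ]
  congr 1
  · exact sum_congr rfl fun x hx => by rw [her x hx]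
  · refine sum_congr rfl fun x hx => ?_
    rw [sum_image hφ]
    exact sum_congr rfl fun y hy => by rw [har x hx y hy, hrr x hx y hy]

lemma kill_image {W : Type*} [DecidableEq W] {φ : V → W} {κ : V → ℝ}
    {κ' : W → ℝ} (hφ : Set.InjOn φ R) (hκκ : ∀ x ∈ R, κ' (φ x) = κ x)
    {A : Finset V} (hA : A ⊆ R) : kill κ' (A.image φ) = kill κ A := by
  unfold kill
  rw [sum_image (hφ.mono (coe_subset.2 hA))]
  exact sum_congr rfl fun x hx => hκκ x (hA hx)

/-- relabelling -/
theorem green_image {W : Type*} [DecidableEq W] {φ : V → W} {r' : W → W → ℝ} {κ : V → ℝ}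
    {κ' : W → ℝ} {f : Finset V → ℝ} {f' : Finset W → ℝ} (hr : ∀ x y, 0 ≤ r x y)
    (hr' : ∀ x y, 0 ≤ r' x y) (hκ : ∀ x, 0 ≤ κ x) (hκ' : ∀ x, 0 ≤ κ' x)
    (hφ : Set.InjOn φ R) (hrr : ∀ x ∈ R, ∀ y ∈ R, r' (φ x) (φ y) = r x y)
    (hκκ : ∀ x ∈ R, κ' (φ x) = κ x) (hff : ∀ A ⊆ R, f' (A.image φ) = f A)
    {A : Finset V} (hA : A ⊆ R) :
    green (R.image φ) r' κ' f' (A.image φ) = green R r κ f A := by
  symm
  refine green_unique hr hκ (u := fun S => green (R.image φ) r' κ' f' (S.image φ)) (by simp)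
    ?_ A hA
  intro B hB hne
  have h1 := genK_green (R := R.image φ) hr' hκ' f' (image_subset_image hB (f := φ))
    (fun h => hne (image_eq_empty.1 h))
  rw [hff B hB] at h1
  rw [← h1]
  unfold genK
  rw [gen_image hφ hrr hB, kill_image hφ hκκ hB]

/-- relabelling for exit probabilities -/
theorem theta_image {W : Type*} [DecidableEq W] {φ : V → W} {r' : W → W → ℝ} {κ : V → ℝ}
    {κ' : W → ℝ} (hr : ∀ x y, 0 ≤ r x y)
    (hr' : ∀ x y, 0 ≤ r' x y) (hκ : ∀ x, 0 ≤ κ x) (hκ' : ∀ x, 0 ≤ κ' x)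
    (hφ : Set.InjOn φ R) (hrr : ∀ x ∈ R, ∀ y ∈ R, r' (φ x) (φ y) = r x y)
    (hκκ : ∀ x ∈ R, κ' (φ x) = κ x) {A : Finset V} (hA : A ⊆ R) :
    theta (R.image φ) r' κ' (A.image φ) = theta R r κ A :=
  green_image hr hr' hκ hκ' hφ hrr hκκ (fun _ hB => kill_image hφ hκκ hB) hA

/-- the process started in one of two non-communicating parts only sees that part -/
theorem green_component {R₁ R₂ : Finset V} {κ : V → ℝ} {f : Finset V → ℝ}
    (hr : ∀ x y, 0 ≤ r x y) (hκ : ∀ x, 0 ≤ κ x)
    (h12 : ∀ x ∈ R₁, ∀ y ∈ R₂, y ∉ R₁ → r x y = 0) {A : Finset V} (hA : A ⊆ R₁) :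
    green (R₁ ∪ R₂) r κ f A = green R₁ r κ f A := by
  symm
  refine green_unique hr hκ (u := green (R₁ ∪ R₂) r κ f) (by simp) ?_ A hA
  intro B hB hne
  have h1 := genK_green (R := R₁ ∪ R₂) hr hκ f (hB.trans subset_union_left) hne
  rw [← h1]
  unfold genK
  rw [gen_region (R := R₁) subset_union_left hB]
  have : ∑ x ∈ R₁, ∑ y ∈ (R₁ ∪ R₂) \ R₁, r x y *
      (green (R₁ ∪ R₂) r κ f (arr x y B) - green (R₁ ∪ R₂) r κ f B) = 0 := by
    refine sum_eq_zero fun x hx => sum_eq_zero fun y hy => ?_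
    rw [Finset.mem_sdiff, mem_union] at hy
    rw [h12 x hx y (hy.1.resolve_left hy.2) hy.2, zero_mul]
  rw [this]; ring

/-- failure probabilities on disjoint regions: the union process fails at most as often as two
independent processes -/
theorem fail_mul {R₁ R₂ : Finset V} {κ : V → ℝ} (hr : ∀ x y, 0 ≤ r x y) (hκ : ∀ x, 0 ≤ κ x)
    (hd : Disjoint R₁ R₂) {A B : Finset V} (hA : A ⊆ R₁) (hB : B ⊆ R₂) :
    1 - theta (R₁ ∪ R₂) r κ (A ∪ B) ≤ (1 - theta R₁ r κ A) * (1 - theta R₂ r κ B) := by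
  -- candidate subsolution
  set a : Finset V → ℝ := fun S => 1 - theta R₁ r κ (S ∩ R₁) with ha
  set b : Finset V → ℝ := fun S => 1 - theta R₂ r κ (S ∩ R₂) with hb
  have ha0 : ∀ S, 0 ≤ a S := fun S => sub_nonneg.2 (theta_le_one hr hκ _)
  have hb0 : ∀ S, 0 ≤ b S := fun S => sub_nonneg.2 (theta_le_one hr hκ _)
  have ha1 : ∀ S T, S ⊆ T → a T ≤ a S := fun S T h => by
    have := theta_monoOn (R := R₁) hr hκ _ _ (inter_subset_inter_right h (u := R₁))
      inter_subset_right
    simp only [ha]; linarith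
  have hb1 : ∀ S T, S ⊆ T → b T ≤ b S := fun S T h => by
    have := theta_monoOn (R := R₂) hr hκ _ _ (inter_subset_inter_right h (u := R₂))
      inter_subset_right
    simp only [hb]; linarith
  have key : ∀ S ⊆ R₁ ∪ R₂, 1 - a S * b S ≤ theta (R₁ ∪ R₂) r κ S := by
    refine le_green hr hκ (u := fun S => 1 - a S * b S) (by simp [ha, hb]) ?_
    intro S hS _
    -- pieces
    have hSd1 : ∀ y ∈ R₂, ∀ x, (arr x y S) ∩ R₁ = S ∩ R₁ := by
      intro y hy x
      have hy1 : y ∉ R₁ := fun h => (disjoint_left.1 hd h hy)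
      unfold arr
      split_ifs
      · rw [insert_inter_of_notMem hy1]
      · rfl
    have hSd2 : ∀ y ∈ R₁, ∀ x, (arr x y S) ∩ R₂ = S ∩ R₂ := by
      intro y hy x
      have hy1 : y ∉ R₂ := fun h => (disjoint_left.1 hd hy h)
      unfold arr
      split_ifs
      · rw [insert_inter_of_notMem hy1]
      · rfl
    have hSe1 : ∀ x ∈ R₂, (S.erase x) ∩ R₁ = S ∩ R₁ := by
      intro x hx
      have hx1 : x ∉ R₁ := fun h => (disjoint_left.1 hd h hx)
      ext z; simp only [mem_inter, mem_erase]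
      constructor
      · exact fun h => ⟨h.1.2, h.2⟩
      · exact fun h => ⟨⟨fun e => hx1 (e ▸ h.2), h.1⟩, h.2⟩
    have hSe2 : ∀ x ∈ R₁, (S.erase x) ∩ R₂ = S ∩ R₂ := by
      intro x hx
      have hx1 : x ∉ R₂ := fun h => (disjoint_left.1 hd hx h)
      ext z; simp only [mem_inter, mem_erase]
      constructor
      · exact fun h => ⟨h.1.2, h.2⟩
      · exact fun h => ⟨⟨fun e => hx1 (e ▸ h.2), h.1⟩, h.2⟩
    have hS1 : ∀ x ∈ R₁, ∀ y ∈ R₁, (arr x y S) ∩ R₁ = arr x y (S ∩ R₁) := by
      intro x hx y hy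
      unfold arr
      by_cases h : x ∈ S
      · rw [if_pos h, if_pos (mem_inter.2 ⟨h, hx⟩), insert_inter_of_mem hy]
      · rw [if_neg h, if_neg (fun h' => h (mem_inter.1 h').1)]
    have hS2 : ∀ x ∈ R₂, ∀ y ∈ R₂, (arr x y S) ∩ R₂ = arr x y (S ∩ R₂) := by
      intro x hx y hy
      unfold arr
      by_cases h : x ∈ S
      · rw [if_pos h, if_pos (mem_inter.2 ⟨h, hx⟩), insert_inter_of_mem hy]
      · rw [if_neg h, if_neg (fun h' => h (mem_inter.1 h').1)]
    have g1 := gen_theta' (R := R₁) hr hκ (A := S ∩ R₁) inter_subset_right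
    have g2 := gen_theta' (R := R₂) hr hκ (A := S ∩ R₂) inter_subset_right
    have hk : kill κ S = kill κ (S ∩ R₁) + kill κ (S ∩ R₂) := by
      unfold kill
      rw [← sum_union (disjoint_of_subset_left inter_subset_right
        (disjoint_of_subset_right inter_subset_right hd)), ← inter_union_distrib_left,
        inter_eq_left.2 hS]
    have hgen : b S * (kill κ (S ∩ R₁) * (1 - theta R₁ r κ (S ∩ R₁))) * (-1) +
        a S * (kill κ (S ∩ R₂) * (1 - theta R₂ r κ (S ∩ R₂))) * (-1) ≤
        gen (R₁ ∪ R₂) r (fun S => 1 - a S * b S) S := by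
      have e1 : b S * gen R₁ r (theta R₁ r κ) (S ∩ R₁) + a S * gen R₂ r (theta R₂ r κ) (S ∩ R₂) ≤
          gen (R₁ ∪ R₂) r (fun S => 1 - a S * b S) S := by
        unfold gen
        rw [sum_union hd, sum_union hd]
        simp only [sum_union hd]
        have t1 : ∑ x ∈ R₁, (1 - a (S.erase x) * b (S.erase x) - (1 - a S * b S)) =
            b S * ∑ x ∈ R₁, (theta R₁ r κ ((S ∩ R₁).erase x) - theta R₁ r κ (S ∩ R₁)) := by
          rw [mul_sum]
          refine sum_congr rfl fun x hx => ?_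
          simp only [ha, hb, hSe2 x hx, erase_inter]; ring
        have t2 : ∑ x ∈ R₂, (1 - a (S.erase x) * b (S.erase x) - (1 - a S * b S)) =
            a S * ∑ x ∈ R₂, (theta R₂ r κ ((S ∩ R₂).erase x) - theta R₂ r κ (S ∩ R₂)) := by
          rw [mul_sum]
          refine sum_congr rfl fun x hx => ?_
          simp only [ha, hb, hSe1 x hx, erase_inter]; ring
        have t3 : ∑ x ∈ R₁, (∑ y ∈ R₁, r x y * (1 - a (arr x y S) * b (arr x y S) -
            (1 - a S * b S)) + ∑ y ∈ R₂, r x y * (1 - a (arr x y S) * b (arr x y S) -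
            (1 - a S * b S))) ≥
            b S * ∑ x ∈ R₁, ∑ y ∈ R₁, r x y * (theta R₁ r κ (arr x y (S ∩ R₁)) -
              theta R₁ r κ (S ∩ R₁)) := by
          rw [mul_sum]
          refine sum_le_sum fun x hx => ?_
          have u1 : ∑ y ∈ R₁, r x y * (1 - a (arr x y S) * b (arr x y S) -
            (1 - a S * b S)) = b S * ∑ y ∈ R₁, r x y * (theta R₁ r κ (arr x y (S ∩ R₁)) -
              theta R₁ r κ (S ∩ R₁)) := by
            rw [mul_sum]
            refine sum_congr rfl fun y hy => ?_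
            simp only [ha, hb, hSd2 y hy x, hS1 x hx y hy]; ring
          have u2 : 0 ≤ ∑ y ∈ R₂, r x y * (1 - a (arr x y S) * b (arr x y S) -
            (1 - a S * b S)) := by
            refine sum_nonneg fun y _ => mul_nonneg (hr x y) ?_
            have v1 := ha1 _ _ (subset_arr x y S)
            have v2 := hb1 _ _ (subset_arr x y S)
            nlinarith [mul_nonneg (ha0 (arr x y S)) (sub_nonneg.2 v2),
              mul_nonneg (hb0 S) (sub_nonneg.2 v1)]
          linarith
        have t4 : ∑ x ∈ R₂, (∑ y ∈ R₁, r x y * (1 - a (arr x y S) * b (arr x y S) -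
            (1 - a S * b S)) + ∑ y ∈ R₂, r x y * (1 - a (arr x y S) * b (arr x y S) -
            (1 - a S * b S))) ≥
            a S * ∑ x ∈ R₂, ∑ y ∈ R₂, r x y * (theta R₂ r κ (arr x y (S ∩ R₂)) -
              theta R₂ r κ (S ∩ R₂)) := by
          rw [mul_sum]
          refine sum_le_sum fun x hx => ?_
          have u1 : ∑ y ∈ R₂, r x y * (1 - a (arr x y S) * b (arr x y S) -
            (1 - a S * b S)) = a S * ∑ y ∈ R₂, r x y * (theta R₂ r κ (arr x y (S ∩ R₂)) -
              theta R₂ r κ (S ∩ R₂)) := by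
            rw [mul_sum]
            refine sum_congr rfl fun y hy => ?_
            simp only [ha, hb, hSd1 y hy x, hS2 x hx y hy]; ring
          have u2 : 0 ≤ ∑ y ∈ R₁, r x y * (1 - a (arr x y S) * b (arr x y S) -
            (1 - a S * b S)) := by
            refine sum_nonneg fun y _ => mul_nonneg (hr x y) ?_
            have v1 := ha1 _ _ (subset_arr x y S)
            have v2 := hb1 _ _ (subset_arr x y S)
            nlinarith [mul_nonneg (ha0 (arr x y S)) (sub_nonneg.2 v2),
              mul_nonneg (hb0 S) (sub_nonneg.2 v1)]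
          linarith
        rw [t1, t2]
        linarith
      rw [g1, g2] at e1
      linarith
    unfold genK
    have ea : 1 - theta R₁ r κ (S ∩ R₁) = a S := rfl
    have eb : 1 - theta R₂ r κ (S ∩ R₂) = b S := rfl
    rw [ea, eb] at hgen
    rw [hk]
    nlinarith [hgen]
  have h1 := key (A ∪ B) (union_subset_union hA hB)
  have eA : (A ∪ B) ∩ R₁ = A := by
    rw [union_inter_distrib_right, inter_eq_left.2 hA,
      disjoint_iff_inter_eq_empty.1 (disjoint_of_subset_left hB hd.symm), union_empty]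
  have eB : (A ∪ B) ∩ R₂ = B := by
    rw [union_inter_distrib_right, inter_eq_left.2 hB,
      disjoint_iff_inter_eq_empty.1 (disjoint_of_subset_left hA hd), empty_union]
  simp only [ha, hb, eA, eB] at h1
  linarith

/-- left/right decoupling for three-point function (used for pivotal arrows on a path):
`R = L ∪ M` disjoint, killing `κ` vanishes on `L`; `ρ A` = probability that the process on `L`
started from `A` ever sends an arrow into `M`. -/
theorem theta_union_sub_ge {L M : Finset V} {κ : V → ℝ} (hr : ∀ x y, 0 ≤ r x y)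
    (hκ : ∀ x, 0 ≤ κ x) (hd : Disjoint L M) (hκL : ∀ x ∈ L, κ x = 0)
    {A B : Finset V} (hA : A ⊆ L) (hB : B ⊆ M) :
    (1 - theta L r (fun x => ∑ y ∈ M, r x y) A) * theta M r κ B ≤
      theta (L ∪ M) r κ (A ∪ B) - theta (L ∪ M) r κ A := by
  set κL : V → ℝ := fun x => ∑ y ∈ M, r x y with hκLdef
  have hκL0 : ∀ x, 0 ≤ κL x := fun x => sum_nonneg fun y _ => hr x y
  set ρ := theta L r κL with hρ
  set g := theta M r κ with hg
  set th := theta (L ∪ M) r κ with hth
  have hLs : L ⊆ L ∪ M := subset_union_left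
  have hMs : M ⊆ L ∪ M := subset_union_right
  have hdiff : (L ∪ M) \ L = M := by
    rw [union_sdiff_left]; exact sdiff_eq_self_of_disjoint hd.symm
  have hdiff' : (L ∪ M) \ M = L := by
    rw [union_sdiff_right]; exact sdiff_eq_self_of_disjoint hd
  have hkA : ∀ A ⊆ L, kill κ A = 0 := fun A hA => sum_eq_zero fun x hx => hκL x (hA hx)
  have thmono : MonoOn (L ∪ M) th := theta_monoOn hr hκ
  have thle : ∀ S, th S ≤ 1 := fun S => theta_le_one hr hκ S
  -- θ ≤ ρ on L
  have hle : ∀ A ⊆ L, th A ≤ ρ A := by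
    refine le_green hr hκL0 (by simp [hth]) ?_
    intro S hS hne
    have h1 := gen_theta' (R := L ∪ M) hr hκ (A := S) (hS.trans hLs)
    rw [hkA S hS, zero_mul, neg_zero, gen_region hLs hS, hdiff] at h1
    have h2 : ∑ x ∈ L, ∑ y ∈ M, r x y * (th (arr x y S) - th S) ≤ kill κL S * (1 - th S) := by
      have e : kill κL S = ∑ x ∈ L, ∑ y ∈ M, (if x ∈ S then r x y else 0) := by
        unfold kill
        rw [← sum_subset hS (f := fun x => ∑ y ∈ M, (if x ∈ S then r x y else 0))]
        · exact sum_congr rfl fun x hx => sum_congr rfl fun y _ => by rw [if_pos hx]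
        · intro x _ hx
          exact sum_eq_zero fun y _ => by rw [if_neg hx]
      rw [e, sum_mul]
      refine sum_le_sum fun x _ => ?_
      rw [sum_mul]
      refine sum_le_sum fun y _ => ?_
      by_cases hx : x ∈ S
      · rw [if_pos hx]
        exact mul_le_mul_of_nonneg_left (by have := thle (arr x y S); linarith) (hr x y)
      · have : arr x y S = S := by unfold arr; rw [if_neg hx]
        rw [if_neg hx, this]; simp
    unfold genK
    have : gen L r th S = - ∑ x ∈ L, ∑ y ∈ M, r x y * (th (arr x y S) - th S) := by linarith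
    rw [this]
    linarith
  -- the product minimum principle
  let erp : V → Finset V × Finset V → Finset V × Finset V := fun x s => (s.1.erase x, s.2.erase x)
  let arp : V → V → Finset V × Finset V → Finset V × Finset V := fun x y s =>
    if x ∈ L ∧ y ∈ L then (arr x y s.1, s.2) else
      if x ∈ M ∧ y ∈ M then (s.1, arr x y s.2) else s
  let φ : Finset V × Finset V → ℝ := fun s => th (s.1 ∪ s.2) - th s.1 - (1 - ρ s.1) * g s.2
  have key := min_principle_gen (R := L ∪ M) hr (L.powerset ×ˢ M.powerset) erp arp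
    (fun s => s.1.card + s.2.card) (fun s => kill κL s.1 + kill κ s.2) φ ?_ ?_ ?_ ?_ ?_ ?_ (A, B) ?_
  · simp only [φ] at key; linarith
  · intro s _
    have := kill_nonneg hκL0 s.1
    have := kill_nonneg hκ s.2
    positivity
  · intro x _ s hs
    simp only [mem_product, mem_powerset, erp] at hs ⊢
    exact ⟨(erase_subset _ _).trans hs.1, (erase_subset _ _).trans hs.2⟩
  · intro x _ y _ s hs
    simp only [mem_product, mem_powerset, arp] at hs ⊢
    split_ifs with h1 h2
    · exact ⟨arr_subset hs.1 h1.2, hs.2⟩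
    · exact ⟨hs.1, arr_subset hs.2 h2.2⟩
    · exact hs
  · intro s hs hN
    simp only [mem_product, mem_powerset] at hs
    have : s.1.card ≠ 0 ∨ s.2.card ≠ 0 := by omega
    rcases this with h | h
    · obtain ⟨x, hx⟩ := card_pos.1 (Nat.pos_of_ne_zero h)
      refine ⟨x, hLs (hs.1 hx), ?_⟩
      have h1 := card_erase_lt_of_mem hx
      have h2 : (s.2.erase x).card ≤ s.2.card := card_le_card (erase_subset _ _)
      simp only [erp]; omega
    · obtain ⟨x, hx⟩ := card_pos.1 (Nat.pos_of_ne_zero h)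
      refine ⟨x, hMs (hs.2 hx), ?_⟩
      have h1 := card_erase_lt_of_mem hx
      have h2 : (s.1.erase x).card ≤ s.1.card := card_le_card (erase_subset _ _)
      simp only [erp]; omega
  · intro s _ hN
    have h1 : s.1 = ∅ := card_eq_zero.1 (by omega)
    have h2 : s.2 = ∅ := card_eq_zero.1 (by omega)
    simp [φ, h1, h2, hg, hth]
  · rintro ⟨S, T⟩ hs _
    simp only [mem_product, mem_powerset] at hs
    obtain ⟨hS, hT⟩ := hs
    have hdl : ∀ x ∈ L, x ∉ M := fun x hx => disjoint_left.1 hd hx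
    have hdm : ∀ x ∈ M, x ∉ L := fun x hx => disjoint_right.1 hd hx
    have hTx : ∀ x ∈ L, x ∉ T := fun x hx h => hdl x hx (hT h)
    have hSx : ∀ x ∈ M, x ∉ S := fun x hx h => hdm x hx (hS h)
    -- values of the marks
    have hsum1 : ∑ x ∈ L ∪ M, (φ (erp x (S, T)) - φ (S, T)) =
        ∑ x ∈ L ∪ M, (th ((S ∪ T).erase x) - th (S ∪ T)) - ∑ x ∈ L, (th (S.erase x) - th S) +
          g T * ∑ x ∈ L, (ρ (S.erase x) - ρ S) - (1 - ρ S) * ∑ x ∈ M, (g (T.erase x) - g T) := by
      rw [sum_union hd, sum_union hd, mul_sum, mul_sum]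
      have t1 : ∑ x ∈ L, (φ (erp x (S, T)) - φ (S, T)) =
          ∑ x ∈ L, (th ((S ∪ T).erase x) - th (S ∪ T)) - ∑ x ∈ L, (th (S.erase x) - th S) +
          ∑ x ∈ L, g T * (ρ (S.erase x) - ρ S) := by
        rw [← sum_sub_distrib, ← sum_add_distrib]
        refine sum_congr rfl fun x hx => ?_
        simp only [φ, erp]
        rw [erase_eq_of_notMem (hTx x hx), erase_union_distrib, erase_eq_of_notMem (hTx x hx)]
        ring
      have t2 : ∑ x ∈ M, (φ (erp x (S, T)) - φ (S, T)) =
          ∑ x ∈ M, (th ((S ∪ T).erase x) - th (S ∪ T)) -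
          ∑ x ∈ M, (1 - ρ S) * (g (T.erase x) - g T) := by
        rw [← sum_sub_distrib]
        refine sum_congr rfl fun x hx => ?_
        simp only [φ, erp]
        rw [erase_eq_of_notMem (hSx x hx), erase_union_distrib, erase_eq_of_notMem (hSx x hx)]
        ring
      rw [t1, t2]; ring
    have harL : ∀ x ∈ L, ∀ y, arr x y (S ∪ T) = arr x y S ∪ T := by
      intro x hx y
      unfold arr
      by_cases h : x ∈ S
      · rw [if_pos h, if_pos (mem_union_left _ h), insert_union]
      · rw [if_neg h, if_neg (fun h' => (mem_union.1 h').elim h (hTx x hx))]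
    have harM : ∀ x ∈ M, ∀ y, arr x y (S ∪ T) = S ∪ arr x y T := by
      intro x hx y
      unfold arr
      by_cases h : x ∈ T
      · rw [if_pos h, if_pos (mem_union_right _ h), union_insert]
      · rw [if_neg h, if_neg (fun h' => (mem_union.1 h').elim (hSx x hx) h)]
    have hsum2 : ∑ x ∈ L ∪ M, ∑ y ∈ L ∪ M, r x y * (φ (arp x y (S, T)) - φ (S, T)) =
        ∑ x ∈ L, ∑ y ∈ L, r x y * (th (arr x y (S ∪ T)) - th (S ∪ T)) -
        ∑ x ∈ L, ∑ y ∈ L, r x y * (th (arr x y S) - th S) +
        g T * ∑ x ∈ L, ∑ y ∈ L, r x y * (ρ (arr x y S) - ρ S) +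
        ∑ x ∈ M, ∑ y ∈ M, r x y * (th (arr x y (S ∪ T)) - th (S ∪ T)) -
        (1 - ρ S) * ∑ x ∈ M, ∑ y ∈ M, r x y * (g (arr x y T) - g T) := by
      rw [sum_union hd]
      simp only [sum_union hd]
      have t1 : ∑ x ∈ L, (∑ y ∈ L, r x y * (φ (arp x y (S, T)) - φ (S, T)) +
          ∑ y ∈ M, r x y * (φ (arp x y (S, T)) - φ (S, T))) =
          ∑ x ∈ L, ∑ y ∈ L, r x y * (th (arr x y (S ∪ T)) - th (S ∪ T)) -
          ∑ x ∈ L, ∑ y ∈ L, r x y * (th (arr x y S) - th S) +
          g T * ∑ x ∈ L, ∑ y ∈ L, r x y * (ρ (arr x y S) - ρ S) := by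
        rw [mul_sum, ← sum_sub_distrib, ← sum_add_distrib]
        refine sum_congr rfl fun x hx => ?_
        have z : ∑ y ∈ M, r x y * (φ (arp x y (S, T)) - φ (S, T)) = 0 := by
          refine sum_eq_zero fun y hy => ?_
          have : arp x y (S, T) = (S, T) := by
            simp only [arp]
            rw [if_neg (fun h => hdm y hy h.2), if_neg (fun h => hdl x hx h.1)]
          rw [this]; ring
        rw [z, add_zero, mul_sum, ← sum_sub_distrib, ← sum_add_distrib]
        refine sum_congr rfl fun y hy => ?_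
        have : arp x y (S, T) = (arr x y S, T) := by
          simp only [arp]; rw [if_pos ⟨hx, hy⟩]
        rw [this, harL x hx]
        simp only [φ]; ring
      have t2 : ∑ x ∈ M, (∑ y ∈ L, r x y * (φ (arp x y (S, T)) - φ (S, T)) +
          ∑ y ∈ M, r x y * (φ (arp x y (S, T)) - φ (S, T))) =
          ∑ x ∈ M, ∑ y ∈ M, r x y * (th (arr x y (S ∪ T)) - th (S ∪ T)) -
          (1 - ρ S) * ∑ x ∈ M, ∑ y ∈ M, r x y * (g (arr x y T) - g T) := by
        rw [mul_sum, ← sum_sub_distrib]
        refine sum_congr rfl fun x hx => ?_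
        have z : ∑ y ∈ L, r x y * (φ (arp x y (S, T)) - φ (S, T)) = 0 := by
          refine sum_eq_zero fun y hy => ?_
          have : arp x y (S, T) = (S, T) := by
            simp only [arp]
            rw [if_neg (fun h => hdm x hx h.1), if_neg (fun h => hdl y hy h.2)]
          rw [this]; ring
        rw [z, zero_add, mul_sum, ← sum_sub_distrib]
        refine sum_congr rfl fun y hy => ?_
        have : arp x y (S, T) = (S, arr x y T) := by
          simp only [arp]
          rw [if_neg (fun h => hdm x hx h.1), if_pos ⟨hx, hy⟩]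
        rw [this, harM x hx]
        simp only [φ]; ring
      rw [t1, t2]; ring
    -- equations
    have q1 := gen_theta' (R := L ∪ M) hr hκ (A := S ∪ T) (union_subset_union hS hT)
    have q2 := gen_theta' (R := L ∪ M) hr hκ (A := S) (hS.trans hLs)
    rw [hkA S hS, zero_mul, neg_zero, gen_region hLs hS, hdiff] at q2
    have q3 := gen_theta' (R := L) hr hκL0 (A := S) hS
    have q4 := gen_theta' (R := M) hr hκ (A := T) hT
    have hkST : kill κ (S ∪ T) = kill κ T := by
      unfold kill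
      rw [sum_union (disjoint_of_subset_left hS (disjoint_of_subset_right hT hd))]
      have := hkA S hS
      unfold kill at this
      rw [this, zero_add]
    rw [hkST] at q1
    rw [← hth] at q1 q2
    rw [← hρ] at q3
    rw [← hg] at q4
    unfold gen at q1 q2 q3 q4
    have q1' : ∑ x ∈ L ∪ M, (th ((S ∪ T).erase x) - th (S ∪ T)) +
        (∑ x ∈ L, ∑ y ∈ L, r x y * (th (arr x y (S ∪ T)) - th (S ∪ T)) +
        ∑ x ∈ L, ∑ y ∈ M, r x y * (th (arr x y (S ∪ T)) - th (S ∪ T)) +
        ∑ x ∈ M, ∑ y ∈ L, r x y * (th (arr x y (S ∪ T)) - th (S ∪ T)) +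
        ∑ x ∈ M, ∑ y ∈ M, r x y * (th (arr x y (S ∪ T)) - th (S ∪ T))) =
        -(kill κ T * (1 - th (S ∪ T))) := by
      rw [← q1]
      congr 1
      rw [sum_union hd]
      simp only [sum_union hd, sum_add_distrib]
      ring
    -- cross terms
    have c1 : 0 ≤ ∑ x ∈ M, ∑ y ∈ L, r x y * (th (arr x y (S ∪ T)) - th (S ∪ T)) := by
      refine sum_nonneg fun x _ => sum_nonneg fun y hy => mul_nonneg (hr x y) (sub_nonneg.2 ?_)
      exact thmono _ _ (subset_arr _ _ _) (arr_subset (union_subset_union hS hT) (hLs hy))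
    have c2 : ∑ x ∈ L, ∑ y ∈ M, r x y * (th (arr x y S) - th S) -
        ∑ x ∈ L, ∑ y ∈ M, r x y * (th (arr x y (S ∪ T)) - th (S ∪ T)) ≤
        kill κL S * (th (S ∪ T) - th S) := by
      have e : kill κL S = ∑ x ∈ L, ∑ y ∈ M, (if x ∈ S then r x y else 0) := by
        unfold kill
        rw [← sum_subset hS (f := fun x => ∑ y ∈ M, (if x ∈ S then r x y else 0))]
        · exact sum_congr rfl fun x hx => sum_congr rfl fun y _ => by rw [if_pos hx]
        · intro x _ hx
          exact sum_eq_zero fun y _ => by rw [if_neg hx]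
      rw [e, sum_mul, ← sum_sub_distrib]
      refine sum_le_sum fun x hx => ?_
      rw [sum_mul, ← sum_sub_distrib]
      refine sum_le_sum fun y hy => ?_
      rw [← mul_sub]
      by_cases h : x ∈ S
      · rw [if_pos h]
        refine mul_le_mul_of_nonneg_left ?_ (hr x y)
        have : th (arr x y S) ≤ th (arr x y (S ∪ T)) := by
          apply thmono
          · exact arr_mono _ _ subset_union_left
          · exact arr_subset (union_subset_union hS hT) (hMs hy)
        linarith
      · have e1 : arr x y S = S := by unfold arr; rw [if_neg h]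
        have e2 : arr x y (S ∪ T) = S ∪ T := by
          rw [harL x hx, e1]
        rw [if_neg h, e1, e2]; simp
    have l1 := hle S hS
    have k1 := kill_nonneg hκL0 S
    have k2 := kill_nonneg hκ T
    rw [hsum1, hsum2]
    simp only [φ]
    have final : g T * (∑ x ∈ L, (ρ (S.erase x) - ρ S) +
        ∑ x ∈ L, ∑ y ∈ L, r x y * (ρ (arr x y S) - ρ S)) =
        g T * (-(kill κL S * (1 - ρ S))) := by rw [q3]
    have final2 : (1 - ρ S) * (∑ x ∈ M, (g (T.erase x) - g T) +
        ∑ x ∈ M, ∑ y ∈ M, r x y * (g (arr x y T) - g T)) =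
        (1 - ρ S) * (-(kill κ T * (1 - g T))) := by rw [q4]
    nlinarith [mul_nonneg k2 (sub_nonneg.2 l1)]
  · simp only [mem_product, mem_powerset]
    exact ⟨hA, hB⟩

end C4

end Pool.Agent.CP34
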