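import Pool.Agent.CP34.Defs

/-!
# The contact process on a locally finite graph, started from a finite set

Finite configurations: each infected vertex recovers at rate `1` and infects each healthy neighbour
at rate `l`. The process is built from its jump chain (Ionescu-Tulcea) and independent exponential
holding times; the holding time in a configuration `B` has rate `jumpRate G l B`.
-/

open MeasureTheory ProbabilityTheory Finset
open scoped NNReal ENNReal

namespace Pool.Agent.CP34

instance instMeasurableSpaceFinset {V : Type*} : MeasurableSpace (Finset V) := ⊤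

variable {V : Type*} [DecidableEq V] (G : SimpleGraph V) [G.LocallyFinite]

/-- Total jump rate out of the configuration `A`: recoveries at rate `1`, infections of healthy
neighbours at rate `l`. -/
noncomputable def jumpRate (l : ℝ≥0) (A : Finset V) : ℝ≥0 :=
  A.card + l * ∑ x ∈ A, ((G.neighborFinset x \ A).card : ℝ≥0)

/-- Distribution of the configuration after the next jump out of `A` (`∅` is absorbing). -/
noncomputable def jumpMeas (l : ℝ≥0) (A : Finset V) : Measure (Finset V) :=
  if A = ∅ then Measure.dirac ∅ else
    ∑ x ∈ A, (1 / jumpRate G l A) • Measure.dirac (A.erase x) +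
      ∑ x ∈ A, ∑ y ∈ G.neighborFinset x \ A, (l / jumpRate G l A) • Measure.dirac (insert y A)

lemma jumpRate_pos (l : ℝ≥0) {A : Finset V} (hA : A ≠ ∅) : 0 < jumpRate G l A := by
  unfold jumpRate
  have : 0 < A.card := card_pos.2 (nonempty_iff_ne_empty.2 hA)
  positivity

instance (l : ℝ≥0) (A : Finset V) : IsProbabilityMeasure (jumpMeas G l A) := by
  constructor
  unfold jumpMeas
  split_ifs with h
  · simp
  · have hq := (jumpRate_pos G l h).ne'
    have h1 : (∑ x ∈ A, ∑ y ∈ G.neighborFinset x \ A, (l / jumpRate G l A) •
        (Measure.dirac (insert y A) : Measure (Finset V))) Set.univ =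
        ((l * ∑ x ∈ A, ((G.neighborFinset x \ A).card : ℝ≥0)) / jumpRate G l A : ℝ≥0) := by
      simp only [Measure.finsetSum_apply, Measure.smul_apply, measure_univ, ENNReal.smul_def,
        smul_eq_mul, mul_one]
      rw [mul_div_right_comm, mul_sum]
      push_cast
      refine sum_congr rfl fun x _ => ?_
      rw [sum_const, nsmul_eq_mul, mul_comm]
    rw [Measure.add_apply, h1]
    simp only [Measure.finsetSum_apply, Measure.smul_apply, measure_univ]
    rw [sum_const]
    have h2 : (A.card : ℝ≥0) / jumpRate G l A +
        (l * ∑ x ∈ A, ((G.neighborFinset x \ A).card : ℝ≥0)) / jumpRate G l A = 1 := by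
      rw [← add_div]; exact div_self hq
    rw [show (#A • (1 / jumpRate G l A) • (1 : ℝ≥0∞)) = ((A.card : ℝ≥0) / jumpRate G l A : ℝ≥0) by
      rw [nsmul_eq_mul, ENNReal.smul_def, smul_eq_mul, mul_one, ← ENNReal.coe_natCast,
        ← ENNReal.coe_mul]
      congr 1
      rw [mul_one_div]]
    rw [← ENNReal.coe_add, h2]; simp

/-- The jump chain as a Markov kernel. -/
noncomputable def jumpKernel (l : ℝ≥0) : Kernel (Finset V) (Finset V) where
  toFun := jumpMeas G l
  measurable' := measurable_from_top

instance (l : ℝ≥0) : IsMarkovKernel (jumpKernel G l) := ⟨fun A => by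
  show IsProbabilityMeasure (jumpMeas G l A); infer_instance⟩

/-- History-dependent form of the jump kernel, as required by `Kernel.traj`. -/
noncomputable def histKernel (l : ℝ≥0) (n : ℕ) :
    Kernel ((i : Finset.Iic n) → (fun _ : ℕ => Finset V) i) ((fun _ : ℕ => Finset V) (n + 1)) :=
  (jumpKernel G l).comap (fun x => x ⟨n, Finset.mem_Iic.2 le_rfl⟩) (measurable_pi_apply _)

instance (l : ℝ≥0) (n : ℕ) : IsMarkovKernel (histKernel G l n) := by
  unfold histKernel; infer_instance

/-- Law of the jump chain started at `A`. -/
noncomputable def chainLaw (l : ℝ≥0) (A : Finset V) : Measure (ℕ → Finset V) :=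
  Kernel.traj (X := fun _ : ℕ => Finset V) (histKernel G l) 0 (fun _ => A)

/-- Law of the jump chain together with independent standard exponential clocks. -/
noncomputable def contactLaw (l : ℝ≥0) (A : Finset V) : Measure ((ℕ → Finset V) × (ℕ → ℝ)) :=
  (chainLaw G l A).prod (Measure.infinitePi fun _ : ℕ => expMeasure 1)

/-- Time of the `n`-th jump: the holding time in the configuration `B` is an exponential clock
divided by `jumpRate G l B`. -/
noncomputable def jumpTime (l : ℝ≥0) (ω : (ℕ → Finset V) × (ℕ → ℝ)) (n : ℕ) : ℝ :=
  ∑ k ∈ Finset.range n, ω.2 k / jumpRate G l (ω.1 k)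

/-- The process is non-empty at time `t`: no configuration reached up to time `t` is empty. -/
def AliveAt (l : ℝ≥0) (ω : (ℕ → Finset V) × (ℕ → ℝ)) (t : ℝ) : Prop :=
  ∀ n, jumpTime G l ω n ≤ t → ω.1 n ≠ ∅

/-- Survival probability of the contact process with infection rate `l` started from `A`. -/
noncomputable def zeta (l : ℝ≥0) (A : Finset V) : ℝ :=
  (contactLaw G l A).real {ω | ∀ t : ℝ, 0 ≤ t → AliveAt G l ω t}

/-- The integer line. -/
def intGraph : SimpleGraph ℤ where
  Adj x y := x + 1 = y ∨ y + 1 = x
  symm := ⟨fun _ _ h => h.symm⟩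
  loopless := ⟨fun x h => by rcases h with h | h <;> omega⟩

noncomputable instance : intGraph.LocallyFinite := fun x => by
  have : (intGraph.neighborSet x).Finite := by
    apply Set.Finite.subset (Set.toFinite {x + 1, x - 1})
    intro y hy
    simp only [SimpleGraph.mem_neighborSet, intGraph] at hy
    simp only [Set.mem_insert_iff, Set.mem_singleton_iff]
    omega
  exact this.fintype

/-- Critical infection rate of the contact process on the integer line. -/
noncomputable def lambdaC : ℝ≥0∞ := ⨆ (l : ℝ≥0) (_ : zeta intGraph l {0} = 0), (l : ℝ≥0∞)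

/-! ### Operators -/

/-- arrow rates of the graph -/
def adjR (l : ℝ) [DecidableRel G.Adj] (x y : V) : ℝ := if G.Adj x y then l else 0

/-- one step of the jump chain acting on functions -/
noncomputable def stepOp (l : ℝ≥0) (f : Finset V → ℝ) (A : Finset V) : ℝ :=
  if A = ∅ then f ∅ else
    (jumpRate G l A : ℝ)⁻¹ * (∑ x ∈ A, f (A.erase x) +
      l * ∑ x ∈ A, ∑ y ∈ G.neighborFinset x \ A, f (insert y A))

/-- indicator of non-emptiness -/
noncomputable def aliveF (A : Finset V) : ℝ := if A = ∅ then 0 else 1

end Pool.Agent.CP34
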