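import Mathlib

/-!
# Contact process on a finite region: generator, min principle, Green operator

All processes live on the finite subsets `A` of a finite region `R` of a vertex type `V`.
An infected vertex recovers at rate `1`; an infected `x` sends an arrow to `y` at rate `r x y`
(only arrows inside `R` matter); the process is killed at rate `kill κ A = ∑ x ∈ A, κ x`.
-/

open Finset

namespace Pool.Agent.CP34

variable {V : Type*} [DecidableEq V]

/-- Effect of an arrow from `x` to `y` on the infected set `A`. -/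
def arr (x y : V) (A : Finset V) : Finset V := if x ∈ A then insert y A else A

/-- Generator of the contact process on the region `R` with arrow rates `r` and recovery rate `1`. -/
def gen (R : Finset V) (r : V → V → ℝ) (f : Finset V → ℝ) (A : Finset V) : ℝ :=
  ∑ x ∈ R, (f (A.erase x) - f A) + ∑ x ∈ R, ∑ y ∈ R, r x y * (f (arr x y A) - f A)

/-- Total killing rate of the configuration `A`. -/
def kill (κ : V → ℝ) (A : Finset V) : ℝ := ∑ x ∈ A, κ x

/-- Generator of the killed process. -/
def genK (R : Finset V) (r : V → V → ℝ) (κ : V → ℝ) (f : Finset V → ℝ) (A : Finset V) : ℝ :=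
  gen R r f A - kill κ A * f A

lemma arr_subset {R : Finset V} {x y : V} {A : Finset V} (hA : A ⊆ R) (hy : y ∈ R) :
    arr x y A ⊆ R := by
  unfold arr; split_ifs
  · exact insert_subset hy hA
  · exact hA

lemma subset_arr (x y : V) (A : Finset V) : A ⊆ arr x y A := by
  unfold arr; split_ifs
  · exact subset_insert _ _
  · exact subset_rfl

lemma arr_empty (x y : V) : arr x y (∅ : Finset V) = ∅ := by simp [arr]

lemma kill_nonneg {κ : V → ℝ} (hκ : ∀ x, 0 ≤ κ x) (A : Finset V) : 0 ≤ kill κ A :=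
  sum_nonneg fun x _ => hκ x

@[simp] lemma kill_zero (A : Finset V) : kill (0 : V → ℝ) A = 0 := by simp [kill]

@[simp] lemma kill_empty (κ : V → ℝ) : kill κ ∅ = 0 := by simp [kill]

lemma gen_add (R : Finset V) (r : V → V → ℝ) (f g : Finset V → ℝ) (A : Finset V) :
    gen R r (fun S => f S + g S) A = gen R r f A + gen R r g A := by
  unfold gen
  rw [show ∑ x ∈ R, (f (A.erase x) + g (A.erase x) - (f A + g A)) =
    ∑ x ∈ R, (f (A.erase x) - f A) + ∑ x ∈ R, (g (A.erase x) - g A) by
      rw [← sum_add_distrib]; exact sum_congr rfl fun _ _ => by ring]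
  rw [show ∑ x ∈ R, ∑ y ∈ R, r x y * (f (arr x y A) + g (arr x y A) - (f A + g A)) =
    ∑ x ∈ R, ∑ y ∈ R, r x y * (f (arr x y A) - f A) +
      ∑ x ∈ R, ∑ y ∈ R, r x y * (g (arr x y A) - g A) by
      rw [← sum_add_distrib]; refine sum_congr rfl fun _ _ => ?_
      rw [← sum_add_distrib]; exact sum_congr rfl fun _ _ => by ring]
  ring

lemma gen_smul (R : Finset V) (r : V → V → ℝ) (c : ℝ) (f : Finset V → ℝ) (A : Finset V) :
    gen R r (fun S => c * f S) A = c * gen R r f A := by
  unfold gen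
  rw [mul_add, mul_sum, mul_sum]
  congr 1
  · exact sum_congr rfl fun _ _ => by ring
  · refine sum_congr rfl fun _ _ => ?_
    rw [mul_sum]; exact sum_congr rfl fun _ _ => by ring

lemma gen_const (R : Finset V) (r : V → V → ℝ) (c : ℝ) (A : Finset V) :
    gen R r (fun _ => c) A = 0 := by simp [gen]

lemma gen_sub (R : Finset V) (r : V → V → ℝ) (f g : Finset V → ℝ) (A : Finset V) :
    gen R r (fun S => f S - g S) A = gen R r f A - gen R r g A := by
  have := gen_add R r f (fun S => (-1) * g S) A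
  rw [gen_smul] at this
  have h2 : (fun S => f S + (-1) * g S) = fun S => f S - g S := by funext S; ring
  rw [h2] at this; rw [this]; ring

lemma genK_add (R : Finset V) (r : V → V → ℝ) (κ : V → ℝ) (f g : Finset V → ℝ) (A : Finset V) :
    genK R r κ (fun S => f S + g S) A = genK R r κ f A + genK R r κ g A := by
  unfold genK; rw [gen_add]; ring

lemma genK_sub (R : Finset V) (r : V → V → ℝ) (κ : V → ℝ) (f g : Finset V → ℝ) (A : Finset V) :
    genK R r κ (fun S => f S - g S) A = genK R r κ f A - genK R r κ g A := by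
  unfold genK; rw [gen_sub]; ring

lemma genK_smul (R : Finset V) (r : V → V → ℝ) (κ : V → ℝ) (c : ℝ) (f : Finset V → ℝ)
    (A : Finset V) : genK R r κ (fun S => c * f S) A = c * genK R r κ f A := by
  unfold genK; rw [gen_smul]; ring

@[simp] lemma genK_zero_kill (R : Finset V) (r : V → V → ℝ) (f : Finset V → ℝ) (A : Finset V) :
    genK R r 0 f A = gen R r f A := by simp [genK]

/-- The generator only depends on the values on subsets of `R`. -/
lemma gen_congr {R : Finset V} {r : V → V → ℝ} {f g : Finset V → ℝ}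
    (h : ∀ A ⊆ R, f A = g A) {A : Finset V} (hA : A ⊆ R) : gen R r f A = gen R r g A := by
  unfold gen
  congr 1
  · refine sum_congr rfl fun x _ => ?_
    rw [h _ ((erase_subset _ _).trans hA), h _ hA]
  · refine sum_congr rfl fun x _ => sum_congr rfl fun y hy => ?_
    rw [h _ (arr_subset hA hy), h _ hA]

lemma genK_congr {R : Finset V} {r : V → V → ℝ} {κ : V → ℝ} {f g : Finset V → ℝ}
    (h : ∀ A ⊆ R, f A = g A) {A : Finset V} (hA : A ⊆ R) :
    genK R r κ f A = genK R r κ g A := by
  unfold genK; rw [gen_congr h hA, h A hA]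

/-- **Min principle.** If `(L - k) f ≤ 0` on the nonempty subsets of `R` (with any killing function
`k ≥ 0`) and `f ∅ ≥ 0` then `f ≥ 0` on all subsets of `R`. -/
theorem min_principle' {R : Finset V} {r : V → V → ℝ} (hr : ∀ x y, 0 ≤ r x y)
    {k : Finset V → ℝ} (hk : ∀ A ⊆ R, 0 ≤ k A) {f : Finset V → ℝ} (h0 : 0 ≤ f ∅)
    (h : ∀ A ⊆ R, A ≠ ∅ → gen R r f A - k A * f A ≤ 0) : ∀ A ⊆ R, 0 ≤ f A := by
  classical
  by_contra hcon
  push_neg at hcon
  obtain ⟨A0, hA0, hneg0⟩ := hcon
  -- minimal value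
  obtain ⟨B, hB, hmin⟩ := exists_min_image R.powerset f ⟨A0, mem_powerset.2 hA0⟩
  have hBneg : f B < 0 := lt_of_le_of_lt (hmin A0 (mem_powerset.2 hA0)) hneg0
  -- among minimisers take one of minimal cardinality
  obtain ⟨C, hC, hCmin⟩ := exists_min_image (R.powerset.filter fun S => f S = f B) card
    ⟨B, mem_filter.2 ⟨hB, rfl⟩⟩
  obtain ⟨hCR, hCB⟩ := mem_filter.1 hC
  have hCR' := mem_powerset.1 hCR
  have hCne : C ≠ ∅ := by
    rintro rfl
    linarith
  have hmin' : ∀ S ⊆ R, f C ≤ f S := fun S hS => by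
    rw [hCB]; exact hmin S (mem_powerset.2 hS)
  obtain ⟨x, hx⟩ := nonempty_iff_ne_empty.2 hCne
  have hgt : f C < f (C.erase x) := by
    have hsub : C.erase x ⊆ R := (erase_subset _ _).trans hCR'
    rcases (hmin' _ hsub).lt_or_eq with h1 | h1
    · exact h1
    · exfalso
      have hmem : C.erase x ∈ R.powerset.filter fun S => f S = f B :=
        mem_filter.2 ⟨mem_powerset.2 hsub, by rw [← h1, hCB]⟩
      have := hCmin _ hmem
      have h2 := card_erase_lt_of_mem hx
      omega
  have h1 : 0 < ∑ x ∈ R, (f (C.erase x) - f C) := by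
    refine sum_pos' (fun y _ => ?_) ⟨x, hCR' hx, by linarith⟩
    have := hmin' (C.erase y) ((erase_subset _ _).trans hCR')
    linarith
  have h2 : 0 ≤ ∑ x ∈ R, ∑ y ∈ R, r x y * (f (arr x y C) - f C) := by
    refine sum_nonneg fun x _ => sum_nonneg fun y hy => mul_nonneg (hr x y) ?_
    have := hmin' _ (arr_subset (x := x) hCR' hy)
    linarith
  have h3 : 0 ≤ - (k C * f C) := by
    have : f C < 0 := by rw [hCB]; exact hBneg
    have := mul_nonneg (hk C hCR') (neg_nonneg.2 this.le)
    linarith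
  have := h C hCR' hCne
  unfold gen at this
  linarith

theorem min_principle {R : Finset V} {r : V → V → ℝ} (hr : ∀ x y, 0 ≤ r x y)
    {κ : V → ℝ} (hκ : ∀ x, 0 ≤ κ x) {f : Finset V → ℝ} (h0 : 0 ≤ f ∅)
    (h : ∀ A ⊆ R, A ≠ ∅ → genK R r κ f A ≤ 0) : ∀ A ⊆ R, 0 ≤ f A :=
  min_principle' hr (k := kill κ) (fun A _ => kill_nonneg hκ A) h0 h

/-- Comparison: `(L-k)u ≤ (L-k)v` on nonempty subsets and `v ∅ ≤ u ∅` give `v ≤ u`. -/
theorem comparison {R : Finset V} {r : V → V → ℝ} (hr : ∀ x y, 0 ≤ r x y)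
    {κ : V → ℝ} (hκ : ∀ x, 0 ≤ κ x) {u v : Finset V → ℝ} (h0 : v ∅ ≤ u ∅)
    (h : ∀ A ⊆ R, A ≠ ∅ → genK R r κ u A ≤ genK R r κ v A) : ∀ A ⊆ R, v A ≤ u A := by
  intro A hA
  have := min_principle (R := R) hr hκ (f := fun S => u S - v S) (by simpa using h0)
    (fun S hS hne => by rw [genK_sub]; linarith [h S hS hne]) A hA
  simpa using this

/-- Existence of the solution of `(L-k)u = -f`, `u ∅ = 0`. -/
theorem exists_green {R : Finset V} {r : V → V → ℝ} (hr : ∀ x y, 0 ≤ r x y)
    {κ : V → ℝ} (hκ : ∀ x, 0 ≤ κ x) (f : Finset V → ℝ) :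
    ∃ u : Finset V → ℝ, u ∅ = 0 ∧ (∀ A, ¬ A ⊆ R → u A = 0) ∧
      ∀ A ⊆ R, A ≠ ∅ → genK R r κ u A = - f A := by
  classical
  -- functions on nonempty subsets of `R`
  let I := {A : Finset V // A ⊆ R ∧ A ≠ ∅}
  haveI : Finite I := by
    apply Finite.of_injective (fun A : I => (⟨A.1, mem_powerset.2 A.2.1⟩ : R.powerset))
    intro A B h
    exact Subtype.ext (by simpa using congrArg Subtype.val h)
  haveI : Fintype I := Fintype.ofFinite I
  let ext : (I → ℝ) → Finset V → ℝ := fun g A => if h : A ⊆ R ∧ A ≠ ∅ then g ⟨A, h⟩ else 0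
  have ext_add : ∀ g g' : I → ℝ, ext (g + g') = fun S => ext g S + ext g' S := by
    intro g g'; funext S; simp only [ext]; split_ifs <;> simp
  have ext_smul : ∀ (c : ℝ) (g : I → ℝ), ext (c • g) = fun S => c * ext g S := by
    intro c g; funext S; simp only [ext]; split_ifs <;> simp
  let T : (I → ℝ) →ₗ[ℝ] (I → ℝ) :=
    { toFun := fun g A => genK R r κ (ext g) A.1
      map_add' := fun g g' => by
        funext A
        show genK R r κ (ext (g + g')) A.1 = genK R r κ (ext g) A.1 + genK R r κ (ext g') A.1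
        rw [ext_add, genK_add]
      map_smul' := fun c g => by
        funext A
        show genK R r κ (ext (c • g)) A.1 = c • genK R r κ (ext g) A.1
        rw [ext_smul, genK_smul]; rfl }
  have hinj : Function.Injective T := by
    rw [← LinearMap.ker_eq_bot, LinearMap.ker_eq_bot']
    intro g hg
    have hz : ∀ A ⊆ R, A ≠ ∅ → genK R r κ (ext g) A = 0 := fun A hA hne =>
      congrFun hg ⟨A, hA, hne⟩
    have e0 : ext g ∅ = 0 := by simp [ext]
    have h1 := comparison hr hκ (u := ext g) (v := fun _ => 0) (by simp [e0])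
      (fun A hA hne => by rw [hz A hA hne]; simp [genK, gen_const])
    have h2 := comparison hr hκ (u := fun _ => 0) (v := ext g) (by simp [e0])
      (fun A hA hne => by rw [hz A hA hne]; simp [genK, gen_const])
    funext A
    have h3 := h1 A.1 A.2.1
    have h4 := h2 A.1 A.2.1
    have h5 : ext g A.1 = g A := by simp [ext, A.2]
    simp only [Pi.zero_apply]
    linarith
  have hsurj : Function.Surjective T := LinearMap.injective_iff_surjective.1 hinj
  obtain ⟨g, hg⟩ := hsurj (fun A => - f A.1)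
  refine ⟨ext g, by simp [ext], fun A hA => by simp [ext, hA], fun A hA hne => ?_⟩
  exact congrFun hg ⟨A, hA, hne⟩

/-- Green operator of the killed process: `green R r κ f A` is the expectation of
`∫ f (ξ_t) dt` up to extinction or killing, started from `A ⊆ R`. -/
noncomputable def green (R : Finset V) (r : V → V → ℝ) (κ : V → ℝ) (f : Finset V → ℝ) :
    Finset V → ℝ := by
  classical
  exact if h : ∃ u : Finset V → ℝ, u ∅ = 0 ∧ (∀ A, ¬ A ⊆ R → u A = 0) ∧
      ∀ A ⊆ R, A ≠ ∅ → genK R r κ u A = - f A then Classical.choose h else 0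

/-- Probability that the process is killed before extinction. -/
noncomputable def theta (R : Finset V) (r : V → V → ℝ) (κ : V → ℝ) : Finset V → ℝ :=
  green R r κ (kill κ)

section green
variable {R : Finset V} {r : V → V → ℝ} {κ : V → ℝ}

@[simp] lemma green_empty (f : Finset V → ℝ) : green R r κ f ∅ = 0 := by
  unfold green; split_ifs with h
  · exact (Classical.choose_spec h).1
  · rfl

lemma green_not_subset (f : Finset V → ℝ) {A : Finset V} (hA : ¬ A ⊆ R) :
    green R r κ f A = 0 := by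
  unfold green; split_ifs with h
  · exact (Classical.choose_spec h).2.1 A hA
  · rfl

lemma genK_green (hr : ∀ x y, 0 ≤ r x y) (hκ : ∀ x, 0 ≤ κ x) (f : Finset V → ℝ)
    {A : Finset V} (hA : A ⊆ R) (hne : A ≠ ∅) : genK R r κ (green R r κ f) A = - f A := by
  have h := exists_green hr hκ (R := R) f
  have : green R r κ f = Classical.choose h := by unfold green; rw [dif_pos h]
  rw [this]
  exact (Classical.choose_spec h).2.2 A hA hne

lemma gen_green (hr : ∀ x y, 0 ≤ r x y) (f : Finset V → ℝ)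
    {A : Finset V} (hA : A ⊆ R) (hne : A ≠ ∅) : gen R r (green R r 0 f) A = - f A := by
  rw [← genK_zero_kill]; exact genK_green hr (fun _ => le_rfl) f hA hne

/-- Supersolutions dominate the Green function. -/
theorem green_le (hr : ∀ x y, 0 ≤ r x y) (hκ : ∀ x, 0 ≤ κ x) {u f : Finset V → ℝ}
    (h0 : 0 ≤ u ∅) (h : ∀ A ⊆ R, A ≠ ∅ → genK R r κ u A ≤ - f A) :
    ∀ A ⊆ R, green R r κ f A ≤ u A :=
  comparison hr hκ (by simpa using h0) fun A hA hne => by
    rw [genK_green hr hκ f hA hne]; exact h A hA hne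

/-- Subsolutions are dominated by the Green function. -/
theorem le_green (hr : ∀ x y, 0 ≤ r x y) (hκ : ∀ x, 0 ≤ κ x) {u f : Finset V → ℝ}
    (h0 : u ∅ ≤ 0) (h : ∀ A ⊆ R, A ≠ ∅ → - f A ≤ genK R r κ u A) :
    ∀ A ⊆ R, u A ≤ green R r κ f A :=
  comparison hr hκ (by simpa using h0) fun A hA hne => by
    rw [genK_green hr hκ f hA hne]; exact h A hA hne

theorem green_unique (hr : ∀ x y, 0 ≤ r x y) (hκ : ∀ x, 0 ≤ κ x) {u f : Finset V → ℝ}
    (h0 : u ∅ = 0) (h : ∀ A ⊆ R, A ≠ ∅ → genK R r κ u A = - f A) :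
    ∀ A ⊆ R, green R r κ f A = u A := fun A hA =>
  le_antisymm (green_le hr hκ h0.ge (fun A hA hne => (h A hA hne).le) A hA)
    (le_green hr hκ h0.le (fun A hA hne => (h A hA hne).ge) A hA)

lemma green_mono (hr : ∀ x y, 0 ≤ r x y) (hκ : ∀ x, 0 ≤ κ x) {f g : Finset V → ℝ}
    (h : ∀ A ⊆ R, A ≠ ∅ → f A ≤ g A) : ∀ A, green R r κ f A ≤ green R r κ g A := by
  intro A
  by_cases hA : A ⊆ R
  · exact green_le hr hκ (by simp) (fun A hA hne => by
      rw [genK_green hr hκ g hA hne]; linarith [h A hA hne]) A hA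
  · rw [green_not_subset f hA, green_not_subset g hA]

lemma green_congr (hr : ∀ x y, 0 ≤ r x y) (hκ : ∀ x, 0 ≤ κ x) {f g : Finset V → ℝ}
    (h : ∀ A ⊆ R, A ≠ ∅ → f A = g A) : ∀ A, green R r κ f A = green R r κ g A := fun A =>
  le_antisymm (green_mono hr hκ (fun A hA hne => (h A hA hne).le) A)
    (green_mono hr hκ (fun A hA hne => (h A hA hne).ge) A)

lemma green_add (hr : ∀ x y, 0 ≤ r x y) (hκ : ∀ x, 0 ≤ κ x) (f g : Finset V → ℝ)
    (A : Finset V) : green R r κ (fun S => f S + g S) A = green R r κ f A + green R r κ g A := by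
  by_cases hA : A ⊆ R
  · refine green_unique hr hκ (u := fun S => green R r κ f S + green R r κ g S) (by simp)
      (fun A hA hne => ?_) A hA
    rw [genK_add, genK_green hr hκ f hA hne, genK_green hr hκ g hA hne]; ring
  · rw [green_not_subset _ hA, green_not_subset _ hA, green_not_subset _ hA]; ring

lemma green_smul (hr : ∀ x y, 0 ≤ r x y) (hκ : ∀ x, 0 ≤ κ x) (c : ℝ) (f : Finset V → ℝ)
    (A : Finset V) : green R r κ (fun S => c * f S) A = c * green R r κ f A := by
  by_cases hA : A ⊆ R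
  · refine green_unique hr hκ (u := fun S => c * green R r κ f S) (by simp)
      (fun A hA hne => ?_) A hA
    rw [genK_smul, genK_green hr hκ f hA hne]; ring
  · rw [green_not_subset _ hA, green_not_subset _ hA]; ring

lemma green_zero (hr : ∀ x y, 0 ≤ r x y) (hκ : ∀ x, 0 ≤ κ x) (A : Finset V) :
    green R r κ (fun _ => 0) A = 0 := by
  have := green_smul (R := R) hr hκ 0 (fun _ => (0:ℝ)) A
  simpa using this

lemma green_sub (hr : ∀ x y, 0 ≤ r x y) (hκ : ∀ x, 0 ≤ κ x) (f g : Finset V → ℝ)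
    (A : Finset V) : green R r κ (fun S => f S - g S) A = green R r κ f A - green R r κ g A := by
  have h := green_add (R := R) hr hκ f (fun S => (-1) * g S) A
  rw [green_smul hr hκ] at h
  have h2 : (fun S => f S + (-1) * g S) = fun S => f S - g S := by funext S; ring
  rw [h2] at h; rw [h]; ring

lemma green_sum (hr : ∀ x y, 0 ≤ r x y) (hκ : ∀ x, 0 ≤ κ x) {ι : Type*} (s : Finset ι)
    (f : ι → Finset V → ℝ) (A : Finset V) :
    green R r κ (fun S => ∑ i ∈ s, f i S) A = ∑ i ∈ s, green R r κ (f i) A := by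
  classical
  induction s using Finset.induction_on with
  | empty => simpa using green_zero hr hκ A
  | insert i s hi ih =>
    simp only [sum_insert hi]
    rw [green_add hr hκ, ih]

lemma green_nonneg (hr : ∀ x y, 0 ≤ r x y) (hκ : ∀ x, 0 ≤ κ x) {f : Finset V → ℝ}
    (h : ∀ A ⊆ R, A ≠ ∅ → 0 ≤ f A) (A : Finset V) : 0 ≤ green R r κ f A := by
  have := green_mono (R := R) hr hκ (f := fun _ => 0) (g := f) (fun A hA hne => h A hA hne) A
  rwa [green_zero hr hκ] at this

/-- `G(-L f) = f` for functions vanishing at `∅`. -/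
lemma green_neg_genK (hr : ∀ x y, 0 ≤ r x y) (hκ : ∀ x, 0 ≤ κ x) {u : Finset V → ℝ}
    (h0 : u ∅ = 0) {A : Finset V} (hA : A ⊆ R) :
    green R r κ (fun S => - genK R r κ u S) A = u A :=
  green_unique hr hκ h0 (fun A _ _ => by ring) A hA

@[simp] lemma theta_empty : theta R r κ ∅ = 0 := green_empty _

lemma theta_nonneg (hr : ∀ x y, 0 ≤ r x y) (hκ : ∀ x, 0 ≤ κ x) (A : Finset V) :
    0 ≤ theta R r κ A := green_nonneg hr hκ (fun A _ _ => kill_nonneg hκ A) A

/-- Harmonicity of the exit probability. -/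
lemma gen_theta (hr : ∀ x y, 0 ≤ r x y) (hκ : ∀ x, 0 ≤ κ x) {A : Finset V} (hA : A ⊆ R)
    (hne : A ≠ ∅) : gen R r (theta R r κ) A = - (kill κ A * (1 - theta R r κ A)) := by
  have := genK_green hr hκ (kill κ) hA hne
  unfold genK at this
  unfold theta
  linarith

lemma theta_le_one (hr : ∀ x y, 0 ≤ r x y) (hκ : ∀ x, 0 ≤ κ x) (A : Finset V) :
    theta R r κ A ≤ 1 := by
  by_cases hA : A ⊆ R
  · refine green_le hr hκ (u := fun _ => 1) (by norm_num) (fun A hA hne => ?_) A hA
    simp [genK, gen_const]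
  · unfold theta; rw [green_not_subset _ hA]; norm_num

end green

end Pool.Agent.CP34
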