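import Pool.Agent.CP34.Core

/-!
# Contact process on finite regions: further definitions

`hit`, `cardR`, `pt`, monotone / submodular set functions, path constants `PathBound`, `aP`, `gP`,
windows of `ℤ`, the tree vertices `List ℕ` with regions `Reg p`, `Lev p` and gadgets with arms.
-/

open Finset

namespace Pool.Agent.CP34

variable {V : Type*} [DecidableEq V]

/-- `hit B S = 1` if `S` meets `B`, else `0`. -/
noncomputable def hit (B S : Finset V) : ℝ := if (S ∩ B).Nonempty then 1 else 0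

/-- cardinality as a real function -/
def cardR (S : Finset V) : ℝ := (S.card : ℝ)

def MonoOn (R : Finset V) (f : Finset V → ℝ) : Prop := ∀ A B, A ⊆ B → B ⊆ R → f A ≤ f B

def SubAddOn (R : Finset V) (f : Finset V → ℝ) : Prop :=
  ∀ A B, A ⊆ R → B ⊆ R → f (A ∪ B) ≤ f A + f B

def SubModOn (R : Finset V) (f : Finset V → ℝ) : Prop :=
  ∀ A B C, A ⊆ R → B ⊆ R → C ⊆ A ∩ B → f (A ∪ B) + f C ≤ f A + f B

/-- killing only at `w`, at rate `c` -/
def pt (w : V) (c : ℝ) : V → ℝ := fun x => if x = w then c else 0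

/-- nearest neighbour relation on `ℕ` -/
def nnN (i j : ℕ) : ℝ := if i + 1 = j ∨ j + 1 = i then 1 else 0

/-- nearest neighbour relation on `ℤ` -/
def nnZ (i j : ℤ) : ℝ := if i + 1 = j ∨ j + 1 = i then 1 else 0

/-- number of edges from `x` leaving the window `[-n, n]` -/
def exZ (n : ℕ) (x : ℤ) : ℝ := (if x = (n : ℤ) then 1 else 0) + (if x = -(n : ℤ) then 1 else 0)

/-- probability that the contact process on `ℤ` with rate `l` started from `{0}` ever sends an
arrow out of the window `[-n, n]` -/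
noncomputable def thZ (n : ℕ) (l : ℝ) : ℝ :=
  theta (Icc (-(n : ℤ)) n) (l • nnZ) (l • exZ n) {0}

/-- uniform bound on the total occupation time on finite paths -/
structure PathBound (l χ : ℝ) : Prop where
  one_le : 1 ≤ χ
  bound : ∀ n i, i < n → green (range n) (l • nnN) 0 cardR {i} ≤ χ

/-- probability to cross a path of `L` vertices -/
noncomputable def aP (l : ℝ) (L : ℕ) : ℝ := theta (range L) (l • nnN) (pt (L - 1) l) {0}

/-- expected occupation time of the last vertex of a path of `L` vertices -/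
noncomputable def gP (l : ℝ) (L : ℕ) : ℝ := green (range L) (l • nnN) 0 (hit {L - 1}) {0}

/-- `Q` and `P` are disjoint and joined only by the edge `q – p` (rate `l` both ways). -/
structure CutEdge (r : V → V → ℝ) (Q P : Finset V) (q p : V) (l : ℝ) : Prop where
  disj : Disjoint Q P
  hq : q ∈ Q
  hp : p ∈ P
  rqp : r q p = l
  rpq : r p q = l
  zero : ∀ x ∈ Q, ∀ y ∈ P, ¬ (x = q ∧ y = p) → r x y = 0
  zero' : ∀ x ∈ Q, ∀ y ∈ P, ¬ (x = q ∧ y = p) → r y x = 0

/-- A gadget `Γ` with arms: arm `i ∈ I` is the path `φ i 0, …, φ i (n i - 1)`, attached to `Γ` by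
the edge `p i – φ i 0`; all rates on arms and attaching edges are `l`. `Δ` bounds the degrees. -/
structure Arms {ι : Type*} [DecidableEq ι] (l Δ : ℝ) (r : V → V → ℝ) (Γ : Finset V)
    (I : Finset ι) (n : ι → ℕ) (φ : ι → ℕ → V) (p : ι → V) : Prop where
  symm : ∀ x y, r x y = r y x
  nonneg : ∀ x y, 0 ≤ r x y
  port : ∀ i ∈ I, p i ∈ Γ
  disjΓ : ∀ i ∈ I, ∀ t < n i, φ i t ∉ Γ
  inj : ∀ i ∈ I, ∀ j ∈ I, ∀ s < n i, ∀ t < n j, φ i s = φ j t → i = j ∧ s = t
  rarm : ∀ i ∈ I, ∀ s < n i, ∀ t < n i, r (φ i s) (φ i t) = l * nnN s t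
  rcross : ∀ i ∈ I, ∀ j ∈ I, i ≠ j → ∀ s < n i, ∀ t < n j, r (φ i s) (φ j t) = 0
  rport : ∀ i ∈ I, ∀ x ∈ Γ, ∀ t < n i, r x (φ i t) = if x = p i ∧ t = 0 then l else 0
  deg : ∀ x ∈ Γ, ∑ y ∈ Γ, r x y + l * ((I.filter fun i => p i = x).card : ℝ) ≤ l * Δ

/-- region of a gadget with arms -/
def armReg {ι : Type*} [DecidableEq ι] (Γ : Finset V) (I : Finset ι) (n : ι → ℕ)
    (φ : ι → ℕ → V) : Finset V := Γ ∪ I.biUnion fun i => (range (n i)).image (φ i)

/-- Tree vertices are lists; the children of `α` are `α ++ [a]`. Rates `l` on tree edges. -/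
def tr (l : ℝ) (α β : List ℕ) : ℝ :=
  if (β ≠ [] ∧ β.dropLast = α) ∨ (α ≠ [] ∧ α.dropLast = β) then l else 0

/-- Vertices of level `< p.length` of the spherically symmetric tree in which a vertex of level
`i` has `p[i]` children. -/
def Reg : List ℕ → Finset (List ℕ)
  | [] => ∅
  | d :: p => insert [] ((range d).biUnion fun a => (Reg p).image fun α => a :: α)

/-- Vertices of level `p.length` of the same tree. -/
def Lev : List ℕ → Finset (List ℕ)
  | [] => {[]}
  | d :: p => (range d).biUnion fun a => (Lev p).image fun α => a :: α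

end Pool.Agent.CP34
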