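import Pool.Agent.CP34.Iface

/-!
# Gadgets, blocks and block systems (definitions of the second wave)

* a gadget is a `d`-ary tree with `k` levels; `gad k d a` = its vertices when it hangs below a link
  of `a` vertices;
* `gprof k d a b` = profile of one gadget with an up-link of `a` and down-links of `b` vertices;
* `GG k d ℓ b` = profile of `b + 1` generations of gadgets with inner links of `ℓ` vertices;
* `Tuned` = all estimates for one gadget that are used for blocks;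
* `BlockSys` = all estimates for blocks that are used for the final tree.
-/

open Finset
open List (replicate)

namespace Pool.Agent.CP34

/-- profile of one gadget with up-link of length `a` and down-links of length `b` -/
def gprof (k d a b : ℕ) : List ℕ := replicate a 1 ++ replicate k d ++ replicate b 1

/-- vertices of the gadget hanging below a link of `a` vertices -/
def gad (k d a : ℕ) : Finset (List ℕ) := (Reg (replicate k d)).image fun γ => replicate a 0 ++ γ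

/-- `b + 1` generations of gadgets with inner links of `ℓ` vertices -/
def GG (k d ℓ : ℕ) : ℕ → List ℕ
  | 0 => replicate k d
  | b + 1 => replicate k d ++ (replicate ℓ 1 ++ GG k d ℓ b)

/-- estimates for one gadget with all links of length `ℓ`, at rate `l` -/
structure Tuned (l χ : ℝ) (k d ℓ : ℕ) (ε q Cs : ℝ) : Prop where
  l0 : 0 < l
  pb : PathBound l χ
  hk : 1 ≤ k
  hd : 1 ≤ d
  hℓ : 1 ≤ ℓ
  ε0 : 0 < ε
  q1 : 1 ≤ q
  small : 64 * ε * q ≤ 1
  path : l * (1 + l * χ) * gP l (ℓ + 1) ≤ ε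
  up : ∀ v ∈ gad k d ℓ, l * green (Reg (gprof k d ℓ ℓ)) (tr l) 0 (hit {[]}) {v} ≤ ε
  down : ∀ v ∈ gad k d ℓ, ∑ w ∈ Lev (gprof k d ℓ ℓ),
    l * green (Reg (gprof k d ℓ ℓ)) (tr l) 0 (hit {w.dropLast}) {v} ≤ q
  card : ∀ v ∈ gad k d ℓ, green (Reg (gprof k d ℓ ℓ)) (tr l) 0 cardR {v} ≤ Cs
  grow : 2 ≤ ∑ w ∈ Lev (gprof k d ℓ ℓ),
    theta (Reg (gprof k d ℓ ℓ)) (tr l) (pt w.dropLast l) {replicate ℓ 0}

/-- block `j + 1` with its up-link -/
def BP (G : ℕ → List ℕ) (N : ℕ → ℕ) (j : ℕ) : List ℕ :=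
  replicate (N j) 1 ++ G (j + 1) ++ replicate (N (j + 1)) 1

/-- profiles of the tree: a stem of `N 0` vertices, then the blocks -/
def PP (G : ℕ → List ℕ) (N : ℕ → ℕ) : ℕ → List ℕ
  | 0 => replicate (N 0) 1
  | j + 1 => G (j + 1) ++ replicate (N (j + 1)) 1

/-- estimates for a sequence of blocks at the critical rate `l` of the tree -/
structure BlockSys (l : ℝ) (Δ : ℕ) (G : ℕ → List ℕ) (N : ℕ → ℕ) (C Cm δ CN : ℝ) : Prop where
  l0 : 0 < l
  hG : ∀ j, G (j + 1) ≠ []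
  hN : ∀ j, 1 ≤ N j
  entries : ∀ j, ∀ d ∈ G (j + 1), 1 ≤ d ∧ d ≤ Δ
  hC : 1 ≤ C
  hCm : 1 ≤ Cm
  δ0 : 0 ≤ δ
  δC : δ ≤ 1 / (16 * Cm)
  hCN : 0 ≤ CN
  m_le : ∀ j l', 0 < l' → l' ≤ l → ∑ w ∈ Lev (BP G N j),
    l' * green (Reg (BP G N j)) (tr l') 0 (hit {w.dropLast}) {replicate (N j) 0} ≤ Cm
  m_lim : ∀ l', 0 < l' → l' < l → ∀ ε, 0 < ε → ∃ j0, ∀ j, j0 ≤ j → ∑ w ∈ Lev (BP G N j),
    l' * green (Reg (BP G N j)) (tr l') 0 (hit {w.dropLast}) {replicate (N j) 0} ≤ ε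
  up_root : ∀ j, l * green (Reg (BP G N j)) (tr l) 0 (hit {[]}) {replicate (N j) 0} ≤ δ
  up_port : ∀ j, ∀ u ∈ Lev (replicate (N j) 1 ++ G (j + 1)),
    l * green (Reg (BP G N j)) (tr l) 0 (hit {[]}) {u.dropLast} ≤ δ
  down_port : ∀ j, ∀ u ∈ Lev (replicate (N j) 1 ++ G (j + 1)), ∑ w ∈ Lev (BP G N j),
    l * green (Reg (BP G N j)) (tr l) 0 (hit {w.dropLast}) {u.dropLast} ≤ δ
  root_root : ∀ j, green (Reg (BP G N j)) (tr l) 0 (hit {replicate (N j) 0})
    {replicate (N j) 0} ≤ C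
  root_port : ∀ j, ∀ u ∈ Lev (replicate (N j) 1 ++ G (j + 1)),
    green (Reg (BP G N j)) (tr l) 0 (hit {replicate (N j) 0}) {u.dropLast} ≤ C
  surv : ∀ j, 2 ≤ ∑ w ∈ Lev (PP G N (j + 1)),
    theta (Reg (PP G N (j + 1))) (tr l) (pt w.dropLast l) {[]}
  cardN : ∀ J, ∑ j ∈ Finset.range J, ((Lev (PP G N (j + 1))).card : ℝ) / 2 ^ j ≤ CN

end Pool.Agent.CP34
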