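import Pool.Agent.CP34.Defs2
import Pool.Agent.CP34.TR
import Pool.Agent.CP34.TT

/-! Module EX: extinction below the critical rate of the tree. -/

open Finset Filter Topology
open List (replicate)

namespace Pool.Agent.CP34


/-! extinction below the critical rate of the tree -/
variable {l : ℝ} {Δ : ℕ} {G : ℕ → List ℕ} {N : ℕ → ℕ} {C Cm δ CN : ℝ}

/-- what is above the up-link of block `j + 1` -/
def EX_o (G : ℕ → List ℕ) (N : ℕ → ℕ) : ℕ → List ℕ
  | 0 => []
  | j + 1 => cat (PP G N) (j + 1) ++ G (j + 1)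

lemma EX_cat_add (P : ℕ → List ℕ) (a n : ℕ) :
    cat P (a + n) = cat P a ++ cat (fun i => P (a + i)) n := by
  induction n with
  | zero => simp [cat]
  | succ n ih =>
    have : a + (n + 1) = (a + n) + 1 := by omega
    rw [this]
    show cat P (a + n) ++ P (a + n) = cat P a ++ (cat (fun i => P (a + i)) n ++ P (a + n))
    rw [ih, List.append_assoc]

lemma EX_cat_succ (G : ℕ → List ℕ) (N : ℕ → ℕ) (j : ℕ) :
    cat (PP G N) (j + 1) = EX_o G N j ++ replicate (N j) 1 := by
  cases j with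
  | zero => simp [cat, EX_o, PP]
  | succ j =>
    show cat (PP G N) (j + 1) ++ PP G N (j + 1) = _
    simp [EX_o, PP]

lemma EX_cat_two (G : ℕ → List ℕ) (N : ℕ → ℕ) (j : ℕ) :
    cat (PP G N) (j + 2) = EX_o G N j ++ BP G N j := by
  show cat (PP G N) (j + 1) ++ PP G N (j + 1) = _
  rw [EX_cat_succ]
  simp [BP, PP]

lemma EX_PP_ne (h : ∀ j, 1 ≤ N j) (j : ℕ) : PP G N j ≠ [] := by
  cases j with
  | zero => exact tt_rep_ne (h 0) 1
  | succ j =>
    show G (j + 1) ++ replicate (N (j + 1)) 1 ≠ []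
    intro h1
    exact tt_rep_ne (h (j + 1)) 1 (List.append_eq_nil_iff.1 h1).2

lemma EX_cat_ne {P : ℕ → List ℕ} (h : ∀ j, P j ≠ []) {n : ℕ} (hn : 1 ≤ n) : cat P n ≠ [] := by
  obtain ⟨m, rfl⟩ : ∃ m, n = m + 1 := ⟨n - 1, by omega⟩
  intro h1
  exact h m (List.append_eq_nil_iff.1 h1).2

lemma EX_BP_ne (h : ∀ j, 1 ≤ N j) (j : ℕ) : BP G N j ≠ [] := by
  intro h1
  exact tt_rep_ne (h (j + 1)) 1 (List.append_eq_nil_iff.1 h1).2

/-- the root of a block as a vertex of its region -/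
lemma EX_root_mem (hG : ∀ j, G (j + 1) ≠ []) (j : ℕ) : replicate (N j) 0 ∈ Reg (BP G N j) := by
  have h1 : replicate (N j) 0 ∈ Lev (replicate (N j) 1) := tt_root_lev _
  have h2 : replicate (N j) 0 ∈ Reg (replicate (N j) 1 ++ (G (j + 1) ++ replicate (N (j + 1)) 1)) := by
    rw [Reg_append]
    refine Finset.mem_union_right _ (mem_biUnion.2 ⟨_, h1, Finset.mem_image.2 ⟨[], ?_, by simp⟩⟩)
    apply TR_nil_mem
    intro h3
    exact hG j (List.append_eq_nil_iff.1 h3).1
  rw [← List.append_assoc] at h2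
  exact h2

lemma EX_port_mem (hG : ∀ j, G (j + 1) ≠ []) (j : ℕ) {u : List ℕ}
    (hu : u ∈ Lev (replicate (N j) 1 ++ G (j + 1))) : u.dropLast ∈ Reg (BP G N j) := by
  have h1 : replicate (N j) 1 ++ G (j + 1) ≠ [] := fun h2 => hG j (List.append_eq_nil_iff.1 h2).2
  exact TR_Reg_sub _ _ (TR_dropLast_Lev hu h1)

/-- `l' g^{l'} ≤ l g^l` -/
lemma EX_rate {l' : ℝ} (hl' : 0 < l') (hlt : l' ≤ l) (p : List ℕ) (B A : Finset (List ℕ)) :
    l' * green (Reg p) (tr l') 0 (hit B) A ≤ l * green (Reg p) (tr l) 0 (hit B) A := by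
  by_cases hA : A ⊆ Reg p
  · have h1 : green (Reg p) (tr l') 0 (hit B) A ≤ green (Reg p) (tr l) 0 (hit B) A := by
      refine green_rate_mono (tr_nonneg hl'.le) (tr_nonneg (hl'.le.trans hlt)) subset_rfl ?_
        (hit_monoOn B) (hit_nonneg B ∅) hA
      intro x _ y _
      unfold tr
      split_ifs
      · exact hlt
      · exact le_rfl
    have h2 := tt_green_nonneg hl'.le (R := Reg p) B A
    exact mul_le_mul hlt h1 h2 (hl'.le.trans hlt)
  · rw [green_not_subset _ hA, green_not_subset _ hA]; simp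

lemma EX_dk_nonneg {l : ℝ} (hl : 0 ≤ l) (p x : List ℕ) : 0 ≤ dk p l x := by
  unfold dk; split_ifs
  · exact hl
  · exact le_rfl

/-- the recursion for one block -/
lemma EX_step (h : BlockSys l Δ G N C Cm δ CN) {l' : ℝ} (hl' : 0 < l')
    {j J : ℕ} (hJ : j + 3 ≤ J) {β : List ℕ} (hβ : β ∈ Lev (EX_o G N j)) {v : List ℕ}
    (hv : v ∈ Reg (BP G N j)) {Uj Xj : ℝ} (hUj : 0 ≤ Uj)
    (hU : 1 ≤ j → theta (Reg (cat (PP G N) J)) (tr l') (dk (cat (PP G N) J) l') {β.dropLast} ≤ Uj)
    (hX : ∀ w ∈ Lev (BP G N j),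
      theta (Reg (cat (PP G N) J)) (tr l') (dk (cat (PP G N) J) l') {β ++ w} ≤ Xj) :
    theta (Reg (cat (PP G N) J)) (tr l') (dk (cat (PP G N) J) l') {β ++ v} ≤
      l' * green (Reg (BP G N j)) (tr l') 0 (hit {[]}) {v} * Uj +
      (∑ w ∈ Lev (BP G N j), l' * green (Reg (BP G N j)) (tr l') 0 (hit {w.dropLast}) {v}) * Xj := by
  obtain ⟨n, rfl⟩ : ∃ n, J = (j + 2) + (n + 1) := ⟨J - (j + 3), by omega⟩
  obtain ⟨q, hq⟩ : ∃ q, q = cat (fun i => PP G N (j + 2 + i)) (n + 1) := ⟨_, rfl⟩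
  have hqne : q ≠ [] := by
    rw [hq]
    exact EX_cat_ne (fun i => EX_PP_ne h.hN _) (by omega)
  have hcat : cat (PP G N) (j + 2 + (n + 1)) = EX_o G N j ++ BP G N j ++ q := by
    rw [EX_cat_add, EX_cat_two, hq]
  rw [hcat] at hU hX ⊢
  obtain ⟨F, hFd⟩ : ∃ F, F = theta (Reg (EX_o G N j ++ BP G N j ++ q)) (tr l')
    (dk (EX_o G N j ++ BP G N j ++ q) l') := ⟨_, rfl⟩
  rw [← hFd] at hU hX ⊢
  have hF0 : ∀ A, 0 ≤ F A := fun A => by
    rw [hFd]; exact theta_nonneg (tr_nonneg hl'.le) (EX_dk_nonneg hl'.le _) A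
  have hFe : F ∅ = 0 := by rw [hFd]; exact theta_empty
  have hqlen := List.length_pos_iff.2 hqne
  have key := TR_general (l := l') (o := EX_o G N j) (p := BP G N j) (q := q) (F := F)
    (c := fun _ => 0) hl'.le (EX_BP_ne h.hN j) hFe.le
    (by rw [hFd]
        exact (theta_subModOn (tr_nonneg hl'.le) (EX_dk_nonneg hl'.le _)).subAddOn theta_empty)
    hβ
    (by
      intro B hB hne
      have hBR : B ⊆ Reg (EX_o G N j ++ BP G N j ++ q) := by
        refine hB.trans ?_
        intro x hx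
        obtain ⟨γ, hγ, rfl⟩ := Finset.mem_image.1 hx
        rw [List.append_assoc, Reg_append]
        exact Finset.mem_union_right _ (mem_biUnion.2 ⟨β, hβ, Finset.mem_image.2
          ⟨γ, TR_Reg_sub _ q hγ, rfl⟩⟩)
      rw [hFd, gen_theta' (tr_nonneg hl'.le) (EX_dk_nonneg hl'.le _) hBR]
      have hk : kill (dk (EX_o G N j ++ BP G N j ++ q) l') B = 0 := by
        unfold kill
        refine sum_eq_zero fun x hx => ?_
        obtain ⟨γ, hγ, rfl⟩ := Finset.mem_image.1 (hB hx)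
        have h1 := (mem_Reg.1 hγ).1
        have h2 := (mem_Lev.1 hβ).1
        unfold dk
        rw [if_neg]
        rw [List.length_append, List.length_append, List.length_append]
        omega
      rw [hk]; simp)
    (A := {v}) (Finset.singleton_subset_iff.2 hv)
  have hz := green_zero (R := Reg (BP G N j)) (r := tr l') (κ := (0 : List ℕ → ℝ))
    (tr_nonneg hl'.le) (fun _ => le_rfl) {v}
  rw [hz, zero_add, if_neg hqne, Finset.image_singleton] at key
  refine key.trans (add_le_add ?_ ?_)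
  · have hg := mul_nonneg hl'.le (tt_green_nonneg hl'.le (R := Reg (BP G N j)) {[]} {v})
    split_ifs with ho
    · exact mul_nonneg hg hUj
    · rw [← mul_assoc]
      refine mul_le_mul_of_nonneg_left (hU ?_) hg
      rcases Nat.eq_zero_or_pos j with h0 | h0
      · exact absurd (by rw [h0]; rfl) ho
      · exact h0
  · rw [Finset.sum_mul]
    refine Finset.sum_le_sum fun w hw => ?_
    rw [← mul_assoc]
    exact mul_le_mul_of_nonneg_left (hX w hw)
      (mul_nonneg hl'.le (tt_green_nonneg hl'.le (R := Reg (BP G N j)) _ _))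

theorem extinct (h : BlockSys l Δ G N C Cm δ CN) {l' : ℝ} (hl' : 0 < l') (hlt : l' < l) :
    ∀ ε, 0 < ε → ∃ J, 2 ≤ J ∧
      theta (Reg (cat (PP G N) J)) (tr l') (dk (cat (PP G N) J) l') {replicate (N 0) 0} < ε := by
  intro ε hε
  obtain ⟨i0, hi0⟩ := h.m_lim l' hl' hlt (1 / 4) (by norm_num)
  have hCm := h.hCm
  have hCpos : 0 < Cm := by linarith
  obtain ⟨H, hH⟩ : ∃ H : ℕ → ℝ, ∀ i, H i = (4 * Cm) ^ (i0 + 1 - i) := ⟨_, fun _ => rfl⟩
  have hA1 : 1 ≤ 4 * Cm := by linarith
  have hH1 : ∀ i, 1 ≤ H i := fun i => by rw [hH]; exact one_le_pow₀ hA1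
  have hHpos : ∀ i, 0 < H i := fun i => lt_of_lt_of_le one_pos (hH1 i)
  have hHs : ∀ i, H i ≤ 4 * Cm * H (i + 1) := by
    intro i
    rw [hH, hH]
    by_cases hi : i < i0 + 1
    · have : i0 + 1 - i = (i0 + 1 - (i + 1)) + 1 := by omega
      rw [this, pow_succ]
      linarith [mul_comm ((4 * Cm) ^ (i0 + 1 - (i + 1))) (4 * Cm)]
    · have e1 : i0 + 1 - i = 0 := by omega
      have e2 : i0 + 1 - (i + 1) = 0 := by omega
      rw [e1, e2]; simpa using hA1
  have hHd : ∀ i, H (i + 1) ≤ H i := by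
    intro i
    rw [hH, hH]
    exact pow_le_pow_right₀ hA1 (by omega)
  obtain ⟨m, hm⟩ : ∃ m : ℕ → ℝ, ∀ j, m j = ∑ w ∈ Lev (BP G N j),
    l' * green (Reg (BP G N j)) (tr l') 0 (hit {w.dropLast}) {replicate (N j) 0} :=
    ⟨_, fun _ => rfl⟩
  have hmC : ∀ j, m j ≤ Cm := fun j => by rw [hm]; exact h.m_le j l' hl' hlt.le
  have hmi : ∀ j, i0 ≤ j → m j ≤ 1 / 4 := fun j hj => by rw [hm]; exact hi0 j hj
  have hmH : ∀ i, m i * H (i + 2) ≤ H (i + 1) / 4 := by
    intro i
    by_cases hi : i < i0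
    · have e : H (i + 1) = 4 * Cm * H (i + 2) := by
        rw [hH, hH]
        have : i0 + 1 - (i + 1) = (i0 + 1 - (i + 2)) + 1 := by omega
        rw [this, pow_succ]; ring
      rw [e]
      have := mul_le_mul_of_nonneg_right (hmC i) (hHpos (i + 2)).le
      linarith
    · have e1 : H (i + 1) = 1 := by rw [hH, show i0 + 1 - (i + 1) = 0 by omega, pow_zero]
      have e2 : H (i + 2) = 1 := by rw [hH, show i0 + 1 - (i + 2) = 0 by omega, pow_zero]
      rw [e1, e2]
      have := hmi i (by omega)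
      linarith
  have hδ0 := h.δ0
  have hδC : δ * (4 * Cm) ≤ 1 / 4 := by
    have h3 : δ * (4 * Cm) ≤ 1 / (16 * Cm) * (4 * Cm) :=
      mul_le_mul_of_nonneg_right h.δC (by linarith)
    have h4 : 1 / (16 * Cm) * (4 * Cm) = 1 / 4 := by field_simp; norm_num
    linarith
  have hδH : ∀ i, δ * H i ≤ H (i + 1) / 4 := by
    intro i
    have h3 := mul_le_mul_of_nonneg_left (hHs i) hδ0
    have h4 := mul_le_mul_of_nonneg_right hδC (hHpos (i + 1)).le
    nlinarith
  have hδ16 : δ ≤ 1 / 4 := by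
    have : δ * 1 ≤ δ * (4 * Cm) := mul_le_mul_of_nonneg_left hA1 hδ0
    linarith
  -- the claim
  have key : ∀ n : ℕ, ∀ j J : ℕ, j + n + 3 ≤ J →
      (∀ α ∈ Lev (cat (PP G N) (j + 1)),
        theta (Reg (cat (PP G N) J)) (tr l') (dk (cat (PP G N) J) l') {α} ≤ H (j + 1) / 2 ^ n) ∧
      (∀ β ∈ Lev (cat (PP G N) (j + 1) ++ G (j + 1)),
        theta (Reg (cat (PP G N) J)) (tr l') (dk (cat (PP G N) J) l') {β.dropLast} ≤
          H (j + 1) / 2 ^ n) := by
    intro n
    induction n with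
    | zero =>
      intro j J _
      rw [pow_zero, div_one]
      exact ⟨fun α _ => (theta_le_one (tr_nonneg hl'.le) (EX_dk_nonneg hl'.le _) _).trans (hH1 _),
        fun α _ => (theta_le_one (tr_nonneg hl'.le) (EX_dk_nonneg hl'.le _) _).trans (hH1 _)⟩
    | succ n ih =>
      intro j J hJ
      have hp : (0 : ℝ) < 2 ^ n := by positivity
      have hUj : 0 ≤ H j / 2 ^ n := div_nonneg (hHpos j).le hp.le
      have hXj : 0 ≤ H (j + 2) / 2 ^ n := div_nonneg (hHpos _).le hp.le
      have step : ∀ β ∈ Lev (EX_o G N j), ∀ v ∈ Reg (BP G N j),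
          theta (Reg (cat (PP G N) J)) (tr l') (dk (cat (PP G N) J) l') {β ++ v} ≤
            l' * green (Reg (BP G N j)) (tr l') 0 (hit {[]}) {v} * (H j / 2 ^ n) +
            (∑ w ∈ Lev (BP G N j), l' * green (Reg (BP G N j)) (tr l') 0 (hit {w.dropLast}) {v}) *
              (H (j + 2) / 2 ^ n) := by
        intro β hβ v hv
        refine EX_step h hl' (by omega) hβ hv hUj ?_ ?_
        · intro hj
          obtain ⟨i, rfl⟩ : ∃ i, j = i + 1 := ⟨j - 1, by omega⟩
          exact (ih i J (by omega)).2 β hβ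
        · intro w hw
          refine (ih (j + 1) J (by omega)).1 (β ++ w) ?_
          show β ++ w ∈ Lev (cat (PP G N) (j + 2))
          rw [EX_cat_two, Lev_append]
          exact mem_biUnion.2 ⟨β, hβ, Finset.mem_image.2 ⟨w, hw, rfl⟩⟩
      constructor
      · intro α hα
        rw [EX_cat_succ, tt_lev_link] at hα
        obtain ⟨β, hβ, rfl⟩ := Finset.mem_image.1 hα
        have h1 := step β hβ _ (EX_root_mem h.hG j)
        rw [← hm] at h1
        have h2 := (EX_rate hl' hlt.le (BP G N j) {[]} {replicate (N j) 0}).trans (h.up_root j)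
        have h3 := mul_le_mul_of_nonneg_right h2 hUj
        have e1 := hmH j
        have e2 := hδH j
        calc _ ≤ _ := h1
          _ ≤ δ * (H j / 2 ^ n) + m j * (H (j + 2) / 2 ^ n) := by linarith
          _ = (δ * H j + m j * H (j + 2)) / 2 ^ n := by ring
          _ ≤ (H (j + 1) / 4 + H (j + 1) / 4) / 2 ^ n := by gcongr
          _ = H (j + 1) / 2 ^ (n + 1) := by rw [pow_succ]; field_simp; ring
      · intro γ hγ
        rw [EX_cat_succ, List.append_assoc, Lev_append] at hγ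
        obtain ⟨β, hβ, hγ⟩ := mem_biUnion.1 hγ
        obtain ⟨u, hu, rfl⟩ := Finset.mem_image.1 hγ
        have hne : replicate (N j) 1 ++ G (j + 1) ≠ [] :=
          fun h2 => h.hG j (List.append_eq_nil_iff.1 h2).2
        have hune : u ≠ [] := by
          rintro rfl
          have := (mem_Lev.1 hu).1
          exact hne (List.length_eq_zero_iff.1 (by simpa using this.symm))
        rw [List.dropLast_append_of_ne_nil hune]
        have h1 := step β hβ _ (EX_port_mem h.hG j hu)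
        have h2 := (EX_rate hl' hlt.le (BP G N j) {[]} {u.dropLast}).trans (h.up_port j u hu)
        have h3 := mul_le_mul_of_nonneg_right h2 hUj
        have h4 : ∑ w ∈ Lev (BP G N j),
            l' * green (Reg (BP G N j)) (tr l') 0 (hit {w.dropLast}) {u.dropLast} ≤ δ :=
          (Finset.sum_le_sum fun w _ => EX_rate hl' hlt.le (BP G N j) {w.dropLast}
            {u.dropLast}).trans (h.down_port j u hu)
        have h5 := mul_le_mul_of_nonneg_right h4 hXj
        have e1 : δ * H (j + 2) ≤ H (j + 1) / 4 := by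
          have h5 := mul_le_mul hδ16 (hHd (j + 1)) (hHpos (j + 1 + 1)).le (by norm_num)
          have h6 : H (j + 2) = H (j + 1 + 1) := rfl
          rw [h6]; linarith
        have e2 := hδH j
        calc _ ≤ _ := h1
          _ ≤ δ * (H j / 2 ^ n) + δ * (H (j + 2) / 2 ^ n) := by linarith
          _ = (δ * H j + δ * H (j + 2)) / 2 ^ n := by ring
          _ ≤ (H (j + 1) / 4 + H (j + 1) / 4) / 2 ^ n := by gcongr
          _ = H (j + 1) / 2 ^ (n + 1) := by rw [pow_succ]; field_simp; ring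
  have hlim : Tendsto (fun n : ℕ => H 1 / 2 ^ n) atTop (𝓝 0) := by
    have h3 : Tendsto (fun n : ℕ => ((1 : ℝ) / 2) ^ n) atTop (𝓝 0) :=
      tendsto_pow_atTop_nhds_zero_of_lt_one (by norm_num) (by norm_num)
    have h4 := h3.const_mul (H 1)
    rw [mul_zero] at h4
    refine h4.congr fun n => ?_
    rw [one_div, inv_pow, div_eq_mul_inv]
  obtain ⟨n, hn⟩ := (hlim.eventually (gt_mem_nhds hε)).exists
  refine ⟨n + 3, by omega, lt_of_le_of_lt ((key n 0 (n + 3) (by omega)).1 _ ?_) hn⟩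
  rw [EX_cat_succ]
  show replicate (N 0) 0 ∈ Lev ([] ++ replicate (N 0) 1)
  rw [List.nil_append]
  exact tt_root_lev _

end Pool.Agent.CP34
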