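import Pool.Agent.CP34.Defs

open Finset

namespace Pool.Agent.CP34

/-! ### Interface: the trees -/

/-- killing at the last level (each vertex there has one child) -/
def dk (p : List ℕ) (l : ℝ) (α : List ℕ) : ℝ := if α.length + 1 = p.length then l else 0

/-- `P 0 ++ P 1 ++ … ++ P (J-1)` -/
def cat (P : ℕ → List ℕ) : ℕ → List ℕ
  | 0 => []
  | J + 1 => cat P J ++ P J

/-- The properties of the tree used in the gluing. `P 0` is a stem of `M` vertices. -/
structure GoodTree (Δ : ℕ) (l : ℝ) (P : ℕ → List ℕ) (M : ℕ) (s δ : ℝ) : Prop where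
  hM : 1 ≤ M
  stem : P 0 = List.replicate M 1
  last : ∀ j, ∃ p, P j = p ++ [1]
  entries : ∀ j, ∀ d ∈ P j, 1 ≤ d ∧ d ≤ Δ
  δ0 : 0 ≤ δ
  lt : δ < s
  surv : ∀ J, 2 ≤ J → s ≤ theta (Reg (cat P J)) (tr l) (dk (cat P J) l) {List.replicate M 0}
  root : ∀ J, l * green (Reg (cat P J)) (tr l) 0 (hit {[]}) {List.replicate M 0} ≤ δ
  ext : ∀ l', 0 < l' → l' < l → ∀ ε, 0 < ε → ∃ J, 2 ≤ J ∧
    theta (Reg (cat P J)) (tr l') (dk (cat P J) l') {List.replicate M 0} < ε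


end Pool.Agent.CP34
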