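import Pool.Agent.CP34.ZA
import Pool.Agent.CP34.TR
import Pool.Agent.CP34.Iface

/-!
# Module GL: gluing the trees along a ray
-/

open Finset Filter Topology
open MeasureTheory ProbabilityTheory
open scoped NNReal ENNReal

namespace Pool.Agent.CP34

section GLlist
variable {Q : ℕ → List ℕ}

lemma GL_cat_prefix {J K : ℕ} (h : J ≤ K) : ∃ t, cat Q K = cat Q J ++ t := by
  induction K, h using Nat.le_induction with
  | base => exact ⟨[], by simp⟩
  | succ K _ ih =>
    obtain ⟨t, ht⟩ := ih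
    exact ⟨t ++ Q K, by rw [cat, ht, List.append_assoc]⟩

lemma GL_cat_len (h : ∀ j, Q j ≠ []) (J : ℕ) : J ≤ (cat Q J).length := by
  induction J with
  | zero => exact Nat.zero_le _
  | succ J ih =>
    have := List.length_pos_iff.2 (h J)
    rw [cat, List.length_append]; omega

lemma GL_cat_entries {Δ : ℕ} (h : ∀ j, ∀ d ∈ Q j, 1 ≤ d ∧ d ≤ Δ) (J : ℕ) :
    ∀ d ∈ cat Q J, 1 ≤ d ∧ d ≤ Δ := by
  induction J with
  | zero => simp [cat]
  | succ J ih =>
    intro d hd
    rw [cat, List.mem_append] at hd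
    rcases hd with hd | hd
    · exact ih d hd
    · exact h J d hd

/-- vertices of the infinite tree -/
def GL_T (Q : ℕ → List ℕ) (α : List ℕ) : Prop := ∃ J, α ∈ Reg (cat Q J)

lemma GL_Reg_mono {J K : ℕ} (h : J ≤ K) : Reg (cat Q J) ⊆ Reg (cat Q K) := by
  obtain ⟨t, ht⟩ := GL_cat_prefix (Q := Q) h
  rw [ht]
  exact TR_Reg_sub _ _

lemma GL_mem_iff {J : ℕ} {α : List ℕ} :
    α ∈ Reg (cat Q J) ↔ GL_T Q α ∧ α.length < (cat Q J).length := by
  constructor
  · intro h
    exact ⟨⟨J, h⟩, (mem_Reg.1 h).1⟩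
  · rintro ⟨⟨K, hK⟩, hlen⟩
    rcases le_total K J with h | h
    · exact GL_Reg_mono h hK
    · obtain ⟨t, ht⟩ := GL_cat_prefix (Q := Q) h
      rw [mem_Reg] at hK ⊢
      refine ⟨hlen, fun i hi hi' => ?_⟩
      have h2 := hK.2 i hi (by rw [ht, List.length_append]; omega)
      simp only [ht] at h2
      rwa [List.getElem_append_left hi'] at h2

lemma GL_T_parent {α : List ℕ} {a : ℕ} (h : GL_T Q (α ++ [a])) : GL_T Q α := by
  obtain ⟨J, hJ⟩ := h
  refine ⟨J, ?_⟩
  have := TR_dropLast_mem hJ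
  rwa [List.dropLast_concat] at this

lemma GL_T_dropLast {α : List ℕ} (h : GL_T Q α) : GL_T Q α.dropLast := by
  obtain ⟨J, hJ⟩ := h
  exact ⟨J, TR_dropLast_mem hJ⟩

lemma GL_T_lt {Δ : ℕ} (h : ∀ j, ∀ d ∈ Q j, 1 ≤ d ∧ d ≤ Δ) {α : List ℕ} {a : ℕ}
    (hT : GL_T Q (α ++ [a])) : a < Δ := by
  obtain ⟨J, hJ⟩ := hT
  rw [mem_Reg] at hJ
  have hlen := hJ.1
  rw [List.length_append, List.length_singleton] at hlen
  have h1 := hJ.2 α.length (by simp) (by omega)
  rw [List.getElem_append_right le_rfl] at h1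
  simp only [Nat.sub_self, List.getElem_cons_zero] at h1
  exact h1.trans_le ((GL_cat_entries h J _ (List.getElem_mem _)).2)

lemma GL_T_nil (h : ∀ j, Q j ≠ []) : GL_T Q [] := by
  refine ⟨1, TR_nil_mem ?_⟩
  have := GL_cat_len h 1
  exact List.ne_nil_of_length_pos (by omega)

/-- the last level of `Reg (cat Q J)` has exactly one child -/
lemma GL_last_child (hl : ∀ j, ∃ p, Q j = p ++ [1]) {J : ℕ}
    {α : List ℕ} {a : ℕ} (hlen : α.length + 1 = (cat Q J).length) (hJ : 1 ≤ J)
    (hT : GL_T Q (α ++ [a])) : a = 0 := by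
  obtain ⟨K, hK⟩ := hT
  have h1 := (mem_Reg.1 hK).1
  rw [List.length_append, List.length_singleton] at h1
  have hJK : J ≤ K := by
    by_contra hc
    push Not at hc
    obtain ⟨t, ht⟩ := GL_cat_prefix (Q := Q) hc.le
    rw [ht, List.length_append] at hlen
    omega
  obtain ⟨t, ht⟩ := GL_cat_prefix (Q := Q) hJK
  obtain ⟨J', rfl⟩ : ∃ J', J = J' + 1 := ⟨J - 1, by omega⟩
  obtain ⟨p, hp⟩ := hl J'
  have e1 : cat Q (J' + 1) = (cat Q J' ++ p) ++ [1] := by rw [cat, hp, List.append_assoc]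
  have h2 := (mem_Reg.1 hK).2 α.length (by simp) (by omega)
  rw [List.getElem_append_right le_rfl] at h2
  simp only [Nat.sub_self, List.getElem_cons_zero] at h2
  have e2 : (cat Q K)[α.length]'(by omega) = 1 := by
    have hl2 : (cat Q J' ++ p).length = α.length := by
      have := congrArg List.length e1
      rw [List.length_append, List.length_singleton] at this
      omega
    simp only [ht, e1]
    rw [List.getElem_append_left (by
      rw [List.length_append, List.length_singleton]; omega)]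
    rw [List.getElem_append_right (by omega)]
    simp [hl2]
  rw [e2] at h2
  omega

lemma GL_child_zero (hne : ∀ j, Q j ≠ []) (he : ∀ j, ∀ d ∈ Q j, 1 ≤ d) {α : List ℕ}
    (hT : GL_T Q α) : GL_T Q (α ++ [0]) := by
  have hlen : α.length < (cat Q (α.length + 1)).length := by
    have := GL_cat_len hne (α.length + 1); omega
  have hlen2 : α.length + 1 < (cat Q (α.length + 2)).length := by
    have := GL_cat_len hne (α.length + 2); omega
  refine ⟨α.length + 2, ?_⟩
  have h1 : α ∈ Reg (cat Q (α.length + 2)) := GL_mem_iff.2 ⟨hT, by omega⟩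
  rw [mem_Reg] at h1 ⊢
  refine ⟨by rw [List.length_append, List.length_singleton]; exact hlen2, fun i hi hi' => ?_⟩
  rw [List.length_append, List.length_singleton] at hi
  rcases Nat.lt_or_ge i α.length with h2 | h2
  · rw [List.getElem_append_left h2]
    exact h1.2 i h2 hi'
  · have h3 : i = α.length := by omega
    subst h3
    rw [List.getElem_append_right le_rfl]
    simp only [Nat.sub_self, List.getElem_cons_zero]
    have h4 : ∀ d ∈ cat Q (α.length + 2), 1 ≤ d := by
      intro d hd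
      have : ∀ J, ∀ d ∈ cat Q J, 1 ≤ d := by
        intro J
        induction J with
        | zero => simp [cat]
        | succ J ih =>
          intro d hd
          rw [cat, List.mem_append] at hd
          rcases hd with hd | hd
          · exact ih d hd
          · exact he J d hd
      exact this _ d hd
    exact h4 _ (List.getElem_mem _)

lemma GL_replicate_mem {p : List ℕ} (he : ∀ d ∈ p, 1 ≤ d) {k : ℕ} (hk : k < p.length) :
    List.replicate k 0 ∈ Reg p := by
  rw [mem_Reg]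
  refine ⟨by simpa using hk, fun i hi hi' => ?_⟩
  rw [List.getElem_replicate]
  exact he _ (List.getElem_mem _)

end GLlist

section Gluing

/-- subadditivity of the exit probability in the killing rates -/
lemma GL_theta_add {V : Type*} [DecidableEq V] {R : Finset V} {r : V → V → ℝ} {κ κ' : V → ℝ}
    (hr : ∀ x y, 0 ≤ r x y) (hκ : ∀ x, 0 ≤ κ x) (hκ' : ∀ x, 0 ≤ κ' x) {A : Finset V}
    (hA : A ⊆ R) :
    theta R r (fun x => κ x + κ' x) A ≤ theta R r κ A + theta R r κ' A := by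
  refine green_le hr (fun x => add_nonneg (hκ x) (hκ' x))
    (u := fun S => theta R r κ S + theta R r κ' S) (by simp) (fun A hA hne => ?_) A hA
  have h1 := gen_theta hr hκ hA hne
  have h2 := gen_theta hr hκ' hA hne
  have hk : kill (fun x => κ x + κ' x) A = kill κ A + kill κ' A := by
    unfold kill; rw [sum_add_distrib]
  unfold genK
  rw [gen_add, h1, h2, hk]
  have a1 := mul_nonneg (kill_nonneg hκ A) (theta_nonneg (R := R) hr hκ' A)
  have a2 := mul_nonneg (kill_nonneg hκ' A) (theta_nonneg (R := R) hr hκ A)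
  nlinarith

section general
variable {V : Type*} [DecidableEq V] (G : SimpleGraph V) [DecidableRel G.Adj] [G.LocallyFinite]

/-- `A` dominates `B`, uniformly in the subcritical rate -/
def GL_Dom (L : ℝ≥0) (A B : Finset V) : Prop :=
  ∃ c : ℝ, 0 < c ∧ ∀ l : ℝ≥0, l ≤ L →
    c * (zeta G L B - zeta G l B) ≤ zeta G L A - zeta G l A

omit [DecidableRel G.Adj] in
lemma GL_Dom.refl (L : ℝ≥0) (A : Finset V) : GL_Dom G L A A :=
  ⟨1, one_pos, fun l _ => by rw [one_mul]⟩

omit [DecidableRel G.Adj] in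
variable {G} in
lemma GL_Dom.trans {L : ℝ≥0} {A B C : Finset V} (h1 : GL_Dom G L A B) (h2 : GL_Dom G L B C) :
    GL_Dom G L A C := by
  obtain ⟨c, hc, h1⟩ := h1
  obtain ⟨d, hd, h2⟩ := h2
  refine ⟨c * d, by positivity, fun l hl => ?_⟩
  calc c * d * (zeta G L C - zeta G l C) = c * (d * (zeta G L C - zeta G l C)) := by ring
    _ ≤ c * (zeta G L B - zeta G l B) := mul_le_mul_of_nonneg_left (h2 l hl) hc.le
    _ ≤ _ := h1 l hl

lemma GL_gen_D [Countable V] {L l : ℝ≥0} (hl : l ≤ L) {A R : Finset V} (hA : A ⊆ R)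
    (hN : ∀ x ∈ A, G.neighborFinset x ⊆ R) :
    gen R (adjR G (L : ℝ)) (fun S => zeta G L S - zeta G l S) A ≤ 0 := by
  rw [gen_sub, zeta_harm G L hA hN]
  have h1 := zeta_harm G l hA hN
  have h2 : gen R (adjR G (l : ℝ)) (zeta G l) A ≤ gen R (adjR G (L : ℝ)) (zeta G l) A := by
    unfold gen
    refine add_le_add le_rfl (sum_le_sum fun x _ => sum_le_sum fun y _ => ?_)
    refine mul_le_mul_of_nonneg_right ?_ ?_
    · unfold adjR; split_ifs
      · exact_mod_cast hl
      · exact le_rfl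
    · have := zeta_mono G l (subset_arr x y A)
      linarith
  linarith

lemma GL_step [Countable V] (L : ℝ≥0) {A B : Finset V} {ρ : ℝ} (hρ : 0 < ρ)
    (hA : A.Nonempty)
    (hB : ∀ R : Finset V, A ⊆ R → (∀ x ∈ A, G.neighborFinset x ⊆ R) → ∀ f : Finset V → ℝ,
      (∀ S, 0 ≤ f S) → ρ * f B ≤ ∑ x ∈ R, f (A.erase x) +
        ∑ x ∈ R, ∑ y ∈ R, adjR G (L : ℝ) x y * f (arr x y A)) : GL_Dom G L A B := by
  set R : Finset V := A ∪ A.biUnion fun x => G.neighborFinset x with hR
  have hAR : A ⊆ R := subset_union_left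
  have hNR : ∀ x ∈ A, G.neighborFinset x ⊆ R := fun x hx =>
    (subset_biUnion_of_mem (fun x => G.neighborFinset x) hx).trans subset_union_right
  set q : ℝ := (R.card : ℝ) + ∑ x ∈ R, ∑ y ∈ R, adjR G (L : ℝ) x y with hq
  have hcard : (0 : ℝ) < R.card := by
    exact_mod_cast card_pos.2 (hA.mono hAR)
  have hq0 : 0 < q := by
    have : 0 ≤ ∑ x ∈ R, ∑ y ∈ R, adjR G (L : ℝ) x y :=
      sum_nonneg fun x _ => sum_nonneg fun y _ => ZA_adjR_nonneg G L.2 x y
    linarith
  refine ⟨ρ / q, by positivity, fun l hl => ?_⟩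
  set D : Finset V → ℝ := fun S => zeta G L S - zeta G l S with hD
  have hD0 : ∀ S, 0 ≤ D S := fun S => by
    have := zeta_mono_rate G hl S
    simp only [hD]; linarith
  have h1 := GL_gen_D G hl hAR hNR
  have h2 := hB R hAR hNR D hD0
  have h3 : gen R (adjR G (L : ℝ)) D A = (∑ x ∈ R, D (A.erase x) +
        ∑ x ∈ R, ∑ y ∈ R, adjR G (L : ℝ) x y * D (arr x y A)) - q * D A := by
    unfold gen
    rw [sum_sub_distrib, sum_const, nsmul_eq_mul, hq]
    have : ∑ x ∈ R, ∑ y ∈ R, adjR G (L : ℝ) x y * (D (arr x y A) - D A) =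
        ∑ x ∈ R, ∑ y ∈ R, adjR G (L : ℝ) x y * D (arr x y A) -
          (∑ x ∈ R, ∑ y ∈ R, adjR G (L : ℝ) x y) * D A := by
      rw [sum_mul, ← sum_sub_distrib]
      refine sum_congr rfl fun x _ => ?_
      rw [sum_mul, ← sum_sub_distrib]
      exact sum_congr rfl fun y _ => by ring
    rw [this]; ring
  change gen R (adjR G (L : ℝ)) D A ≤ 0 at h1
  show ρ / q * D B ≤ D A
  rw [div_mul_eq_mul_div, div_le_iff₀ hq0]
  linarith

lemma GL_insert [Countable V] {L : ℝ≥0} (hL : 0 < L) {A : Finset V} {x y : V} (hx : x ∈ A)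
    (hxy : G.Adj x y) : GL_Dom G L A (insert y A) := by
  refine GL_step G L (ρ := L) (by exact_mod_cast hL) ⟨x, hx⟩ (fun R hAR hNR f hf => ?_)
  have h1 : 0 ≤ ∑ x ∈ R, f (A.erase x) := sum_nonneg fun _ _ => hf _
  have h2 : (L : ℝ) * f (insert y A) ≤
      ∑ x ∈ R, ∑ y ∈ R, adjR G (L : ℝ) x y * f (arr x y A) := by
    have hy : y ∈ R := hNR x hx (by rw [SimpleGraph.mem_neighborFinset]; exact hxy)
    have h3 : adjR G (L : ℝ) x y * f (arr x y A) ≤ ∑ y ∈ R, adjR G (L : ℝ) x y * f (arr x y A) :=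
      single_le_sum (f := fun y => adjR G (L : ℝ) x y * f (arr x y A))
        (fun y _ => mul_nonneg (ZA_adjR_nonneg G L.2 x y) (hf _)) hy
    have h4 : ∑ y ∈ R, adjR G (L : ℝ) x y * f (arr x y A) ≤
        ∑ x ∈ R, ∑ y ∈ R, adjR G (L : ℝ) x y * f (arr x y A) :=
      single_le_sum (f := fun x => ∑ y ∈ R, adjR G (L : ℝ) x y * f (arr x y A))
        (fun x _ => sum_nonneg fun y _ => mul_nonneg (ZA_adjR_nonneg G L.2 x y) (hf _)) (hAR hx)
    have h5 : adjR G (L : ℝ) x y * f (arr x y A) = L * f (insert y A) := by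
      unfold adjR arr; rw [if_pos hxy, if_pos hx]
    linarith
  linarith

lemma GL_erase [Countable V] (L : ℝ≥0) {A : Finset V} {x : V} (hx : x ∈ A) :
    GL_Dom G L A (A.erase x) := by
  refine GL_step G L (ρ := 1) one_pos ⟨x, hx⟩ (fun R hAR hNR f hf => ?_)
  have h1 : f (A.erase x) ≤ ∑ x ∈ R, f (A.erase x) :=
    single_le_sum (f := fun x => f (A.erase x)) (fun _ _ => hf _) (hAR hx)
  have h2 : 0 ≤ ∑ x ∈ R, ∑ y ∈ R, adjR G (L : ℝ) x y * f (arr x y A) :=
    sum_nonneg fun x _ => sum_nonneg fun y _ => mul_nonneg (ZA_adjR_nonneg G L.2 x y) (hf _)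
  linarith

lemma GL_single [Countable V] (L : ℝ≥0) {x : V} : ∀ (n : ℕ) (A : Finset V), A.card = n →
    x ∈ A → GL_Dom G L A {x} := by
  intro n
  induction n with
  | zero =>
    intro A hA hx
    rw [card_eq_zero] at hA
    rw [hA] at hx
    simp at hx
  | succ n ih =>
    intro A hA hx
    by_cases h : ∃ y ∈ A, y ≠ x
    · obtain ⟨y, hy, hyx⟩ := h
      exact (GL_erase G L hy).trans (ih (A.erase y) (by rw [card_erase_of_mem hy, hA]; rfl)
        (mem_erase.2 ⟨hyx.symm, hx⟩))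
    · have : A = {x} := by
        ext y
        rw [mem_singleton]
        constructor
        · intro hy
          by_contra hyx
          exact h ⟨y, hy, hyx⟩
        · rintro rfl; exact hx
      rw [this]
      exact GL_Dom.refl G L _

lemma GL_reach [Countable V] {L : ℝ≥0} (hL : 0 < L) {x y : V} (h : G.Reachable x y) :
    ∀ A : Finset V, x ∈ A → ∃ B, y ∈ B ∧ GL_Dom G L A B := by
  obtain ⟨w⟩ := h
  induction w with
  | nil => exact fun A hx => ⟨A, hx, GL_Dom.refl G L A⟩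
  | cons hadj _ ih =>
    intro A hx
    obtain ⟨B, hB, hd⟩ := ih (insert _ A) (mem_insert_self _ _)
    exact ⟨B, hB, (GL_insert G hL hx hadj).trans hd⟩

lemma GL_dom_all [Countable V] {L : ℝ≥0} (hL : 0 < L) (hG : G.Connected) {A : Finset V}
    (hA : A.Nonempty) (x : V) : GL_Dom G L A {x} := by
  obtain ⟨a, ha⟩ := hA
  obtain ⟨B, hB, hd⟩ := GL_reach G hL (hG.preconnected a x) A ha
  exact hd.trans (GL_single G L _ B rfl hB)

theorem GL_discont [Countable V] {L : ℝ≥0} (hL : 0 < L) (hG : G.Connected) {x : V} {η : ℝ}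
    (hη : 0 < η) (h : ∀ l : ℝ≥0, 0 < l → l < L → η ≤ zeta G L {x} - zeta G l {x})
    {A : Finset V} (hA : A.Nonempty) : ¬ ContinuousAt (fun l : ℝ≥0 => zeta G l A) L := by
  intro hcont
  obtain ⟨c, hc, hd⟩ := GL_dom_all G hL hG hA x
  have : (𝓝[<] L).NeBot := nhdsLT_neBot_of_exists_lt ⟨0, hL⟩
  have h1 : Tendsto (fun l : ℝ≥0 => zeta G l A) (𝓝[<] L) (𝓝 (zeta G L A)) :=
    hcont.tendsto.mono_left nhdsWithin_le_nhds
  have h2 : ∀ᶠ l in 𝓝[<] L, zeta G l A ≤ zeta G L A - c * η := by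
    have h3 : ∀ᶠ l in 𝓝[<] L, l < L := eventually_mem_nhdsWithin
    have h4 : ∀ᶠ l in 𝓝[<] L, 0 < l :=
      (eventually_gt_nhds hL).filter_mono nhdsWithin_le_nhds
    filter_upwards [h3, h4] with l hl hl0
    have h5 := hd l hl.le
    have h6 := h l hl0 hl
    nlinarith
  have h3 := le_of_tendsto h1 h2
  nlinarith

end general

end Gluing

section GLgraph

/-- codes of the vertices: the ray and the trees -/
abbrev GLW := ℕ ⊕ (ℕ × List ℕ)

variable (P : ℕ → ℕ → List ℕ)

/-- admissible codes -/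
def GL_mem : GLW → Prop
  | .inl _ => True
  | .inr (i, α) => GL_T (P i) α

/-- adjacency of codes -/
def GL_adj : GLW → GLW → Prop
  | .inl m, .inl n => m + 1 = n ∨ n + 1 = m
  | .inl m, .inr (i, α) => m = i ∧ α = []
  | .inr (i, α), .inl m => m = i ∧ α = []
  | .inr (i, α), .inr (j, β) => i = j ∧ ((β ≠ [] ∧ β.dropLast = α) ∨ (α ≠ [] ∧ α.dropLast = β))

/-- the vertex type -/
abbrev GLV := {w : GLW // GL_mem P w}

lemma GL_adj_symm : ∀ u v : GLW, GL_adj u v → GL_adj v u := by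
  rintro (m | ⟨i, α⟩) (n | ⟨j, β⟩) h
  · exact h.symm
  · exact h
  · exact h
  · obtain ⟨rfl, h⟩ := h
    exact ⟨rfl, h.symm⟩

lemma GL_adj_irrefl : ∀ u : GLW, ¬ GL_adj u u := by
  rintro (m | ⟨i, α⟩) h
  · rcases h with h | h <;> omega
  · obtain ⟨_, ⟨h1, h2⟩ | ⟨h1, h2⟩⟩ := h
    · have := congrArg List.length h2
      rw [List.length_dropLast] at this
      have := List.length_pos_iff.2 h1
      omega
    · have := congrArg List.length h2
      rw [List.length_dropLast] at this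
      have := List.length_pos_iff.2 h1
      omega

/-- the glued graph -/
def GLG : SimpleGraph (GLV P) where
  Adj u v := GL_adj u.1 v.1
  symm := ⟨fun u v h => GL_adj_symm u.1 v.1 h⟩
  loopless := ⟨fun u h => GL_adj_irrefl u.1 h⟩

/-- candidates for neighbours -/
def GL_cand (Δ : ℕ) : GLW → Finset GLW
  | .inl m => {.inl (m + 1), .inl (m - 1), .inr (m, [])}
  | .inr (i, α) => {.inr (i, α.dropLast), .inl i} ∪ (range Δ).image fun a => .inr (i, α ++ [a])

lemma GL_cand_card (Δ : ℕ) (w : GLW) : (GL_cand Δ w).card ≤ Δ + 3 := by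
  rcases w with m | ⟨i, α⟩
  · unfold GL_cand
    exact (card_le_three).trans (by omega)
  · unfold GL_cand
    refine (card_union_le _ _).trans ?_
    have h1 : ({Sum.inr (i, α.dropLast), Sum.inl i} : Finset GLW).card ≤ 2 := card_le_two
    have h2 : ((range Δ).image fun a => (Sum.inr (i, α ++ [a]) : GLW)).card ≤ Δ :=
      card_image_le.trans (by rw [card_range])
    omega

variable {P}

lemma GL_cand_mem {Δ : ℕ} (he : ∀ i j, ∀ d ∈ P i j, 1 ≤ d ∧ d ≤ Δ) {u v : GLV P}
    (h : GL_adj u.1 v.1) : v.1 ∈ GL_cand Δ u.1 := by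
  obtain ⟨u, hu⟩ := u
  obtain ⟨v, hv⟩ := v
  simp only at h ⊢
  rcases u with m | ⟨i, α⟩
  · rcases v with n | ⟨j, β⟩
    · simp only [GL_cand, mem_insert, mem_singleton, Sum.inl.injEq, reduceCtorEq, or_false]
      rcases h with h | h <;> omega
    · obtain ⟨rfl, rfl⟩ := h
      simp [GL_cand]
  · rcases v with n | ⟨j, β⟩
    · obtain ⟨rfl, rfl⟩ := h
      simp [GL_cand]
    · obtain ⟨rfl, ⟨h1, h2⟩ | ⟨h1, h2⟩⟩ := h
      · have e : β = α ++ [β.getLast h1] := by
          rw [← h2]; exact (List.dropLast_append_getLast h1).symm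
        have hv' : GL_T (P i) (α ++ [β.getLast h1]) := by rw [← e]; exact hv
        have hlt := GL_T_lt (he i) hv'
        unfold GL_cand
        rw [mem_union]
        right
        rw [mem_image]
        exact ⟨β.getLast h1, mem_range.2 hlt, by rw [← e]⟩
      · rw [← h2]
        simp [GL_cand]

lemma GL_finite {Δ : ℕ} (he : ∀ i j, ∀ d ∈ P i j, 1 ≤ d ∧ d ≤ Δ) (u : GLV P) :
    ((GLG P).neighborSet u).Finite := by
  refine Set.Finite.subset ((GL_cand Δ u.1).finite_toSet.preimage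
    (f := Subtype.val) Subtype.val_injective.injOn) ?_
  intro v hv
  exact GL_cand_mem he hv

lemma GL_degree {Δ : ℕ} (he : ∀ i j, ∀ d ∈ P i j, 1 ≤ d ∧ d ≤ Δ) [(GLG P).LocallyFinite]
    (u : GLV P) : (GLG P).degree u ≤ Δ + 3 := by
  classical
  refine le_trans ?_ (GL_cand_card Δ u.1)
  rw [← SimpleGraph.card_neighborFinset_eq_degree]
  refine card_le_card_of_injOn Subtype.val (fun v hv => ?_) Subtype.val_injective.injOn
  rw [mem_coe, SimpleGraph.mem_neighborFinset] at hv
  exact GL_cand_mem he hv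

lemma GL_connected : (GLG P).Connected := by
  have hray : ∀ n : ℕ, (GLG P).Reachable ⟨.inl 0, trivial⟩ ⟨.inl n, trivial⟩ := by
    intro n
    induction n with
    | zero => exact SimpleGraph.Reachable.refl _
    | succ n ih =>
      refine ih.trans (SimpleGraph.Adj.reachable ?_)
      exact Or.inl rfl
  have htree : ∀ (n i : ℕ) (α : List ℕ) (h : GL_T (P i) α), α.length = n →
      (GLG P).Reachable ⟨.inl 0, trivial⟩ ⟨.inr (i, α), h⟩ := by
    intro n
    induction n with
    | zero =>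
      intro i α h hα
      have : α = [] := List.length_eq_zero_iff.1 hα
      subst this
      refine (hray i).trans (SimpleGraph.Adj.reachable ?_)
      exact ⟨rfl, rfl⟩
    | succ n ih =>
      intro i α h hα
      have hne' : α ≠ [] := by rintro rfl; simp at hα
      have h' := GL_T_dropLast h
      refine (ih i α.dropLast h' (by rw [List.length_dropLast]; omega)).trans
        (SimpleGraph.Adj.reachable ?_)
      exact ⟨rfl, Or.inl ⟨hne', rfl⟩⟩
  have hall : ∀ v : GLV P, (GLG P).Reachable ⟨.inl 0, trivial⟩ v := by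
    rintro ⟨m | ⟨i, α⟩, h⟩
    · exact hray m
    · exact htree _ i α h rfl
  have : Nonempty (GLV P) := ⟨⟨.inl 0, trivial⟩⟩
  exact ⟨fun u v => (hall u).symm.trans (hall v)⟩

/-- the embedding of the `i`-th tree -/
noncomputable def GL_phi (P : ℕ → ℕ → List ℕ) (i : ℕ) (α : List ℕ) : GLV P := by
  classical
  exact if h : GL_T (P i) α then ⟨.inr (i, α), h⟩ else ⟨.inl 0, trivial⟩

lemma GL_phi_of {i : ℕ} {α : List ℕ} (h : GL_T (P i) α) : GL_phi P i α = ⟨.inr (i, α), h⟩ := by
  unfold GL_phi; rw [dif_pos h]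

lemma GL_phi_inj {i : ℕ} {α β : List ℕ} (h : GL_T (P i) α) (h' : GL_T (P i) β)
    (hab : GL_phi P i α = GL_phi P i β) : α = β := by
  rw [GL_phi_of h, GL_phi_of h'] at hab
  have := congrArg Subtype.val hab
  simp only [Sum.inr.injEq, Prod.mk.injEq, true_and] at this
  exact this

lemma GL_T_of {i J : ℕ} {α : List ℕ} (h : α ∈ Reg (cat (P i) J)) : GL_T (P i) α := ⟨J, h⟩

/-- killing rates transported to the graph -/
noncomputable def GL_kill (P : ℕ → ℕ → List ℕ) (i : ℕ) (κ : List ℕ → ℝ) (v : GLV P) : ℝ :=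
  match v.1 with
  | .inl _ => 0
  | .inr (j, α) => if j = i then κ α else 0

lemma GL_kill_phi {i : ℕ} {κ : List ℕ → ℝ} {α : List ℕ} (h : GL_T (P i) α) :
    GL_kill P i κ (GL_phi P i α) = κ α := by
  rw [GL_phi_of h]; simp [GL_kill]

lemma GL_kill_nonneg {i : ℕ} {κ : List ℕ → ℝ} (hκ : ∀ α, 0 ≤ κ α) (v : GLV P) :
    0 ≤ GL_kill P i κ v := by
  obtain ⟨m | ⟨j, α⟩, h⟩ := v
  · exact le_rfl
  · show 0 ≤ if j = i then κ α else 0
    split_ifs
    · exact hκ α
    · exact le_rfl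

/-- the transported exit problem -/
lemma GL_theta_eq [DecidableRel (GLG P).Adj] {l : ℝ} (hl : 0 ≤ l)
    {i J : ℕ} {κ : List ℕ → ℝ} (hκ : ∀ α, 0 ≤ κ α) {α : List ℕ}
    (hα : α ∈ Reg (cat (P i) J)) :
    theta ((Reg (cat (P i) J)).image (GL_phi P i)) (adjR (GLG P) l) (GL_kill P i κ)
      {GL_phi P i α} = theta (Reg (cat (P i) J)) (tr l) κ {α} := by
  have h := theta_image (R := Reg (cat (P i) J)) (φ := GL_phi P i) (r := tr l)
    (r' := adjR (GLG P) l) (κ := κ) (κ' := GL_kill P i κ) (tr_nonneg hl)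
    (ZA_adjR_nonneg (GLG P) hl) hκ (GL_kill_nonneg hκ)
    (fun a ha b hb hab => GL_phi_inj (GL_T_of ha) (GL_T_of hb) hab)
    (fun a ha b hb => by
      rw [GL_phi_of (GL_T_of ha), GL_phi_of (GL_T_of hb)]
      have e : (GLG P).Adj ⟨.inr (i, a), GL_T_of ha⟩ ⟨.inr (i, b), GL_T_of hb⟩ ↔
          ((b ≠ [] ∧ b.dropLast = a) ∨ (a ≠ [] ∧ a.dropLast = b)) :=
        ⟨fun h => h.2, fun h => ⟨rfl, h⟩⟩
      unfold adjR tr
      simp only [e])
    (fun a ha => GL_kill_phi (GL_T_of ha))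
    (A := {α}) (by simpa using hα)
  simpa using h

end GLgraph

section GLfinal

variable {P : ℕ → ℕ → List ℕ}

/-- the copy of a finite region of the `i`-th tree -/
noncomputable def GL_C (P : ℕ → ℕ → List ℕ) (i J : ℕ) : Finset (GLV P) :=
  (Reg (cat (P i) J)).image (GL_phi P i)

lemma GL_mem_C {i J : ℕ} {v : GLV P} :
    v ∈ GL_C P i J ↔ ∃ α ∈ Reg (cat (P i) J), v.1 = .inr (i, α) := by
  unfold GL_C
  rw [mem_image]
  constructor
  · rintro ⟨α, hα, rfl⟩
    exact ⟨α, hα, by rw [GL_phi_of (GL_T_of hα)]⟩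
  · rintro ⟨α, hα, h⟩
    exact ⟨α, hα, by rw [GL_phi_of (GL_T_of hα)]; exact Subtype.ext h.symm⟩

lemma GL_dk_nonneg {l : ℝ} (hl : 0 ≤ l) (p α : List ℕ) : 0 ≤ dk p l α := by
  unfold dk; split_ifs
  · exact hl
  · exact le_rfl

lemma GL_pt_nonneg {V : Type*} [DecidableEq V] {l : ℝ} (hl : 0 ≤ l) (w x : V) : 0 ≤ pt w l x := by
  unfold pt; split_ifs
  · exact hl
  · exact le_rfl

lemma GL_ex_le [(GLG P).LocallyFinite] {l : ℝ} (hl : 0 ≤ l) {i J : ℕ} (hJ : 1 ≤ J)
    (hlast : ∀ j, ∃ p, P i j = p ++ [1]) {v : GLV P} (hv : v ∈ GL_C P i J) :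
    exG (GLG P) l (GL_C P i J) v ≤
      GL_kill P i (fun α => dk (cat (P i) J) l α + pt [] l α) v := by
  classical
  obtain ⟨α, hα, hv'⟩ := GL_mem_C.1 hv
  obtain ⟨w, hw⟩ := v
  simp only at hv'
  subst hv'
  have hT : GL_T (P i) α := hw
  have hlen := (mem_Reg.1 hα).1
  have e : GL_kill P i (fun α => dk (cat (P i) J) l α + pt [] l α) ⟨.inr (i, α), hw⟩ =
      l * ((if α.length + 1 = (cat (P i) J).length then 1 else 0) + (if α = [] then 1 else 0)) := by
    simp only [GL_kill, if_true, dk, pt]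
    split_ifs <;> ring
  rw [e]
  unfold exG
  refine mul_le_mul_of_nonneg_left ?_ hl
  have hsub : (GLG P).neighborFinset ⟨.inr (i, α), hw⟩ \ GL_C P i J ⊆
      (if α.length + 1 = (cat (P i) J).length then {GL_phi P i (α ++ [0])} else ∅) ∪
      (if α = [] then {⟨.inl i, trivial⟩} else ∅) := by
    intro y hy
    rw [Finset.mem_sdiff, SimpleGraph.mem_neighborFinset] at hy
    obtain ⟨hadj, hyC⟩ := hy
    obtain ⟨y, hym⟩ := y
    rw [Finset.mem_union]
    rcases y with n | ⟨j, β⟩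
    · right
      obtain ⟨rfl, rfl⟩ : n = i ∧ α = [] := hadj
      rw [if_pos rfl, mem_singleton]
    · left
      obtain ⟨rfl, h | h⟩ : i = j ∧ ((β ≠ [] ∧ β.dropLast = α) ∨ (α ≠ [] ∧ α.dropLast = β)) := hadj
      · have hβT : GL_T (P i) β := hym
        have hβ : β ∉ Reg (cat (P i) J) := fun h0 => hyC (GL_mem_C.2 ⟨β, h0, rfl⟩)
        rw [GL_mem_iff, not_and] at hβ
        have h2 := hβ hβT
        obtain ⟨h, hdl⟩ := h
        have e : β = α ++ [β.getLast h] := by
          have := (List.dropLast_append_getLast h).symm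
          rwa [hdl] at this
        have hl3 : β.length = α.length + 1 := by
          rw [e, List.length_append, List.length_singleton]
        have h3 : α.length + 1 = (cat (P i) J).length := by omega
        have hv3 : GL_T (P i) (α ++ [β.getLast h]) := by rw [← e]; exact hβT
        have h4 := GL_last_child hlast h3 hJ hv3
        rw [h4] at e
        rw [if_pos h3, mem_singleton, ← e, GL_phi_of hβT]
      · exfalso
        have h5 := TR_dropLast_mem hα
        rw [h.2] at h5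
        exact hyC (GL_mem_C.2 ⟨β, h5, rfl⟩)
  have h1 : (((GLG P).neighborFinset ⟨.inr (i, α), hw⟩ \ GL_C P i J).card : ℝ) ≤
      (((if α.length + 1 = (cat (P i) J).length then {GL_phi P i (α ++ [0])} else ∅) ∪
      (if α = [] then {⟨.inl i, trivial⟩} else ∅) : Finset (GLV P)).card : ℝ) := by
    exact_mod_cast card_le_card hsub
  refine h1.trans ?_
  have h2 : (((if α.length + 1 = (cat (P i) J).length then {GL_phi P i (α ++ [0])} else ∅) ∪
      (if α = [] then {⟨.inl i, trivial⟩} else ∅) : Finset (GLV P)).card : ℝ) ≤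
      ((if α.length + 1 = (cat (P i) J).length then {GL_phi P i (α ++ [0])} else ∅ :
        Finset (GLV P)).card : ℝ) +
      ((if α = [] then {⟨.inl i, trivial⟩} else ∅ : Finset (GLV P)).card : ℝ) := by
    exact_mod_cast card_union_le _ _
  refine h2.trans (add_le_add ?_ ?_)
  · split_ifs <;> simp
  · split_ifs <;> simp

lemma GL_ex_ge [(GLG P).LocallyFinite] {l : ℝ} (hl : 0 ≤ l) {i J : ℕ}
    (hne : ∀ j, P i j ≠ []) (he : ∀ j, ∀ d ∈ P i j, 1 ≤ d)
    {R : Finset (GLV P)} (hR : ∀ v ∈ R, ∀ β, v.1 = .inr (i, β) → β ∈ Reg (cat (P i) J))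
    {v : GLV P} (hv : v ∈ GL_C P i J) :
    GL_kill P i (dk (cat (P i) J) l) v ≤ exG (GLG P) l R v := by
  classical
  obtain ⟨α, hα, hv'⟩ := GL_mem_C.1 hv
  obtain ⟨w, hw⟩ := v
  simp only at hv'
  subst hv'
  have hT : GL_T (P i) α := hw
  have e : GL_kill P i (dk (cat (P i) J) l) ⟨.inr (i, α), hw⟩ =
      l * (if α.length + 1 = (cat (P i) J).length then 1 else 0) := by
    simp only [GL_kill, if_true, dk]
    split_ifs <;> ring
  rw [e]
  unfold exG
  refine mul_le_mul_of_nonneg_left ?_ hl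
  split_ifs with h
  · have hc := GL_child_zero hne he hT
    have : (⟨.inr (i, α ++ [0]), hc⟩ : GLV P) ∈
        (GLG P).neighborFinset ⟨.inr (i, α), hw⟩ \ R := by
      rw [Finset.mem_sdiff, SimpleGraph.mem_neighborFinset]
      refine ⟨⟨rfl, Or.inl ⟨by simp, by simp⟩⟩, fun h0 => ?_⟩
      have h1 := (mem_Reg.1 (hR _ h0 _ rfl)).1
      rw [List.length_append, List.length_singleton] at h1
      omega
    have h2 := card_pos.2 ⟨_, this⟩
    exact_mod_cast h2
  · positivity

end GLfinal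

theorem gluing {Δ : ℕ} {lam : ℕ → ℝ≥0} (hpos : ∀ i, 0 < lam i) {P : ℕ → ℕ → List ℕ} {M : ℕ → ℕ}
    {s δ : ℕ → ℝ} (hT : ∀ i, GoodTree Δ (lam i) (P i) (M i) (s i) (δ i)) :
    ∃ (V : Type) (_ : Countable V) (_ : DecidableEq V) (G : SimpleGraph V) (_ : G.LocallyFinite),
      G.Connected ∧ (∃ Δ' : ℕ, ∀ x, G.degree x ≤ Δ') ∧
      ∀ A : Finset V, A.Nonempty → ∀ i, ¬ ContinuousAt (fun l : ℝ≥0 => zeta G l A) (lam i) := by
  classical
  have he : ∀ i j, ∀ d ∈ P i j, 1 ≤ d ∧ d ≤ Δ := fun i => (hT i).entries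
  have hne : ∀ i j, P i j ≠ [] := fun i j => by
    obtain ⟨p, hp⟩ := (hT i).last j
    rw [hp]; simp
  let LF : (GLG P).LocallyFinite := fun v => (GL_finite he v).fintype
  refine ⟨GLV P, inferInstance, inferInstance, GLG P, LF, GL_connected, ⟨Δ + 3, GL_degree he⟩,
    fun A hA i => ?_⟩
  have hi := hT i
  set L := lam i with hL
  set x₀ : List ℕ := List.replicate (M i) 0 with hx₀
  have hL0 : 0 < L := hpos i
  have hLr : (0 : ℝ) ≤ L := L.2
  -- the starting vertex
  have hx₀mem : ∀ J, 2 ≤ J → x₀ ∈ Reg (cat (P i) J) := by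
    intro J hJ
    refine GL_Reg_mono hJ (GL_replicate_mem (fun d hd => (GL_cat_entries (he i) 2 d hd).1) ?_)
    have h1 := List.length_pos_iff.2 (hne i 1)
    have h2 := congrArg List.length hi.stem
    rw [List.length_replicate] at h2
    simp only [cat, List.nil_append, List.length_append]
    omega
  have hsub : ∀ J, 2 ≤ J → ({GL_phi P i x₀} : Finset (GLV P)) ⊆ GL_C P i J := fun J hJ => by
    rw [singleton_subset_iff]
    exact mem_image_of_mem _ (hx₀mem J hJ)
  -- survival at `L`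
  have hsurv : s i ≤ zeta (GLG P) L {GL_phi P i x₀} := by
    obtain ⟨R, hR, hex⟩ := ZA_exists_exhaustion (V := GLV P)
    refine ge_of_tendsto (zeta_eq_lim (GLG P) L hR hex _) ?_
    filter_upwards [ZA_eventually_subset hR hex {GL_phi P i x₀}] with n hn
    -- choose `J`
    obtain ⟨J, hJ2, hJ⟩ : ∃ J, 2 ≤ J ∧ ∀ v ∈ R n, ∀ β, v.1 = .inr (i, β) →
        β ∈ Reg (cat (P i) J) := by
      have h1 : ∀ v : GLV P, ∃ K, ∀ β, v.1 = .inr (i, β) → β ∈ Reg (cat (P i) K) := by
        rintro ⟨m | ⟨j, α⟩, hv⟩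
        · exact ⟨0, fun β hβ => by simp at hβ⟩
        · by_cases hj : j = i
          · subst hj
            obtain ⟨K, hK⟩ := (show GL_T (P j) α from hv)
            refine ⟨K, fun β hβ => ?_⟩
            simp only [Sum.inr.injEq, Prod.mk.injEq, true_and] at hβ
            rw [← hβ]; exact hK
          · refine ⟨0, fun β hβ => ?_⟩
            simp only [Sum.inr.injEq, Prod.mk.injEq] at hβ
            exact absurd hβ.1 hj
      choose K hK using h1
      refine ⟨max 2 ((R n).sup K), le_max_left _ _, fun v hv β hβ => ?_⟩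
      exact GL_Reg_mono ((le_sup (f := K) hv).trans (le_max_right _ _)) (hK v β hβ)
    have h1 := theta_anti_region (GLG P) hLr hn (subset_union_left (s₁ := R n)
      (s₂ := GL_C P i J))
    refine le_trans ?_ h1
    have h2 := hi.surv J hJ2
    rw [← GL_theta_eq hLr (GL_dk_nonneg hLr _) (hx₀mem J hJ2)] at h2
    refine h2.trans ?_
    refine theta_rate_mono (ZA_adjR_nonneg (GLG P) hLr) (ZA_adjR_nonneg (GLG P) hLr)
      (GL_kill_nonneg (GL_dk_nonneg hLr _)) (ZA_exG_nonneg (GLG P) hLr _)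
      subset_union_right (fun _ _ _ _ => le_rfl) (fun v hv => ?_) (hsub J hJ2)
    refine GL_ex_ge hLr (hne i) (fun j d hd => (he i j d hd).1) (fun u hu β hβ => ?_) hv
    rw [Finset.mem_union] at hu
    rcases hu with hu | hu
    · exact hJ u hu β hβ
    · obtain ⟨α, hα, h3⟩ := GL_mem_C.1 hu
      rw [h3] at hβ
      simp only [Sum.inr.injEq, Prod.mk.injEq, true_and] at hβ
      rw [← hβ]; exact hα
  -- near extinction below `L`
  have hext : ∀ l : ℝ≥0, 0 < l → l < L → zeta (GLG P) l {GL_phi P i x₀} ≤ δ i := by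
    intro l hl0 hlL
    have hlr : (0 : ℝ) ≤ l := l.2
    refine le_of_forall_pos_le_add fun ε hε => ?_
    obtain ⟨J, hJ2, hJ⟩ := hi.ext l (by exact_mod_cast hl0) (by exact_mod_cast hlL) ε hε
    have h1 := zeta_le_theta (GLG P) l (hsub J hJ2)
    have h2 : theta (GL_C P i J) (adjR (GLG P) l) (exG (GLG P) l (GL_C P i J)) {GL_phi P i x₀} ≤
        theta (GL_C P i J) (adjR (GLG P) l)
          (GL_kill P i (fun α => dk (cat (P i) J) l α + pt [] l α)) {GL_phi P i x₀} :=
      theta_rate_mono (ZA_adjR_nonneg (GLG P) hlr) (ZA_adjR_nonneg (GLG P) hlr)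
        (ZA_exG_nonneg (GLG P) hlr _)
        (GL_kill_nonneg fun α => add_nonneg (GL_dk_nonneg hlr _ α) (GL_pt_nonneg hlr _ α))
        subset_rfl (fun _ _ _ _ => le_rfl)
        (fun v hv => GL_ex_le hlr (by omega) hi.last hv) (hsub J hJ2)
    have h3 := GL_theta_eq (P := P) (i := i) (J := J) hlr (κ := fun α => dk (cat (P i) J) l α +
      pt [] l α) (fun α => add_nonneg (GL_dk_nonneg hlr _ α) (GL_pt_nonneg hlr _ α))
      (hx₀mem J hJ2)
    have hx0s : ({x₀} : Finset (List ℕ)) ⊆ Reg (cat (P i) J) := by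
      rw [singleton_subset_iff]; exact hx₀mem J hJ2
    have h4 := GL_theta_add (R := Reg (cat (P i) J)) (r := tr l) (κ := dk (cat (P i) J) l)
      (κ' := pt [] l) (tr_nonneg hlr) (GL_dk_nonneg hlr _) (GL_pt_nonneg hlr _) hx0s
    have h5 := theta_le_green (R := Reg (cat (P i) J)) (r := tr l) (κ := pt [] (l : ℝ))
      (tr_nonneg hlr) (GL_pt_nonneg hlr _) hx0s
    have h6 : green (Reg (cat (P i) J)) (tr l) 0 (kill (pt [] (l : ℝ))) {x₀} =
        l * green (Reg (cat (P i) J)) (tr l) 0 (hit {[]}) {x₀} := by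
      rw [← green_smul (κ := (0 : List ℕ → ℝ)) (tr_nonneg hlr) (fun _ => le_rfl)]
      congr 1
      funext S
      exact kill_pt _ _
    have h7 : green (Reg (cat (P i) J)) (tr l) 0 (hit {[]}) {x₀} ≤
        green (Reg (cat (P i) J)) (tr L) 0 (hit {[]}) {x₀} :=
      green_rate_mono (tr_nonneg hlr) (tr_nonneg hLr) subset_rfl
        (fun a _ b _ => by
          unfold tr; split_ifs
          · exact_mod_cast hlL.le
          · exact le_rfl) (hit_monoOn _) (by simp [hit]) hx0s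
    have h8 := hi.root J
    have h9 : 0 ≤ green (Reg (cat (P i) J)) (tr l) 0 (hit {[]}) {x₀} :=
      green_nonneg (tr_nonneg hlr) (fun _ => le_rfl)
        (fun S _ _ => by unfold hit; split_ifs <;> norm_num) _
    have h10 : (l : ℝ) * green (Reg (cat (P i) J)) (tr l) 0 (hit {[]}) {x₀} ≤
        L * green (Reg (cat (P i) J)) (tr L) 0 (hit {[]}) {x₀} :=
      mul_le_mul (by exact_mod_cast hlL.le) h7 h9 hLr
    unfold GL_C at h1 h2
    linarith
  refine GL_discont (GLG P) hL0 GL_connected (x := GL_phi P i x₀) (η := s i - δ i)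
    (by linarith [hi.lt]) (fun l hl0 hlL => ?_) hA
  linarith [hext l hl0 hlL]

end Pool.Agent.CP34
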