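import Pool.Agent.CP34.D
import Pool.Agent.CP34.C4

/-!
# Module S: sharpness on `ℤ` via cycles

If the probability `thZ n l'` to leave the window `[-n, n]` gets arbitrarily small, then for every
`l < l'` the total occupation times on paths are uniformly bounded.  The proof compares the process
on the window with the process on long cycles `ZMod N`.
-/

open Finset Filter Topology

namespace Pool.Agent.CP34

section S

/-- The generator only sees infected vertices. -/
lemma S_gen_eq {V : Type*} [DecidableEq V] {R : Finset V} (r : V → V → ℝ) (f : Finset V → ℝ)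
    {A : Finset V} (hA : A ⊆ R) :
    gen R r f A = ∑ x ∈ A, (f (A.erase x) - f A) +
      ∑ x ∈ A, ∑ y ∈ R, r x y * (f (insert y A) - f A) := by
  unfold gen
  congr 1
  · refine (sum_subset hA fun x _ hx => ?_).symm
    rw [erase_eq_of_notMem hx, sub_self]
  · rw [← sum_subset hA (f := fun x => ∑ y ∈ R, r x y * (f (arr x y A) - f A))]
    · refine sum_congr rfl fun x hx => sum_congr rfl fun y _ => ?_
      rw [arr, if_pos hx]
    · intro x _ hx
      refine sum_eq_zero fun y _ => ?_
      rw [arr, if_neg hx, sub_self, mul_zero]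

/-- The key supersolution estimate: `G (1 - θ)` is controlled by the pivotal Green function. -/
lemma S_key {V : Type*} [DecidableEq V] {R : Finset V} {r : V → V → ℝ} {κ : V → ℝ}
    (hr : ∀ x y, 0 ≤ r x y) (hκ : ∀ x, 0 ≤ κ x) {G : Finset V → ℝ} {F : ℝ}
    (hG0 : G ∅ = 0) (hGm : MonoOn R G)
    (hGs : ∀ A ⊆ R, ∀ x ∈ R, G (insert x A) ≤ G A + F)
    (hgen : ∀ A ⊆ R, A ≠ ∅ → - cardR A - F * kill κ A ≤ gen R r G A)
    {A : Finset V} (hA : A ⊆ R) :
    G A * (1 - theta R r κ A) ≤
      green R r κ (fun S => cardR S + 2 * F * piv (theta R r κ) S) A := by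
  set θ := theta R r κ with hθ
  have hθm : MonoOn R θ := theta_monoOn hr hκ
  refine le_green hr hκ (u := fun S => G S * (1 - θ S)) (by simp [hG0]) (fun A hA hne => ?_) A hA
  -- main computation
  have hθ1 : θ A ≤ 1 := theta_le_one hr hκ A
  have hθ0 : 0 ≤ θ A := theta_nonneg hr hκ A
  have hk0 : 0 ≤ kill κ A := kill_nonneg hκ A
  have eθ := gen_theta hr hκ hA hne
  have eG := hgen A hA hne
  rw [← hθ] at eθ
  have ef : gen R r (fun S => G S * (1 - θ S)) A =
      (1 - θ A) * gen R r G A - G A * gen R r θ A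
        - (∑ x ∈ A, (G (A.erase x) - G A) * (θ (A.erase x) - θ A) +
          ∑ x ∈ A, ∑ y ∈ R, r x y * ((G (insert y A) - G A) * (θ (insert y A) - θ A))) := by
    rw [S_gen_eq r _ hA, S_gen_eq r G hA, S_gen_eq r θ hA]
    have e1 : ∑ x ∈ A, (G (A.erase x) * (1 - θ (A.erase x)) - G A * (1 - θ A)) =
        (1 - θ A) * ∑ x ∈ A, (G (A.erase x) - G A) - G A * ∑ x ∈ A, (θ (A.erase x) - θ A)
          - ∑ x ∈ A, (G (A.erase x) - G A) * (θ (A.erase x) - θ A) := by
      rw [mul_sum, mul_sum, ← sum_sub_distrib, ← sum_sub_distrib]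
      exact sum_congr rfl fun _ _ => by ring
    have e2 : ∑ x ∈ A, ∑ y ∈ R,
          r x y * (G (insert y A) * (1 - θ (insert y A)) - G A * (1 - θ A)) =
        (1 - θ A) * ∑ x ∈ A, ∑ y ∈ R, r x y * (G (insert y A) - G A)
          - G A * ∑ x ∈ A, ∑ y ∈ R, r x y * (θ (insert y A) - θ A)
          - ∑ x ∈ A, ∑ y ∈ R, r x y * ((G (insert y A) - G A) * (θ (insert y A) - θ A)) := by
      rw [mul_sum, mul_sum, ← sum_sub_distrib, ← sum_sub_distrib]
      refine sum_congr rfl fun _ _ => ?_
      rw [mul_sum, mul_sum, ← sum_sub_distrib, ← sum_sub_distrib]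
      exact sum_congr rfl fun _ _ => by ring
    rw [e1, e2]; ring
  have hF0 : ∀ x ∈ R, ∀ A ⊆ R, G A ≤ G (insert x A) := fun x hx A hA =>
    hGm _ _ (subset_insert _ _) (insert_subset hx hA)
  -- bounds of the correlation term
  have b1 : ∑ x ∈ A, (G (A.erase x) - G A) * (θ (A.erase x) - θ A) ≤
      F * ∑ x ∈ A, (θ A - θ (A.erase x)) := by
    rw [mul_sum]
    refine sum_le_sum fun x hx => ?_
    have hsub : A.erase x ⊆ R := (erase_subset _ _).trans hA
    have h1 := hGs (A.erase x) hsub x (hA hx)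
    rw [insert_erase hx] at h1
    have h2 := hθm _ _ (erase_subset x A) hA
    nlinarith
  have b2 : ∑ x ∈ A, ∑ y ∈ R, r x y * ((G (insert y A) - G A) * (θ (insert y A) - θ A)) ≤
      F * ∑ x ∈ A, ∑ y ∈ R, r x y * (θ (insert y A) - θ A) := by
    rw [mul_sum]
    refine sum_le_sum fun x hx => ?_
    rw [mul_sum]
    refine sum_le_sum fun y hy => ?_
    have h1 := hGs A hA y hy
    have h2 := hθm _ _ (subset_insert y A) (insert_subset hy hA)
    have h3 : (G (insert y A) - G A) * (θ (insert y A) - θ A) ≤ F * (θ (insert y A) - θ A) :=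
      mul_le_mul_of_nonneg_right (by linarith) (by linarith)
    calc r x y * ((G (insert y A) - G A) * (θ (insert y A) - θ A))
        ≤ r x y * (F * (θ (insert y A) - θ A)) := mul_le_mul_of_nonneg_left h3 (hr x y)
      _ = F * (r x y * (θ (insert y A) - θ A)) := by ring
  have epiv : ∑ x ∈ A, (θ A - θ (A.erase x)) = piv θ A := rfl
  have eneg : ∑ x ∈ A, (θ (A.erase x) - θ A) = - piv θ A := by
    rw [← epiv, ← sum_neg_distrib]; exact sum_congr rfl fun _ _ => by ring
  rw [S_gen_eq r θ hA, eneg] at eθ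
  have hFk : (1 - θ A) * (- cardR A - F * kill κ A) ≤ (1 - θ A) * gen R r G A :=
    mul_le_mul_of_nonneg_left eG (by linarith)
  have hcard : 0 ≤ cardR A := by unfold cardR; positivity
  have h5 : (1 - θ A) * cardR A ≤ cardR A := by nlinarith
  have e6 : ∑ x ∈ A, ∑ y ∈ R, r x y * (θ (insert y A) - θ A) =
      piv θ A - kill κ A * (1 - θ A) := by linarith
  rw [e6] at b2
  have eθ' := gen_theta hr hκ hA hne
  rw [← hθ] at eθ'
  rw [epiv] at b1
  simp only [genK]
  rw [ef, eθ']
  nlinarith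


/-- nearest neighbour relation on the cycle `ZMod N` -/
def S_nn (N : ℕ) (x y : ZMod N) : ℝ := if x + 1 = y ∨ y + 1 = x then 1 else 0

lemma S_nn_nonneg (N : ℕ) (x y : ZMod N) : 0 ≤ S_nn N x y := by
  unfold S_nn; split_ifs <;> norm_num

lemma S_nnr {N : ℕ} {l : ℝ} (hl : 0 ≤ l) (x y : ZMod N) : 0 ≤ (l • S_nn N) x y :=
  mul_nonneg hl (S_nn_nonneg N x y)

lemma S_nnZr {l : ℝ} (hl : 0 ≤ l) (x y : ℤ) : 0 ≤ (l • nnZ) x y := by
  refine mul_nonneg hl ?_
  unfold nnZ; split_ifs <;> norm_num

lemma S_nnNr {l : ℝ} (hl : 0 ≤ l) (x y : ℕ) : 0 ≤ (l • nnN) x y := by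
  refine mul_nonneg hl ?_
  unfold nnN; split_ifs <;> norm_num

lemma S_exr {l : ℝ} (hl : 0 ≤ l) (n : ℕ) (x : ℤ) : 0 ≤ (l • exZ n) x := by
  refine mul_nonneg hl ?_
  unfold exZ; split_ifs <;> norm_num

/-- total occupation time on the cycle -/
noncomputable def S_G (N : ℕ) [NeZero N] (l : ℝ) : Finset (ZMod N) → ℝ :=
  green (univ : Finset (ZMod N)) (l • S_nn N) 0 cardR

lemma S_G_rot (N : ℕ) [NeZero N] {l : ℝ} (hl : 0 ≤ l) (x : ZMod N) :
    S_G N l {x} = S_G N l {0} := by
  have h := green_image (R := (univ : Finset (ZMod N))) (φ := fun y => y + x)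
    (r := l • S_nn N) (r' := l • S_nn N) (κ := 0) (κ' := 0) (f := cardR) (f' := cardR)
    (S_nnr hl) (S_nnr hl) (fun _ => le_rfl) (fun _ => le_rfl)
    (fun a _ b _ hab => add_right_cancel hab)
    (fun a _ b _ => by
      show l * S_nn N (a + x) (b + x) = l * S_nn N a b
      have h1 : (a + x + 1 = b + x) ↔ (a + 1 = b) := by
        rw [show a + x + 1 = (a + 1) + x by ring]; exact add_left_inj x
      have h2 : (b + x + 1 = a + x) ↔ (b + 1 = a) := by
        rw [show b + x + 1 = (b + 1) + x by ring]; exact add_left_inj x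
      unfold S_nn; simp only [h1, h2])
    (fun _ _ => rfl)
    (fun A _ => by
      unfold cardR
      rw [card_image_of_injective _ (fun a b hab => add_right_cancel hab)])
    (A := {0}) (subset_univ _)
  rw [image_univ_of_surjective (fun b => ⟨b - x, sub_add_cancel b x⟩)] at h
  simpa [S_G] using h

lemma S_cardR_nonneg {V : Type*} (A : Finset V) : 0 ≤ cardR A := by unfold cardR; positivity

lemma S_G_mono (N : ℕ) [NeZero N] {l : ℝ} (hl : 0 ≤ l) : MonoOn univ (S_G N l) :=
  green_monoOn (S_nnr hl) cardR_monoOn (by simp [cardR])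

lemma S_G_sub (N : ℕ) [NeZero N] {l : ℝ} (hl : 0 ≤ l) (A : Finset (ZMod N)) (x : ZMod N) :
    S_G N l (insert x A) ≤ S_G N l A + S_G N l {0} := by
  have h := (green_subModOn (R := (univ : Finset (ZMod N))) (r := l • S_nn N) (S_nnr hl)
    cardR_monoOn (by simp [cardR]) cardR_subModOn).subAddOn (green_empty _) {x} A
    (subset_univ _) (subset_univ _)
  rw [← S_G_rot N hl x]
  have e : insert x A = {x} ∪ A := rfl
  rw [e]
  show green _ _ _ _ _ ≤ green _ _ _ _ _ + green _ _ _ _ _
  linarith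

lemma S_G_ratemono (N : ℕ) [NeZero N] {l l' : ℝ} (hl : 0 ≤ l) (hll : l ≤ l')
    (A : Finset (ZMod N)) : S_G N l A ≤ S_G N l' A :=
  green_rate_mono (S_nnr hl) (S_nnr (hl.trans hll)) subset_rfl
    (fun x _ y _ => mul_le_mul_of_nonneg_right hll (S_nn_nonneg N x y)) cardR_monoOn
    (by simp [cardR]) (subset_univ _)

/-- the path embeds in a longer cycle -/
lemma S_path_le (N : ℕ) [NeZero N] {l : ℝ} (hl : 0 ≤ l) {n i : ℕ} (hi : i < n) (hN : n < N) :
    green (range n) (l • nnN) 0 cardR {i} ≤ S_G N l {0} := by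
  have hinj : ∀ a < N, ∀ b < N, (a : ZMod N) = b → a = b := by
    intro a ha b hb hab
    have := congrArg ZMod.val hab
    rwa [ZMod.val_cast_of_lt ha, ZMod.val_cast_of_lt hb] at this
  have h := green_image (R := range n) (φ := fun t : ℕ => (t : ZMod N))
    (r := l • nnN) (r' := l • S_nn N) (κ := 0) (κ' := 0) (f := cardR) (f' := cardR)
    (S_nnNr hl) (S_nnr hl) (fun _ => le_rfl) (fun _ => le_rfl)
    (fun a ha b hb hab => hinj a ((by simpa using ha : a < n).trans hN) b
      ((by simpa using hb : b < n).trans hN) hab)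
    (fun a ha b hb => by
      rw [mem_range] at ha hb
      show l * S_nn N a b = l * nnN a b
      have h1 : ((a : ZMod N) + 1 = b) ↔ (a + 1 = b) := by
        constructor
        · intro h
          exact hinj (a + 1) (by omega) b (by omega) (by push_cast; exact h)
        · intro h; rw [← h]; push_cast; rfl
      have h2 : ((b : ZMod N) + 1 = a) ↔ (b + 1 = a) := by
        constructor
        · intro h
          exact hinj (b + 1) (by omega) a (by omega) (by push_cast; exact h)
        · intro h; rw [← h]; push_cast; rfl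
      unfold S_nn nnN; simp only [h1, h2])
    (fun _ _ => rfl)
    (fun A hA => by
      unfold cardR
      rw [card_image_of_injOn]
      intro a ha b hb hab
      exact hinj a ((mem_range.1 (hA ha)).trans hN) b ((mem_range.1 (hA hb)).trans hN) hab)
    (A := {i}) (by simpa using hi)
  rw [← h, ← S_G_rot N hl (i : ZMod N)]
  exact green_rate_mono (S_nnr hl) (S_nnr hl) (subset_univ _) (fun _ _ _ _ => le_rfl)
    cardR_monoOn (by simp [cardR]) (image_subset_image (by simpa using hi))


lemma S_sum_cyc {N : ℕ} [NeZero N] (hN : 3 ≤ N) (c : ZMod N) (h : ZMod N → ℝ) :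
    ∑ y, S_nn N c y * h y = h (c + 1) + h (c - 1) := by
  have h2 : (2 : ZMod N) ≠ 0 := by
    intro h0
    have h1 : ((2 : ℕ) : ZMod N) = 0 := by exact_mod_cast h0
    rw [ZMod.natCast_eq_zero_iff] at h1
    have := Nat.le_of_dvd (by norm_num) h1
    omega
  have hne : c + 1 ≠ c - 1 := by
    intro h0
    apply h2
    have : (c + 1) - (c - 1) = 0 := by rw [h0]; ring
    have e : (c + 1) - (c - 1) = 2 := by ring
    rwa [e] at this
  have e : ∀ y, S_nn N c y * h y =
      (if y = c + 1 then h y else 0) + (if y = c - 1 then h y else 0) := by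
    intro y
    unfold S_nn
    by_cases h1 : y = c + 1
    · have h3 : y ≠ c - 1 := by rw [h1]; exact hne
      rw [if_pos (Or.inl h1.symm), if_pos h1, if_neg h3]; ring
    · by_cases h3 : y = c - 1
      · rw [if_pos (Or.inr (by rw [h3]; ring)), if_neg h1, if_pos h3]; ring
      · rw [if_neg, if_neg h1, if_neg h3]
        · ring
        · rintro (h4 | h4)
          · exact h1 h4.symm
          · exact h3 (by rw [← h4]; ring)
  simp only [e, sum_add_distrib, sum_ite_eq', mem_univ, if_true]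

lemma S_sum_win (n : ℕ) {x : ℤ} (hx : x ∈ Icc (-(n : ℤ)) n) (g : ℤ → ℝ) (F : ℝ)
    (h1 : g (x + 1) ≤ F) (h2 : g (x - 1) ≤ F) :
    g (x + 1) + g (x - 1) ≤ ∑ y ∈ Icc (-(n : ℤ)) n, nnZ x y * g y + exZ n x * F := by
  have e : ∀ y, nnZ x y * g y =
      (if y = x + 1 then g y else 0) + (if y = x - 1 then g y else 0) := by
    intro y
    unfold nnZ
    by_cases h1 : y = x + 1
    · rw [if_pos (Or.inl h1.symm), if_pos h1, if_neg (by omega)]; ring
    · by_cases h3 : y = x - 1
      · rw [if_pos (Or.inr (by omega)), if_neg h1, if_pos h3]; ring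
      · rw [if_neg (by omega), if_neg h1, if_neg h3]; ring
  simp only [e, sum_add_distrib, sum_ite_eq']
  rw [mem_Icc] at hx
  unfold exZ
  by_cases ha : x = n
  · by_cases hb : x = -n
    · rw [if_neg (by rw [mem_Icc]; omega), if_neg (by rw [mem_Icc]; omega), if_pos ha, if_pos hb]
      linarith
    · rw [if_neg (by rw [mem_Icc]; omega), if_pos (by rw [mem_Icc]; omega), if_pos ha, if_neg hb]
      linarith
  · by_cases hb : x = -n
    · rw [if_pos (by rw [mem_Icc]; omega), if_neg (by rw [mem_Icc]; omega), if_neg ha, if_pos hb]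
      linarith
    · rw [if_pos (by rw [mem_Icc]; omega), if_pos (by rw [mem_Icc]; omega), if_neg ha, if_neg hb]
      linarith

lemma S_cast_inj {N n : ℕ} (hN : 2 * n + 3 ≤ N) {a b : ℤ} (ha : a ∈ Icc (-(n : ℤ)) n)
    (hb : b ∈ Icc (-(n : ℤ)) n) (h : (a : ZMod N) = b) : a = b := by
  rw [ZMod.intCast_eq_intCast_iff_dvd_sub] at h
  rw [mem_Icc] at ha hb
  have := Int.eq_zero_of_abs_lt_dvd h (by rw [abs_lt]; constructor <;> omega)
  omega

/-- the comparison between the window and the cycle -/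
lemma S_window {N n : ℕ} [NeZero N] (hN : 2 * n + 3 ≤ N) {l : ℝ} (hl : 0 ≤ l)
    {A : Finset ℤ} (hA : A ⊆ Icc (-(n : ℤ)) n) (hne : A ≠ ∅) :
    - cardR A - S_G N l {0} * kill (l • exZ n) A ≤
      gen (Icc (-(n : ℤ)) n) (l • nnZ) (fun S => S_G N l (S.image fun x : ℤ => (x : ZMod N))) A := by
  set ψ : ℤ → ZMod N := fun x => (x : ZMod N) with hψ
  set B := A.image ψ with hB
  set G := S_G N l with hG
  have hinj : Set.InjOn ψ A := fun a ha b hb hab => S_cast_inj hN (hA ha) (hA hb) hab
  have hBne : B ≠ ∅ := by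
    rw [hB]; intro h0
    exact hne (image_eq_empty.1 h0)
  have e1 := gen_green (R := (univ : Finset (ZMod N))) (r := l • S_nn N) (S_nnr hl) cardR
    (subset_univ B) hBne
  change gen univ (l • S_nn N) G B = - cardR B at e1
  have hcard : cardR B = cardR A := by
    unfold cardR; rw [hB, card_image_of_injOn hinj]
  rw [hcard, S_gen_eq _ _ (subset_univ B)] at e1
  rw [S_gen_eq _ _ hA]
  rw [hB, sum_image hinj, sum_image hinj, ← hB] at e1
  have e2 : ∑ x ∈ A, (G (B.erase (ψ x)) - G B) =
      ∑ x ∈ A, (G ((A.erase x).image ψ) - G (A.image ψ)) := by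
    refine sum_congr rfl fun x hx => ?_
    have : B.erase (ψ x) = (A.erase x).image ψ := by
      ext y
      simp only [hB, mem_erase, mem_image]
      constructor
      · rintro ⟨hy, a, ha, rfl⟩
        exact ⟨a, ⟨fun h0 => hy (by rw [h0]), ha⟩, rfl⟩
      · rintro ⟨a, ⟨hax, ha⟩, rfl⟩
        exact ⟨fun h0 => hax (hinj ha hx h0), a, ha, rfl⟩
    rw [this]
  have e3 : ∀ x ∈ A, ∑ y, (l • S_nn N) (ψ x) y * (G (insert y B) - G B) ≤
      ∑ y ∈ Icc (-(n : ℤ)) n, (l • nnZ) x y * (G ((insert y A).image ψ) - G (A.image ψ))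
        + G {0} * (l • exZ n) x := by
    intro x hx
    have f1 : ∑ y, (l • S_nn N) (ψ x) y * (G (insert y B) - G B) =
        l * ∑ y, S_nn N (ψ x) y * (G (insert y B) - G B) := by
      rw [mul_sum]; exact sum_congr rfl fun y _ => by
        show l * S_nn N (ψ x) y * _ = _
        ring
    have f2 : ∑ y ∈ Icc (-(n : ℤ)) n,
        (l • nnZ) x y * (G ((insert y A).image ψ) - G (A.image ψ)) =
        l * ∑ y ∈ Icc (-(n : ℤ)) n, nnZ x y * (G (insert (ψ y) B) - G B) := by
      rw [mul_sum]; exact sum_congr rfl fun y _ => by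
        show l * nnZ x y * _ = _
        rw [image_insert]; ring
    have f3 := S_sum_cyc (by omega : 3 ≤ N) (ψ x) (fun y => G (insert y B) - G B)
    have hsub : ∀ y, G (insert y B) - G B ≤ G {0} := fun y => by
      have := S_G_sub N hl B y
      rw [hG]; linarith
    have f4 := S_sum_win n (hA hx) (fun y => G (insert (ψ y) B) - G B) (G {0}) (hsub _) (hsub _)
    have f5 : ψ (x + 1) = ψ x + 1 := by simp [hψ]
    have f6 : ψ (x - 1) = ψ x - 1 := by simp [hψ]
    rw [f1, f2, f3]
    simp only [f5, f6] at f4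
    have f7 := mul_le_mul_of_nonneg_left f4 hl
    have f8 : (l • exZ n) x = l * exZ n x := rfl
    rw [f8]
    nlinarith
  have e4 := sum_le_sum e3
  rw [sum_add_distrib, ← mul_sum] at e4
  have e5 : kill (l • exZ n) A = ∑ x ∈ A, (l • exZ n) x := rfl
  rw [e5]
  rw [e2] at e1
  linarith

/-- the differential inequality, from the unboundedness of the total occupation on cycles -/
lemma S_ineq {t : ℝ} (ht : 0 < t) (n : ℕ)
    (hunb : ∀ K : ℝ, ∀ M : ℕ, ∃ N, M ≤ N ∧ K < S_G (N + 1) t {0}) :
    1 - thZ n t ≤ 2 * green (Icc (-(n : ℤ)) n) (t • nnZ) (t • exZ n)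
      (piv (theta (Icc (-(n : ℤ)) n) (t • nnZ) (t • exZ n))) {0} := by
  set V := Icc (-(n : ℤ)) n with hV
  set θ := theta V (t • nnZ) (t • exZ n) with hθ
  set P := green V (t • nnZ) (t • exZ n) (piv θ) {0} with hP
  set C := green V (t • nnZ) (t • exZ n) cardR {0} with hC
  have h0V : ({0} : Finset ℤ) ⊆ V := by
    rw [singleton_subset_iff, hV, mem_Icc]; constructor <;> omega
  have hth : thZ n t = θ {0} := rfl
  rw [hth]
  by_contra hcon
  push Not at hcon
  have hpos : 0 < 1 - θ {0} - 2 * P := by linarith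
  obtain ⟨N, hN, hK⟩ := hunb (C / (1 - θ {0} - 2 * P)) (2 * n + 3)
  rw [div_lt_iff₀ hpos] at hK
  set F := S_G (N + 1) t {0} with hF
  have key := S_key (R := V) (r := t • nnZ) (κ := t • exZ n) (S_nnZr ht.le) (S_exr ht.le n)
    (G := fun S => S_G (N + 1) t (S.image fun x : ℤ => (x : ZMod (N + 1)))) (F := F)
    (by simp [S_G])
    (fun A B hAB _ => S_G_mono (N + 1) ht.le _ _ (image_subset_image hAB) (subset_univ _))
    (fun A _ x _ => by
      show S_G (N + 1) t ((insert x A).image fun x : ℤ => (x : ZMod (N + 1))) ≤ _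
      rw [image_insert]; exact S_G_sub (N + 1) ht.le _ _)
    (fun A hA hne => S_window (N := N + 1) (by omega) ht.le hA hne) (A := {0}) h0V
  have e1 : green V (t • nnZ) (t • exZ n) (fun S => cardR S + 2 * F * piv θ S) {0} =
      C + 2 * F * P := by
    rw [green_add (S_nnZr ht.le) (S_exr ht.le n), green_smul (S_nnZr ht.le) (S_exr ht.le n)]
  have e2 : (({0} : Finset ℤ).image fun x : ℤ => (x : ZMod (N + 1))) = {0} := by simp
  rw [← hθ, e1] at key
  simp only [e2] at key
  rw [← hF] at key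
  linarith

theorem sharpness {l l' : ℝ} (hl : 0 < l) (hll : l < l') (h : ∀ ε > 0, ∃ n, thZ n l' < ε) :
    ∃ χ, PathBound l χ := by
  by_contra hcon
  have hunb : ∀ K : ℝ, ∀ M : ℕ, ∃ N, M ≤ N ∧ K < S_G (N + 1) l {0} := by
    intro K M
    by_contra hc
    push Not at hc
    refine hcon ⟨max 1 K, le_max_left _ _, fun n i hi => ?_⟩
    refine (S_path_le (max M n + 1) hl.le hi (by omega)).trans ?_
    exact (hc (max M n) (le_max_left _ _)).trans (le_max_right _ _)
  have hl' : 0 < l' := hl.trans hll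
  have hs : Real.sqrt l < Real.sqrt l' := Real.sqrt_lt_sqrt hl.le hll
  have hs' : 0 < Real.sqrt l' := Real.sqrt_pos.2 hl'
  have hε : 0 < 1 - Real.sqrt l / Real.sqrt l' := by
    rw [sub_pos, div_lt_one hs']; exact hs
  obtain ⟨n, hn⟩ := h _ hε
  have h0V : ({0} : Finset ℤ) ⊆ Icc (-(n : ℤ)) n := by
    rw [singleton_subset_iff, mem_Icc]; constructor <;> omega
  -- derivative
  have hder : ∀ t, 0 < t → HasDerivAt (fun s => Real.sqrt s * (1 - thZ n s))
      (1 / (2 * Real.sqrt t) * (1 - thZ n t) + Real.sqrt t * (0 - (t⁻¹ *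
        green (Icc (-(n : ℤ)) n) (t • nnZ) (t • exZ n)
      (piv (theta (Icc (-(n : ℤ)) n) (t • nnZ) (t • exZ n))) {0}))) t := by
    intro t ht
    refine (Real.hasDerivAt_sqrt ht.ne').mul ?_
    refine (hasDerivAt_const t (1 : ℝ)).sub ?_
    exact hasDerivAt_theta (fun x y => by unfold nnZ; split_ifs <;> norm_num)
      (fun x => by unfold exZ; split_ifs <;> norm_num) ht h0V
  have hanti : AntitoneOn (fun s => Real.sqrt s * (1 - thZ n s)) (Set.Icc l l') := by
    refine antitoneOn_of_deriv_nonpos (convex_Icc l l') ?_ ?_ ?_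
    · intro t ht
      exact (hder t (hl.trans_le ht.1)).continuousAt.continuousWithinAt
    · intro t ht
      rw [interior_Icc] at ht
      exact (hder t (hl.trans ht.1)).differentiableAt.differentiableWithinAt
    · intro t ht
      rw [interior_Icc] at ht
      have ht0 : 0 < t := hl.trans ht.1
      rw [(hder t ht0).deriv]
      have hst : 0 < Real.sqrt t := Real.sqrt_pos.2 ht0
      have hineq := S_ineq ht0 n (fun K M => by
        obtain ⟨N, hN, hK⟩ := hunb K M
        exact ⟨N, hN, hK.trans_le (S_G_ratemono (N + 1) hl.le ht.1.le _)⟩)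
      set P := green (Icc (-(n : ℤ)) n) (t • nnZ) (t • exZ n)
        (piv (theta (Icc (-(n : ℤ)) n) (t • nnZ) (t • exZ n))) {0}
      have e1 : Real.sqrt t * (0 - t⁻¹ * P) = - (P / Real.sqrt t) := by
        have : t⁻¹ = (Real.sqrt t)⁻¹ * (Real.sqrt t)⁻¹ := by
          rw [← mul_inv, Real.mul_self_sqrt ht0.le]
        rw [this]; field_simp; ring
      have e2 : 1 / (2 * Real.sqrt t) * (1 - thZ n t) = (1 - thZ n t) / 2 / Real.sqrt t := by
        field_simp
      rw [e1, e2, ← sub_eq_add_neg, ← sub_div]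
      exact div_nonpos_of_nonpos_of_nonneg (by linarith) hst.le
  have h1 := hanti (Set.left_mem_Icc.2 hll.le) (Set.right_mem_Icc.2 hll.le) hll.le
  simp only at h1
  have h2 : 0 ≤ thZ n l := theta_nonneg (S_nnZr hl.le) (S_exr hl.le n) _
  have h3 : Real.sqrt l * (1 - thZ n l) ≤ Real.sqrt l := by
    nlinarith [Real.sqrt_nonneg l]
  have h4 : 1 - thZ n l' ≤ Real.sqrt l / Real.sqrt l' := by
    rw [le_div_iff₀ hs']; linarith
  linarith

end S

end Pool.Agent.CP34
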