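import Pool.Agent.CP34.ZA
import Pool.Agent.CP34.S

/-!
# Module ZL: below the critical rate of `ℤ` the occupation times on paths are bounded
-/

open Finset Filter Topology
open MeasureTheory ProbabilityTheory
open scoped NNReal ENNReal

namespace Pool.Agent.CP34

section ZL

lemma ZL_adj (x y : ℤ) : intGraph.Adj x y ↔ (x + 1 = y ∨ y + 1 = x) := Iff.rfl

lemma ZL_ex (n : ℕ) {x : ℤ} (hx : x ∈ Icc (-(n : ℤ)) n) :
    ((intGraph.neighborFinset x \ Icc (-(n : ℤ)) n).card : ℝ) = exZ n x := by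
  have e : intGraph.neighborFinset x \ Icc (-(n : ℤ)) n =
      (if x = n then {x + 1} else ∅) ∪ (if x = -(n : ℤ) then {x - 1} else ∅) := by
    rw [mem_Icc] at hx
    ext y
    rw [Finset.mem_sdiff, SimpleGraph.mem_neighborFinset, ZL_adj, Finset.mem_Icc, Finset.mem_union]
    by_cases ha : x = n
    · by_cases hb : x = -(n : ℤ)
      · rw [if_pos ha, if_pos hb, mem_singleton, mem_singleton]; omega
      · rw [if_pos ha, if_neg hb, mem_singleton]
        simp only [notMem_empty, or_false]; omega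
    · by_cases hb : x = -(n : ℤ)
      · rw [if_neg ha, if_pos hb, mem_singleton]
        simp only [notMem_empty, false_or]; omega
      · rw [if_neg ha, if_neg hb]
        simp only [notMem_empty, false_or, iff_false]; omega
  rw [e]
  unfold exZ
  by_cases ha : x = n
  · by_cases hb : x = -(n : ℤ)
    · rw [if_pos ha, if_pos hb, if_pos ha, if_pos hb, card_union_of_disjoint]
      · norm_num
      · rw [disjoint_singleton]; omega
    · rw [if_pos ha, if_neg hb, if_pos ha, if_neg hb]; simp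
  · by_cases hb : x = -(n : ℤ)
    · rw [if_neg ha, if_pos hb, if_neg ha, if_pos hb]; simp
    · rw [if_neg ha, if_neg hb, if_neg ha, if_neg hb]; simp

theorem exists_thZ_lt {l : ℝ≥0} (h : zeta intGraph l {0} = 0) {ε : ℝ} (hε : 0 < ε) :
    ∃ n, thZ n l < ε := by
  classical
  have hlim := zeta_eq_lim intGraph l (R := fun n : ℕ => Icc (-(n : ℤ)) n)
    (fun m n hmn => Icc_subset_Icc (by omega) (by omega))
    (fun x => ⟨x.natAbs, by rw [mem_Icc]; omega⟩) {0}
  rw [h] at hlim
  obtain ⟨n, hn⟩ := ((tendsto_order.1 hlim).2 ε hε).exists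
  refine ⟨n, lt_of_le_of_lt ?_ hn⟩
  refine theta_rate_mono (S_nnZr l.2) (ZA_adjR_nonneg intGraph l.2) (S_exr l.2 n)
    (ZA_exG_nonneg intGraph l.2 _) subset_rfl (fun x _ y _ => ?_) (fun x hx => ?_) ?_
  · show (l : ℝ) * nnZ x y ≤ adjR intGraph (l : ℝ) x y
    unfold nnZ adjR
    simp only [ZL_adj]
    split_ifs <;> simp
  · show (l : ℝ) * exZ n x ≤ exG intGraph (l : ℝ) _ x
    unfold exG
    rw [ZL_ex n hx]
  · rw [singleton_subset_iff, mem_Icc]; constructor <;> omega

theorem pathBound_of_lt {l : ℝ≥0} (hl : 0 < l) (h : (l : ℝ≥0∞) < lambdaC) :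
    ∃ χ, PathBound l χ := by
  unfold lambdaC at h
  obtain ⟨l', h'⟩ := lt_iSup_iff.1 h
  obtain ⟨h0, h''⟩ := lt_iSup_iff.1 h'
  exact sharpness (l := l) (l' := l') (by exact_mod_cast hl) (by exact_mod_cast h'')
    fun ε hε => exists_thZ_lt h0 hε

end ZL

end Pool.Agent.CP34
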