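import Pool.Agent.CP34.HT
import Pool.Agent.CP34.GL
import Pool.Agent.CP34.ZL

/-! # Module FIN: the main theorems -/

open Finset Filter Topology
open MeasureTheory ProbabilityTheory
open scoped NNReal ENNReal

namespace Pool.Agent.CP34

theorem main_infinite {lam : ℕ → ℝ≥0} (hpos : ∀ i, 0 < lam i) (hmono : StrictMono lam)
    (hc : ∀ i, (lam i : ℝ≥0∞) < lambdaC) :
    ∃ (V : Type) (_ : Countable V) (_ : DecidableEq V) (G : SimpleGraph V) (_ : G.LocallyFinite),
      G.Connected ∧ (∃ Δ : ℕ, ∀ x, G.degree x ≤ Δ) ∧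
      ∀ A : Finset V, A.Nonempty → ∀ i, ¬ ContinuousAt (fun l : ℝ≥0 => zeta G l A) (lam i) := by
  obtain ⟨Δ, hΔ⟩ := exists_goodTree (l1 := lam 0) (by exact_mod_cast hpos 0)
  have h : ∀ i, ∃ Q : (ℕ → List ℕ) × ℕ × ℝ × ℝ, GoodTree Δ (lam i) Q.1 Q.2.1 Q.2.2.1 Q.2.2.2 := by
    intro i
    obtain ⟨χ, hχ⟩ := pathBound_of_lt (hpos i) (hc i)
    obtain ⟨P, M, s, δ, hT⟩ := hΔ (lam i) χ (by exact_mod_cast hmono.monotone (Nat.zero_le i)) hχ
    exact ⟨(P, M, s, δ), hT⟩
  choose Q hQ using h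
  exact gluing hpos hQ

/-- extension of a finite sequence below `c` to an infinite one -/
lemma fin_extend {n : ℕ} {lam : Fin n → ℝ≥0} (hpos : ∀ i, 0 < lam i) (hmono : StrictMono lam)
    (hn : 0 < n) (hc : ∀ i, (lam i : ℝ≥0∞) < lambdaC) :
    ∃ mu : ℕ → ℝ≥0, (∀ i, 0 < mu i) ∧ StrictMono mu ∧ (∀ i, (mu i : ℝ≥0∞) < lambdaC) ∧
      ∀ i : Fin n, mu i = lam i := by
  set m : Fin n := ⟨n - 1, by omega⟩ with hm
  obtain ⟨c, hc1, hc2⟩ := ENNReal.lt_iff_exists_nnreal_btwn.1 (hc m)
  have hc1' : lam m < c := by exact_mod_cast hc1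
  -- continuation between `lam m` and `c`
  let ext : ℕ → ℝ≥0 := fun j => c - (c - lam m) / 2 ^ j
  have hd : 0 < c - lam m := tsub_pos_of_lt hc1'
  have hext_lt : ∀ j, ext j < c := fun j => by
    have h1 : (c - lam m) / 2 ^ j ≤ c := by
      refine le_trans (div_le_self zero_le ?_) tsub_le_self
      exact one_le_pow₀ (by norm_num)
    have h2 : 0 < (c - lam m) / 2 ^ j := by positivity
    have h3 : 0 < c := lt_of_le_of_lt zero_le hc1'
    exact tsub_lt_self h3 h2
  have hext_mono : ∀ j, ext j < ext (j + 1) := fun j => by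
    have h1 : (c - lam m) / 2 ^ j ≤ c := by
      refine le_trans (div_le_self zero_le ?_) tsub_le_self
      exact one_le_pow₀ (by norm_num)
    have h2 : (c - lam m) / 2 ^ (j + 1) < (c - lam m) / 2 ^ j := by
      apply div_lt_div_of_pos_left hd (by positivity)
      exact pow_lt_pow_right₀ (by norm_num) (by omega)
    exact tsub_lt_tsub_left_of_le h1 h2
  have hext_sm : StrictMono ext := strictMono_nat_of_lt_succ hext_mono
  have hext0 : ext 0 = lam m := by
    show c - (c - lam m) / 2 ^ 0 = lam m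
    rw [pow_zero, div_one]
    exact tsub_tsub_cancel_of_le hc1'.le
  let mu : ℕ → ℝ≥0 := fun j => if h : j < n then lam ⟨j, h⟩ else ext (j + 1 - n)
  have hmu_lt : ∀ j (h : j < n), mu j = lam ⟨j, h⟩ := fun j h => by simp only [mu]; rw [dif_pos h]
  have hmu_ge : ∀ j, n ≤ j → mu j = ext (j + 1 - n) := fun j h => by
    simp only [mu]; rw [dif_neg (by omega)]
  have hmono' : StrictMono mu := by
    apply strictMono_nat_of_lt_succ
    intro j
    rcases Nat.lt_or_ge (j + 1) n with h | h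
    · rw [hmu_lt j (by omega), hmu_lt (j + 1) h]
      exact hmono (by show j < j + 1; omega)
    · rcases Nat.lt_or_ge j n with h' | h'
      · have hj : j = n - 1 := by omega
        rw [hmu_lt j h', hmu_ge (j + 1) h]
        have e1 : (⟨j, h'⟩ : Fin n) = m := by rw [hm]; exact Fin.ext hj
        have e2 : j + 1 + 1 - n = 1 := by omega
        rw [e1, e2, ← hext0]
        exact hext_mono 0
      · rw [hmu_ge j h', hmu_ge (j + 1) h]
        exact hext_sm (by omega)
  refine ⟨mu, ?_, hmono', ?_, fun i => hmu_lt i i.2⟩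
  · intro i
    have h0 : 0 < mu 0 := by rw [hmu_lt 0 hn]; exact hpos _
    exact lt_of_lt_of_le h0 (hmono'.monotone (Nat.zero_le i))
  · intro i
    rcases Nat.lt_or_ge i n with h | h
    · rw [hmu_lt i h]; exact hc _
    · rw [hmu_ge i h]
      exact lt_trans (by exact_mod_cast hext_lt _) hc2

end Pool.Agent.CP34
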