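import Pool.Agent.CP34.Defs2
import Pool.Agent.CP34.G1
import Pool.Agent.CP34.AL
import Pool.Agent.CP34.TT

/-! # Module GT: tuning of the gadget and of the length of the links -/

open Finset Filter Topology
open List (replicate)

namespace Pool.Agent.CP34

variable {l χ : ℝ} {k d ℓ : ℕ}

/-- total crossing probability of one gadget with links of length `ℓ` -/
noncomputable def gtS (l : ℝ) (k d ℓ : ℕ) : ℝ :=
  ∑ w ∈ Lev (gprof k d ℓ ℓ), theta (Reg (gprof k d ℓ ℓ)) (tr l) (pt w.dropLast l) {replicate ℓ 0}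

/-- profile above the down-links -/
def gtp (k d ℓ : ℕ) : List ℕ := replicate ℓ 1 ++ replicate k d

lemma gt_prof : gprof k d ℓ ℓ = gtp k d ℓ ++ replicate ℓ 1 := rfl

lemma gt_gad_sub : gad k d ℓ ⊆ Reg (gtp k d ℓ) := by
  have := tt_gad_sub k d ℓ []
  rwa [List.append_nil] at this

lemma gt_gad_sub' : gad k d ℓ ⊆ Reg (gprof k d ℓ ℓ) :=
  gt_gad_sub.trans (TR_Reg_sub _ _)

lemma gt_ne (hk : 1 ≤ k) : gtp k d ℓ ≠ [] := by
  intro h
  have := congrArg List.length h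
  simp [gtp] at this; omega

lemma tt_theta_le (hl : 0 ≤ l) {R A : Finset (List ℕ)} {e : List ℕ} (hA : A ⊆ R) :
    theta R (tr l) (pt e l) A ≤ l * green R (tr l) 0 (hit {e}) A := by
  refine (theta_le_green (tr_nonneg hl) (pt_nonneg hl) hA).trans (le_of_eq ?_)
  rw [← green_smul (κ := 0) (tr_nonneg hl) (fun _ => le_rfl)]
  exact green_congr (tr_nonneg hl) (fun _ => le_rfl) (fun S _ _ => kill_pt l S) A

lemma gt_le (hl : 0 ≤ l) (hk : 1 ≤ k) (hℓ : 1 ≤ ℓ) {w v : List ℕ} (hw : w ∈ Lev (gtp k d ℓ))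
    (hv : v ∈ gad k d ℓ) :
    green (Reg (gprof k d ℓ ℓ)) (tr l) 0 (hit {(w ++ replicate ℓ 0).dropLast}) {v} ≤
      l * gP l ℓ * green (Reg (gprof k d ℓ ℓ)) (tr l) 0 (hit {w.dropLast}) {v} := by
  rw [tt_dropLast_link w hℓ, gt_prof]
  exact al_le hl (gt_ne hk) hℓ hw (by simpa using gt_gad_sub hv)

lemma gt_ge (hl : 0 ≤ l) (hk : 1 ≤ k) (hℓ : 1 ≤ ℓ) {w v : List ℕ} (hw : w ∈ Lev (gtp k d ℓ))
    (hv : v ∈ gad k d ℓ) :
    aP l ℓ * green (Reg (gprof k d ℓ ℓ)) (tr l) 0 (hit {w.dropLast}) {v} ≤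
    green (Reg (gprof k d ℓ ℓ)) (tr l) 0 (hit {(w ++ replicate ℓ 0).dropLast}) {v} := by
  rw [tt_dropLast_link w hℓ, gt_prof]
  exact al_ge hl (gt_ne hk) hℓ hw (by simpa using gt_gad_sub hv)

/-- abbreviation for the uniform time bound -/
noncomputable def gtT (l χ : ℝ) (k d : ℕ) : ℝ :=
  Tmax l χ (d + 1) (Reg (replicate k d)).card (d ^ k + 1)

lemma gt_time (hl : 0 ≤ l) (hχ : PathBound l χ) (hk : 1 ≤ k) (hd : 1 ≤ d) {v w : List ℕ}
    (hv : v ∈ gad k d ℓ) (hw : w ∈ gad k d ℓ) :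
    green (Reg (gprof k d ℓ ℓ)) (tr l) 0 (hit {w}) {v} ≤ gtT l χ k d :=
  (tt_green_left hl (by simpa using hw) _).trans
    (g1_time hl hχ hk hd (by simpa using hv))

lemma gt_card_Lev : (Lev (gprof k d ℓ ℓ)).card = d ^ k := by
  rw [card_Lev]; simp [gprof]

lemma gt_S_le (hl : 0 ≤ l) (hχ : PathBound l χ) (hk : 1 ≤ k) (hd : 1 ≤ d) (hℓ : 1 ≤ ℓ) :
    gtS l k d ℓ ≤ (d : ℝ) ^ k * (l * (l * gP l ℓ * gtT l χ k d)) := by
  have h : ∀ w ∈ Lev (gprof k d ℓ ℓ), theta (Reg (gprof k d ℓ ℓ)) (tr l) (pt w.dropLast l)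
      {replicate ℓ 0} ≤ l * (l * gP l ℓ * gtT l χ k d) := by
    intro w hw
    rw [gt_prof, tt_lev_link] at hw
    obtain ⟨w0, hw0, rfl⟩ := Finset.mem_image.1 hw
    refine (tt_theta_le hl (by simpa using gt_gad_sub' (tt_root_mem hk))).trans ?_
    refine mul_le_mul_of_nonneg_left ?_ hl
    refine (gt_le hl hk hℓ hw0 (tt_root_mem hk)).trans ?_
    exact mul_le_mul_of_nonneg_left (gt_time hl hχ hk hd (tt_root_mem hk) (tt_port_mem hk hw0))
      (mul_nonneg hl (gP_nonneg hl ℓ))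
  have := sum_le_card_nsmul _ _ _ h
  rw [gt_card_Lev, nsmul_eq_mul] at this
  unfold gtS
  refine this.trans (le_of_eq ?_)
  push_cast; rfl

lemma gt_S_lt (hl : 0 ≤ l) (hχ : PathBound l χ) (hk : 1 ≤ k) (hd : 1 ≤ d) :
    ∃ n : ℕ, gtS l k d (n + 1) < 2 := by
  have h1 : Tendsto (fun n : ℕ => (d : ℝ) ^ k * (l * (l * gP l (n + 1) * gtT l χ k d))) atTop
      (𝓝 ((d : ℝ) ^ k * (l * (l * 0 * gtT l χ k d)))) :=
    Tendsto.const_mul _ (Tendsto.const_mul _ (Tendsto.mul_const _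
      (Tendsto.const_mul _ ((gP_tendsto hl hχ).comp (tendsto_add_atTop_nat 1)))))
  have h2 : (d : ℝ) ^ k * (l * (l * 0 * gtT l χ k d)) < 2 := by simp
  obtain ⟨n, hn⟩ := (h1.eventually (gt_mem_nhds h2)).exists
  exact ⟨n, (gt_S_le hl hχ hk hd (by omega)).trans_lt hn⟩

/-- crossing lower bound for one step -/
lemma gt_pow_le (hl : 0 < l) {L : ℕ} (hL : 1 ≤ L) : (l / (1 + l)) ^ L ≤ aP l L := by
  induction L, hL using Nat.le_induction with
  | base => rw [aP_one hl.le, pow_one]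
  | succ n hn ih =>
    refine le_trans ?_ (aP_succ hl.le hn)
    rw [pow_succ]
    exact mul_le_mul_of_nonneg_right ih (by positivity)

lemma gt_S_one (hl : 0 < l) (_hk : 1 ≤ k)
    (hD : 2 * ((1 + l) / l) ^ (k + 1) ≤ (d : ℝ) ^ k) : 2 ≤ gtS l k d 1 := by
  have h : ∀ w ∈ Lev (gprof k d 1 1), (l / (1 + l)) ^ (k + 1) ≤
      theta (Reg (gprof k d 1 1)) (tr l) (pt w.dropLast l) {replicate 1 0} := by
    intro w hw
    have e : gprof k d 1 1 = replicate 1 1 ++ (replicate k d ++ replicate 1 1) := by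
      unfold gprof; rw [List.append_assoc]
    rw [e, Lev_append, tt_lev_rep, singleton_biUnion] at hw
    obtain ⟨w', hw', rfl⟩ := Finset.mem_image.1 hw
    have := theta_straight' hl (p := replicate 1 1) (q := replicate k d ++ replicate 1 1)
      (by simp) (tt_root_lev 1) hw'
    rw [e]
    refine le_trans ?_ this
    have hlen : (replicate k d ++ replicate 1 1).length = k + 1 := by simp
    rw [hlen]
    exact gt_pow_le hl (by omega)
  have h2 := card_nsmul_le_sum _ _ _ h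
  rw [gt_card_Lev, nsmul_eq_mul] at h2
  unfold gtS
  refine le_trans ?_ h2
  push_cast
  have e : (l / (1 + l)) ^ (k + 1) * ((1 + l) / l) ^ (k + 1) = 1 := by
    rw [← mul_pow]
    have : l / (1 + l) * ((1 + l) / l) = 1 := by field_simp
    rw [this, one_pow]
  have hp : 0 < (l / (1 + l)) ^ (k + 1) := by positivity
  nlinarith

/-- hitting probability of the far end of a down-link versus expectation -/
lemma gt_theta_ge (hl : 0 < l) (hχ : PathBound l χ) (hk : 1 ≤ k) (hd : 1 ≤ d) (hℓ : 1 ≤ ℓ)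
    {w : List ℕ} (hw : w ∈ Lev (gtp k d ℓ)) {K M g : ℝ}
    (hK : K = ((1 + l) / l) ^ (2 * k))
    (hM : M = 1 + 2 * χ * (Real.log (1 + ((d ^ k + 1 : ℕ) : ℝ)) + l * χ ^ 2))
    (hg : g = green (Reg (gprof k d ℓ ℓ)) (tr l) 0 (hit {w.dropLast}) {replicate ℓ 0}) :
    l * aP l ℓ * g / ((1 + l * χ) * (1 + M * K * (l * aP l ℓ * g))) ≤
      theta (Reg (gprof k d ℓ ℓ)) (tr l) (pt (w ++ replicate ℓ 0).dropLast l) {replicate ℓ 0} := by
  have hx := tt_root_mem (k := k) (d := d) (a := ℓ) hk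
  have hport := tt_port_mem hk hw
  have hr := tr_nonneg hl.le
  set R := Reg (gprof k d ℓ ℓ) with hR
  set e := (w ++ replicate ℓ 0).dropLast with he
  have he' : e = w ++ replicate (ℓ - 1) 0 := tt_dropLast_link w hℓ
  have heR : e ∈ R := by
    rw [he', hR, gt_prof, Reg_append]
    refine Finset.mem_union_right _ (mem_biUnion.2 ⟨w, hw, Finset.mem_image.2
      ⟨replicate (ℓ - 1) 0, ?_, rfl⟩⟩)
    have h1 : replicate ℓ 1 = replicate (ℓ - 1) 1 ++ replicate 1 1 := by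
      rw [List.replicate_append_replicate]; congr 1; omega
    rw [h1, Reg_append]
    refine Finset.mem_union_right _ (mem_biUnion.2 ⟨_, tt_root_lev _, Finset.mem_image.2
      ⟨[], ?_, by simp⟩⟩)
    exact TR_nil_mem (by simp)
  have hxR : ({replicate ℓ 0} : Finset (List ℕ)) ⊆ R := by
    simpa using gt_gad_sub' hx
  have h1 := theta_point_ge (R := R) hr heR hl.le hxR
  set ge := green R (tr l) 0 (hit {e}) {replicate ℓ 0} with hge
  set gR := green R (tr l) 0 (hit {e}) R with hgR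
  have hχ1 := hχ.one_le
  have hge0 : 0 ≤ ge := tt_green_nonneg hl.le _ _
  have hgR0 : 0 ≤ gR := tt_green_nonneg hl.le _ _
  have hg0 : 0 ≤ g := by rw [hg]; exact tt_green_nonneg hl.le _ _
  have hM1 : 1 ≤ M := by
    rw [hM]
    have : 0 ≤ Real.log (1 + ((d ^ k + 1 : ℕ) : ℝ)) := Real.log_nonneg (by
      have : (0 : ℝ) ≤ ((d ^ k + 1 : ℕ) : ℝ) := by positivity
      linarith)
    have h3 : 0 ≤ 2 * χ * (Real.log (1 + ((d ^ k + 1 : ℕ) : ℝ)) + l * χ ^ 2) := by positivity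
    linarith
  have hK0 : 0 < K := by rw [hK]; positivity
  have ha0 : 0 ≤ aP l ℓ := aP_nonneg hl.le ℓ
  -- gR ≤ χ + l gP M K g
  have h2 : gR ≤ χ + l * gP l ℓ * (M * (K * g)) := by
    have d1 : gR = green R (tr l) 0 (hit R) {e} :=
      green_dual hr tr_symm (subset_refl R) (by simpa using heR)
    have d2 := al_end hl.le hχ (gt_ne (d := d) (ℓ := ℓ) hk) hℓ hw
    rw [← gt_prof, ← hR, ← he'] at d2
    have d3 := g1_alive (a := ℓ) (b := ℓ) hl.le hχ hk hd (A := {w.dropLast}) (by simpa using hport)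
    rw [← hR, ← hM] at d3
    have d4 := gad_compare (k := k) (d := d) (a := ℓ) hl (R := R) gt_gad_sub' hx
      (A := {w.dropLast}) (by simpa using gt_gad_sub' hport)
    rw [← hK, tt_dual hl.le (gt_gad_sub' hport) (gt_gad_sub' hx), ← hR, ← hg] at d4
    have hP := mul_nonneg hl.le (gP_nonneg hl.le ℓ)
    rw [d1]
    refine d2.trans ?_
    have d5 : green R (tr l) 0 (hit R) {w.dropLast} ≤ M * (K * g) :=
      d3.trans (mul_le_mul_of_nonneg_left d4 (by linarith))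
    have := mul_le_mul_of_nonneg_left d5 hP
    linarith
  have h3 : l * gP l ℓ ≤ (1 + l * χ) * aP l ℓ := gP_le hl.le hχ hℓ
  have h4 : aP l ℓ * g ≤ ge := by rw [hg, hge, he]; exact gt_ge hl.le hk hℓ hw hx
  -- assemble
  set u := l * aP l ℓ * g with hu
  have hu0 : 0 ≤ u := by positivity
  have h5 : u ≤ l * ge := by rw [hu]; nlinarith
  have h6 : 1 + l * gR ≤ (1 + l * χ) * (1 + M * K * u) := by
    have t1 : l * gP l ℓ * (M * (K * g)) ≤ (1 + l * χ) * aP l ℓ * (M * (K * g)) :=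
      mul_le_mul_of_nonneg_right h3 (by positivity)
    have t2 : gR ≤ χ + (1 + l * χ) * aP l ℓ * (M * (K * g)) := by linarith
    have t3 := mul_le_mul_of_nonneg_left t2 hl.le
    have t4 : l * ((1 + l * χ) * aP l ℓ * (M * (K * g))) = (1 + l * χ) * (M * K * u) := by
      rw [hu]; ring
    nlinarith
  refine le_trans ?_ h1
  have hpos : 0 < 1 + l * gR := by positivity
  rw [div_le_div_iff₀ (lt_of_lt_of_le hpos h6) hpos]
  have hlχ : 0 ≤ l * χ := by positivity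
  calc u * (1 + l * gR) ≤ l * ge * (1 + l * gR) := mul_le_mul_of_nonneg_right h5 hpos.le
    _ ≤ l * ge * ((1 + l * χ) * (1 + M * K * u)) :=
      mul_le_mul_of_nonneg_left h6 (by positivity)

/-- comparison of all pairs of gadget vertices -/
lemma gt_pair (hl : 0 < l) (hk : 1 ≤ k) {v v' w : List ℕ}
    (hv : v ∈ gad k d ℓ) (hv' : v' ∈ gad k d ℓ) (hw : w ∈ gad k d ℓ) :
    green (Reg (gprof k d ℓ ℓ)) (tr l) 0 (hit {v'}) {v} ≤
      (((1 + l) / l) ^ (2 * k)) ^ 2 *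
        green (Reg (gprof k d ℓ ℓ)) (tr l) 0 (hit {w}) {replicate ℓ 0} := by
  have hx := tt_root_mem (k := k) (d := d) (a := ℓ) hk
  have hK0 : (0 : ℝ) < ((1 + l) / l) ^ (2 * k) := by positivity
  calc green (Reg (gprof k d ℓ ℓ)) (tr l) 0 (hit {v'}) {v}
      ≤ green (Reg (gprof k d ℓ ℓ)) (tr l) 0 (hit (gad k d ℓ)) {v} :=
        tt_green_left hl.le (by simpa using hv') _
    _ ≤ ((1 + l) / l) ^ (2 * k) *
        green (Reg (gprof k d ℓ ℓ)) (tr l) 0 (hit {replicate ℓ 0}) {v} :=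
        gad_compare hl gt_gad_sub' hx (by simpa using gt_gad_sub' hv)
    _ = ((1 + l) / l) ^ (2 * k) *
        green (Reg (gprof k d ℓ ℓ)) (tr l) 0 (hit {v}) {replicate ℓ 0} := by
        rw [tt_dual hl.le (gt_gad_sub' hv) (gt_gad_sub' hx)]
    _ ≤ ((1 + l) / l) ^ (2 * k) *
        green (Reg (gprof k d ℓ ℓ)) (tr l) 0 (hit (gad k d ℓ)) {replicate ℓ 0} :=
        mul_le_mul_of_nonneg_left (tt_green_left hl.le (by simpa using hv) _) hK0.le
    _ ≤ ((1 + l) / l) ^ (2 * k) * (((1 + l) / l) ^ (2 * k) *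
        green (Reg (gprof k d ℓ ℓ)) (tr l) 0 (hit {w}) {replicate ℓ 0}) :=
        mul_le_mul_of_nonneg_left (gad_compare hl gt_gad_sub' hw
          (by simpa using gt_gad_sub' hx)) hK0.le
    _ = _ := by ring

/-- lengthening all links by one vertex increases the occupation times -/
lemma gt_step (hl : 0 < l) {v v' : List ℕ} (hv : v ∈ gad k d ℓ) :
    green (Reg (gprof k d ℓ ℓ)) (tr l) 0 (hit {v'}) {v} ≤
      green (Reg (gprof k d (ℓ + 1) (ℓ + 1))) (tr l) 0 (hit {[0] ++ v'}) {[0] ++ v} := by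
  have h := tt_green_copy_hit (p := [1]) (q := gprof k d ℓ ℓ) (y := [0]) hl.le (by simp [Lev])
    [1] (v := v') (gt_gad_sub' hv)
  have e : [1] ++ (gprof k d ℓ ℓ ++ [1]) = gprof k d (ℓ + 1) (ℓ + 1) := by
    have h1 : replicate (ℓ + 1) 1 = [1] ++ replicate ℓ 1 := by rw [List.replicate_succ]; rfl
    have h2 : replicate (ℓ + 1) 1 = replicate ℓ 1 ++ [1] := List.replicate_succ'
    unfold gprof
    rw [show replicate (ℓ + 1) 1 ++ replicate k d ++ replicate (ℓ + 1) 1 =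
      ([1] ++ replicate ℓ 1) ++ replicate k d ++ (replicate ℓ 1 ++ [1]) by rw [← h1, ← h2]]
    simp [List.append_assoc]
  rw [e] at h
  exact h

lemma gt_step_mem {v : List ℕ} (hv : v ∈ gad k d ℓ) : [0] ++ v ∈ gad k d (ℓ + 1) := by
  obtain ⟨γ, hγ, rfl⟩ := Finset.mem_image.1 hv
  exact Finset.mem_image.2 ⟨γ, hγ, by rw [List.replicate_succ]; rfl⟩


/-- the tuned length -/
lemma gt_exists_len (hl : 0 < l) (hχ : PathBound l χ) (hk : 1 ≤ k) (hd : 1 ≤ d)
    (hD : 2 * ((1 + l) / l) ^ (k + 1) ≤ (d : ℝ) ^ k) :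
    ∃ ℓ : ℕ, 1 ≤ ℓ ∧ 2 ≤ gtS l k d ℓ ∧ gtS l k d (ℓ + 1) < 2 := by
  classical
  have hex := gt_S_lt hl.le hχ hk hd
  refine ⟨Nat.find hex, ?_, ?_, Nat.find_spec hex⟩
  · rw [Nat.one_le_iff_ne_zero]
    intro h0
    have := Nat.find_spec hex
    rw [h0] at this
    have h1 := gt_S_one hl hk hD
    simp only [zero_add] at this
    linarith
  · have hne : Nat.find hex ≠ 0 := by
      intro h0
      have := Nat.find_spec hex
      rw [h0] at this
      have h1 := gt_S_one hl hk hD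
      simp only [zero_add] at this
      linarith
    have := Nat.find_min hex (m := Nat.find hex - 1) (by omega)
    rw [not_lt, Nat.sub_add_cancel (by omega)] at this
    exact this

/-- smallness at the tuned length -/
lemma gt_small (hl : 0 < l) (hχ : PathBound l χ) (hk : 1 ≤ k) (hd : 1 ≤ d) (hℓ : 1 ≤ ℓ)
    (hS : gtS l k d (ℓ + 1) < 2) {K M : ℝ} (hK : K = ((1 + l) / l) ^ (2 * k))
    (hM : M = 1 + 2 * χ * (Real.log (1 + ((d ^ k + 1 : ℕ) : ℝ)) + l * χ ^ 2))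
    (hDM : 4 * (1 + l * χ) * (M * K) ≤ (d : ℝ) ^ k) {v v' : List ℕ} (hv : v ∈ gad k d ℓ)
    (hv' : v' ∈ gad k d ℓ) :
    l * (l * gP l ℓ) * green (Reg (gprof k d ℓ ℓ)) (tr l) 0 (hit {v'}) {v} ≤
      4 * ((1 + l) / l) * (1 + l * χ) ^ 2 * K ^ 2 / (d : ℝ) ^ k := by
  have hχ1 := hχ.one_le
  have hK0 : 0 < K := by rw [hK]; positivity
  have hM1 : 1 ≤ M := by
    rw [hM]
    have : 0 ≤ Real.log (1 + ((d ^ k + 1 : ℕ) : ℝ)) := Real.log_nonneg (by
      have : (0 : ℝ) ≤ ((d ^ k + 1 : ℕ) : ℝ) := by positivity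
      linarith)
    have h3 : 0 ≤ 2 * χ * (Real.log (1 + ((d ^ k + 1 : ℕ) : ℝ)) + l * χ ^ 2) := by positivity
    linarith
  have hD0 : (0 : ℝ) < (d : ℝ) ^ k := by
    have : (0 : ℝ) < d := by exact_mod_cast hd
    positivity
  -- some exit has small probability
  obtain ⟨w1, hw1, hθ⟩ : ∃ w ∈ Lev (gprof k d (ℓ + 1) (ℓ + 1)),
      theta (Reg (gprof k d (ℓ + 1) (ℓ + 1))) (tr l) (pt w.dropLast l) {replicate (ℓ + 1) 0} <
        2 / (d : ℝ) ^ k := by
    by_contra hcon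
    push Not at hcon
    have := card_nsmul_le_sum _ _ _ hcon
    rw [gt_card_Lev, nsmul_eq_mul] at this
    push_cast at this
    rw [mul_div_cancel₀ _ hD0.ne'] at this
    unfold gtS at hS
    linarith
  rw [gt_prof, tt_lev_link] at hw1
  obtain ⟨w, hw, rfl⟩ := Finset.mem_image.1 hw1
  have h1 := gt_theta_ge hl hχ hk hd (by omega) hw hK hM rfl
  set g := green (Reg (gprof k d (ℓ + 1) (ℓ + 1))) (tr l) 0 (hit {w.dropLast})
    {replicate (ℓ + 1) 0} with hg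
  have hg0 : 0 ≤ g := tt_green_nonneg hl.le _ _
  set u := l * aP l (ℓ + 1) * g with hu
  have hu0 : 0 ≤ u := by
    have := aP_nonneg hl.le (ℓ + 1)
    positivity
  have h2 : u / ((1 + l * χ) * (1 + M * K * u)) < 2 / (d : ℝ) ^ k := lt_of_le_of_lt h1 hθ
  have h3 : u * (d : ℝ) ^ k ≤ 4 * (1 + l * χ) := by
    have hpos : 0 < (1 + l * χ) * (1 + M * K * u) := by positivity
    rw [div_lt_div_iff₀ hpos hD0] at h2
    have h5 := mul_le_mul_of_nonneg_right hDM hu0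
    nlinarith
  -- all pairs at length ℓ
  have h4 : green (Reg (gprof k d ℓ ℓ)) (tr l) 0 (hit {v'}) {v} ≤ K ^ 2 * g := by
    refine (gt_step hl hv).trans ?_
    have := gt_pair hl hk (gt_step_mem hv) (gt_step_mem hv') (tt_port_mem hk hw)
    rw [← hK] at this
    exact this
  have h6 : l * gP l ℓ ≤ (1 + l * χ) * aP l ℓ := gP_le hl.le hχ hℓ
  have h7 : aP l ℓ ≤ (1 + l) / l * aP l (ℓ + 1) := by
    have := aP_succ hl.le hℓ
    have h8 : aP l ℓ = (1 + l) / l * (aP l ℓ * (l / (1 + l))) := by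
      field_simp
    rw [h8]
    exact mul_le_mul_of_nonneg_left this (by positivity)
  have hgp := gP_nonneg hl.le ℓ
  have hgr : 0 ≤ green (Reg (gprof k d ℓ ℓ)) (tr l) 0 (hit {v'}) {v} := tt_green_nonneg hl.le _ _
  calc l * (l * gP l ℓ) * green (Reg (gprof k d ℓ ℓ)) (tr l) 0 (hit {v'}) {v}
      ≤ l * (l * gP l ℓ) * (K ^ 2 * g) := mul_le_mul_of_nonneg_left h4 (by positivity)
    _ ≤ l * ((1 + l * χ) * ((1 + l) / l * aP l (ℓ + 1))) * (K ^ 2 * g) := by
        refine mul_le_mul_of_nonneg_right ?_ (by positivity)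
        refine mul_le_mul_of_nonneg_left (h6.trans ?_) hl.le
        exact mul_le_mul_of_nonneg_left h7 (by positivity)
    _ = ((1 + l * χ) * ((1 + l) / l) * K ^ 2) * u := by rw [hu]; ring
    _ ≤ ((1 + l * χ) * ((1 + l) / l) * K ^ 2) * (4 * (1 + l * χ) / (d : ℝ) ^ k) := by
        refine mul_le_mul_of_nonneg_left ?_ (by positivity)
        rw [le_div_iff₀ hD0]; exact h3
    _ = _ := by ring

/-- choice of the number of levels -/
lemma gt_exists_k {B a1 b1 : ℝ} : ∃ k : ℕ, 1 ≤ k ∧ B ≤ 2 ^ k ∧ a1 + b1 * k ≤ 2 ^ k := by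
  have h1 : Tendsto (fun k : ℕ => (2 : ℝ) ^ k) atTop atTop :=
    tendsto_pow_atTop_atTop_of_one_lt (by norm_num)
  have h2 : Tendsto (fun k : ℕ => (k : ℝ) ^ 1 / (2 : ℝ) ^ k) atTop (𝓝 0) :=
    tendsto_pow_const_div_const_pow_of_one_lt 1 (by norm_num)
  have h3 : Tendsto (fun k : ℕ => |b1| * ((k : ℝ) ^ 1 / (2 : ℝ) ^ k)) atTop (𝓝 (|b1| * 0)) :=
    h2.const_mul _
  rw [mul_zero] at h3
  have e1 := h1.eventually (eventually_ge_atTop B)
  have e2 := h1.eventually (eventually_ge_atTop (2 * |a1|))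
  have e3 := h3.eventually (gt_mem_nhds (show (0 : ℝ) < 1 / 2 by norm_num))
  obtain ⟨k, hk⟩ := (((e1.and e2).and e3).and (eventually_ge_atTop 1)).exists
  refine ⟨k, hk.2, hk.1.1.1, ?_⟩
  have h5 := hk.1.1.2
  have h6 := hk.1.2
  have hp : (0 : ℝ) < 2 ^ k := by positivity
  rw [pow_one, ← mul_div_assoc, div_lt_iff₀ hp] at h6
  have h7 := le_abs_self a1
  have h8 : b1 * k ≤ |b1| * k := mul_le_mul_of_nonneg_right (le_abs_self b1) (by positivity)
  nlinarith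

theorem exists_tuned {l1 : ℝ} (hl1 : 0 < l1) : ∃ d : ℕ, 1 ≤ d ∧ ∀ l χ, l1 ≤ l → PathBound l χ →
    ∃ (k ℓ : ℕ) (ε q Cs : ℝ), Tuned l χ k d ℓ ε q Cs := by
  obtain ⟨d, hd⟩ := exists_nat_ge (2 * ((1 + l1) / l1) ^ 20)
  have hc1 : 1 ≤ (1 + l1) / l1 := by rw [le_div_iff₀ hl1]; linarith
  have hd1 : 1 ≤ d := by
    have : (1 : ℝ) ≤ ((1 + l1) / l1) ^ 20 := one_le_pow₀ hc1
    have : (1 : ℝ) ≤ d := by linarith
    exact_mod_cast this
  refine ⟨d, hd1, fun l χ hl hχ => ?_⟩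
  have hl0 : 0 < l := hl1.trans_le hl
  have hχ1 := hχ.one_le
  set c := (1 + l) / l with hc
  have hc0 : 1 ≤ c := by rw [hc, le_div_iff₀ hl0]; linarith
  have hcle : c ≤ (1 + l1) / l1 := by
    rw [hc, div_le_div_iff₀ hl0 hl1]; nlinarith
  have hdc : 2 * c ^ 20 ≤ d := by
    refine le_trans ?_ hd
    have := pow_le_pow_left₀ (by linarith) hcle 20
    linarith
  -- constants
  set m := 1 + l * χ with hm
  have hm1 : 1 ≤ m := by rw [hm]; have : 0 ≤ l * χ := by positivity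
                         linarith
  obtain ⟨k, hk, hkB, hkM⟩ := gt_exists_k (B := 1024 * (1 + m ^ 2 / l) * m ^ 4)
    (a1 := 4 * m * (1 + 2 * χ * (Real.log 3 + l * χ ^ 2)))
    (b1 := 4 * m * (2 * χ * Real.log d))
  have hDpow : 2 ^ k * c ^ (20 * k) ≤ (d : ℝ) ^ k := by
    have := pow_le_pow_left₀ (by positivity) hdc k
    rw [mul_pow, ← pow_mul] at this
    exact this
  set D : ℝ := (d : ℝ) ^ k with hDdef
  set K : ℝ := c ^ (2 * k) with hKdef
  have hK1 : 1 ≤ K := one_le_pow₀ hc0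
  have hDK : 2 ^ k * K ^ 10 ≤ D := by
    have : K ^ 10 = c ^ (20 * k) := by rw [hKdef, ← pow_mul]; congr 1; ring
    rw [this]; exact hDpow
  have hcK : c ^ 2 ≤ K := pow_le_pow_right₀ hc0 (by omega)
  have h2k : (2 : ℝ) ≤ 2 ^ k := by
    calc (2 : ℝ) = 2 ^ 1 := by norm_num
      _ ≤ 2 ^ k := pow_le_pow_right₀ (by norm_num) hk
  have hD0 : 0 < D := lt_of_lt_of_le (by positivity) hDK
  -- (k3)
  have hS1 : 2 * c ^ (k + 1) ≤ D := by
    have h1 : c ^ (k + 1) ≤ K ^ 10 := by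
      rw [hKdef, ← pow_mul]; exact pow_le_pow_right₀ hc0 (by omega)
    calc 2 * c ^ (k + 1) ≤ 2 ^ k * K ^ 10 := mul_le_mul h2k h1 (by positivity) (by positivity)
      _ ≤ D := hDK
  -- (k1)
  set M : ℝ := 1 + 2 * χ * (Real.log (1 + ((d ^ k + 1 : ℕ) : ℝ)) + l * χ ^ 2) with hMdef
  have hMle : 4 * m * M ≤ 2 ^ k := by
    have hdk1 : (1 : ℝ) ≤ (d : ℝ) ^ k := one_le_pow₀ (by exact_mod_cast hd1)
    have hlog : Real.log (1 + ((d ^ k + 1 : ℕ) : ℝ)) ≤ Real.log 3 + k * Real.log d := by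
      have h1 : (1 + ((d ^ k + 1 : ℕ) : ℝ)) ≤ 3 * (d : ℝ) ^ k := by push_cast; linarith
      refine (Real.log_le_log (by positivity) h1).trans (le_of_eq ?_)
      rw [Real.log_mul (by norm_num) (by positivity), Real.log_pow]
    have h2 : M ≤ 1 + 2 * χ * (Real.log 3 + k * Real.log d + l * χ ^ 2) := by
      rw [hMdef]
      have := mul_le_mul_of_nonneg_left hlog (show 0 ≤ 2 * χ by linarith)
      nlinarith
    have h3 := mul_le_mul_of_nonneg_left h2 (show 0 ≤ 4 * m by linarith)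
    refine h3.trans ?_
    nlinarith [hkM]
  have hDM : 4 * m * (M * K) ≤ D := by
    have h1 : K ≤ K ^ 10 := by
      calc K = K ^ 1 := (pow_one K).symm
        _ ≤ K ^ 10 := pow_le_pow_right₀ hK1 (by norm_num)
    calc 4 * m * (M * K) = (4 * m * M) * K := by ring
      _ ≤ 2 ^ k * K := mul_le_mul_of_nonneg_right hMle (by linarith)
      _ ≤ 2 ^ k * K ^ 10 := mul_le_mul_of_nonneg_left h1 (by positivity)
      _ ≤ D := hDK
  obtain ⟨ℓ, hℓ, hSℓ, hSℓ'⟩ := gt_exists_len hl0 hχ hk hd1 hS1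
  -- ε₀ and its properties
  set ε₀ : ℝ := 4 * c * m ^ 2 * K ^ 2 / D with hε₀
  have hc00 : 0 < c := by linarith
  have hε₀0 : 0 < ε₀ := by positivity
  have hsm : ∀ v ∈ gad k d ℓ, ∀ v' ∈ gad k d ℓ,
      l * (l * gP l ℓ) * green (Reg (gprof k d ℓ ℓ)) (tr l) 0 (hit {v'}) {v} ≤ ε₀ :=
    fun v hv v' hv' => gt_small hl0 hχ hk hd1 hℓ hSℓ' rfl rfl hDM hv hv'
  have hx := tt_root_mem (k := k) (d := d) (a := ℓ) hk
  have hgP : l * (l * gP l ℓ) ≤ ε₀ := by
    refine le_trans ?_ (hsm _ hx _ hx)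
    have h1 := hit_le_green (R := Reg (gprof k d ℓ ℓ)) (tr_nonneg hl0.le) (gt_gad_sub' hx)
      (A := {replicate ℓ 0}) (by simpa using gt_gad_sub' hx)
    have h2 : hit {replicate ℓ 0} {replicate ℓ 0} = 1 := by simp [hit]
    rw [h2] at h1
    have h3 : 0 ≤ l * (l * gP l ℓ) := by
      have := gP_nonneg hl0.le ℓ
      positivity
    nlinarith
  refine ⟨k, ℓ, (1 + m ^ 2 / l) * ε₀, D * ε₀,
    (((Reg (replicate k d)).card : ℝ) + l * χ * ((d ^ k + 1 : ℕ) : ℝ)) * gtT l χ k d, ?_⟩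
  have hml : 1 ≤ 1 + m ^ 2 / l := by
    have : 0 ≤ m ^ 2 / l := by positivity
    linarith
  refine
    { l0 := hl0
      pb := hχ
      hk := hk
      hd := hd1
      hℓ := hℓ
      ε0 := by positivity
      q1 := ?_
      small := ?_
      path := ?_
      up := ?_
      down := ?_
      card := ?_
      grow := hSℓ }
  · rw [hε₀, mul_div_cancel₀ _ hD0.ne']
    have : 1 ≤ m ^ 2 := one_le_pow₀ hm1
    have : 1 ≤ K ^ 2 := one_le_pow₀ hK1
    calc (1 : ℝ) ≤ 4 * 1 * 1 * 1 := by norm_num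
      _ ≤ 4 * c * m ^ 2 * K ^ 2 := by gcongr
  · have e1 : 64 * ((1 + m ^ 2 / l) * ε₀) * (D * ε₀) =
        (1024 * (1 + m ^ 2 / l) * m ^ 4) * (c ^ 2 * K ^ 4) / D := by
      rw [hε₀]; field_simp; ring
    rw [e1, div_le_one hD0]
    have h1 : c ^ 2 * K ^ 4 ≤ K ^ 10 := by
      calc c ^ 2 * K ^ 4 ≤ K * K ^ 4 := mul_le_mul_of_nonneg_right hcK (by positivity)
        _ = K ^ 5 := by ring
        _ ≤ K ^ 10 := pow_le_pow_right₀ hK1 (by norm_num)
    calc (1024 * (1 + m ^ 2 / l) * m ^ 4) * (c ^ 2 * K ^ 4) ≤ 2 ^ k * K ^ 10 :=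
          mul_le_mul hkB h1 (by positivity) (by positivity)
      _ ≤ D := hDK
  · have h1 : gP l (ℓ + 1) ≤ m * gP l ℓ := gP_anti hl0.le hχ hℓ (by omega)
    have h2 : l * (1 + l * χ) * gP l (ℓ + 1) ≤ l * m * (m * gP l ℓ) :=
      mul_le_mul_of_nonneg_left h1 (by positivity)
    have h3 : l * m * (m * gP l ℓ) = (m ^ 2 / l) * (l * (l * gP l ℓ)) := by field_simp
    have h4 : (m ^ 2 / l) * (l * (l * gP l ℓ)) ≤ (m ^ 2 / l) * ε₀ :=
      mul_le_mul_of_nonneg_left hgP (by positivity)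
    have h5 : (1 + m ^ 2 / l) * ε₀ = ε₀ + (m ^ 2 / l) * ε₀ := by ring
    rw [h5]
    linarith
  · intro v hv
    have hne : replicate k d ++ replicate ℓ 1 ≠ [] := by
      intro h; have := congrArg List.length h; simp at this; omega
    have hprof : gprof k d ℓ ℓ = replicate ℓ 1 ++ (replicate k d ++ replicate ℓ 1) := by
      unfold gprof; rw [List.append_assoc]
    have h1 := ul_le (l := l) hl0.le hℓ hne (A := {v}) (by
      obtain ⟨γ, hγ, rfl⟩ := Finset.mem_image.1 hv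
      rw [Finset.singleton_subset_iff]
      exact Finset.mem_image.2 ⟨γ, TR_Reg_sub _ _ hγ, rfl⟩)
    rw [← hprof] at h1
    have h2 := hsm v hv _ hx
    have h3 := mul_le_mul_of_nonneg_left h1 hl0.le
    have h4 : ε₀ ≤ (1 + m ^ 2 / l) * ε₀ := le_mul_of_one_le_left hε₀0.le hml
    calc l * green (Reg (gprof k d ℓ ℓ)) (tr l) 0 (hit {[]}) {v}
        ≤ l * (l * gP l ℓ * green (Reg (gprof k d ℓ ℓ)) (tr l) 0 (hit {replicate ℓ 0}) {v}) := h3
      _ = l * (l * gP l ℓ) * green (Reg (gprof k d ℓ ℓ)) (tr l) 0 (hit {replicate ℓ 0}) {v} := by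
          ring
      _ ≤ _ := h2.trans h4
  · intro v hv
    have h1 : ∀ w ∈ Lev (gprof k d ℓ ℓ),
        l * green (Reg (gprof k d ℓ ℓ)) (tr l) 0 (hit {w.dropLast}) {v} ≤ ε₀ := by
      intro w hw
      rw [gt_prof, tt_lev_link] at hw
      obtain ⟨w0, hw0, rfl⟩ := Finset.mem_image.1 hw
      have h2 := mul_le_mul_of_nonneg_left (gt_le hl0.le hk hℓ hw0 hv) hl0.le
      have h3 := hsm v hv _ (tt_port_mem hk hw0)
      calc _ ≤ l * (l * gP l ℓ * green (Reg (gprof k d ℓ ℓ)) (tr l) 0 (hit {w0.dropLast}) {v}) := h2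
        _ = l * (l * gP l ℓ) * green (Reg (gprof k d ℓ ℓ)) (tr l) 0 (hit {w0.dropLast}) {v} := by
            ring
        _ ≤ ε₀ := h3
    have := sum_le_card_nsmul _ _ _ h1
    rw [gt_card_Lev, nsmul_eq_mul] at this
    push_cast at this
    exact this
  · intro v hv
    refine (g1_card hl0.le hχ hk hd1 (A := {v}) (by simpa using hv)).trans ?_
    exact mul_le_mul_of_nonneg_left (g1_time hl0.le hχ hk hd1 (by simpa using hv))
      (by positivity)

end Pool.Agent.CP34
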