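import Pool.Agent.CP34.P

/-! Module GW: branching step. -/

open Finset Filter Topology

namespace Pool.Agent.CP34

section GW
variable {V ι : Type*} [DecidableEq V] [DecidableEq ι]

lemma GW_gen_sum (R : Finset V) (r : V → V → ℝ) (s : Finset ι) (f : ι → Finset V → ℝ)
    (A : Finset V) : gen R r (fun S => ∑ i ∈ s, f i S) A = ∑ i ∈ s, gen R r (f i) A := by
  induction s using Finset.induction_on with
  | empty => simp [gen_const]
  | insert i s hi ih =>
    simp only [sum_insert hi]
    rw [gen_add, ih]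

lemma GW_num {p n m F θ Fi : ℝ} (hp : 0 ≤ p) (hp1 : p ≤ 1) (hn : 1 ≤ n) (hm0 : 0 ≤ m)
    (hm : m ≤ n - 1) (hF : p * m / (1 + p * (n - 1)) ≤ F)
    (hFi : 1 - Fi ≤ (1 - F) * (1 - p)) :
    p / (1 + p * n) * (1 - θ) + p / (1 + p * n) * (m + θ) ≤ Fi := by
  have ha : 0 < 1 + p * (n - 1) := by
    have := mul_nonneg hp (sub_nonneg.2 hn); linarith
  have hb : 0 < 1 + p * n := by
    have := mul_nonneg hp (zero_le_one.trans hn); linarith
  have h1 : p * m / (1 + p * (n - 1)) * (1 - p) ≤ F * (1 - p) :=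
    mul_le_mul_of_nonneg_right hF (by linarith)
  have h2 : p + p * m / (1 + p * (n - 1)) * (1 - p) ≤ Fi := by nlinarith
  refine le_trans ?_ h2
  have h3 : p + p * m / (1 + p * (n - 1)) * (1 - p) -
      (p / (1 + p * n) * (1 - θ) + p / (1 + p * n) * (m + θ)) =
      p * (p * n / (1 + p * n)) * ((1 + p * (n - 1) - m * p) / (1 + p * (n - 1))) := by
    field_simp
    ring
  have h4 : 0 ≤ p * (p * n / (1 + p * n)) * ((1 + p * (n - 1) - m * p) / (1 + p * (n - 1))) := by
    have h5 : m * p ≤ (n - 1) * p := mul_le_mul_of_nonneg_right hm hp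
    have h6 : 0 ≤ 1 + p * (n - 1) - m * p := by nlinarith
    have h7 : 0 ≤ n := by linarith
    positivity
  linarith

theorem GW_aux {R : Finset V} {r : V → V → ℝ} {κ : V → ℝ} {Q : ι → Finset V}
    {w y : ι → V} {c p : ℝ} (hr : ∀ x y, 0 ≤ r x y) (hκ : ∀ x, 0 ≤ κ x)
    (hc : 0 ≤ c) (hp : 0 ≤ p) (hκR : ∀ x ∈ R, κ x = 0) (n : ℕ) :
    ∀ U : Finset ι, U.card = n → (∀ i ∈ U, w i ∈ R) → (∀ i ∈ U, y i ∈ Q i) →
      (∀ i ∈ U, Disjoint R (Q i)) → (∀ i ∈ U, ∀ j ∈ U, i ≠ j → Disjoint (Q i) (Q j)) →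
      (∀ i ∈ U, c ≤ r (w i) (y i)) → (∀ i ∈ U, p ≤ theta (Q i) r κ {y i}) →
      ∀ A ⊆ R, p * (∑ i ∈ U, theta R r (pt (w i) c) A) / (1 + p * n) ≤
        theta (R ∪ U.biUnion Q) r κ A := by
  induction n with
  | zero =>
    intro U hU _ _ _ _ _ _ A _
    rw [card_eq_zero] at hU
    subst hU
    simp only [sum_empty, mul_zero, zero_div]
    exact theta_nonneg hr hκ _
  | succ n ih =>
    intro U hU hw hy hdR hd hrw hs A0 hA0
    have hn1 : (1 : ℝ) ≤ ((n + 1 : ℕ) : ℝ) := by
      push_cast; linarith [(Nat.cast_nonneg n : (0 : ℝ) ≤ n)]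
    obtain ⟨R', hR'⟩ : ∃ R', R' = R ∪ U.biUnion Q := ⟨_, rfl⟩
    rw [← hR']
    have hRR : R ⊆ R' := by rw [hR']; exact subset_union_left
    have hyR' : ∀ i ∈ U, y i ∈ R' := fun i hi => by
      rw [hR']; exact Finset.mem_union_right _ (mem_biUnion.2 ⟨i, hi, hy i hi⟩)
    have hyR : ∀ i ∈ U, y i ∉ R := fun i hi h =>
      Finset.disjoint_left.1 (hdR i hi) h (hy i hi)
    obtain ⟨F, hF⟩ : ∃ F, F = theta R' r κ := ⟨_, rfl⟩
    obtain ⟨q, hq⟩ : ∃ q, q = p / (1 + p * ((n + 1 : ℕ) : ℝ)) := ⟨_, rfl⟩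
    obtain ⟨θ, hθ⟩ : ∃ θ : ι → Finset V → ℝ, ∀ i, θ i = theta R r (pt (w i) c) := ⟨_, fun _ => rfl⟩
    have hFmono : MonoOn R' F := by rw [hF]; exact theta_monoOn hr hκ
    have hθ0 : ∀ i S, 0 ≤ θ i S := fun i S => by
      rw [hθ]; exact theta_nonneg hr (P_pt_nonneg hc) S
    have hθ1 : ∀ i S, θ i S ≤ 1 := fun i S => by
      rw [hθ]; exact theta_le_one hr (P_pt_nonneg hc) S
    -- the key pointwise inequality
    have hkey : ∀ A ⊆ R, ∀ i ∈ U, q * (1 - θ i A) + q * ∑ j ∈ U, θ j A ≤ F (insert (y i) A) := by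
      intro A hA i hi
      have hcard : (U.erase i).card = n := by rw [card_erase_of_mem hi, hU]; rfl
      have hsubU : ∀ j ∈ U.erase i, j ∈ U := fun j hj => mem_of_mem_erase hj
      have hIH := ih (U.erase i) hcard (fun j hj => hw j (hsubU j hj))
        (fun j hj => hy j (hsubU j hj)) (fun j hj => hdR j (hsubU j hj))
        (fun j hj k hk => hd j (hsubU j hj) k (hsubU k hk))
        (fun j hj => hrw j (hsubU j hj)) (fun j hj => hs j (hsubU j hj)) A hA
      have hm : ∑ j ∈ U, θ j A = ∑ j ∈ U.erase i, θ j A + θ i A := by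
        rw [← sum_erase_add U _ hi]
      have hfm := fail_mul (R₁ := R ∪ (U.erase i).biUnion Q) (R₂ := Q i) (κ := κ) (r := r) hr hκ
        (by
          rw [Finset.disjoint_union_left]
          refine ⟨hdR i hi, ?_⟩
          rw [Finset.disjoint_biUnion_left]
          intro j hj
          exact hd j (hsubU j hj) i hi (ne_of_mem_erase hj))
        (A := A) (B := {y i}) (hA.trans subset_union_left)
        (singleton_subset_iff.2 (hy i hi))
      have hRu : R ∪ (U.erase i).biUnion Q ∪ Q i = R' := by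
        rw [hR', union_assoc]
        congr 1
        rw [← insert_erase hi, biUnion_insert, Finset.union_comm, erase_insert_eq_erase,
          erase_idem]
      rw [hRu, union_comm A {y i}, ← insert_eq, ← hF] at hfm
      have hp1 : p ≤ 1 := (hs i hi).trans (theta_le_one hr hκ _)
      have h1 : (1 : ℝ) - theta (Q i) r κ {y i} ≤ 1 - p := by linarith [hs i hi]
      have h2 : 0 ≤ 1 - theta (R ∪ (U.erase i).biUnion Q) r κ A :=
        sub_nonneg.2 (theta_le_one hr hκ _)
      have h3 := mul_le_mul_of_nonneg_left h1 h2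
      have hm0 : 0 ≤ ∑ j ∈ U.erase i, θ j A := sum_nonneg fun j _ => hθ0 j A
      have hmn : ∑ j ∈ U.erase i, θ j A ≤ ((n + 1 : ℕ) : ℝ) - 1 := by
        calc ∑ j ∈ U.erase i, θ j A ≤ ∑ j ∈ U.erase i, (1 : ℝ) :=
              sum_le_sum fun j _ => hθ1 j A
          _ = ((n + 1 : ℕ) : ℝ) - 1 := by rw [sum_const, hcard]; simp
      have hIH' : p * ∑ j ∈ U.erase i, θ j A / (1 + p * (((n + 1 : ℕ) : ℝ) - 1)) ≤
          theta (R ∪ (U.erase i).biUnion Q) r κ A := by
        refine le_trans (le_of_eq ?_) hIH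
        have e1 : ((n + 1 : ℕ) : ℝ) - 1 = n := by push_cast; ring
        rw [e1, ← sum_div, mul_div_assoc]
        congr 2
        exact sum_congr rfl fun j _ => by rw [hθ]
      rw [← sum_div, ← mul_div_assoc] at hIH'
      have := GW_num (θ := θ i A) hp hp1 hn1 hm0 hmn hIH' (hfm.trans h3)
      rw [hm, hq]
      exact this
    -- comparison
    have hgen : ∀ A ⊆ R, A ≠ ∅ → gen R r F A ≤
        - ∑ i ∈ U, c * hit {w i} A * (F (insert (y i) A) - F A) := by
      intro A hA hne
      have h1 : gen R' r F A = 0 := by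
        rw [hF, gen_theta hr hκ (hA.trans hRR) hne]
        have : kill κ A = 0 := sum_eq_zero fun x hx => hκR x (hA hx)
        rw [this]; ring
      rw [P_gen_split hRR r F hA] at h1
      have h2 : ∑ i ∈ U, c * hit {w i} A * (F (insert (y i) A) - F A) ≤
          ∑ x ∈ R, ∑ y ∈ R' \ R, r x y * (F (arr x y A) - F A) := by
        have hnn : ∀ x ∈ R, ∀ y ∈ R' \ R, 0 ≤ r x y * (F (arr x y A) - F A) := by
          intro x _ y hy
          refine mul_nonneg (hr x y) (sub_nonneg.2 (hFmono _ _ (subset_arr x y A) ?_))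
          exact arr_subset (hA.trans hRR) (Finset.mem_sdiff.1 hy).1
        rw [← sum_product' (s := R) (t := R' \ R) (f := fun x y => r x y * (F (arr x y A) - F A))]
        have hinj : Set.InjOn (fun i => (w i, y i)) U := by
          intro i hi j hj hij
          by_contra hne
          have h3 : y i = y j := (Prod.mk.inj hij).2
          exact Finset.disjoint_left.1 (hd i hi j hj hne) (hy i hi) (h3 ▸ hy j hj)
        calc ∑ i ∈ U, c * hit {w i} A * (F (insert (y i) A) - F A)
            ≤ ∑ i ∈ U, r (w i) (y i) * (F (arr (w i) (y i) A) - F A) := by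
              refine sum_le_sum fun i hi => ?_
              rw [P_hit_single]
              by_cases hwA : w i ∈ A
              · rw [if_pos hwA, mul_one]
                unfold arr
                rw [if_pos hwA]
                refine mul_le_mul_of_nonneg_right (hrw i hi) (sub_nonneg.2
                  (hFmono _ _ (subset_insert _ _) ?_))
                exact insert_subset (hyR' i hi) (hA.trans hRR)
              · rw [if_neg hwA]
                unfold arr
                rw [if_neg hwA]; simp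
          _ = ∑ z ∈ U.image (fun i => (w i, y i)), r z.1 z.2 * (F (arr z.1 z.2 A) - F A) := by
              rw [sum_image hinj]
          _ ≤ ∑ z ∈ R ×ˢ (R' \ R), r z.1 z.2 * (F (arr z.1 z.2 A) - F A) := by
              refine sum_le_sum_of_subset_of_nonneg ?_ ?_
              · intro z hz
                obtain ⟨i, hi, rfl⟩ := Finset.mem_image.1 hz
                exact Finset.mem_product.2 ⟨hw i hi, Finset.mem_sdiff.2 ⟨hyR' i hi, hyR i hi⟩⟩
              · intro z hz _
                exact hnn z.1 (Finset.mem_product.1 hz).1 z.2 (Finset.mem_product.1 hz).2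
      linarith
    have hmp := min_principle' (R := R) (r := r) hr
      (k := fun A => ∑ i ∈ U, c * hit {w i} A)
      (fun A _ => sum_nonneg fun i _ => mul_nonneg hc (P_hit_nonneg _ _))
      (f := fun S => F S - q * ∑ i ∈ U, θ i S)
      (by
        have e1 : F ∅ = 0 := by rw [hF]; exact theta_empty
        have e2 : ∑ i ∈ U, θ i ∅ = 0 := sum_eq_zero fun i _ => by rw [hθ]; exact theta_empty
        rw [e1, e2]; simp)
      (fun A hA hne => by
        rw [gen_sub, gen_smul, GW_gen_sum]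
        have e1 : ∑ i ∈ U, gen R r (θ i) A = - ∑ i ∈ U, c * hit {w i} A * (1 - θ i A) := by
          rw [← sum_neg_distrib]
          refine sum_congr rfl fun i _ => ?_
          rw [hθ, gen_theta hr (P_pt_nonneg hc) hA hne, kill_pt]
        rw [e1]
        have e2 := hgen A hA hne
        have e3 : ∑ i ∈ U, c * hit {w i} A * (q * (1 - θ i A) + q * ∑ j ∈ U, θ j A) ≤
            ∑ i ∈ U, c * hit {w i} A * F (insert (y i) A) :=
          sum_le_sum fun i hi => mul_le_mul_of_nonneg_left (hkey A hA i hi)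
            (mul_nonneg hc (P_hit_nonneg _ _))
        have e4' : ∀ t : ℝ, ∑ i ∈ U, c * hit {w i} A * (q * (1 - θ i A) + t) =
            q * ∑ i ∈ U, c * hit {w i} A * (1 - θ i A) + (∑ i ∈ U, c * hit {w i} A) * t := by
          intro t
          rw [mul_sum, sum_mul, ← Finset.sum_add_distrib]
          exact sum_congr rfl fun i _ => by ring
        have e4 := e4' (q * ∑ j ∈ U, θ j A)
        have e5 : ∑ i ∈ U, c * hit {w i} A * (F (insert (y i) A) - F A) =
            ∑ i ∈ U, c * hit {w i} A * F (insert (y i) A) -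
              (∑ i ∈ U, c * hit {w i} A) * F A := by
          rw [sum_mul, ← Finset.sum_sub_distrib]
          exact sum_congr rfl fun i _ => by ring
        rw [e4] at e3
        rw [e5] at e2
        linarith)
      A0 hA0
    have e1 : p * (∑ i ∈ U, theta R r (pt (w i) c) A0) / (1 + p * ((n + 1 : ℕ) : ℝ)) =
        q * ∑ i ∈ U, θ i A0 := by
      rw [hq, show ∑ i ∈ U, theta R r (pt (w i) c) A0 = ∑ i ∈ U, θ i A0 from
        sum_congr rfl fun i _ => by rw [hθ]]
      ring
    rw [e1, ← hF]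
    linarith

theorem gw_step {R : Finset V} {r : V → V → ℝ} {κ : V → ℝ} {U : Finset ι} {Q : ι → Finset V}
    {w y : ι → V} {c p : ℝ} (hr : ∀ x y, 0 ≤ r x y) (hκ : ∀ x, 0 ≤ κ x)
    (hc : 0 ≤ c) (hp : 0 ≤ p) (hκR : ∀ x ∈ R, κ x = 0) (hw : ∀ i ∈ U, w i ∈ R)
    (hy : ∀ i ∈ U, y i ∈ Q i) (hdR : ∀ i ∈ U, Disjoint R (Q i))
    (hd : ∀ i ∈ U, ∀ j ∈ U, i ≠ j → Disjoint (Q i) (Q j)) (hrw : ∀ i ∈ U, c ≤ r (w i) (y i))
    (hs : ∀ i ∈ U, p ≤ theta (Q i) r κ {y i}) {A : Finset V} (hA : A ⊆ R) :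
    p * (∑ i ∈ U, theta R r (pt (w i) c) A) / (1 + p * U.card) ≤
      theta (R ∪ U.biUnion Q) r κ A :=
  GW_aux hr hκ hc hp hκR U.card U rfl hw hy hdR hd hrw hs A hA

end GW

end Pool.Agent.CP34
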