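import Pool.Agent.CP34.Defs2
import Pool.Agent.CP34.TR
import Pool.Agent.CP34.GW

/-!
# Module SV: survival at the critical rate of the tree
-/

open Finset Filter Topology
open List (replicate)

namespace Pool.Agent.CP34

/-- `P j ++ P (j+1) ++ … ++ P (j+n-1)` -/
def SV_tail (P : ℕ → List ℕ) (j : ℕ) : ℕ → List ℕ
  | 0 => []
  | n + 1 => P j ++ SV_tail P (j + 1) n

lemma SV_cat (P : ℕ → List ℕ) (n : ℕ) : ∀ j, cat P (j + n) = cat P j ++ SV_tail P j n := by
  induction n with
  | zero => intro j; simp [SV_tail]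
  | succ n ih =>
    intro j
    have h := ih (j + 1)
    rw [show j + (n + 1) = j + 1 + n by ring, h, cat, SV_tail, List.append_assoc]

lemma SV_copy_sub {p q : List ℕ} {w : List ℕ} (hw : w ∈ Lev p) :
    (Reg q).image (fun γ => w ++ γ) ⊆ Reg (p ++ q) := by
  rw [Reg_append]
  exact (subset_biUnion_of_mem (fun α => (Reg q).image fun γ => α ++ γ) hw).trans
    subset_union_right

variable {l : ℝ}

lemma SV_dk_nonneg (hl : 0 ≤ l) (p α : List ℕ) : 0 ≤ dk p l α := by
  unfold dk; split_ifs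
  · exact hl
  · exact le_rfl

/-- the exit problem on a shifted copy -/
lemma SV_shift (hl : 0 ≤ l) {p q : List ℕ} {w : List ℕ} (hw : w ∈ Lev p) (hq : q ≠ []) :
    theta ((Reg q).image fun γ => w ++ γ) (tr l) (dk (p ++ q) l) {w} =
      theta (Reg q) (tr l) (dk q l) {[]} := by
  have h := theta_image (R := Reg q) (φ := fun γ => w ++ γ) (r := tr l) (r' := tr l)
    (κ := dk q l) (κ' := dk (p ++ q) l) (tr_nonneg hl) (tr_nonneg hl) (SV_dk_nonneg hl _)
    (SV_dk_nonneg hl _) (fun _ _ _ _ h => List.append_cancel_left h)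
    (fun x _ y _ => tr_append w x y)
    (fun x _ => by
      have := (mem_Lev.1 hw).1
      unfold dk
      refine if_congr ?_ rfl rfl
      rw [List.length_append, List.length_append]
      omega) (A := {[]}) (by rw [singleton_subset_iff]; exact TR_nil_mem hq)
  rwa [image_singleton, List.append_nil] at h

/-- probability to reach the last level -/
noncomputable def SV_s (l : ℝ) (P : ℕ → List ℕ) (j n : ℕ) : ℝ :=
  theta (Reg (SV_tail P j n)) (tr l) (dk (SV_tail P j n) l) {[]}

lemma SV_pt_nonneg {V : Type*} [DecidableEq V] (hl : 0 ≤ l) (w x : V) : 0 ≤ pt w l x := by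
  unfold pt; split_ifs
  · exact hl
  · exact le_rfl

lemma SV_disj_reg {p q : List ℕ} {w : List ℕ} (hw : w ∈ Lev p) :
    Disjoint (Reg p) ((Reg q).image fun γ => w ++ γ) := by
  rw [Finset.disjoint_left]
  intro x hx h
  obtain ⟨γ, _, rfl⟩ := Finset.mem_image.1 h
  have h1 := (mem_Reg.1 hx).1
  have h2 := (mem_Lev.1 hw).1
  rw [List.length_append] at h1
  omega

lemma SV_disj_copy {p q : List ℕ} {w w' : List ℕ} (hw : w ∈ Lev p) (hw' : w' ∈ Lev p)
    (hne : w ≠ w') :
    Disjoint ((Reg q).image fun γ => w ++ γ) ((Reg q).image fun γ => w' ++ γ) := by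
  rw [Finset.disjoint_left]
  intro x hx h
  obtain ⟨γ, _, rfl⟩ := Finset.mem_image.1 hx
  obtain ⟨γ', _, h2⟩ := Finset.mem_image.1 h
  have h1 := (mem_Lev.1 hw).1
  have h3 := (mem_Lev.1 hw').1
  exact hne (List.append_inj h2 (by omega)).1.symm

lemma SV_arith {p c S m s : ℝ} (hp : 0 < p) (hc : 0 ≤ c) (hS : 0 ≤ S)
    (hpS : 1 ≤ p * (1 / 2 * S)) (hm : 2 ≤ m) (hkey : p * m / (1 + p * c) ≤ s) :
    0 < s ∧ 1 ≤ s * (1 / 2 * (c + S / 2)) := by
  have hden : 0 < 1 + p * c := by
    have := mul_nonneg hp.le hc; linarith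
  have h1 : 2 * p / (1 + p * c) ≤ s := by
    refine le_trans ?_ hkey
    rw [div_le_div_iff_of_pos_right hden]
    nlinarith
  have hpos : 0 < 2 * p / (1 + p * c) := by positivity
  refine ⟨lt_of_lt_of_le hpos h1, ?_⟩
  have h6 : 0 ≤ 1 / 2 * (c + S / 2) := by positivity
  refine le_trans ?_ (mul_le_mul_of_nonneg_right h1 h6)
  rw [div_mul_eq_mul_div, le_div_iff₀ hden]
  nlinarith

theorem SV_main {P : ℕ → List ℕ} (hl : 0 < l) (hne : ∀ j, 1 ≤ j → P j ≠ [])
    (hs : ∀ j, 1 ≤ j → 2 ≤ ∑ w ∈ Lev (P j), theta (Reg (P j)) (tr l) (pt w.dropLast l) {[]})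
    (n : ℕ) : ∀ j, 1 ≤ j → 0 < SV_s l P j (n + 1) ∧
      1 ≤ SV_s l P j (n + 1) *
        (1 / 2 * ∑ i ∈ range (n + 1), ((Lev (P (j + i))).card : ℝ) / 2 ^ i) := by
  induction n with
  | zero =>
    intro j hj
    have h0 : ({[]} : Finset (List ℕ)) ⊆ Reg (P j) := by
      rw [singleton_subset_iff]; exact TR_nil_mem (hne j hj)
    have e : SV_s l P j 1 = theta (Reg (P j)) (tr l) (dk (P j) l) {[]} := by
      unfold SV_s; simp only [SV_tail, List.append_nil]
    have h1 : ∀ w ∈ Lev (P j), theta (Reg (P j)) (tr l) (pt w.dropLast l) {[]} ≤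
        SV_s l P j 1 := by
      intro w hw
      rw [e]
      refine theta_rate_mono (tr_nonneg hl.le) (tr_nonneg hl.le) (SV_pt_nonneg hl.le _)
        (SV_dk_nonneg hl.le _) subset_rfl (fun _ _ _ _ => le_rfl) (fun x _ => ?_) h0
      unfold pt dk
      split_ifs with h2 h3
      · exact le_rfl
      · exfalso
        apply h3
        rw [h2, List.length_dropLast, (mem_Lev.1 hw).1]
        have := List.length_pos_iff.2 (hne j hj)
        omega
      · exact hl.le
      · exact le_rfl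
    have h2 := hs j hj
    have h3 := sum_le_sum h1
    rw [sum_const, nsmul_eq_mul] at h3
    have h4 : 2 ≤ ((Lev (P j)).card : ℝ) * SV_s l P j 1 := h2.trans h3
    have h5 : 0 ≤ SV_s l P j 1 := theta_nonneg (tr_nonneg hl.le) (SV_dk_nonneg hl.le _) _
    refine ⟨?_, ?_⟩
    · rcases h5.lt_or_eq with h6 | h6
      · exact h6
      · rw [← h6, mul_zero] at h4
        linarith
    · rw [zero_add, sum_range_one, add_zero, pow_zero, div_one]
      linarith
  | succ n ih =>
    intro j hj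
    obtain ⟨hp0, hp1⟩ := ih (j + 1) (by omega)
    set p := SV_s l P (j + 1) (n + 1) with hp
    have htne : SV_tail P (j + 1) (n + 1) ≠ [] := by
      rw [SV_tail]
      intro h
      exact hne (j + 1) (by omega) (List.append_eq_nil_iff.1 h).1
    have h0 : ({[]} : Finset (List ℕ)) ⊆ Reg (P j) := by
      rw [singleton_subset_iff]; exact TR_nil_mem (hne j hj)
    have key := gw_step (R := Reg (P j)) (r := tr l) (κ := dk (SV_tail P j (n + 2)) l)
      (U := Lev (P j)) (Q := fun w => (Reg (SV_tail P (j + 1) (n + 1))).image fun γ => w ++ γ)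
      (w := fun w => w.dropLast) (y := fun w => w) (c := l) (p := p) (tr_nonneg hl.le)
      (SV_dk_nonneg hl.le _) hl.le hp0.le
      (fun x hx => by
        have h1 := (mem_Reg.1 hx).1
        have h2 := List.length_pos_iff.2 htne
        unfold dk
        rw [if_neg]
        rw [SV_tail, List.length_append]
        omega)
      (fun w hw => TR_dropLast_Lev hw (hne j hj))
      (fun w hw => Finset.mem_image.2 ⟨[], TR_nil_mem htne, List.append_nil _⟩)
      (fun w hw => SV_disj_reg hw)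
      (fun w hw w' hw' hne' => SV_disj_copy hw hw' hne')
      (fun w hw => by
        have hwne : w ≠ [] := by
          rintro rfl
          have h1 := (mem_Lev.1 hw).1
          have h2 := List.length_pos_iff.2 (hne j hj)
          simp at h1
          omega
        show l ≤ tr l w.dropLast w
        rw [TR_tr_child hwne])
      (fun w hw => by
        have h1 := SV_shift (l := l) hl.le hw htne
        have h2 : SV_tail P j (n + 2) = P j ++ SV_tail P (j + 1) (n + 1) := rfl
        rw [h2]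
        show p ≤ theta ((Reg (SV_tail P (j + 1) (n + 1))).image fun γ => w ++ γ) (tr l)
          (dk (P j ++ SV_tail P (j + 1) (n + 1)) l) {w}
        rw [h1]
        exact le_rfl)
      (A := {[]}) h0
    have e2 : Reg (P j) ∪ (Lev (P j)).biUnion (fun w =>
        (Reg (SV_tail P (j + 1) (n + 1))).image fun γ => w ++ γ) =
        Reg (SV_tail P j (n + 2)) := by
      rw [show SV_tail P j (n + 2) = P j ++ SV_tail P (j + 1) (n + 1) from rfl, Reg_append]
    rw [e2] at key
    change _ ≤ SV_s l P j (n + 2) at key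
    have hm := hs j hj
    set m := ∑ w ∈ Lev (P j), theta (Reg (P j)) (tr l) (pt w.dropLast l) {[]} with hmdef
    set c : ℝ := ((Lev (P j)).card : ℝ) with hc
    have hc0 : 0 ≤ c := Nat.cast_nonneg _
    set S := ∑ i ∈ range (n + 1), ((Lev (P (j + 1 + i))).card : ℝ) / 2 ^ i with hS
    have esum : ∑ i ∈ range (n + 2), ((Lev (P (j + i))).card : ℝ) / 2 ^ i = c + S / 2 := by
      rw [sum_range_succ', add_comm, pow_zero, div_one, Nat.add_zero, ← hc, hS, sum_div]
      congr 1
      refine sum_congr rfl fun i _ => ?_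
      rw [show j + (i + 1) = j + 1 + i by ring, pow_succ, div_div]
    have hS0 : 0 ≤ S := by
      rw [hS]; exact sum_nonneg fun i _ => div_nonneg (Nat.cast_nonneg _) (by positivity)
    rw [show n + 1 + 1 = n + 2 by rfl, esum]
    exact SV_arith hp0 hc0 hS0 hp1 hm key

variable {Δ : ℕ} {G : ℕ → List ℕ} {N : ℕ → ℕ} {C Cm δ CN : ℝ}

lemma SV_Lev_one (b : ℕ) : replicate b 0 ∈ Lev (replicate b 1) := by
  rw [mem_Lev]
  refine ⟨by simp, fun i h h' => ?_⟩
  rw [List.getElem_replicate, List.getElem_replicate]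
  exact Nat.zero_lt_one

theorem survive (h : BlockSys l Δ G N C Cm δ CN) {J : ℕ} (hJ : 2 ≤ J) :
    1 / (CN + 1) ≤
      theta (Reg (cat (PP G N) J)) (tr l) (dk (cat (PP G N) J) l) {replicate (N 0) 0} := by
  have hl := h.l0
  obtain ⟨n, rfl⟩ : ∃ n, J = 1 + (n + 1) := ⟨J - 2, by omega⟩
  have hne : ∀ j, 1 ≤ j → PP G N j ≠ [] := by
    intro j hj
    obtain ⟨i, rfl⟩ : ∃ i, j = i + 1 := ⟨j - 1, by omega⟩
    intro h0
    rw [PP, List.append_eq_nil_iff] at h0
    exact h.hG i h0.1
  obtain ⟨h1, h2⟩ := SV_main (P := PP G N) hl hne (fun j hj => by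
    obtain ⟨i, rfl⟩ : ∃ i, j = i + 1 := ⟨j - 1, by omega⟩
    exact h.surv i) n 1 le_rfl
  have h3 := h.cardN (n + 1)
  have e3 : ∑ i ∈ range (n + 1), ((Lev (PP G N (1 + i))).card : ℝ) / 2 ^ i =
      ∑ j ∈ range (n + 1), ((Lev (PP G N (j + 1))).card : ℝ) / 2 ^ j :=
    sum_congr rfl fun i _ => by rw [add_comm]
  rw [e3] at h2
  have h4 : 1 / (CN + 1) ≤ SV_s l (PP G N) 1 (n + 1) := by
    have := h.hCN
    rw [div_le_iff₀ (by linarith)]
    nlinarith
  refine h4.trans ?_
  have hcat : cat (PP G N) (1 + (n + 1)) = replicate (N 0) 1 ++ SV_tail (PP G N) 1 (n + 1) := by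
    rw [SV_cat]
    congr 1
  have htne : SV_tail (PP G N) 1 (n + 1) ≠ [] := by
    rw [SV_tail]
    intro h
    exact hne 1 le_rfl (List.append_eq_nil_iff.1 h).1
  rw [hcat]
  unfold SV_s
  rw [← SV_shift (p := replicate (N 0) 1) hl.le (SV_Lev_one (N 0)) htne]
  refine theta_rate_mono (tr_nonneg hl.le) (tr_nonneg hl.le) (SV_dk_nonneg hl.le _)
    (SV_dk_nonneg hl.le _) (SV_copy_sub (SV_Lev_one (N 0))) (fun _ _ _ _ => le_rfl)
    (fun _ _ => le_rfl) ?_
  rw [singleton_subset_iff]
  exact Finset.mem_image.2 ⟨[], TR_nil_mem htne, List.append_nil _⟩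

end Pool.Agent.CP34
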