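import Pool.Agent.CP34.Defs2
import Pool.Agent.CP34.TR
import Pool.Agent.CP34.TT
import Pool.Agent.CP34.EX

/-! Module XR: the root of the tree is rarely infected. -/

open Finset Filter Topology
open List (replicate)

namespace Pool.Agent.CP34


/-! the root of the tree is rarely infected -/
variable {l : ℝ} {Δ : ℕ} {G : ℕ → List ℕ} {N : ℕ → ℕ} {C Cm δ CN : ℝ}

lemma XR_delta (h : BlockSys l Δ G N C Cm δ CN) : δ * Cm ≤ 1 / 16 ∧ δ ≤ 1 / 16 := by
  have hCm := h.hCm
  have hCpos : 0 < Cm := by linarith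
  have h1 : δ * Cm ≤ 1 / 16 := by
    have h3 : δ * Cm ≤ 1 / (16 * Cm) * Cm := mul_le_mul_of_nonneg_right h.δC hCpos.le
    have h4 : 1 / (16 * Cm) * Cm = 1 / 16 := by field_simp
    linarith
  refine ⟨h1, ?_⟩
  have := mul_le_mul_of_nonneg_left hCm h.δ0
  linarith

/-- the algebra of `XR_step` -/
lemma XR_alg {S : Finset (List ℕ)} {P : List ℕ → Prop} {g : List ℕ → List ℕ → ℝ}
    {f e : List ℕ → ℝ} {B δ Cm : ℝ} {x : List ℕ} (hB : 0 ≤ B) (hδ0 : 0 ≤ δ) (hδ16 : δ ≤ 1 / 16)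
    (hδC : δ * Cm ≤ 1 / 16) (_hCm : 1 ≤ Cm) (hg0 : ∀ v w, 0 ≤ g v w) (hf0 : ∀ v, 0 ≤ f v)
    (hd : ∀ v, P v → f v ≤ e v + ∑ w ∈ S, g v w * (2 * δ * f w.dropLast))
    (hs1 : ∀ u ∈ S, ∑ w ∈ S, g u.dropLast w ≤ δ) (hs2 : ∑ w ∈ S, g x w ≤ Cm)
    (hr : e x ≤ B) (hp : ∀ u ∈ S, e u.dropLast ≤ B) (hrm : P x) (hpm : ∀ u ∈ S, P u.dropLast) :
    f x ≤ 2 * B ∧ ∀ u ∈ S, f u.dropLast ≤ 2 * B := by
  have hsum : ∀ (v : List ℕ) (φ s : ℝ), 0 ≤ φ → (∀ w ∈ S, f w.dropLast ≤ φ) →
      ∑ w ∈ S, g v w ≤ s → ∑ w ∈ S, g v w * (2 * δ * f w.dropLast) ≤ s * (2 * δ * φ) := by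
    intro v φ s hφ0 hφ hs
    have h1 : ∑ w ∈ S, g v w * (2 * δ * f w.dropLast) ≤ ∑ w ∈ S, g v w * (2 * δ * φ) :=
      Finset.sum_le_sum fun w hw => mul_le_mul_of_nonneg_left
        (mul_le_mul_of_nonneg_left (hφ w hw) (by linarith)) (hg0 v w)
    rw [← Finset.sum_mul] at h1
    exact h1.trans (mul_le_mul_of_nonneg_right hs (mul_nonneg (by linarith) hφ0))
  obtain ⟨φ, hφ0, hφ, hφB⟩ : ∃ φ : ℝ, 0 ≤ φ ∧ (∀ u ∈ S, f u.dropLast ≤ φ) ∧ φ ≤ 2 * B := by
    rcases S.eq_empty_or_nonempty with h0 | h0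
    · exact ⟨0, le_rfl, fun u hu => by rw [h0] at hu; simp at hu, by linarith⟩
    · obtain ⟨u0, hu0, hmax⟩ := exists_max_image _ (fun u : List ℕ => f u.dropLast) h0
      obtain ⟨t, ht⟩ : ∃ t, t = f u0.dropLast := ⟨_, rfl⟩
      have ht0 : 0 ≤ t := by rw [ht]; exact hf0 _
      have hmax' : ∀ w ∈ S, f w.dropLast ≤ t := fun w hw => by rw [ht]; exact hmax w hw
      refine ⟨t, ht0, hmax', ?_⟩
      have h1 := hd _ (hpm u0 hu0)
      have h2 := hsum u0.dropLast t δ ht0 hmax' (hs1 u0 hu0)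
      have h3 := hp u0 hu0
      rw [← ht] at h1
      have h5 : δ * (2 * δ) ≤ 1 / 2 := by nlinarith
      have h6 := mul_le_mul_of_nonneg_right h5 ht0
      have h7 : δ * (2 * δ * t) = δ * (2 * δ) * t := by ring
      linarith
  refine ⟨?_, fun u hu => (hφ u hu).trans hφB⟩
  have h1 := hd x hrm
  have h2 := hsum x φ Cm hφ0 hφ hs2
  have e1 : Cm * (2 * δ * φ) = 2 * (δ * Cm) * φ := by ring
  have h5 : 2 * (δ * Cm) * φ ≤ 2 * (1 / 16) * φ :=
    mul_le_mul_of_nonneg_right (by linarith) hφ0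
  linarith

/-- gluing one block on top -/
lemma XR_step (h : BlockSys l Δ G N C Cm δ CN) (a : ℕ) {q : List ℕ} (hq : q ≠ []) {z : List ℕ}
    (hz : z ∈ Reg (replicate (N a) 1 ++ G (a + 1))) {B : ℝ} (hB : 0 ≤ B)
    (hup : l * green (Reg (replicate (N (a + 1)) 1 ++ q)) (tr l) 0 (hit {[]})
      {replicate (N (a + 1)) 0} ≤ 2 * δ)
    (hroot : green (Reg (BP G N a)) (tr l) 0 (hit {z}) {replicate (N a) 0} ≤ B)
    (hport : ∀ u ∈ Lev (replicate (N a) 1 ++ G (a + 1)),
      green (Reg (BP G N a)) (tr l) 0 (hit {z}) {u.dropLast} ≤ B) :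
    green (Reg (BP G N a ++ q)) (tr l) 0 (hit {z}) {replicate (N a) 0} ≤ 2 * B ∧
    ∀ u ∈ Lev (replicate (N a) 1 ++ G (a + 1)),
      green (Reg (BP G N a ++ q)) (tr l) 0 (hit {z}) {u.dropLast} ≤ 2 * B := by
  have hl := h.l0
  obtain ⟨hδC, hδ16⟩ := XR_delta h
  have hδ0 := h.δ0
  have hCm := h.hCm
  obtain ⟨F, hF⟩ : ∃ F, F = green (Reg (BP G N a ++ q)) (tr l) 0 (hit {z}) := ⟨_, rfl⟩
  rw [← hF]
  have hF0 : F ∅ = 0 := by rw [hF]; exact green_empty _
  have hFn : ∀ A, 0 ≤ F A := fun A => by rw [hF]; exact tt_green_nonneg hl.le _ _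
  have hhit : hit {z} (∅ : Finset (List ℕ)) = 0 := by simp [hit]
  have hsub : SubAddOn (Reg (BP G N a ++ q)) F := by
    rw [hF]
    exact (green_subModOn (tr_nonneg hl.le) (hit_monoOn _) hhit (hit_subModOn _)).subAddOn
      (green_empty _)
  have hgen : ∀ A ⊆ Reg (BP G N a ++ q), A ≠ ∅ →
      - hit {z} A ≤ gen (Reg (BP G N a ++ q)) (tr l) F A := by
    intro A hA hne
    rw [hF, gen_green (tr_nonneg hl.le) _ hA hne]
  have hbp : BP G N a = (replicate (N a) 1 ++ G (a + 1)) ++ replicate (N (a + 1)) 1 := rfl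
  have hpne : replicate (N a) 1 ++ G (a + 1) ≠ [] :=
    fun h2 => h.hG a (List.append_eq_nil_iff.1 h2).2
  -- from the root of a lower block
  have hlow : ∀ w ∈ Lev (replicate (N a) 1 ++ G (a + 1)),
      F {w ++ replicate (N (a + 1)) 0} ≤ 2 * δ * F {w.dropLast} := by
    intro w hw
    have e : BP G N a ++ q = (replicate (N a) 1 ++ G (a + 1)) ++
        (replicate (N (a + 1)) 1 ++ q) := by rw [hbp, List.append_assoc]
    have hmem : replicate (N (a + 1)) 0 ∈ Reg (replicate (N (a + 1)) 1 ++ q) := by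
      rw [Reg_append]
      exact Finset.mem_union_right _ (mem_biUnion.2 ⟨_, tt_root_lev _, Finset.mem_image.2
        ⟨[], TR_nil_mem hq, by simp⟩⟩)
    have key := tree_up (l := l) (p := replicate (N a) 1 ++ G (a + 1))
      (q := replicate (N (a + 1)) 1 ++ q) (F := F) (c := fun _ => 0) hl.le hpne hF0.le
      (by rw [← e]; exact hsub) hw
      (by
        intro A hA hne
        rw [← e]
        have hAR : A ⊆ Reg (BP G N a ++ q) := by
          refine hA.trans ?_
          intro x hx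
          obtain ⟨γ, hγ, rfl⟩ := Finset.mem_image.1 hx
          rw [e, Reg_append]
          exact Finset.mem_union_right _ (mem_biUnion.2 ⟨w, hw, Finset.mem_image.2 ⟨γ, hγ, rfl⟩⟩)
        have h1 := hgen A hAR hne
        have h2 : hit {z} A = 0 := by
          unfold hit
          rw [if_neg]
          rintro ⟨x, hx⟩
          rw [Finset.mem_inter, Finset.mem_singleton] at hx
          obtain ⟨hx1, rfl⟩ := hx
          obtain ⟨γ, hγ, hx2⟩ := Finset.mem_image.1 (hA hx1)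
          have h3 := (mem_Reg.1 hz).1
          have h4 := (mem_Lev.1 hw).1
          rw [← hx2, List.length_append] at h3
          omega
        rw [h2] at h1
        exact h1)
      (A := {replicate (N (a + 1)) 0}) (Finset.singleton_subset_iff.2 hmem)
    have hzr := green_zero (R := Reg (replicate (N (a + 1)) 1 ++ q)) (r := tr l)
      (κ := (0 : List ℕ → ℝ)) (tr_nonneg hl.le) (fun _ => le_rfl) {replicate (N (a + 1)) 0}
    rw [hzr, zero_add, Finset.image_singleton] at key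
    exact key.trans (mul_le_mul_of_nonneg_right hup (hFn _))
  -- from a vertex of the block
  have hdown : ∀ v ∈ Reg (BP G N a), F {v} ≤ green (Reg (BP G N a)) (tr l) 0 (hit {z}) {v} +
      ∑ w ∈ Lev (replicate (N a) 1 ++ G (a + 1)),
        l * green (Reg (BP G N a)) (tr l) 0
          (hit {(w ++ replicate (N (a + 1)) 0).dropLast}) {v} * (2 * δ * F {w.dropLast}) := by
    intro v hv
    have key := tree_down (l := l) (p := BP G N a) (q := q) (F := F) (c := hit {z}) hl.le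
      (EX_BP_ne h.hN a) hq hF0.le hsub
      (fun A hA hne => hgen A (hA.trans (TR_Reg_sub _ _)) hne)
      (A := {v}) (Finset.singleton_subset_iff.2 hv)
    refine key.trans (add_le_add le_rfl ?_)
    have e := tt_sum_link (replicate (N a) 1 ++ G (a + 1)) (N (a + 1))
      (fun α => l * green (Reg (BP G N a)) (tr l) 0 (hit {α.dropLast}) {v} * F {α})
    rw [← hbp] at e
    rw [e]
    exact Finset.sum_le_sum fun w hw => mul_le_mul_of_nonneg_left (hlow w hw)
      (mul_nonneg hl.le (tt_green_nonneg hl.le _ _))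
  have hsumeq : ∀ v, ∑ w ∈ Lev (replicate (N a) 1 ++ G (a + 1)),
      l * green (Reg (BP G N a)) (tr l) 0 (hit {(w ++ replicate (N (a + 1)) 0).dropLast}) {v} =
      ∑ w ∈ Lev (BP G N a), l * green (Reg (BP G N a)) (tr l) 0 (hit {w.dropLast}) {v} := by
    intro v
    have e := tt_sum_link (replicate (N a) 1 ++ G (a + 1)) (N (a + 1))
      (fun α => l * green (Reg (BP G N a)) (tr l) 0 (hit {α.dropLast}) {v})
    rw [← hbp] at e
    rw [e]
  -- abstract names
  obtain ⟨g, hg⟩ : ∃ g : List ℕ → List ℕ → ℝ, ∀ v w, g v w = l * green (Reg (BP G N a)) (tr l) 0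
      (hit {(w ++ replicate (N (a + 1)) 0).dropLast}) {v} := ⟨_, fun _ _ => rfl⟩
  obtain ⟨f, hf⟩ : ∃ f : List ℕ → ℝ, ∀ v, f v = F {v} := ⟨_, fun _ => rfl⟩
  obtain ⟨e, he⟩ : ∃ e : List ℕ → ℝ, ∀ v,
      e v = green (Reg (BP G N a)) (tr l) 0 (hit {z}) {v} := ⟨_, fun _ => rfl⟩
  have hg0 : ∀ v w, 0 ≤ g v w := fun v w => by
    rw [hg]; exact mul_nonneg hl.le (tt_green_nonneg hl.le _ _)
  have hf0 : ∀ v, 0 ≤ f v := fun v => by rw [hf]; exact hFn _
  have hd : ∀ v ∈ Reg (BP G N a), f v ≤ e v +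
      ∑ w ∈ Lev (replicate (N a) 1 ++ G (a + 1)), g v w * (2 * δ * f w.dropLast) := by
    intro v hv
    have := hdown v hv
    simp only [hg, hf, he]
    exact this
  have hs1 : ∀ u ∈ Lev (replicate (N a) 1 ++ G (a + 1)),
      ∑ w ∈ Lev (replicate (N a) 1 ++ G (a + 1)), g u.dropLast w ≤ δ := by
    intro u hu
    simp only [hg]
    rw [hsumeq]
    exact h.down_port a u hu
  have hs2 : ∑ w ∈ Lev (replicate (N a) 1 ++ G (a + 1)), g (replicate (N a) 0) w ≤ Cm := by
    simp only [hg]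
    rw [hsumeq]
    exact h.m_le a l hl le_rfl
  have hr' : e (replicate (N a) 0) ≤ B := by rw [he]; exact hroot
  have hp' : ∀ u ∈ Lev (replicate (N a) 1 ++ G (a + 1)), e u.dropLast ≤ B := fun u hu => by
    rw [he]; exact hport u hu
  have hrm := EX_root_mem (N := N) h.hG a
  have hpm : ∀ u ∈ Lev (replicate (N a) 1 ++ G (a + 1)), u.dropLast ∈ Reg (BP G N a) :=
    fun u hu => EX_port_mem h.hG a hu
  have hgoal : f (replicate (N a) 0) ≤ 2 * B ∧
      ∀ u ∈ Lev (replicate (N a) 1 ++ G (a + 1)), f u.dropLast ≤ 2 * B := by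
    clear hdown hsumeq hlow hgen hsub hFn hF0 hF hroot hport hup hg hf he
    exact XR_alg (S := Lev (replicate (N a) 1 ++ G (a + 1))) (P := fun v => v ∈ Reg (BP G N a))
      hB hδ0 hδ16 hδC hCm hg0 hf0 hd hs1 hs2 hr' hp' hrm hpm
  simp only [hf] at hgoal
  exact hgoal

/-- the top of a link above a finite number of blocks -/
lemma XR_claim (h : BlockSys l Δ G N C Cm δ CN) (n : ℕ) : ∀ a : ℕ,
    l * green (Reg (replicate (N a) 1 ++ cat (fun i => PP G N (a + 1 + i)) (n + 1))) (tr l) 0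
      (hit {[]}) {replicate (N a) 0} ≤ 2 * δ := by
  have hl := h.l0
  induction n with
  | zero =>
    intro a
    have e : replicate (N a) 1 ++ cat (fun i => PP G N (a + 1 + i)) (0 + 1) = BP G N a := by
      simp [cat, PP, BP]
    rw [e]
    have := h.up_root a
    have := h.δ0
    linarith
  | succ n ih =>
    intro a
    have e : replicate (N a) 1 ++ cat (fun i => PP G N (a + 1 + i)) (n + 1 + 1) =
        BP G N a ++ cat (fun i => PP G N (a + 1 + 1 + i)) (n + 1) := by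
      have h1 := EX_cat_add (fun i => PP G N (a + 1 + i)) 1 (n + 1)
      have h2 : n + 1 + 1 = 1 + (n + 1) := by omega
      rw [h2, h1]
      have h3 : (fun i => PP G N (a + 1 + (1 + i))) = fun i => PP G N (a + 1 + 1 + i) := by
        funext i; congr 1; omega
      rw [h3]
      simp [cat, PP, BP]
    rw [e]
    have h1 := XR_step h a (q := cat (fun i => PP G N (a + 1 + 1 + i)) (n + 1))
      (EX_cat_ne (fun i => EX_PP_ne h.hN _) (by omega)) (z := [])
      (by
        apply TR_nil_mem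
        exact fun h2 => h.hG a (List.append_eq_nil_iff.1 h2).2)
      (B := δ / l) (div_nonneg h.δ0 hl.le) (ih (a + 1))
      (by rw [le_div_iff₀ hl, mul_comm]; exact h.up_root a)
      (fun u hu => by rw [le_div_iff₀ hl, mul_comm]; exact h.up_port a u hu)
    have h2 := mul_le_mul_of_nonneg_left h1.1 hl.le
    have h3 : l * (2 * (δ / l)) = 2 * δ := by field_simp
    rw [h3] at h2
    exact h2

theorem root_bound (h : BlockSys l Δ G N C Cm δ CN) (J : ℕ) :
    green (Reg (cat (PP G N) J)) (tr l) 0 (hit {replicate (N 0) 0}) {replicate (N 0) 0} ≤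
      2 * C := by
  have hC := h.hC
  have hnot : ∀ p : List ℕ, p.length ≤ N 0 →
      green (Reg p) (tr l) 0 (hit {replicate (N 0) 0}) {replicate (N 0) 0} ≤ 2 * C := by
    intro p hp
    rw [green_not_subset]
    · linarith
    · rw [Finset.singleton_subset_iff]
      intro h1
      have := (mem_Reg.1 h1).1
      rw [List.length_replicate] at this
      omega
  rcases Nat.eq_zero_or_pos J with h0 | h0
  · subst h0
    exact hnot _ (by simp [cat])
  obtain ⟨J, rfl⟩ : ∃ J', J = J' + 1 := ⟨J - 1, by omega⟩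
  rcases Nat.eq_zero_or_pos J with h1 | h1
  · subst h1
    exact hnot _ (by simp [cat, PP])
  obtain ⟨J, rfl⟩ : ∃ J', J = J' + 1 := ⟨J - 1, by omega⟩
  rcases Nat.eq_zero_or_pos J with h2 | h2
  · subst h2
    have e : cat (PP G N) (0 + 1 + 1) = BP G N 0 := by
      have := EX_cat_two G N 0
      simpa [EX_o] using this
    rw [e]
    have := h.root_root 0
    linarith
  obtain ⟨n, rfl⟩ : ∃ n, J = n + 1 := ⟨J - 1, by omega⟩
  have e : cat (PP G N) (n + 1 + 1 + 1) =
      BP G N 0 ++ cat (fun i => PP G N (0 + 1 + 1 + i)) (n + 1) := by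
    have h3 := EX_cat_add (PP G N) 2 (n + 1)
    have h4 : n + 1 + 1 + 1 = 2 + (n + 1) := by omega
    rw [h4, h3]
    have := EX_cat_two G N 0
    have e2 : cat (PP G N) 2 = BP G N 0 := by simpa [EX_o] using this
    rw [e2]
  rw [e]
  refine (XR_step h 0 (q := cat (fun i => PP G N (0 + 1 + 1 + i)) (n + 1))
    (EX_cat_ne (fun i => EX_PP_ne h.hN _) (by omega)) (z := replicate (N 0) 0)
    ?_ (B := C) (by linarith) (XR_claim h n (0 + 1)) (h.root_root 0) (h.root_port 0)).1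
  rw [Reg_append]
  exact Finset.mem_union_right _ (mem_biUnion.2 ⟨_, tt_root_lev _, Finset.mem_image.2
    ⟨[], TR_nil_mem (h.hG 0), by simp⟩⟩)

end Pool.Agent.CP34
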