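import Pool.Agent.CP34.GT
import Pool.Agent.CP34.BS
import Pool.Agent.CP34.EX
import Pool.Agent.CP34.XR
import Pool.Agent.CP34.SV
import Pool.Agent.CP34.AL

/-! # Module HT: assembly of the tree -/

open Finset Filter Topology
open List (replicate)

namespace Pool.Agent.CP34

lemma ht_cat (P : ℕ → List ℕ) (J : ℕ) : ∃ q, cat P (J + 1) = P 0 ++ q := by
  induction J with
  | zero => exact ⟨[], by simp [cat]⟩
  | succ J ih =>
    obtain ⟨q, hq⟩ := ih
    refine ⟨q ++ P (J + 1), ?_⟩
    show cat P (J + 1) ++ P (J + 1) = _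
    rw [hq, List.append_assoc]

lemma ht_cat' (P : ℕ → List ℕ) (hP : P 1 ≠ []) (J : ℕ) :
    ∃ q, q ≠ [] ∧ cat P (J + 2) = P 0 ++ q := by
  induction J with
  | zero => exact ⟨P 1, hP, by simp [cat]⟩
  | succ J ih =>
    obtain ⟨q, hq0, hq⟩ := ih
    refine ⟨q ++ P (J + 2), by simp [hq0], ?_⟩
    show cat P (J + 2) ++ P (J + 2) = _
    rw [hq, List.append_assoc]

/-- main construction -/
theorem exists_goodTree {l1 : ℝ} (hl1 : 0 < l1) : ∃ Δ : ℕ, ∀ l χ, l1 ≤ l → PathBound l χ →
    ∃ P M s δ, GoodTree Δ l P M s δ := by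
  obtain ⟨d, hd, hmain⟩ := exists_tuned hl1
  refine ⟨d, fun l χ hl hχ => ?_⟩
  obtain ⟨k, ℓ, ε, q, Cs, hT⟩ := hmain l χ hl hχ
  obtain ⟨G, N, C, Cm, δ, CN, M0, hB⟩ := exists_blockSys hT
  have hl0 : 0 < l := hT.l0
  -- choice of the stem
  have hCN := (hB M0 le_rfl).hCN
  have h1 : Tendsto (fun M : ℕ => l * (l * gP l M * (2 * C))) atTop
      (𝓝 (l * (l * 0 * (2 * C)))) :=
    Tendsto.const_mul _ (Tendsto.mul_const _ (Tendsto.const_mul _ (gP_tendsto hl0.le hχ)))
  have hs : 0 < 1 / (CN + 1) := by positivity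
  have h2 : l * (l * 0 * (2 * C)) < 1 / (CN + 1) := by simpa using hs
  obtain ⟨M, hM, hM0⟩ := ((h1.eventually (gt_mem_nhds h2)).and (eventually_ge_atTop M0)).exists
  have h := hB M hM0
  set N' := Function.update N 0 M with hN'
  have hN0 : N' 0 = M := by simp [hN']
  have hC := h.hC
  refine ⟨PP G N', M, 1 / (CN + 1), l * (l * gP l M * (2 * C)), ?_⟩
  have hM1 : 1 ≤ M := by have := h.hN 0; rwa [hN0] at this
  refine
    { hM := hM1
      stem := by show replicate (N' 0) 1 = _; rw [hN0]
      last := ?_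
      entries := ?_
      δ0 := ?_
      lt := hM
      surv := ?_
      root := ?_
      ext := ?_ }
  · intro j
    have hj := h.hN j
    have e : replicate (N' j) 1 = replicate (N' j - 1) 1 ++ [1] := by
      rw [← List.replicate_succ']; congr 1; omega
    cases j with
    | zero => exact ⟨replicate (N' 0 - 1) 1, e⟩
    | succ j =>
      refine ⟨G (j + 1) ++ replicate (N' (j + 1) - 1) 1, ?_⟩
      show G (j + 1) ++ replicate (N' (j + 1)) 1 = _
      rw [e, List.append_assoc]
  · intro j x hx
    have hone : ∀ n, x ∈ replicate n 1 → 1 ≤ x ∧ x ≤ d := by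
      intro n hx
      rw [List.eq_of_mem_replicate hx]
      exact ⟨le_rfl, hd⟩
    cases j with
    | zero => exact hone _ hx
    | succ j =>
      rcases List.mem_append.1 hx with hx | hx
      · exact h.entries j x hx
      · exact hone _ hx
  · have := gP_nonneg hl0.le M
    have : 0 ≤ C := by linarith
    positivity
  · intro J hJ
    have := survive h hJ
    rwa [hN0] at this
  · intro J
    have hpos : 0 ≤ l * (l * gP l M * (2 * C)) := by
      have := gP_nonneg hl0.le M
      have : 0 ≤ C := by linarith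
      positivity
    rcases Nat.lt_or_ge J 2 with hJ | hJ
    · rw [green_not_subset]
      · simpa using hpos
      · rw [Finset.singleton_subset_iff, mem_Reg]
        rintro ⟨h1, _⟩
        interval_cases J
        · simp [cat] at h1
        · simp only [cat, List.nil_append] at h1
          have : (PP G N' 0).length = M := by
            show (replicate (N' 0) 1).length = M
            rw [hN0]; simp
          rw [this] at h1
          simp at h1
    · obtain ⟨J', rfl⟩ : ∃ J', J = J' + 2 := ⟨J - 2, by omega⟩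
      have hP1 : PP G N' 1 ≠ [] := by
        show G (0 + 1) ++ replicate (N' (0 + 1)) 1 ≠ []
        simp [h.hG 0]
      obtain ⟨q', hq0, hq'⟩ := ht_cat' (PP G N') hP1 J'
      have hP0 : PP G N' 0 = replicate M 1 := by
        show replicate (N' 0) 1 = _; rw [hN0]
      have h3 := ul_le (l := l) (a := M) (q := q') hl0.le hM1 hq0 (A := {replicate M 0}) (by
        rw [Finset.singleton_subset_iff]
        exact Finset.mem_image.2 ⟨[], TR_nil_mem hq0, by simp⟩)
      rw [← hP0, ← hq'] at h3
      have h4 := root_bound h (J' + 2)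
      rw [hN0] at h4
      have hgp := gP_nonneg hl0.le M
      calc l * green (Reg (cat (PP G N') (J' + 2))) (tr l) 0 (hit {[]}) {replicate M 0}
          ≤ l * (l * gP l M * green (Reg (cat (PP G N') (J' + 2))) (tr l) 0
              (hit {replicate M 0}) {replicate M 0}) := mul_le_mul_of_nonneg_left h3 hl0.le
        _ ≤ l * (l * gP l M * (2 * C)) := by
            refine mul_le_mul_of_nonneg_left ?_ hl0.le
            exact mul_le_mul_of_nonneg_left h4 (by positivity)
  · intro l' hl' hlt ε' hε'
    obtain ⟨J, hJ, h3⟩ := extinct h hl' hlt ε' hε'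
    rw [hN0] at h3
    exact ⟨J, hJ, h3⟩

end Pool.Agent.CP34
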