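import Mathlib

/-! Module LW: a two-sequence recursion lemma. -/

open Finset Filter Topology

namespace Pool.Agent.CP34

section LW

theorem weights {X U m : ℕ → ℝ} {C δ : ℝ} {i0 : ℕ} (hX0 : ∀ i, 0 ≤ X i) (hX1 : ∀ i, X i ≤ 1)
    (hU0 : ∀ i, 0 ≤ U i) (hU1 : ∀ i, U i ≤ 1) (hU : U 0 = 0) (hC : 1 ≤ C) (hδ0 : 0 ≤ δ)
    (hδ : δ ≤ 1 / (16 * C)) (hm0 : ∀ i, 0 ≤ m i) (hm : ∀ i, m i ≤ C)
    (hm' : ∀ i, i0 ≤ i → m i ≤ 1 / 4)
    (h1 : ∀ i, X (i + 1) ≤ m (i + 1) * X (i + 2) + δ * U i)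
    (h2 : ∀ i, U (i + 1) ≤ δ * X (i + 2) + δ * U i) : X 1 = 0 := by
  have hCpos : 0 < C := by linarith
  obtain ⟨H, hH⟩ : ∃ H : ℕ → ℝ, ∀ i, H i = (4 * C) ^ (i0 - i) := ⟨_, fun _ => rfl⟩
  have hA1 : 1 ≤ 4 * C := by linarith
  have hH1 : ∀ i, 1 ≤ H i := fun i => by rw [hH]; exact one_le_pow₀ hA1
  have hHpos : ∀ i, 0 < H i := fun i => lt_of_lt_of_le one_pos (hH1 i)
  -- H i ≤ 4 C * H (i+1)
  have hHs : ∀ i, H i ≤ 4 * C * H (i + 1) := by
    intro i
    rw [hH, hH]
    by_cases hi : i < i0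
    · have : i0 - i = (i0 - (i + 1)) + 1 := by omega
      rw [this, pow_succ]
      linarith [mul_comm ((4 * C) ^ (i0 - (i + 1))) (4 * C)]
    · have e1 : i0 - i = 0 := by omega
      have e2 : i0 - (i + 1) = 0 := by omega
      rw [e1, e2]; simpa using hA1
  have hHd : ∀ i, H (i + 1) ≤ H i := by
    intro i
    rw [hH, hH]
    exact pow_le_pow_right₀ hA1 (by omega)
  have hmH : ∀ i, m i * H (i + 1) ≤ H i / 4 := by
    intro i
    by_cases hi : i < i0
    · have e : H i = 4 * C * H (i + 1) := by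
        rw [hH, hH]
        have : i0 - i = (i0 - (i + 1)) + 1 := by omega
        rw [this, pow_succ]; ring
      rw [e]
      have := mul_le_mul_of_nonneg_right (hm i) (hHpos (i + 1)).le
      linarith
    · have e1 : H i = 1 := by rw [hH, show i0 - i = 0 by omega, pow_zero]
      have e2 : H (i + 1) = 1 := by rw [hH, show i0 - (i + 1) = 0 by omega, pow_zero]
      rw [e1, e2]
      have := hm' i (by omega)
      linarith
  have hδC : δ * (4 * C) ≤ 1 / 4 := by
    have h3 : δ * (4 * C) ≤ 1 / (16 * C) * (4 * C) :=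
      mul_le_mul_of_nonneg_right hδ (by linarith)
    have h4 : 1 / (16 * C) * (4 * C) = 1 / 4 := by field_simp; norm_num
    linarith
  have hδH : ∀ i, δ * H i ≤ H (i + 1) / 4 := by
    intro i
    have h3 := mul_le_mul_of_nonneg_left (hHs i) hδ0
    have h4 := mul_le_mul_of_nonneg_right hδC (hHpos (i + 1)).le
    nlinarith
  have hδ16 : δ ≤ 1 / 4 := by
    have : δ * 1 ≤ δ * (4 * C) := mul_le_mul_of_nonneg_left hA1 hδ0
    linarith
  have key : ∀ n : ℕ, (∀ i, X (i + 1) ≤ H (i + 1) / 2 ^ n) ∧ (∀ i, U i ≤ H i / 2 ^ n) := by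
    intro n
    induction n with
    | zero =>
      simp only [pow_zero, div_one]
      exact ⟨fun i => (hX1 _).trans (hH1 _), fun i => (hU1 _).trans (hH1 _)⟩
    | succ n ih =>
      obtain ⟨ihX, ihU⟩ := ih
      have hp : (0 : ℝ) < 2 ^ n := by positivity
      constructor
      · intro i
        have e1 := mul_le_mul_of_nonneg_left (ihX (i + 1)) (hm0 (i + 1))
        have e2 := mul_le_mul_of_nonneg_left (ihU i) hδ0
        have e3 := hmH (i + 1)
        have e4 := hδH i
        calc X (i + 1) ≤ m (i + 1) * X (i + 2) + δ * U i := h1 i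
          _ ≤ m (i + 1) * (H (i + 1 + 1) / 2 ^ n) + δ * (H i / 2 ^ n) := by
              have : X (i + 2) = X (i + 1 + 1) := rfl
              rw [this]; linarith
          _ = (m (i + 1) * H (i + 1 + 1) + δ * H i) / 2 ^ n := by ring
          _ ≤ (H (i + 1) / 4 + H (i + 1) / 4) / 2 ^ n := by gcongr
          _ = H (i + 1) / 2 ^ (n + 1) := by rw [pow_succ]; field_simp; ring
      · intro i
        rcases Nat.eq_zero_or_pos i with h0 | h0
        · subst h0
          rw [hU]
          have := hHpos 0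
          positivity
        · obtain ⟨j, rfl⟩ : ∃ j, i = j + 1 := ⟨i - 1, by omega⟩
          have e1 := mul_le_mul_of_nonneg_left (ihX (j + 1)) hδ0
          have e2 := mul_le_mul_of_nonneg_left (ihU j) hδ0
          have e3 : δ * H (j + 1 + 1) ≤ H (j + 1) / 4 := by
            have h5 := mul_le_mul hδ16 (hHd (j + 1)) (hHpos (j + 1 + 1)).le (by norm_num)
            linarith
          have e4 := hδH j
          calc U (j + 1) ≤ δ * X (j + 2) + δ * U j := h2 j
            _ ≤ δ * (H (j + 1 + 1) / 2 ^ n) + δ * (H j / 2 ^ n) := by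
                have : X (j + 2) = X (j + 1 + 1) := rfl
                rw [this]; linarith
            _ = (δ * H (j + 1 + 1) + δ * H j) / 2 ^ n := by ring
            _ ≤ (H (j + 1) / 4 + H (j + 1) / 4) / 2 ^ n := by gcongr
            _ = H (j + 1) / 2 ^ (n + 1) := by rw [pow_succ]; field_simp; ring
  have hlim : Tendsto (fun n : ℕ => H 1 / 2 ^ n) atTop (𝓝 0) := by
    have h3 : Tendsto (fun n : ℕ => ((1 : ℝ) / 2) ^ n) atTop (𝓝 0) :=
      tendsto_pow_atTop_nhds_zero_of_lt_one (by norm_num) (by norm_num)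
    have h4 := h3.const_mul (H 1)
    rw [mul_zero] at h4
    refine h4.congr fun n => ?_
    rw [one_div, inv_pow, div_eq_mul_inv]
  have h5 : X 1 ≤ 0 := ge_of_tendsto' hlim fun n => (key n).1 0
  exact le_antisymm h5 (hX0 1)

end LW

end Pool.Agent.CP34
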