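import Pool.Agent.CP34.Contact

/-!
# Module Z: the survival probability is the limit of the iterates of the jump chain operator
-/

open Finset Filter Topology
open MeasureTheory ProbabilityTheory
open scoped NNReal ENNReal

namespace Pool.Agent.CP34

section Z
variable {V : Type*} [DecidableEq V] (G : SimpleGraph V) [G.LocallyFinite]

/-- one-step operator on `ENNReal`-valued functions -/
noncomputable def Z_P (l : ℝ≥0) (f : Finset V → ℝ≥0∞) (A : Finset V) : ℝ≥0∞ :=
  ∫⁻ C, f C ∂(jumpMeas G l A)

lemma Z_joint (l : ℝ≥0) (A : Finset V) (n : ℕ) (a b : Finset V → ℝ≥0∞) :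
    ∫⁻ x, a (x n) * b (x (n + 1)) ∂(chainLaw G l A) =
      ∫⁻ x, a (x n) * Z_P G l b (x n) ∂(chainLaw G l A) := by
  have hma : Measurable a := measurable_from_top
  have hmb : Measurable b := measurable_from_top
  have hmP : Measurable (Z_P G l b) := measurable_from_top
  have hm1 : Measurable fun x : ℕ → Finset V => a (x n) * b (x (n + 1)) :=
    (hma.comp (measurable_pi_apply n)).mul (hmb.comp (measurable_pi_apply (n + 1)))
  have hm2 : Measurable fun x : ℕ → Finset V => a (x n) * Z_P G l b (x n) :=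
    (hma.comp (measurable_pi_apply n)).mul (hmP.comp (measurable_pi_apply n))
  have hcomp := Kernel.traj_comp_partialTraj (X := fun _ : ℕ => Finset V)
    (κ := histKernel G l) (Nat.zero_le n)
  unfold chainLaw
  rw [← hcomp]
  rw [Kernel.lintegral_comp _ _ _ hm1, Kernel.lintegral_comp _ _ _ hm2]
  refine lintegral_congr fun u => ?_
  rw [Kernel.lintegral_traj (X := fun _ : ℕ => Finset V) u hm1,
    Kernel.lintegral_traj (X := fun _ : ℕ => Finset V) u hm2]
  have h1 : ∀ x : ℕ → Finset V, Function.updateFinset x (Iic n) u n =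
      u ⟨n, Finset.mem_Iic.2 le_rfl⟩ := fun x => by
    simp [Function.updateFinset]
  have h2 : ∀ x : ℕ → Finset V, Function.updateFinset x (Iic n) u (n + 1) = x (n + 1) :=
    fun x => by simp [Function.updateFinset]
  simp only [h1, h2]
  have hm3 : Measurable fun x : ℕ → Finset V => b (x (n + 1)) :=
    hmb.comp (measurable_pi_apply (n + 1))
  rw [lintegral_const_mul _ hm3, lintegral_const, measure_univ, mul_one]
  congr 1
  have h3 := Kernel.map_traj_succ_self (X := fun _ : ℕ => Finset V)
    (κ := histKernel G l) (a := n)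
  have h4 : (Kernel.traj (X := fun _ : ℕ => Finset V) (histKernel G l) n u).map
      (fun x => x (n + 1)) = histKernel G l n u := by
    rw [← Kernel.map_apply _ (measurable_pi_apply (n + 1)), h3]
  have h5 : ∫⁻ x, b (x (n + 1)) ∂(Kernel.traj (X := fun _ : ℕ => Finset V) (histKernel G l) n u) =
      ∫⁻ C, b C ∂((Kernel.traj (X := fun _ : ℕ => Finset V) (histKernel G l) n u).map
        (fun x => x (n + 1))) := by
    rw [lintegral_map hmb (measurable_pi_apply (n + 1))]
  rw [h5, h4]
  rfl

lemma Z_zero (l : ℝ≥0) (A : Finset V) (b : Finset V → ℝ≥0∞) :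
    ∫⁻ x, b (x 0) ∂(chainLaw G l A) = b A := by
  have hmb : Measurable b := measurable_from_top
  unfold chainLaw
  rw [Kernel.lintegral_traj (X := fun _ : ℕ => Finset V) (f := fun x => b (x 0)) _
    (hmb.comp (measurable_pi_apply 0))]
  have h1 : ∀ x : ℕ → Finset V, Function.updateFinset x (Iic 0) (fun _ => A) 0 = A :=
    fun x => by simp [Function.updateFinset]
  simp only [h1]
  rw [lintegral_const, measure_univ, mul_one]

lemma Z_iter (l : ℝ≥0) (A : Finset V) (n : ℕ) (b : Finset V → ℝ≥0∞) :
    ∫⁻ x, b (x n) ∂(chainLaw G l A) = (Z_P G l)^[n] b A := by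
  induction n generalizing b with
  | zero => exact Z_zero G l A b
  | succ n ih =>
    have h := Z_joint G l A n (fun _ => 1) b
    simp only [one_mul] at h
    rw [h, ih, Function.iterate_succ_apply]

lemma Z_P_ofReal (l : ℝ≥0) {f : Finset V → ℝ} (hf : ∀ A, 0 ≤ f A) (A : Finset V) :
    Z_P G l (fun B => ENNReal.ofReal (f B)) A = ENNReal.ofReal (stepOp G l f A) := by
  unfold Z_P stepOp jumpMeas
  have hm : Measurable fun B : Finset V => ENNReal.ofReal (f B) := measurable_from_top
  split_ifs with h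
  · rw [lintegral_dirac' _ hm]
  · rw [lintegral_add_measure, lintegral_finsetSum_measure, lintegral_finsetSum_measure]
    simp only [lintegral_finsetSum_measure, lintegral_smul_measure, lintegral_dirac' _ hm]
    have hq := (jumpRate_pos G l h)
    have e1 : ∀ B : Finset V, (1 / jumpRate G l A) • ENNReal.ofReal (f B) =
        ENNReal.ofReal ((jumpRate G l A : ℝ)⁻¹ * f B) := fun B => by
      rw [ENNReal.smul_def, smul_eq_mul, ENNReal.ofReal_mul (by positivity)]
      congr 1
      rw [← NNReal.coe_inv, ENNReal.ofReal_coe_nnreal, one_div]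
    have e2 : ∀ B : Finset V, (l / jumpRate G l A) • ENNReal.ofReal (f B) =
        ENNReal.ofReal ((jumpRate G l A : ℝ)⁻¹ * (l * f B)) := fun B => by
      rw [ENNReal.smul_def, smul_eq_mul, ← mul_assoc, ENNReal.ofReal_mul (by positivity)]
      congr 1
      rw [← NNReal.coe_inv, ← NNReal.coe_mul, ENNReal.ofReal_coe_nnreal, div_eq_mul_inv, mul_comm]
    simp only [e1, e2]
    rw [← ENNReal.ofReal_sum_of_nonneg (fun x _ => by have := hf (A.erase x); positivity)]
    have e3 : ∀ x ∈ A, ∑ y ∈ G.neighborFinset x \ A,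
        ENNReal.ofReal ((jumpRate G l A : ℝ)⁻¹ * (l * f (insert y A))) =
        ENNReal.ofReal (∑ y ∈ G.neighborFinset x \ A,
          ((jumpRate G l A : ℝ)⁻¹ * (l * f (insert y A)))) := fun x _ => by
      rw [ENNReal.ofReal_sum_of_nonneg (fun y _ => by have := hf (insert y A); positivity)]
    rw [sum_congr rfl e3]
    rw [← ENNReal.ofReal_sum_of_nonneg (fun x _ => sum_nonneg fun y _ => by
      have := hf (insert y A); positivity)]
    rw [← ENNReal.ofReal_add (sum_nonneg fun x _ => by have := hf (A.erase x); positivity)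
      (sum_nonneg fun x _ => sum_nonneg fun y _ => by have := hf (insert y A); positivity)]
    congr 1
    rw [mul_add, mul_sum, mul_sum, mul_sum]
    congr 1
    refine sum_congr rfl fun x _ => ?_
    rw [mul_sum, mul_sum]

lemma Z_stepOp_nonneg (l : ℝ≥0) {f : Finset V → ℝ} (hf : ∀ A, 0 ≤ f A) (A : Finset V) :
    0 ≤ stepOp G l f A := by
  unfold stepOp
  split_ifs
  · exact hf _
  · have h1 : 0 ≤ ∑ x ∈ A, f (A.erase x) := sum_nonneg fun x _ => hf _
    have h2 : 0 ≤ ∑ x ∈ A, ∑ y ∈ G.neighborFinset x \ A, f (insert y A) :=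
      sum_nonneg fun x _ => sum_nonneg fun y _ => hf _
    positivity

lemma Z_iter_nonneg (l : ℝ≥0) {f : Finset V → ℝ} (hf : ∀ A, 0 ≤ f A) (n : ℕ) (A : Finset V) :
    0 ≤ (stepOp G l)^[n] f A := by
  induction n generalizing f with
  | zero => exact hf A
  | succ n ih => rw [Function.iterate_succ_apply]; exact ih (Z_stepOp_nonneg G l hf)

lemma Z_iter_ofReal (l : ℝ≥0) {f : Finset V → ℝ} (hf : ∀ A, 0 ≤ f A) (n : ℕ) (A : Finset V) :
    (Z_P G l)^[n] (fun B => ENNReal.ofReal (f B)) A = ENNReal.ofReal ((stepOp G l)^[n] f A) := by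
  induction n generalizing f with
  | zero => rfl
  | succ n ih =>
    rw [Function.iterate_succ_apply, Function.iterate_succ_apply]
    have : Z_P G l (fun B => ENNReal.ofReal (f B)) =
        fun B => ENNReal.ofReal (stepOp G l f B) := by
      funext B; exact Z_P_ofReal G l hf B
    rw [this]
    exact ih (Z_stepOp_nonneg G l hf)

omit [DecidableEq V] in
lemma Z_meas_ne (n : ℕ) : MeasurableSet {x : ℕ → Finset V | x n ≠ ∅} :=
  measurableSet_preimage (t := {B : Finset V | B ≠ ∅}) (measurable_pi_apply n)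
    MeasurableSpace.measurableSet_top

instance Z_prob (l : ℝ≥0) (A : Finset V) : IsProbabilityMeasure (chainLaw G l A) := by
  unfold chainLaw; infer_instance

lemma Z_real (l : ℝ≥0) (A : Finset V) (n : ℕ) :
    (chainLaw G l A).real {x | x n ≠ ∅} = (stepOp G l)^[n] aliveF A := by
  have h := Z_iter G l A n (fun B => ENNReal.ofReal (aliveF B))
  have hal : ∀ B : Finset V, 0 ≤ aliveF B := fun B => by unfold aliveF; split_ifs <;> norm_num
  rw [Z_iter_ofReal G l hal] at h
  have h2 : ∫⁻ x, ENNReal.ofReal (aliveF (x n)) ∂(chainLaw G l A) =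
      chainLaw G l A {x | x n ≠ ∅} := by
    rw [← lintegral_indicator_one (Z_meas_ne n)]
    refine lintegral_congr fun x => ?_
    unfold aliveF
    by_cases hx : x n = ∅
    · simp [hx]
    · simp [hx]
  rw [h2] at h
  rw [Measure.real, h, ENNReal.toReal_ofReal (Z_iter_nonneg G l hal n A)]

/-- the empty configuration is absorbing -/
lemma Z_absorb (l : ℝ≥0) (A : Finset V) (n : ℕ) :
    chainLaw G l A ({x | x (n + 1) ≠ ∅} \ {x | x n ≠ ∅}) = 0 := by
  have h := Z_joint G l A n (fun B => if B = ∅ then 1 else 0) (fun B => if B = ∅ then 0 else 1)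
  have h1 : ∀ x : ℕ → Finset V, ((if x n = ∅ then 1 else 0) *
      Z_P G l (fun B => if B = ∅ then 0 else 1) (x n) : ℝ≥0∞) = 0 := by
    intro x
    by_cases hx : x n = ∅
    · rw [if_pos hx, one_mul, hx]
      unfold Z_P jumpMeas
      rw [if_pos rfl, lintegral_dirac' _ measurable_from_top, if_pos rfl]
    · rw [if_neg hx, zero_mul]
  simp only [h1, lintegral_zero] at h
  rw [← h, ← lintegral_indicator_one ((Z_meas_ne (n + 1)).diff (Z_meas_ne n))]
  refine lintegral_congr fun x => ?_
  by_cases hx : x n = ∅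
  · by_cases hy : x (n + 1) = ∅
    · simp [hx, hy]
    · simp [hx, hy]
  · simp [hx]

lemma Z_alive_iff (l : ℝ≥0) (ω : (ℕ → Finset V) × (ℕ → ℝ)) :
    (∀ t : ℝ, 0 ≤ t → AliveAt G l ω t) ↔ ∀ n, ω.1 n ≠ ∅ := by
  constructor
  · intro h n
    exact h (max (jumpTime G l ω n) 0) (le_max_right _ _) n (le_max_left _ _)
  · intro h t _ n _
    exact h n

theorem zeta_tendsto (l : ℝ≥0) (A : Finset V) :
    Tendsto (fun n => (stepOp G l)^[n] aliveF A) atTop (𝓝 (zeta G l A)) := by
  set ν := chainLaw G l A with hν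
  -- decreasing events
  set E : ℕ → Set (ℕ → Finset V) := fun n => {x | ∀ k ≤ n, x k ≠ ∅} with hE
  have hEm : ∀ n, MeasurableSet (E n) := fun n => by
    have : E n = ⋂ k ∈ Set.Iic n, {x | x k ≠ ∅} := by
      ext x; simp [hE]
    rw [this]
    exact MeasurableSet.biInter (Set.to_countable _) fun k _ => Z_meas_ne k
  have hEanti : Antitone E := fun m n hmn x hx k hk => hx k (hk.trans hmn)
  have hEprob : ∀ n, ν (E n) = ν {x | x n ≠ ∅} := by
    intro n
    induction n with
    | zero =>
      congr 1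
      ext x
      simp [hE]
    | succ n ih =>
      have e1 : E (n + 1) = {x | x (n + 1) ≠ ∅} ∩ E n := by
        ext x
        simp only [hE, Set.mem_ofPred_eq, Set.mem_inter_iff]
        constructor
        · intro h; exact ⟨h _ le_rfl, fun k hk => h k (by omega)⟩
        · rintro ⟨h1, h2⟩ k hk
          rcases Nat.lt_or_ge n k with h3 | h3
          · have : k = n + 1 := by omega
            rw [this]; exact h1
          · exact h2 k h3
      -- `E n` and `{x n ≠ ∅}` agree up to a null set
      have h2 : ν ({x | x n ≠ ∅} \ E n) = 0 := by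
        have hsub : E n ⊆ {x | x n ≠ ∅} := fun x hx => hx n le_rfl
        rw [measure_sdiff hsub (hEm n).nullMeasurableSet
          (measure_ne_top _ _), ih, tsub_self]
      have h3 := Z_absorb G l A n
      have h4 : ν ({x | x (n + 1) ≠ ∅} \ E n) = 0 := by
        refine measure_mono_null (t := ({x | x (n + 1) ≠ ∅} \ {x | x n ≠ ∅}) ∪
          ({x | x n ≠ ∅} \ E n)) ?_ ?_
        · rintro x ⟨hx1, hx2⟩
          by_cases hx : x n ≠ ∅
          · exact Or.inr ⟨hx, hx2⟩
          · exact Or.inl ⟨hx1, hx⟩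
        · rw [measure_union_null_iff]
          exact ⟨h3, h2⟩
      rw [e1]
      have h5 := measure_inter_add_sdiff (μ := ν) {x | x (n + 1) ≠ ∅} (hEm n)
      rw [h4, add_zero] at h5
      exact h5
  have : IsProbabilityMeasure (expMeasure 1) := isProbabilityMeasure_expMeasure one_pos
  have hS : zeta G l A = ν.real (⋂ n, E n) := by
    unfold zeta contactLaw
    have e1 : {ω : (ℕ → Finset V) × (ℕ → ℝ) | ∀ t : ℝ, 0 ≤ t → AliveAt G l ω t} =
        (⋂ n, E n) ×ˢ Set.univ := by
      ext ω
      rw [Set.mem_ofPred_eq, Z_alive_iff]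
      simp only [hE, Set.mem_prod, Set.mem_iInter, Set.mem_ofPred_eq, Set.mem_univ, and_true]
      constructor
      · intro h n k _; exact h k
      · intro h n; exact h n n le_rfl
    rw [e1, measureReal_prod_prod]
    simp [hν]
  rw [hS]
  have h1 : Tendsto (fun n => ν (E n)) atTop (𝓝 (ν (⋂ n, E n))) :=
    tendsto_measure_iInter_atTop (fun n => (hEm n).nullMeasurableSet) hEanti
      ⟨0, measure_ne_top _ _⟩
  have h2 : Tendsto (fun n => ν.real (E n)) atTop (𝓝 (ν.real (⋂ n, E n))) :=
    (ENNReal.tendsto_toReal (measure_ne_top _ _)).comp h1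
  refine h2.congr fun n => ?_
  rw [Measure.real, hEprob, ← Z_real G l A n]
  rfl

end Z

end Pool.Agent.CP34
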