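import Pool.Agent.CP34.Z
import Pool.Agent.CP34.C4

/-! # Module ZA: survival probabilities as maximal harmonic functions and as limits of exit
probabilities of finite regions. -/

open Finset Filter Topology
open MeasureTheory ProbabilityTheory
open scoped NNReal ENNReal

namespace Pool.Agent.CP34

section ZA
set_option linter.unusedSectionVars false
variable {V : Type*} [DecidableEq V] (G : SimpleGraph V) [DecidableRel G.Adj] [G.LocallyFinite]

/-- exit intensity of the region `R` -/
def exG (l : ℝ) (R : Finset V) (x : V) : ℝ := l * ((G.neighborFinset x \ R).card : ℝ)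

omit [DecidableRel G.Adj] in
lemma ZA_iter_empty (l : ℝ≥0) (f : Finset V → ℝ) (n : ℕ) :
    (stepOp G l)^[n] f ∅ = f ∅ := by
  induction n with
  | zero => rfl
  | succ n ih =>
    rw [Function.iterate_succ_apply']
    unfold stepOp at ih ⊢
    rw [if_pos rfl]; exact ih

theorem zeta_empty (l : ℝ≥0) : zeta G l ∅ = 0 := by
  have h := zeta_tendsto G l ∅
  have h2 : (fun n => (stepOp G l)^[n] aliveF (∅ : Finset V)) = fun _ => (0:ℝ) := by
    funext n
    rw [ZA_iter_empty]; simp [aliveF]
  rw [h2] at h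
  exact tendsto_nhds_unique h tendsto_const_nhds

omit [DecidableRel G.Adj] in
lemma ZA_step_mono (l : ℝ≥0) {f g : Finset V → ℝ} (h : ∀ A, f A ≤ g A) (A : Finset V) :
    stepOp G l f A ≤ stepOp G l g A := by
  unfold stepOp
  split_ifs
  · exact h _
  · refine mul_le_mul_of_nonneg_left ?_ (by positivity)
    refine add_le_add (sum_le_sum fun x _ => h _) ?_
    exact mul_le_mul_of_nonneg_left (sum_le_sum fun x _ => sum_le_sum fun y _ => h _) l.coe_nonneg

omit [DecidableRel G.Adj] in
lemma ZA_step_const (l : ℝ≥0) (c : ℝ) (A : Finset V) :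
    stepOp G l (fun _ => c) A = c := by
  unfold stepOp
  split_ifs with h
  · rfl
  · have hq : (jumpRate G l A : ℝ) ≠ 0 := by
      exact_mod_cast (jumpRate_pos G l h).ne'
    rw [inv_mul_eq_iff_eq_mul₀ hq]
    unfold jumpRate
    push_cast
    simp only [sum_const, nsmul_eq_mul, ← sum_mul]
    ring

omit [DecidableRel G.Adj] in
lemma ZA_iter_nonneg (l : ℝ≥0) (n : ℕ) (A : Finset V) : 0 ≤ (stepOp G l)^[n] aliveF A := by
  induction n generalizing A with
  | zero =>
    simp only [Function.iterate_zero, id]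
    unfold aliveF; split_ifs <;> norm_num
  | succ n ih =>
    rw [Function.iterate_succ_apply']
    calc (0:ℝ) = stepOp G l (fun _ => 0) A := (ZA_step_const G l 0 A).symm
      _ ≤ _ := ZA_step_mono G l (fun A => ih A) A

omit [DecidableRel G.Adj] in
lemma ZA_iter_le_one (l : ℝ≥0) (n : ℕ) (A : Finset V) : (stepOp G l)^[n] aliveF A ≤ 1 := by
  induction n generalizing A with
  | zero =>
    simp only [Function.iterate_zero, id]
    unfold aliveF; split_ifs <;> norm_num
  | succ n ih =>
    rw [Function.iterate_succ_apply']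
    calc _ ≤ stepOp G l (fun _ => 1) A := ZA_step_mono G l (fun A => ih A) A
      _ = 1 := ZA_step_const G l 1 A

theorem zeta_nonneg (l : ℝ≥0) (A : Finset V) : 0 ≤ zeta G l A :=
  ge_of_tendsto' (zeta_tendsto G l A) fun n => ZA_iter_nonneg G l n A

theorem zeta_le_one (l : ℝ≥0) (A : Finset V) : zeta G l A ≤ 1 :=
  le_of_tendsto' (zeta_tendsto G l A) fun n => ZA_iter_le_one G l n A

omit [DecidableRel G.Adj] in
lemma ZA_step_tendsto (l : ℝ≥0) {f : ℕ → Finset V → ℝ} {g : Finset V → ℝ}
    (h : ∀ A, Tendsto (fun n => f n A) atTop (𝓝 (g A))) (A : Finset V) :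
    Tendsto (fun n => stepOp G l (f n) A) atTop (𝓝 (stepOp G l g A)) := by
  unfold stepOp
  split_ifs
  · exact h _
  · refine Tendsto.const_mul _ (Tendsto.add ?_ (Tendsto.const_mul _ ?_))
    · exact tendsto_finsetSum _ fun x _ => h _
    · exact tendsto_finsetSum _ fun x _ => tendsto_finsetSum _ fun y _ => h _

theorem ZA_zeta_step (l : ℝ≥0) (A : Finset V) : stepOp G l (zeta G l) A = zeta G l A := by
  have h1 := ZA_step_tendsto G l (f := fun n => (stepOp G l)^[n] aliveF) (g := zeta G l)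
    (fun A => zeta_tendsto G l A) A
  have h2 : Tendsto (fun n => (stepOp G l)^[n + 1] aliveF A) atTop (𝓝 (zeta G l A)) :=
    (zeta_tendsto G l A).comp (tendsto_add_atTop_nat 1)
  refine tendsto_nhds_unique h1 (h2.congr fun n => ?_)
  rw [Function.iterate_succ_apply']

/-- splitting the generator -/
lemma ZA_gen_split {R R' : Finset V} (r : V → V → ℝ) (f : Finset V → ℝ) {A : Finset V}
    (hA : A ⊆ R) (hR : R ⊆ R') :
    gen R' r f A = gen R r f A + ∑ x ∈ A, ∑ y ∈ R' \ R, r x y * (f (insert y A) - f A) := by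
  unfold gen
  have e1 : ∀ S : Finset V, A ⊆ S → ∑ x ∈ S, (f (A.erase x) - f A) =
      ∑ x ∈ A, (f (A.erase x) - f A) := fun S hS => by
    symm
    refine sum_subset hS fun x _ hx => ?_
    rw [erase_eq_of_notMem hx, sub_self]
  have e2 : ∀ S T : Finset V, A ⊆ S → ∑ x ∈ S, ∑ y ∈ T, r x y * (f (arr x y A) - f A) =
      ∑ x ∈ A, ∑ y ∈ T, r x y * (f (insert y A) - f A) := fun S T hS => by
    symm
    rw [← sum_subset hS (f := fun x => ∑ y ∈ T, r x y * (f (arr x y A) - f A))]
    · refine sum_congr rfl fun x hx => sum_congr rfl fun y _ => ?_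
      simp [arr, hx]
    · intro x _ hx
      refine sum_eq_zero fun y _ => ?_
      simp [arr, hx]
  rw [e1 R hA, e1 R' (hA.trans hR), e2 R R hA, e2 R' R' (hA.trans hR), add_assoc]
  congr 1
  rw [← sum_add_distrib]
  refine sum_congr rfl fun x _ => ?_
  rw [add_comm, sum_sdiff hR]

omit [G.LocallyFinite] in
lemma ZA_adjR_nonneg {l : ℝ} (hl : 0 ≤ l) (x y : V) : 0 ≤ adjR G l x y := by
  unfold adjR; split_ifs
  · exact hl
  · exact le_rfl

lemma ZA_sum_adjR (l : ℝ) (x : V) (S : Finset V) :
    ∑ y ∈ S, adjR G l x y = l * ((G.neighborFinset x ∩ S).card : ℝ) := by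
  unfold adjR
  rw [sum_ite, sum_const_zero, add_zero, sum_const, nsmul_eq_mul, mul_comm]
  congr 3
  ext y
  simp only [mem_filter, mem_inter, SimpleGraph.mem_neighborFinset]
  tauto

/-- The generator on a region containing all neighbours. -/
lemma ZA_gen_eq (l : ℝ≥0) (f : Finset V → ℝ) {A R : Finset V} (hA : A ⊆ R)
    (hN : ∀ x ∈ A, G.neighborFinset x ⊆ R) (hne : A ≠ ∅) :
    gen R (adjR G (l : ℝ)) f A = jumpRate G l A * (stepOp G l f A - f A) := by
  have hq : (jumpRate G l A : ℝ) ≠ 0 := by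
    exact_mod_cast (jumpRate_pos G l hne).ne'
  have e1 : ∑ x ∈ R, (f (A.erase x) - f A) = ∑ x ∈ A, f (A.erase x) - A.card * f A := by
    rw [← sum_subset hA (f := fun x => f (A.erase x) - f A)]
    · rw [sum_sub_distrib, sum_const, nsmul_eq_mul]
    · intro x _ hx
      show f (A.erase x) - f A = 0
      rw [erase_eq_of_notMem hx, sub_self]
  have e2 : ∑ x ∈ R, ∑ y ∈ R, adjR G (l : ℝ) x y * (f (arr x y A) - f A) =
      ∑ x ∈ A, (∑ y ∈ G.neighborFinset x \ A, (l : ℝ) * (f (insert y A) - f A)) := by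
    rw [← sum_subset hA (f := fun x => ∑ y ∈ R, adjR G (l : ℝ) x y * (f (arr x y A) - f A))]
    · refine sum_congr rfl fun x hx => ?_
      have hsub : G.neighborFinset x \ A ⊆ R := sdiff_subset.trans (hN x hx)
      rw [← sum_subset hsub (f := fun y => adjR G (l : ℝ) x y * (f (arr x y A) - f A))]
      · refine sum_congr rfl fun y hy => ?_
        simp only [Finset.mem_sdiff, SimpleGraph.mem_neighborFinset] at hy
        simp [arr, hx, adjR, hy.1]
      · intro y _ hy
        simp only [Finset.mem_sdiff, SimpleGraph.mem_neighborFinset, not_and, not_not] at hy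
        by_cases hadj : G.Adj x y
        · have : y ∈ A := hy hadj
          simp [arr, hx, this]
        · simp [adjR, hadj]
    · intro x _ hx
      refine sum_eq_zero fun y _ => ?_
      simp [arr, hx]
  have e3 : ∑ x ∈ A, (∑ y ∈ G.neighborFinset x \ A, (l : ℝ) * (f (insert y A) - f A)) =
      l * (∑ x ∈ A, ∑ y ∈ G.neighborFinset x \ A, f (insert y A)) -
        l * (∑ x ∈ A, ((G.neighborFinset x \ A).card : ℝ)) * f A := by
    rw [mul_sum, mul_sum, sum_mul, ← sum_sub_distrib]
    refine sum_congr rfl fun x _ => ?_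
    rw [← mul_sum, sum_sub_distrib, sum_const, nsmul_eq_mul]; ring
  unfold gen
  rw [e1, e2, e3]
  unfold stepOp
  rw [if_neg hne, mul_sub, mul_inv_cancel_left₀ hq]
  unfold jumpRate
  push_cast
  ring

lemma ZA_gen_empty (R : Finset V) (r : V → V → ℝ) (f : Finset V → ℝ) : gen R r f ∅ = 0 := by
  simp [gen, arr]

theorem zeta_harm (l : ℝ≥0) {A R : Finset V} (hA : A ⊆ R)
    (hN : ∀ x ∈ A, G.neighborFinset x ⊆ R) : gen R (adjR G (l : ℝ)) (zeta G l) A = 0 := by
  by_cases hne : A = ∅
  · subst hne; exact ZA_gen_empty _ _ _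
  · rw [ZA_gen_eq G l _ hA hN hne, ZA_zeta_step, sub_self, mul_zero]

theorem zeta_max (l : ℝ≥0) {h : Finset V → ℝ} (h1 : ∀ A, h A ≤ 1) (h0 : h ∅ ≤ 0)
    (hh : ∀ A : Finset V, A ≠ ∅ → ∃ R, A ⊆ R ∧ (∀ x ∈ A, G.neighborFinset x ⊆ R) ∧
      0 ≤ gen R (adjR G (l : ℝ)) h A) : ∀ A, h A ≤ zeta G l A := by
  have hstep : ∀ A, h A ≤ stepOp G l h A := by
    intro A
    by_cases hne : A = ∅
    · subst hne; unfold stepOp; rw [if_pos rfl]
    · obtain ⟨R, hA, hN, hg⟩ := hh A hne
      rw [ZA_gen_eq G l _ hA hN hne] at hg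
      have hq : (0:ℝ) < jumpRate G l A := by
        exact_mod_cast jumpRate_pos G l hne
      have := nonneg_of_mul_nonneg_right hg hq
      linarith
  have hiter : ∀ n, ∀ A, h A ≤ (stepOp G l)^[n] aliveF A := by
    intro n
    induction n with
    | zero =>
      intro A
      simp only [Function.iterate_zero, id]
      unfold aliveF; split_ifs with hA
      · rw [hA]; exact h0
      · exact h1 A
    | succ n ih =>
      intro A
      rw [Function.iterate_succ_apply']
      exact (hstep A).trans (ZA_step_mono G l ih A)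
  intro A
  exact ge_of_tendsto' (zeta_tendsto G l A) fun n => hiter n A

lemma ZA_exG_nonneg {l : ℝ} (hl : 0 ≤ l) (R : Finset V) (x : V) : 0 ≤ exG G l R x := by
  unfold exG; positivity

/-- exit intensity of a smaller region -/
lemma ZA_exG_split (l : ℝ) {R R' : Finset V} (hR : R ⊆ R') (x : V) :
    exG G l R x = exG G l R' x + ∑ y ∈ R' \ R, adjR G l x y := by
  rw [ZA_sum_adjR]
  unfold exG
  rw [← mul_add]
  congr 1
  have : G.neighborFinset x \ R =
      (G.neighborFinset x \ R') ∪ (G.neighborFinset x ∩ (R' \ R)) := by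
    ext y
    simp only [Finset.mem_sdiff, mem_union, mem_inter]
    constructor
    · rintro ⟨h1, h2⟩
      by_cases h3 : y ∈ R'
      · exact Or.inr ⟨h1, h3, h2⟩
      · exact Or.inl ⟨h1, h3⟩
    · rintro (⟨h1, h2⟩ | ⟨h1, _, h2⟩)
      · exact ⟨h1, fun h => h2 (hR h)⟩
      · exact ⟨h1, h2⟩
  rw [this, card_union_of_disjoint]
  · push_cast; ring
  · rw [disjoint_left]
    intro y hy hy'
    simp only [Finset.mem_sdiff, mem_inter] at hy hy'
    exact hy.2 hy'.2.1

/-- a bounded subharmonic-type inequality on the smaller region -/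
lemma ZA_gen_ge {l : ℝ} (hl : 0 ≤ l) {R R' A : Finset V} (hA : A ⊆ R) (hR : R ⊆ R')
    {u : Finset V → ℝ} (hu : ∀ B ⊆ R', u B ≤ 1)
    (h : - (kill (exG G l R') A * (1 - u A)) ≤ gen R' (adjR G l) u A) :
    - (kill (exG G l R) A * (1 - u A)) ≤ gen R (adjR G l) u A := by
  rw [ZA_gen_split (adjR G l) u hA hR] at h
  have h2 : ∑ x ∈ A, ∑ y ∈ R' \ R, adjR G l x y * (u (insert y A) - u A) ≤
      ∑ x ∈ A, ∑ y ∈ R' \ R, adjR G l x y * (1 - u A) := by
    refine sum_le_sum fun x _ => sum_le_sum fun y hy => ?_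
    refine mul_le_mul_of_nonneg_left ?_ (ZA_adjR_nonneg G hl x y)
    have := hu (insert y A) (insert_subset (Finset.mem_sdiff.1 hy).1 (hA.trans hR))
    linarith
  have h3 : kill (exG G l R) A = kill (exG G l R') A + ∑ x ∈ A, ∑ y ∈ R' \ R, adjR G l x y := by
    unfold kill
    rw [← sum_add_distrib]
    exact sum_congr rfl fun x _ => ZA_exG_split G l hR x
  have h4 : ∑ x ∈ A, ∑ y ∈ R' \ R, adjR G l x y * (1 - u A) =
      (∑ x ∈ A, ∑ y ∈ R' \ R, adjR G l x y) * (1 - u A) := by
    rw [sum_mul]; exact sum_congr rfl fun x _ => by rw [sum_mul]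
  rw [h4] at h2
  rw [h3, add_mul]
  linarith

theorem zeta_le_theta (l : ℝ≥0) {A R : Finset V} (hA : A ⊆ R) :
    zeta G l A ≤ theta R (adjR G (l : ℝ)) (exG G (l : ℝ) R) A := by
  unfold theta
  refine le_green (ZA_adjR_nonneg G l.coe_nonneg) (ZA_exG_nonneg G l.coe_nonneg R) (zeta_empty G l).le
    (fun A hA hne => ?_) A hA
  set R' : Finset V := R ∪ R.biUnion fun x => G.neighborFinset x with hR'
  have hRR' : R ⊆ R' := subset_union_left
  have hN : ∀ x ∈ A, G.neighborFinset x ⊆ R' := fun x hx =>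
    (subset_biUnion_of_mem (fun x => G.neighborFinset x) (hA hx)).trans subset_union_right
  have h0 := zeta_harm G l (hA.trans hRR') hN
  have h1 := ZA_gen_ge G l.coe_nonneg hA hRR' (u := zeta G l) (fun B _ => zeta_le_one G l B) (by
    rw [h0]
    have h2 : 0 ≤ kill (exG G (l : ℝ) R') A := kill_nonneg (ZA_exG_nonneg G l.coe_nonneg R') A
    have h3 : 0 ≤ 1 - zeta G l A := by linarith [zeta_le_one G l A]
    have := mul_nonneg h2 h3
    exact neg_nonpos.2 this)
  unfold genK
  linarith

theorem theta_anti_region {l : ℝ} (hl : 0 ≤ l) {A R R' : Finset V} (hA : A ⊆ R) (hR : R ⊆ R') :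
    theta R' (adjR G l) (exG G l R') A ≤ theta R (adjR G l) (exG G l R) A := by
  have key : ∀ A ⊆ R, theta R' (adjR G l) (exG G l R') A ≤
      green R (adjR G l) (exG G l R) (kill (exG G l R)) A := by
    refine le_green (ZA_adjR_nonneg G hl) (ZA_exG_nonneg G hl R) (by simp)
      (fun A hA hne => ?_)
    have h0 := gen_theta (ZA_adjR_nonneg G hl) (ZA_exG_nonneg G hl R') (hA.trans hR) hne
    have h1 := ZA_gen_ge G hl hA hR (u := theta R' (adjR G l) (exG G l R'))
      (fun B _ => theta_le_one (ZA_adjR_nonneg G hl) (ZA_exG_nonneg G hl R') B) h0.ge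
    unfold genK
    linarith
  exact key A hA

omit [DecidableEq V] in
lemma ZA_eventually_subset {R : ℕ → Finset V} (hR : Monotone R) (hex : ∀ x, ∃ n, x ∈ R n)
    (A : Finset V) : ∀ᶠ n in atTop, A ⊆ R n := by
  classical
  induction A using Finset.induction_on with
  | empty => exact Eventually.of_forall fun n => empty_subset _
  | insert a s _ ih =>
    obtain ⟨N, hN⟩ := hex a
    filter_upwards [ih, eventually_ge_atTop N] with n h1 h2
    exact insert_subset (hR h2 hN) h1

theorem zeta_eq_lim (l : ℝ≥0) {R : ℕ → Finset V} (hR : Monotone R) (hex : ∀ x, ∃ n, x ∈ R n)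
    (A : Finset V) :
    Tendsto (fun n => theta (R n) (adjR G (l : ℝ)) (exG G (l : ℝ) (R n)) A) atTop
      (𝓝 (zeta G l A)) := by
  classical
  have hr := ZA_adjR_nonneg G l.coe_nonneg
  set T : ℕ → Finset V → ℝ := fun n A => theta (R n) (adjR G (l : ℝ)) (exG G (l : ℝ) (R n)) A
    with hT
  set g : ℕ → Finset V → ℝ := fun n A => if A ⊆ R n then T n A else 1 with hg
  have hT1 : ∀ n A, T n A ≤ 1 := fun n A => theta_le_one hr (ZA_exG_nonneg G l.coe_nonneg (R n)) A
  have hT0 : ∀ n A, 0 ≤ T n A := fun n A => theta_nonneg hr (ZA_exG_nonneg G l.coe_nonneg (R n)) A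
  have hg1 : ∀ n A, g n A ≤ 1 := fun n A => by
    simp only [hg]; split_ifs
    · exact hT1 n A
    · exact le_rfl
  have hg0 : ∀ n A, 0 ≤ g n A := fun n A => by
    simp only [hg]; split_ifs
    · exact hT0 n A
    · exact zero_le_one
  have hanti : ∀ A, Antitone fun n => g n A := by
    intro A m n hmn
    show g n A ≤ g m A
    by_cases hm : A ⊆ R m
    · have hn : A ⊆ R n := hm.trans (hR hmn)
      simp only [hg, if_pos hm, if_pos hn, hT]
      exact theta_anti_region G l.coe_nonneg hm (hR hmn)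
    · rw [show g m A = 1 by simp only [hg, if_neg hm]]
      exact hg1 n A
  set h : Finset V → ℝ := fun A => ⨅ n, g n A with hh
  have hbdd : ∀ A, BddBelow (Set.range fun n => g n A) := fun A =>
    ⟨0, by rintro _ ⟨n, rfl⟩; exact hg0 n A⟩
  have hlim : ∀ A, Tendsto (fun n => g n A) atTop (𝓝 (h A)) := fun A =>
    tendsto_atTop_ciInf (hanti A) (hbdd A)
  have hev : ∀ A, ∀ᶠ n in atTop, g n A = T n A := fun A => by
    filter_upwards [ZA_eventually_subset hR hex A] with n hn
    simp only [hg, if_pos hn]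
  have hlimT : ∀ A, Tendsto (fun n => T n A) atTop (𝓝 (h A)) := fun A =>
    (hlim A).congr' (hev A)
  have hle : ∀ A, zeta G l A ≤ h A := fun A => by
    refine ge_of_tendsto (hlimT A) ?_
    filter_upwards [ZA_eventually_subset hR hex A] with n hn
    exact zeta_le_theta G l hn
  have hge : ∀ A, h A ≤ zeta G l A := by
    refine zeta_max G l (fun A => ?_) ?_ (fun A hne => ?_)
    · exact le_of_tendsto' (hlim A) fun n => hg1 n A
    · have : Tendsto (fun n => T n ∅) atTop (𝓝 0) := by
        have : (fun n => T n ∅) = fun _ => (0:ℝ) := by funext n; simp [hT]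
        rw [this]; exact tendsto_const_nhds
      exact (tendsto_nhds_unique (hlimT ∅) this).le
    · set R₀ : Finset V := A ∪ A.biUnion fun x => G.neighborFinset x with hR₀
      have hA₀ : A ⊆ R₀ := subset_union_left
      have hN₀ : ∀ x ∈ A, G.neighborFinset x ⊆ R₀ := fun x hx =>
        (subset_biUnion_of_mem (fun x => G.neighborFinset x) hx).trans subset_union_right
      refine ⟨R₀, hA₀, hN₀, ?_⟩
      rw [ZA_gen_eq G l h hA₀ hN₀ hne]
      have h1 : Tendsto (fun n => (jumpRate G l A : ℝ) * (stepOp G l (T n) A - T n A)) atTop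
          (𝓝 ((jumpRate G l A : ℝ) * (stepOp G l h A - h A))) :=
        ((ZA_step_tendsto G l hlimT A).sub (hlimT A)).const_mul _
      refine ge_of_tendsto h1 ?_
      filter_upwards [ZA_eventually_subset hR hex R₀] with n hn
      rw [← ZA_gen_eq G l (T n) (hA₀.trans hn) (fun x hx => (hN₀ x hx).trans hn) hne]
      show 0 ≤ gen (R n) (adjR G (l : ℝ)) (theta (R n) (adjR G (l : ℝ)) (exG G (l : ℝ) (R n))) A
      rw [gen_theta hr (ZA_exG_nonneg G l.coe_nonneg (R n)) (hA₀.trans hn) hne]
      have hk : kill (exG G (l : ℝ) (R n)) A = 0 := by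
        unfold kill
        refine sum_eq_zero fun x hx => ?_
        unfold exG
        rw [sdiff_eq_empty_iff_subset.2 ((hN₀ x hx).trans hn)]
        simp
      rw [hk]; simp
  have heq : h A = zeta G l A := le_antisymm (hge A) (hle A)
  rw [← heq]
  exact hlimT A

omit [DecidableEq V] in
lemma ZA_exists_exhaustion [Countable V] :
    ∃ R : ℕ → Finset V, Monotone R ∧ ∀ x, ∃ n, x ∈ R n := by
  classical
  obtain ⟨f, hf⟩ := exists_injective_nat V
  refine ⟨fun n => (range n).preimage f hf.injOn, ?_, fun x => ⟨f x + 1, ?_⟩⟩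
  · intro m n hmn x hx
    simp only [mem_preimage, mem_range] at hx ⊢
    omega
  · simp only [mem_preimage, mem_range]
    omega

theorem zeta_mono_rate [Countable V] {l l' : ℝ≥0} (h : l ≤ l') (A : Finset V) :
    zeta G l A ≤ zeta G l' A := by
  obtain ⟨R, hR, hex⟩ := ZA_exists_exhaustion (V := V)
  refine le_of_tendsto_of_tendsto (zeta_eq_lim G l hR hex A) (zeta_eq_lim G l' hR hex A) ?_
  filter_upwards [ZA_eventually_subset hR hex A] with n hn
  have hll : (l : ℝ) ≤ l' := by exact_mod_cast h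
  refine theta_rate_mono (ZA_adjR_nonneg G l.coe_nonneg) (ZA_adjR_nonneg G l'.coe_nonneg)
    (ZA_exG_nonneg G l.coe_nonneg _) (ZA_exG_nonneg G l'.coe_nonneg _) subset_rfl ?_ ?_ hn
  · intro x _ y _
    unfold adjR; split_ifs
    · exact hll
    · exact le_rfl
  · intro x _
    unfold exG
    exact mul_le_mul_of_nonneg_right hll (by positivity)

theorem zeta_mono [Countable V] (l : ℝ≥0) {A B : Finset V} (h : A ⊆ B) :
    zeta G l A ≤ zeta G l B := by
  obtain ⟨R, hR, hex⟩ := ZA_exists_exhaustion (V := V)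
  refine le_of_tendsto_of_tendsto (zeta_eq_lim G l hR hex A) (zeta_eq_lim G l hR hex B) ?_
  filter_upwards [ZA_eventually_subset hR hex B] with n hn
  exact theta_monoOn (ZA_adjR_nonneg G l.coe_nonneg) (ZA_exG_nonneg G l.coe_nonneg _) A B h hn

end ZA

end Pool.Agent.CP34
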